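import Pool.Agent.Lib.MP_afcc06_nt.Defs
import Pool.Agent.Lib.MP_d4c4f0_nt.ZS.B08
import Pool.Agent.Lib.MP_d4c4f0_nt.ZS.B09
import Pool.Agent.Lib.MP_d4c4f0_nt.ZS.B14b

section

/-!
# Ode: composition with a homomorphism given by a polynomial differential equation

`OdeU a1 b1 a2 b2 lam N D h`: `t ↦ t N(t^2) / D(t^2)` is a homomorphism of multiplier `lam` from the curve `(a1, b1)` to the curve
`(a2, b2)`, written in `u = t^2`; degree at most `2h+1`.

`OdeU.comp_sol`: `T, S` the homomorphism of multiplier `mu` to `(a1, b1)`. `T'' = T N(T^2) / D(T^2)` (`N(T^2) = aeval (T^2) N`; the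
constant term of `D(T^2)` is `1`), `S'' = S W(T^2) / (lam D(T^2)^2)`, `W = N D + 2 X (N' D - N D')`. Chain rule:
`T''' = T' W(T^2) / D(T^2)^2`, `T' = mu om S`. Evaluate `ode` at `T^2`, with `S^2 = 1 + a1 T^2 + b1 T^4`. `IsSol.of_sq`.
-/

set_option autoImplicit false

namespace Pool.Agent.Lib.MP_afcc06_nt

open PowerSeries Pool.Agent.Lib.MP_d4c4f0_nt

/-- The polynomial differential equation in `u = t^2`. -/
structure OdeU {K : Type*} [Field K] (a1 b1 a2 b2 lam : K) (N D : Polynomial K) (h : ℕ) : Prop where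
  degN : N.natDegree ≤ h
  degD : D.natDegree ≤ h
  lead : N.coeff h ≠ 0
  N0 : N.coeff 0 = lam
  D0 : D.coeff 0 = 1
  lam0 : lam ≠ 0
  ode : (N * D + 2 * Polynomial.X * (Polynomial.derivative N * D - N * Polynomial.derivative D)) ^ 2 *
      (1 + Polynomial.C a1 * Polynomial.X + Polynomial.C b1 * Polynomial.X ^ 2) =
    Polynomial.C (lam ^ 2) * (D ^ 4 + Polynomial.C a2 * Polynomial.X * N ^ 2 * D ^ 2 +
      Polynomial.C b2 * Polynomial.X ^ 2 * N ^ 4)

variable {K : Type*} [Field K] [CharZero K] {om T S : K⟦X⟧} {a1 b1 a2 b2 lam mu : K}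
  {N D : Polynomial K} {h : ℕ}

omit [CharZero K] in
private theorem ode_cc {u : K⟦X⟧} (hu : constantCoeff u = 0) (P : Polynomial K) :
    constantCoeff (Polynomial.aeval u P) = P.coeff 0 := by
  rw [Polynomial.aeval_def, Polynomial.hom_eval₂, hu, Polynomial.eval₂_at_zero]
  simp [PowerSeries.algebraMap_apply]

omit [CharZero K] in
private theorem ode_dsq (T : K⟦X⟧) : d⁄dX K (T ^ 2) = 2 * T * d⁄dX K T := by
  rw [Derivation.leibniz_pow]
  simp only [smul_eq_mul, nsmul_eq_mul]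
  push_cast
  ring

omit [CharZero K] in
private theorem ode_daeval (T : K⟦X⟧) (P : Polynomial K) :
    d⁄dX K (Polynomial.aeval (T ^ 2) P) =
      2 * Polynomial.aeval (T ^ 2) (Polynomial.derivative P) * T * d⁄dX K T := by
  rw [Derivation.map_aeval, ode_dsq, smul_eq_mul]
  ring

theorem OdeU.comp_sol (ho : OdeU a1 b1 a2 b2 lam N D h) (hs : IsSol om a1 b1 mu T S) :
    ∃ T' S' : K⟦X⟧, IsSol om a2 b2 (lam * mu) T' S' ∧
      Polynomial.aeval (T ^ 2) D * T' = T * Polynomial.aeval (T ^ 2) N ∧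
      C lam * (Polynomial.aeval (T ^ 2) D) ^ 2 * S' =
        S * Polynomial.aeval (T ^ 2) (N * D + 2 * Polynomial.X *
          (Polynomial.derivative N * D - N * Polynomial.derivative D)) := by
  have hlam := ho.lam0
  set Nn : K⟦X⟧ := Polynomial.aeval (T ^ 2) N with hNn
  set Dn : K⟦X⟧ := Polynomial.aeval (T ^ 2) D with hDn
  set N1 : K⟦X⟧ := Polynomial.aeval (T ^ 2) (Polynomial.derivative N) with hN1
  set D1 : K⟦X⟧ := Polynomial.aeval (T ^ 2) (Polynomial.derivative D) with hD1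
  set W : K⟦X⟧ := Polynomial.aeval (T ^ 2) (N * D + 2 * Polynomial.X *
          (Polynomial.derivative N * D - N * Polynomial.derivative D)) with hW
  have hu0 : constantCoeff (T ^ 2) = 0 := by simp [hs.T0]
  have eW : W = Nn * Dn + 2 * T ^ 2 * (N1 * Dn - Nn * D1) := by
    rw [hW]
    simp only [map_add, map_mul, map_sub, Polynomial.aeval_X, map_ofNat, ← hNn, ← hDn, ← hN1, ← hD1]
  have hDn0 : constantCoeff Dn = 1 := by rw [hDn, ode_cc hu0, ho.D0]
  have hNn0 : constantCoeff Nn = lam := by rw [hNn, ode_cc hu0, ho.N0]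
  have hDne : constantCoeff Dn ≠ 0 := by
    rw [hDn0]
    exact one_ne_zero
  have hDn0' : Dn ≠ 0 := by
    intro h
    rw [h] at hDne
    simp at hDne
  set v : K⟦X⟧ := Dn⁻¹ with hv
  have hvD : Dn * v = 1 := PowerSeries.mul_inv_cancel Dn hDne
  have hv0 : constantCoeff v = 1 := by
    have h := congrArg constantCoeff hvD
    rw [map_mul, hDn0, one_mul] at h
    simpa using h
  have hlamC : (C lam : K⟦X⟧) * C lam⁻¹ = 1 := by
    rw [← map_mul, mul_inv_cancel₀ hlam, map_one]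
  have hW0 : constantCoeff W = lam := by
    rw [eW]
    simp [hs.T0, hNn0, hDn0]
  have e1 : Dn * (T * Nn * v) = T * Nn := by
    linear_combination (T * Nn) * hvD
  have e2 : C lam * Dn ^ 2 * (C lam⁻¹ * S * W * v ^ 2) = S * W := by
    linear_combination (C lam * C lam⁻¹ * S * W) * (Dn * v + 1) * hvD + S * W * hlamC
  refine ⟨T * Nn * v, C lam⁻¹ * S * W * v ^ 2, ?_, e1, e2⟩
  refine IsSol.of_sq ?_ ?_ ?_ ?_
  · simp [hs.T0]
  · rw [map_mul, map_mul, map_mul, map_pow, hv0, hW0, hs.S0]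
    simp [hlam]
  · -- derivative
    set T2 : K⟦X⟧ := T * Nn * v with hT2
    have d1 : Dn * d⁄dX K T2 + T2 * d⁄dX K Dn = d⁄dX K (T * Nn) := by
      have h := congrArg (d⁄dX K) e1
      rw [Derivation.leibniz, smul_eq_mul, smul_eq_mul] at h
      exact h
    have d2 : d⁄dX K (T * Nn) = T * d⁄dX K Nn + Nn * d⁄dX K T := by
      rw [Derivation.leibniz, smul_eq_mul, smul_eq_mul]
    have d3 : d⁄dX K Dn = 2 * D1 * T * d⁄dX K T := ode_daeval T D
    have d4 : d⁄dX K Nn = 2 * N1 * T * d⁄dX K T := ode_daeval T N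
    have dT := hs.dT
    have e3 : (C (lam * mu) : K⟦X⟧) = C lam * C mu := map_mul _ _ _
    have key : Dn ^ 2 * d⁄dX K T2 = Dn ^ 2 * (C (lam * mu) * om * (C lam⁻¹ * S * W * v ^ 2)) := by
      have k1 : Dn ^ 2 * d⁄dX K T2 = W * d⁄dX K T := by
        rw [eW]
        rw [d2, d3, d4] at d1
        linear_combination Dn * d1 - (2 * D1 * T * d⁄dX K T) * e1
      rw [k1, dT, e3]
      linear_combination (-(C mu * om)) * e2
    exact mul_left_cancel₀ (pow_ne_zero 2 hDn0') key
  · -- square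
    have hode := congrArg (Polynomial.aeval (T ^ 2)) ho.ode
    have hsq := hs.sq
    have h3 : W ^ 2 * (1 + C a1 * T ^ 2 + C b1 * T ^ 4) =
        C lam ^ 2 * (Dn ^ 4 + C a2 * T ^ 2 * Nn ^ 2 * Dn ^ 2 + C b2 * T ^ 4 * Nn ^ 4) := by
      have hC : ∀ c : K, Polynomial.aeval (T ^ 2) (Polynomial.C c) = (C c : K⟦X⟧) := by
        intro c
        rw [Polynomial.aeval_C]
        rfl
      rw [map_mul, map_pow, ← hW] at hode
      simp only [map_add, map_mul, map_pow, map_one, Polynomial.aeval_X, hC, ← hNn, ← hDn] at hode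
      linear_combination hode
    set T2 : K⟦X⟧ := T * Nn * v with hT2
    set S2 : K⟦X⟧ := C lam⁻¹ * S * W * v ^ 2 with hS2
    have hClam : (C lam : K⟦X⟧) ≠ 0 := by
      intro h
      rw [h, zero_mul] at hlamC
      exact zero_ne_one hlamC
    have h4 : (C lam * Dn ^ 2) ^ 2 * S2 ^ 2 =
        (C lam * Dn ^ 2) ^ 2 * (1 + C a2 * T2 ^ 2 + C b2 * T2 ^ 4) := by
      have h5 : (C lam * Dn ^ 2) ^ 2 * S2 ^ 2 = W ^ 2 * (1 + C a1 * T ^ 2 + C b1 * T ^ 4) := by
        rw [← mul_pow, e2, mul_pow, hsq]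
        ring
      rw [h5, h3]
      have h6 : Dn ^ 2 * T2 ^ 2 = (T * Nn) ^ 2 := by rw [← mul_pow, e1]
      have h7 : Dn ^ 4 * T2 ^ 4 = (T * Nn) ^ 4 := by rw [← mul_pow, e1]
      linear_combination (-(C lam ^ 2 * Dn ^ 2 * C a2)) * h6 - (C lam ^ 2 * C b2) * h7
    exact mul_left_cancel₀ (pow_ne_zero 2 (mul_ne_zero hClam (pow_ne_zero 2 hDn0'))) h4

end Pool.Agent.Lib.MP_afcc06_nt
end

section

/-!
# OdeDeg: the degree of a composition with a homomorphism given by a differential equation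

From `OdeU.comp_sol` with `T = N0/D0` (data of `OddDeg om a1 b1 mu d`): `T'' = Np/Dp` with
`Np = N0 * ∑_j N_j N0^(2j) D0^(2h-2j)` (degree exactly `(2h+1) d`, leading coefficient `N_h n^(2h+1)`; `0 < d` because
`deg D0 < d`), `Dp = D0 * ∑_j D_j N0^(2j) D0^(2h-2j)` (degree `< (2h+1) d`, nonzero: its value `Dp T'' = Np ≠ 0`). Divide both by their
gcd. `om S''`: `om S` is rational and `S''/S` is rational.
-/

set_option autoImplicit false

namespace Pool.Agent.Lib.MP_afcc06_nt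

open PowerSeries Pool.Agent.Lib.MP_d4c4f0_nt

variable {K : Type*} [Field K] [CharZero K] {om : K⟦X⟧} {a1 b1 a2 b2 lam mu : K}
  {N D : Polynomial K} {h d : ℕ}

private theorem odeDeg_coe_ne {P : Polynomial K} (h : P ≠ 0) : (P : K⟦X⟧) ≠ 0 := by
  intro h0
  exact h (Polynomial.coe_injective K (by rw [h0, Polynomial.coe_zero]))

/-- the homogenization `∑_j P_j n^(2j) e^(2(h-j))` -/
private noncomputable def hmg (n e : Polynomial K) (h : ℕ) (P : Polynomial K) : Polynomial K :=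
  ∑ j ∈ Finset.range (h + 1), Polynomial.C (P.coeff j) * n ^ (2 * j) * e ^ (2 * (h - j))

private theorem hmg_coe {T : K⟦X⟧} {n e P : Polynomial K} (hP : P.natDegree ≤ h)
    (hT : (e : K⟦X⟧) * T = (n : K⟦X⟧)) :
    ((hmg n e h P : Polynomial K) : K⟦X⟧) = (e : K⟦X⟧) ^ (2 * h) * Polynomial.aeval (T ^ 2) P := by
  rw [Polynomial.aeval_eq_sum_range' (Nat.lt_succ_of_le hP), hmg, Finset.mul_sum,
    ← Polynomial.coeToPowerSeries.ringHom_apply, map_sum]
  refine Finset.sum_congr rfl fun j hj => ?_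
  have hj' : j ≤ h := Nat.lt_succ_iff.1 (Finset.mem_range.1 hj)
  rw [Polynomial.coeToPowerSeries.ringHom_apply, Polynomial.coe_mul, Polynomial.coe_mul,
    Polynomial.coe_C, Polynomial.coe_pow, Polynomial.coe_pow, ← hT, PowerSeries.smul_eq_C_mul]
  have e1 : (e : K⟦X⟧) ^ (2 * h) = (e : K⟦X⟧) ^ (2 * j) * (e : K⟦X⟧) ^ (2 * (h - j)) := by
    rw [← pow_add]
    congr 1
    omega
  rw [e1, mul_pow, ← pow_mul]
  ring

private theorem hmg_natDegree_le {n e P : Polynomial K} (he : e.natDegree < n.natDegree) :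
    (hmg n e h P).natDegree ≤ 2 * h * n.natDegree := by
  rw [hmg]
  refine Polynomial.natDegree_sum_le_of_forall_le _ _ fun j hj => ?_
  have hj' : j ≤ h := Nat.lt_succ_iff.1 (Finset.mem_range.1 hj)
  refine Polynomial.natDegree_mul_le.trans ?_
  have h1 : (Polynomial.C (P.coeff j) * n ^ (2 * j)).natDegree ≤ 2 * j * n.natDegree :=
    (Polynomial.natDegree_C_mul_le _ _).trans Polynomial.natDegree_pow_le
  have h2 : (e ^ (2 * (h - j))).natDegree ≤ 2 * (h - j) * n.natDegree :=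
    Polynomial.natDegree_pow_le.trans (Nat.mul_le_mul_left _ he.le)
  obtain ⟨k, rfl⟩ := Nat.exists_eq_add_of_le hj'
  have e1 : 2 * (j + k) * n.natDegree = 2 * j * n.natDegree + 2 * k * n.natDegree := by ring
  rw [Nat.add_sub_cancel_left] at h2
  rw [e1]
  have e2 : j + k - j = k := by omega
  rw [e2]
  exact Nat.add_le_add h1 h2

private theorem hmg_coeff {n e P : Polynomial K} (he : e.natDegree < n.natDegree) :
    (hmg n e h P).coeff (2 * h * n.natDegree) = P.coeff h * n.leadingCoeff ^ (2 * h) := by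
  rw [hmg, Polynomial.finset_sum_coeff, Finset.sum_range_succ, Finset.sum_eq_zero, zero_add,
    Nat.sub_self, mul_zero, pow_zero, mul_one, Polynomial.coeff_C_mul,
    Polynomial.coeff_pow_mul_natDegree]
  intro j hj
  have hj' : j < h := Finset.mem_range.1 hj
  apply Polynomial.coeff_eq_zero_of_natDegree_lt
  refine lt_of_le_of_lt Polynomial.natDegree_mul_le ?_
  have h1 : (Polynomial.C (P.coeff j) * n ^ (2 * j)).natDegree ≤ 2 * j * n.natDegree :=
    (Polynomial.natDegree_C_mul_le _ _).trans Polynomial.natDegree_pow_le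
  obtain ⟨k, rfl⟩ := Nat.exists_eq_add_of_lt hj'
  have e2 : j + k + 1 - j = k + 1 := by omega
  rw [e2]
  have h2 : (e ^ (2 * (k + 1))).natDegree ≤ 2 * (k + 1) * e.natDegree := Polynomial.natDegree_pow_le
  have h3 : 2 * (k + 1) * e.natDegree < 2 * (k + 1) * n.natDegree :=
    Nat.mul_lt_mul_of_pos_left he (by omega)
  have e1 : 2 * (j + k + 1) * n.natDegree = 2 * j * n.natDegree + 2 * (k + 1) * n.natDegree := by
    ring
  rw [e1]
  exact Nat.add_lt_add_of_le_of_lt h1 (lt_of_le_of_lt h2 h3)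

private theorem isRat_pow {y : K⟦X⟧} (hy : IsRat y) (n : ℕ) : IsRat (y ^ n) := by
  induction n with
  | zero =>
    have h1 := IsRat.coe (1 : Polynomial K)
    rwa [Polynomial.coe_one] at h1
  | succ n ih =>
    rw [pow_succ]
    exact ih.mul hy

private theorem isRat_aeval {y : K⟦X⟧} (hy : IsRat y) (P : Polynomial K) :
    IsRat (Polynomial.aeval y P) := by
  induction P using Polynomial.induction_on' with
  | add p q hp hq =>
    rw [map_add]
    exact hp.add hq
  | monomial n a =>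
    rw [Polynomial.aeval_monomial]
    refine IsRat.mul ?_ (isRat_pow hy n)
    have h1 := IsRat.coe (Polynomial.C a)
    rwa [Polynomial.coe_C] at h1

private theorem cc_aeval (y : K⟦X⟧) (P : Polynomial K) :
    constantCoeff (Polynomial.aeval y P) = P.eval (constantCoeff y) := by
  induction P using Polynomial.induction_on' with
  | add p q hp hq => rw [map_add, map_add, hp, hq, Polynomial.eval_add]
  | monomial n a =>
    rw [Polynomial.aeval_monomial, map_mul, map_pow, Polynomial.eval_monomial]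
    congr 1

theorem OdeU.exists_oddDeg (ho : OdeU a1 b1 a2 b2 lam N D h) (hd : OddDeg om a1 b1 mu d) :
    ∃ d' : ℕ, d' ≤ (2 * h + 1) * d ∧ OddDeg om a2 b2 (lam * mu) d' := by
  obtain ⟨T, S, n, e, hs, hrS, hcop, hT, hn, he⟩ := hd
  obtain ⟨T', S', hs', eT, eS⟩ := ho.comp_sol hs
  rw [← hn] at he
  have hcN := hmg_coeff (h := h) (P := N) he
  have hdN := hmg_natDegree_le (h := h) (P := N) he
  have hdD := hmg_natDegree_le (h := h) (P := D) he
  have hn0 : n ≠ 0 := by
    rintro rfl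
    rw [Polynomial.natDegree_zero] at he
    omega
  have he0 : e ≠ 0 := by
    rintro rfl
    rw [Polynomial.coe_zero, zero_mul] at hT
    exact odeDeg_coe_ne hn0 hT.symm
  have hcN0 : (hmg n e h N).coeff (2 * h * n.natDegree) ≠ 0 := by
    rw [hcN]
    exact mul_ne_zero ho.lead (pow_ne_zero _ (Polynomial.leadingCoeff_ne_zero.2 hn0))
  have hN0 : hmg n e h N ≠ 0 := by
    intro h0
    rw [h0, Polynomial.coeff_zero] at hcN0
    exact hcN0 rfl
  have hdN' : (hmg n e h N).natDegree = 2 * h * n.natDegree :=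
    Polynomial.natDegree_eq_of_le_of_coeff_ne_zero hdN hcN0
  have hNp : (n * hmg n e h N).natDegree = (2 * h + 1) * n.natDegree := by
    rw [Polynomial.natDegree_mul hn0 hN0, hdN']
    ring
  have hkey : ((e * hmg n e h D : Polynomial K) : K⟦X⟧) * T' =
      ((n * hmg n e h N : Polynomial K) : K⟦X⟧) := by
    rw [Polynomial.coe_mul, Polynomial.coe_mul, hmg_coe ho.degN hT, hmg_coe ho.degD hT, ← hT]
    linear_combination (e : K⟦X⟧) * (e : K⟦X⟧) ^ (2 * h) * eT
  have hNp0 : n * hmg n e h N ≠ 0 := mul_ne_zero hn0 hN0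
  have hDp0 : e * hmg n e h D ≠ 0 := by
    intro h0
    rw [h0, Polynomial.coe_zero, zero_mul] at hkey
    exact odeDeg_coe_ne hNp0 hkey.symm
  have hDp : (e * hmg n e h D).natDegree < (2 * h + 1) * n.natDegree := by
    have e1 : (2 * h + 1) * n.natDegree = n.natDegree + 2 * h * n.natDegree := by ring
    rw [e1]
    exact lt_of_le_of_lt Polynomial.natDegree_mul_le (Nat.add_lt_add_of_lt_of_le he hdD)
  have rT' : IsRat T' := ⟨_, _, hDp0, hkey⟩
  obtain ⟨N', D', hc', hD'0, hT'⟩ := rT'.exists_rep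
  have hpoly : D' * (n * hmg n e h N) = N' * (e * hmg n e h D) := Polynomial.coe_injective K (by
    rw [Polynomial.coe_mul, Polynomial.coe_mul N', ← hkey, ← hT']
    ring)
  have hN'0 : N' ≠ 0 := by
    rintro rfl
    rw [zero_mul] at hpoly
    exact mul_ne_zero hD'0 hNp0 hpoly
  have hdeg := congrArg Polynomial.natDegree hpoly
  rw [Polynomial.natDegree_mul hD'0 hNp0, Polynomial.natDegree_mul hN'0 hDp0, hNp] at hdeg
  have hdvd : N' ∣ n * hmg n e h N := by
    have h1 : N' ∣ D' * (n * hmg n e h N) := ⟨_, hpoly⟩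
    exact hc'.dvd_of_dvd_mul_left h1
  have hle := Polynomial.natDegree_le_of_dvd hdvd hNp0
  rw [hNp, hn] at hle
  refine ⟨N'.natDegree, hle, T', S', N', D', hs', ?_, hc', hT', rfl, by omega⟩
  -- rationality of `om * S'`
  have rT : IsRat T := ⟨e, n, he0, hT⟩
  have hcc : constantCoeff (Polynomial.aeval (T ^ 2) D) = 1 := by
    rw [cc_aeval, map_pow, hs.T0, zero_pow two_ne_zero, ← Polynomial.coeff_zero_eq_eval_zero, ho.D0]
  have hA : IsRat (C lam * Polynomial.aeval (T ^ 2) D ^ 2) := by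
    refine IsRat.mul ?_ (isRat_pow (isRat_aeval (isRat_pow rT 2) D) 2)
    have h1 := IsRat.coe (Polynomial.C lam)
    rwa [Polynomial.coe_C] at h1
  have hA0 : C lam * Polynomial.aeval (T ^ 2) D ^ 2 ≠ 0 := by
    intro h0
    have h1 := congrArg constantCoeff h0
    rw [map_mul, map_pow, hcc, one_pow, mul_one, PowerSeries.constantCoeff_C, map_zero] at h1
    exact ho.lam0 h1
  refine hA.of_mul hA0 ?_
  have e2 : C lam * Polynomial.aeval (T ^ 2) D ^ 2 * (om * S') =
      (om * S) * Polynomial.aeval (T ^ 2) (N * D + 2 * Polynomial.X *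
          (Polynomial.derivative N * D - N * Polynomial.derivative D)) := by
    linear_combination om * eS
  rw [e2]
  exact hrS.mul (isRat_aeval (isRat_pow rT 2) _)

end Pool.Agent.Lib.MP_afcc06_nt
end

section

/-!
# OdePair: the exact degree from a pair of homomorphisms, and integrality

`oddDeg_of_pair`: from `exists_oddDeg` and `oddDeg_one`: `OddDeg om a2 b2 lam d` with `d ≤ 2h+1`. Again `exists_oddDeg` with the second
homomorphism: `OddDeg om a1 b1 (lam' * lam) d'` with `d' ≤ (2h+1) d`. `lam' * lam = ± (2h+1)`; `ladder` with `P = P' = 1`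
(`oddDeg_one`, `OddDeg.double`), `m = 2h+1`, `n = 0`: `OddDeg om a1 b1 (2h+1) ((2h+1)^2)`, so `d' = (2h+1)^2` (`OddDeg.unique`,
`OddDeg.neg`), hence `d = 2h+1`.
`OdeU.intSol`: `comp_sol` with `IsSol.one` (`T = X`): `D(X^2) T' = X N(X^2)`, all coefficients integral, constant term of
`D(X^2)` is `1`: `Intg.of_mul`, `IntSol.of_T`.
-/

set_option autoImplicit false

namespace Pool.Agent.Lib.MP_afcc06_nt

open PowerSeries Pool.Agent.Lib.MP_d4c4f0_nt

theorem oddDeg_of_pair {K : Type*} [Field K] [CharZero K] {om : K⟦X⟧} {a1 b1 a2 b2 lam lam' : K}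
    {N D N' D' : Polynomial K} {h : ℕ} (hom : Om a1 b1 om) (hb : b1 ≠ 0)
    (hab : a1 ^ 2 - 4 * b1 ≠ 0) (ho : OdeU a1 b1 a2 b2 lam N D h)
    (ho' : OdeU a2 b2 a1 b1 lam' N' D' h) (hp : (lam' * lam) ^ 2 = ((2 * h + 1 : ℕ) : K) ^ 2) :
    OddDeg om a2 b2 lam (2 * h + 1) := by
  obtain ⟨d, hd1, hd⟩ := ho.exists_oddDeg (oddDeg_one hom)
  obtain ⟨d', hd1', hd'⟩ := ho'.exists_oddDeg hd
  have h11 : EvenDeg om a1 b1 ((1 : K) + 1) 4 := by
    have h1 := (oddDeg_one hom).double hb hab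
    rwa [show (2 : K) * 1 = 1 + 1 by norm_num] at h1
  obtain ⟨k, hk, hk'⟩ := ladder hom hb hab (oddDeg_one hom) (oddDeg_one hom) h11
    (m := ((2 * h + 1 : ℕ) : ℤ)) (n := 0) (by
      rw [add_zero]
      exact_mod_cast odd_two_mul_add_one h)
  have hk2 : k = (2 * h + 1) ^ 2 := by
    have h2 : (k : ℤ) = (((2 * h + 1) ^ 2 : ℕ) : ℤ) := by
      rw [hk']
      push_cast
      ring
    exact_mod_cast h2
  have hk3 : OddDeg om a1 b1 ((2 * h + 1 : ℕ) : K) ((2 * h + 1) ^ 2) := by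
    rw [hk2] at hk
    have e1 : (((2 * h + 1 : ℕ) : ℤ) : K) * 1 + ((0 : ℤ) : K) * 1 = ((2 * h + 1 : ℕ) : K) := by
      push_cast
      ring
    rwa [e1] at hk
  have hd2 : OddDeg om a1 b1 (lam' * lam) d' := by
    rwa [mul_one] at hd'
  have hdd : d' = (2 * h + 1) ^ 2 := by
    rcases sq_eq_sq_iff_eq_or_eq_neg.1 hp with h3 | h3
    · rw [h3] at hd2
      exact hd2.unique hk3
    · rw [h3] at hd2
      exact hd2.unique hk3.neg
  have hd3 : 2 * h + 1 ≤ d := by
    rw [hdd, pow_two] at hd1'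
    exact Nat.le_of_mul_le_mul_left hd1' (by omega)
  have hd4 : d = 2 * h + 1 := by omega
  rw [hd4, mul_one] at hd
  exact hd

private theorem intg_aeval {K : Type*} [NormedField K] [IsUltrametricDist K] {y : K⟦X⟧}
    (hy : Intg y) {P : Polynomial K} (hP : ∀ j, ‖P.coeff j‖ ≤ 1) : Intg (Polynomial.aeval y P) := by
  rw [Polynomial.aeval_eq_sum_range]
  refine Finset.sum_induction _ Intg (fun _ _ => Intg.add) (fun n => by simp) fun j _ => ?_
  rw [PowerSeries.smul_eq_C_mul]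
  exact (Intg.const (hP j)).mul (hy.pow j)

private theorem odePair_cc {K : Type*} [Field K] (y : K⟦X⟧) (P : Polynomial K) :
    constantCoeff (Polynomial.aeval y P) = P.eval (constantCoeff y) := by
  induction P using Polynomial.induction_on' with
  | add p q hp hq => rw [map_add, map_add, hp, hq, Polynomial.eval_add]
  | monomial n a =>
    rw [Polynomial.aeval_monomial, map_mul, map_pow, Polynomial.eval_monomial]
    congr 1

theorem OdeU.intSol {K : Type*} [NormedField K] [IsUltrametricDist K] [CharZero K] {om : K⟦X⟧}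
    {a1 b1 a2 b2 lam : K} {N D : Polynomial K} {h : ℕ} (hom : Om a1 b1 om)
    (ho : OdeU a1 b1 a2 b2 lam N D h) (h2 : ‖(2 : K)‖ = 1) (ha : ‖a2‖ ≤ 1) (hb : ‖b2‖ ≤ 1)
    (hN : ∀ j, ‖N.coeff j‖ ≤ 1) (hD : ∀ j, ‖D.coeff j‖ ≤ 1) : IntSol om a2 b2 lam := by
  obtain ⟨T', S', hs', eT, -⟩ := ho.comp_sol (IsSol.one hom)
  rw [mul_one] at hs'
  have hX2 : Intg ((X : K⟦X⟧) ^ 2) := Intg.X.pow 2
  refine IntSol.of_T h2 ha hb hs' (Intg.of_mul (u := Polynomial.aeval ((X : K⟦X⟧) ^ 2) D)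
    (intg_aeval hX2 hD) ?_ ?_)
  · rw [odePair_cc, map_pow, PowerSeries.constantCoeff_X, zero_pow two_ne_zero,
      ← Polynomial.coeff_zero_eq_eval_zero, ho.D0]
  · rw [eT]
    exact Intg.X.mul (intg_aeval hX2 hN)

end Pool.Agent.Lib.MP_afcc06_nt
end
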