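import Pool.Agent.Lib.MP_afcc06_nt.Defs

/-!
# OrbFacts: the symmetries of the four points

All are simple polynomial identities: `(1-8x)(1-8x3) = 9` from `h13`, `x (1-8x2) = 1+x` from `h12`. In a field of
characteristic `0`: `x, 1-8x, 1+x` are nonzero, and `(-2 ea x)^2 - 4(1-8x) = 4 * 16 eb x... = 256 x^3 (1+x) ≠ 0`.
`Quart.s2`, `Quart.s3` (field of characteristic `0`): with `x2 = -1/(8x)`: `1+8x2^2 = (1+8x^2)/(8x^2)`,
`x2 (1 - 7 x2 - 8 x2^2) = x (1-7x-8x^2)/(64 x^4)`; with `x3 = -(1+x)/(1-8x)`: `1+8x3^2 = 9(1+8x^2)/(1-8x)^2`,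
`x3 (1+x3) (1-8x3) = 81 x (1+x) (1-8x)/(1-8x)^4`.
-/

set_option autoImplicit false

namespace Pool.Agent.Lib.MP_afcc06_nt

open Pool.Agent.Lib.MP_d4c4f0_nt

section Ring

variable {S : Type*} [CommRing S] {x x2 x3 x6 : S}

theorem Orb.s2 (h : Orb x x2 x3 x6) : Orb x2 x x6 x3 := by
  exact ⟨by linear_combination h.h12, by linear_combination h.h36, h.h26, h.h62, h.h13, h.h31⟩

theorem Orb.s3 (h : Orb x x2 x3 x6) : Orb x3 x6 x x2 := by
  exact ⟨h.h36, h.h12, h.h31, h.h13, h.h62, h.h26⟩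

theorem Orb.s6 (h : Orb x x2 x3 x6) : Orb x6 x3 x2 x := by
  exact h.s3.s2

theorem Orb.b13 (h : Orb x x2 x3 x6) : (1 - 8 * x) * (1 - 8 * x3) = 9 := by
  linear_combination -8 * h.h13

theorem Orb.xb2 (h : Orb x x2 x3 x6) : x * (1 - 8 * x2) = 1 + x := by
  linear_combination -h.h12

theorem Orb.e16 (h : Orb x x2 x3 x6) : 8 * ((1 + x) * (1 + x6)) = 9 := by
  linear_combination 8 * (1 + x6) * h.h13 - (1 - 8 * x) * h.h36 - 8 * h.h13

theorem Orb.map {S' : Type*} [CommRing S'] (f : S →+* S') (h : Orb x x2 x3 x6) :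
    Orb (f x) (f x2) (f x3) (f x6) := by
  refine ⟨?_, ?_, ?_, ?_, ?_, ?_⟩
  · simpa [map_ofNat] using congrArg f h.h12
  · simpa [map_ofNat] using congrArg f h.h36
  · simpa [map_ofNat] using congrArg f h.h13
  · simpa [map_ofNat] using congrArg f h.h31
  · simpa [map_ofNat] using congrArg f h.h26
  · simpa [map_ofNat] using congrArg f h.h62

theorem Orb.of_injective {S' : Type*} [CommRing S'] (f : S →+* S') (hf : Function.Injective f)
    (h : Orb (f x) (f x2) (f x3) (f x6)) : Orb x x2 x3 x6 := by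
  refine ⟨?_, ?_, ?_, ?_, ?_, ?_⟩
  · exact hf (by simpa [map_ofNat] using h.h12)
  · exact hf (by simpa [map_ofNat] using h.h36)
  · exact hf (by simpa [map_ofNat] using h.h13)
  · exact hf (by simpa [map_ofNat] using h.h31)
  · exact hf (by simpa [map_ofNat] using h.h26)
  · exact hf (by simpa [map_ofNat] using h.h62)

theorem Quart.map {S' : Type*} [CommRing S'] (f : S →+* S') {m : S} (h : Quart m x) :
    Quart (f m) (f x) := by
  unfold Quart at h ⊢
  simpa [map_ofNat] using congrArg f h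

end Ring

section Field

variable {K : Type*} [Field K] [CharZero K] {x x2 x3 x6 : K}

theorem Orb.x_ne (h : Orb x x2 x3 x6) : x ≠ 0 := by
  intro hx
  have := h.h12
  rw [hx] at this
  norm_num at this

theorem Orb.b_ne (h : Orb x x2 x3 x6) : 1 - 8 * x ≠ 0 := by
  intro hx
  have := h.b13
  rw [hx] at this
  norm_num at this

theorem Orb.e_ne (h : Orb x x2 x3 x6) : 1 + x ≠ 0 := by
  intro hx
  have := h.e16
  rw [hx] at this
  norm_num at this

theorem Orb.disc_ne (h : Orb x x2 x3 x6) : (-2 * ea x) ^ 2 - 4 * (1 - 8 * x) ≠ 0 := by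
  have h1 : (-2 * ea x) ^ 2 - 4 * (1 - 8 * x) = 256 * (x ^ 3 * (1 + x)) := by
    unfold ea
    ring
  rw [h1]
  exact mul_ne_zero (by norm_num) (mul_ne_zero (pow_ne_zero _ h.x_ne) h.e_ne)

theorem Quart.s2 {m : K} (ho : Orb x x2 x3 x6) (h : Quart m x) : Quart m x2 := by
  have hx := ho.x_ne
  have h2 : x2 = -1 / (8 * x) := by
    field_simp
    linear_combination ho.h12
  unfold Quart at h ⊢
  rw [h2]
  field_simp
  linear_combination h

theorem Quart.s3 {m : K} (ho : Orb x x2 x3 x6) (h : Quart m x) : Quart m x3 := by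
  have hb := ho.b_ne
  have q1 : (1 - 8 * x) * x3 = -(1 + x) := ho.h13
  have q2 : (1 - 8 * x) * (1 + x3) = -9 * x := by linear_combination ho.h13
  have q3 : (1 - 8 * x) * (1 - 8 * x3) = 9 := ho.b13
  unfold Quart at h ⊢
  have e1 : (1 - 8 * x) ^ 4 * (m * (x3 * (1 - 7 * x3 - 8 * x3 ^ 2))) =
      81 * (m * (x * (1 - 7 * x - 8 * x ^ 2))) := by
    have : (1 - 8 * x) ^ 4 * (m * (x3 * (1 - 7 * x3 - 8 * x3 ^ 2))) =
        m * (1 - 8 * x) * ((1 - 8 * x) * x3) * ((1 - 8 * x) * (1 + x3)) *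
          ((1 - 8 * x) * (1 - 8 * x3)) := by ring
    rw [this, q1, q2, q3]
    ring
  have e2 : (1 - 8 * x) ^ 4 * (1 + 8 * x3 ^ 2) ^ 2 = 81 * (1 + 8 * x ^ 2) ^ 2 := by
    have : (1 - 8 * x) ^ 4 * (1 + 8 * x3 ^ 2) ^ 2 =
        ((1 - 8 * x) ^ 2 + 8 * ((1 - 8 * x) * x3) ^ 2) ^ 2 := by ring
    rw [this, q1]
    ring
  refine mul_left_cancel₀ (pow_ne_zero 4 hb) ?_
  rw [e1, e2, h]

theorem Quart.s6 {m : K} (ho : Orb x x2 x3 x6) (h : Quart m x) : Quart m x6 := by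
  exact (h.s2 ho).s3 ho.s2

end Field

end Pool.Agent.Lib.MP_afcc06_nt
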