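import Pool.Agent.Lib.MP_afcc06_nt.Z8Sound
import Pool.Agent.Lib.MP_afcc06_nt.OrbFacts
import Pool.Agent.Lib.MP_afcc06_nt.OdePair

/-!
# Cert: from the checked certificates to the points and to the homomorphisms of degree `q = 2h+1`

`X` is `4x`. `fl σ τ` is the conjugation `r ↦ ±r`, `t ↦ ±t`. `Ok c` collects the finite checks.
-/

set_option autoImplicit false

namespace Pool.Agent.Lib.MP_afcc06_nt

open Pool.Agent.Lib.MP_d4c4f0_nt

/-- Conjugation: change the signs of `r3` (if `σ`) and of `rb` (if `τ`). -/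
def Z8.fl (σ τ : Bool) : Z8 → Z8
  | ⟨x0, x1, x2, x3, x4, x5, x6, x7⟩ =>
    ⟨x0, x1, if σ then -x2 else x2, if σ then -x3 else x3, if τ then -x4 else x4,
      if τ then -x5 else x5, if xor σ τ then -x6 else x6, if xor σ τ then -x7 else x7⟩

/-- Equality test. -/
def Z8.eqb (x y : Z8) : Bool := (x.add (y.smul (-1))).isZ

/-- `4 * (-2 ea x) / 4` as an element of `ℤ[r3, rb]`: `-2 + 2X + X^2`, `X = 4x`. -/
def Z8.av (b : ℤ) (X : Z8) : Z8 := (Z8.mk (-2) 0 0 0 0 0 0 0).add ((X.smul 2).add (X.mul b X))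

/-- `1 - 8x`. -/
def Z8.bv (X : Z8) : Z8 := (Z8.mk 1 0 0 0 0 0 0 0).add (X.smul (-2))

/-- The data of a certificate. -/
structure CertD where
  /-- the prime -/
  b : ℕ
  /-- `q = 2h+1` -/
  h : ℕ
  /-- the value -/
  m : ℤ
  /-- `4x` -/
  X : Z8
  /-- conjugation of the involution `w2`: sign of `r3` -/
  s2 : Bool
  /-- sign of `rb` -/
  t2 : Bool
  /-- conjugation of the involution `w3`: sign of `r3` -/
  s3 : Bool
  /-- sign of `rb` -/
  t3 : Bool
  /-- twice the numerator -/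
  N : List Z8
  /-- twice the denominator -/
  D : List Z8
  /-- cofactor of the leading coefficient of `N` -/
  I : Z8

/-- `X` has no component at `i`. -/
def Z8.real : Z8 → Bool
  | ⟨_, x1, _, x3, _, x5, _, x7⟩ => (x1 == 0) && (x3 == 0) && (x5 == 0) && (x7 == 0)

/-- The integer `x` is nonzero and all other components vanish. -/
def Z8.nzInt : Z8 → Bool
  | ⟨x0, x1, x2, x3, x4, x5, x6, x7⟩ =>
    !(x0 == 0) && (x1 == 0) && (x2 == 0) && (x3 == 0) && (x4 == 0) && (x5 == 0) && (x6 == 0) &&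
      (x7 == 0)

/-- The conditions on the points: `8 x x2 = -1`, `(1-8x) x3 = -(1+x)`, `m x (1-7x-8x^2) = (1+8x^2)^2`. -/
def CertD.okX (c : CertD) : Bool :=
  c.X.real &&
  Z8.eqb (c.X.mul c.b (c.X.fl c.s2 c.t2)) ⟨-2, 0, 0, 0, 0, 0, 0, 0⟩ &&
  Z8.eqb (c.X.bv.mul c.b (c.X.fl c.s3 c.t3)) ((Z8.mk (-4) 0 0 0 0 0 0 0).add (c.X.smul (-1))) &&
  Z8.eqb (((c.X.mul c.b ((Z8.mk 4 0 0 0 0 0 0 0).add ((c.X.smul (-7)).add
      ((c.X.mul c.b c.X).smul (-2)))))).smul c.m)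
    ((((Z8.mk 2 0 0 0 0 0 0 0).add (c.X.mul c.b c.X)).mul c.b
      ((Z8.mk 2 0 0 0 0 0 0 0).add (c.X.mul c.b c.X))).smul 4)

/-- The conditions on the multiplier, the lengths and the leading coefficient. -/
def CertD.okL (c : CertD) : Bool :=
  (c.N.length == c.h + 1) && (c.D.length == c.h + 1) && (c.b + 3 == 2 * (2 * c.h + 1)) &&
  Z8.eqb (c.D.headD Z8.zero) ⟨2, 0, 0, 0, 0, 0, 0, 0⟩ &&
  Z8.eqb ((c.N.headD Z8.zero).smul 9) (((Z8.mk 4 0 0 0 0 0 0 0).add c.X).mul c.b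
    ((Z8.mk 0 0 0 1 0 0 0 0).mul c.b ⟨3, 0, 0, 0, 0, 0, 0, 1⟩)) &&
  ((c.N.getLastD Z8.zero).mul c.b c.I).nzInt

/-- The differential equation. -/
def CertD.okC (c : CertD) : Bool :=
  let X6 := c.X.fl (xor c.s2 c.s3) (xor c.t2 c.t3)
  chk c.b c.N c.D (c.N.headD Z8.zero) (c.X.av c.b) c.X.bv (X6.av c.b) X6.bv

/-- All conditions. -/
structure CertD.Ok (c : CertD) : Prop where
  okX : c.okX = true
  okL : c.okL = true
  okC : c.okC = true

/-- The point, in a ring with `4 q4 = 1`. -/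
def CertD.x {S : Type*} [CommRing S] (c : CertD) (q4 r t : S) : S := q4 * ev 0 r t c.X

/-- The sign. -/
def sg1 {S : Type*} [CommRing S] (σ : Bool) (r : S) : S := if σ then -r else r

end Pool.Agent.Lib.MP_afcc06_nt
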