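import Pool.Agent.Lib.MP_d4c4f0_nt.ZS.B10
import Pool.Agent.Lib.MP_d4c4f0_nt.ZS.B08
import Pool.Agent.Lib.MP_d4c4f0_nt.ZS.B14b
import Pool.Agent.Lib.MP_afcc06_nt.OrbFacts
import Pool.Agent.Lib.MP_d4c4f0_nt.ZS.B11b
import Pool.Agent.Lib.MP_d4c4f0_nt.ZS.B09
import Pool.Agent.Lib.MP_d4c4f0_nt.ZS.A06
import Pool.Agent.Lib.MP_d4c4f0_nt.ZS.D00
import Pool.Agent.Lib.MP_afcc06_nt.Cert

section

section

/-!
# Comp3: composition of a homomorphism of odd degree with a 3-isogeny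

`T, S` the homomorphism of multiplier `mu` to the curve `(a, b)`, `T = N/D`; `Iso3 a b a' b' nu c e`. Composition:
`T'' = T (nu + c T^2) / (1 + e T^2)`, `S'' = S W(T^2) / (nu (1 + e T^2)^2)`, `W(u) = nu + (3c - nu e) u + c e u^2`. `Iso3` evaluated at
`u = T^2` (`Polynomial.aeval`) gives `S''^2 = 1 + a' T''^2 + b' T''^4` (`S^2 = 1 + a T^2 + b T^4` by `IsSol.sq`), and
`T''' = T' W(T^2)/(1+eT^2)^2 = (nu mu) om S''`. `IsSol.of_sq`.
Representation: `N'' = N (nu D^2 + c N^2)` of degree `3d`, `D'' = D (D^2 + e N^2)` of degree `< 3d`; coprime because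
`(nu D^2 + c N^2) - nu (D^2 + e N^2) = (c - nu e) N^2`. `om S''` is rational. Template: B10.lean.
-/

set_option autoImplicit false

namespace Pool.Agent.Lib.MP_afcc06_nt

open PowerSeries Pool.Agent.Lib.MP_d4c4f0_nt

variable {K : Type*} [Field K] [CharZero K] {om T S : K⟦X⟧} {a b a' b' mu nu c e : K} {d : ℕ}

omit [CharZero K] in
private lemma comp3_eval (hi : Iso3 a b a' b' nu c e) (T : K⟦X⟧) :
    (C nu + C (3 * c - nu * e) * T ^ 2 + C (c * e) * T ^ 4) ^ 2 * (1 + C a * T ^ 2 + C b * T ^ 4) =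
      C nu ^ 2 * ((1 + C e * T ^ 2) ^ 4 + C a' * T ^ 2 * (C nu + C c * T ^ 2) ^ 2 *
        (1 + C e * T ^ 2) ^ 2 + C b' * T ^ 4 * (C nu + C c * T ^ 2) ^ 4) := by
  have h := congrArg (Polynomial.aeval (T ^ 2)) hi
  simp only [map_mul, map_add, map_pow, map_sub, Polynomial.aeval_C, Polynomial.aeval_X, map_one,
    PowerSeries.algebraMap_apply, Algebra.algebraMap_self, RingHom.id_apply, map_ofNat] at h
  simp only [map_mul, map_sub, map_ofNat]
  linear_combination h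

theorem comp3_sol (h : IsSol om a b mu T S) (hi : Iso3 a b a' b' nu c e) (hnu : nu ≠ 0) :
    ∃ T' S' : K⟦X⟧, IsSol om a' b' (nu * mu) T' S' ∧
      (1 + C e * T ^ 2) * T' = T * (C nu + C c * T ^ 2) ∧
      C nu * (1 + C e * T ^ 2) ^ 2 * S' =
        S * (C nu + C (3 * c - nu * e) * T ^ 2 + C (c * e) * T ^ 4) := by
  have hE : constantCoeff (1 + C e * T ^ 2 : K⟦X⟧) = 1 := by simp [h.T0]
  have hE0 : (1 + C e * T ^ 2 : K⟦X⟧) ≠ 0 := by
    intro h0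
    rw [h0, map_zero] at hE
    exact zero_ne_one hE
  have hinv : (1 + C e * T ^ 2 : K⟦X⟧) * (1 + C e * T ^ 2 : K⟦X⟧)⁻¹ = 1 :=
    PowerSeries.mul_inv_cancel _ (by rw [hE]; exact one_ne_zero)
  have hCnu : (C nu : K⟦X⟧) * C nu⁻¹ = 1 := by
    rw [← map_mul, mul_inv_cancel₀ hnu, map_one]
  have hCnu0 : (C nu : K⟦X⟧) ≠ 0 := by
    intro h0
    rw [h0, zero_mul] at hCnu
    exact zero_ne_one hCnu
  have hinvc : constantCoeff ((1 + C e * T ^ 2 : K⟦X⟧)⁻¹) = 1 := by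
    rw [PowerSeries.constantCoeff_inv, hE, inv_one]
  set E : K⟦X⟧ := 1 + C e * T ^ 2 with hEdef
  set i : K⟦X⟧ := E⁻¹ with hidef
  set W : K⟦X⟧ := C nu + C (3 * c - nu * e) * T ^ 2 + C (c * e) * T ^ 4 with hWdef
  have e1 : E * (T * (C nu + C c * T ^ 2) * i) = T * (C nu + C c * T ^ 2) := by
    linear_combination (T * (C nu + C c * T ^ 2)) * hinv
  have e2 : C nu * E ^ 2 * (C nu⁻¹ * S * W * i ^ 2) = S * W := by
    linear_combination (S * W) * hCnu * (E * i) ^ 2 + (S * W) * (E * i + 1) * hinv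
  refine ⟨T * (C nu + C c * T ^ 2) * i, C nu⁻¹ * S * W * i ^ 2, ?_, e1, e2⟩
  refine IsSol.of_sq ?_ ?_ ?_ ?_
  · simp [h.T0]
  · have hW : constantCoeff W = nu := by simp [hWdef, h.T0]
    simp [hW, h.S0, hinvc, hnu]
  · have hd := congrArg (d⁄dX K) e1
    have hdE : d⁄dX K E = 2 * C e * T * d⁄dX K T := by
      rw [hEdef, map_add, Derivation.map_one_eq_zero, Derivation.leibniz, derivative_C,
        Derivation.leibniz_pow]
      simp only [smul_eq_mul, nsmul_eq_mul]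
      push_cast
      ring
    have hdN : d⁄dX K (T * (C nu + C c * T ^ 2)) = (C nu + 3 * C c * T ^ 2) * d⁄dX K T := by
      rw [Derivation.leibniz, map_add, Derivation.leibniz, derivative_C, derivative_C,
        Derivation.leibniz_pow]
      simp only [smul_eq_mul, nsmul_eq_mul]
      push_cast
      ring
    rw [Derivation.leibniz, hdE, hdN] at hd
    simp only [smul_eq_mul] at hd
    have hW3 : W = C nu + (3 * C c - C nu * C e) * T ^ 2 + C c * C e * T ^ 4 := by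
      rw [hWdef]
      simp only [map_mul, map_sub, map_ofNat]
    have key : E ^ 2 * d⁄dX K (T * (C nu + C c * T ^ 2) * i) =
        E ^ 2 * (C (nu * mu) * om * (C nu⁻¹ * S * W * i ^ 2)) := by
      have k1 : E ^ 2 * d⁄dX K (T * (C nu + C c * T ^ 2) * i) = W * d⁄dX K T := by
        rw [hW3]
        linear_combination E * hd - (2 * C e * T * d⁄dX K T) * e1
      rw [k1, h.dT, map_mul]
      linear_combination (-(C mu * om)) * e2
    exact mul_left_cancel₀ (pow_ne_zero 2 hE0) key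
  · have hsq := h.sq
    have hev := comp3_eval hi T
    rw [← hEdef, ← hWdef, ← hsq] at hev
    have hne : (C nu : K⟦X⟧) ^ 2 * E ^ 4 ≠ 0 :=
      mul_ne_zero (pow_ne_zero 2 hCnu0) (pow_ne_zero 4 hE0)
    refine mul_left_cancel₀ hne ?_
    have l1 : C nu ^ 2 * E ^ 4 * (C nu⁻¹ * S * W * i ^ 2) ^ 2 = (S * W) ^ 2 := by
      rw [← e2]; ring
    have l2 : C nu ^ 2 * E ^ 4 * (1 + C a' * (T * (C nu + C c * T ^ 2) * i) ^ 2 +
        C b' * (T * (C nu + C c * T ^ 2) * i) ^ 4) =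
        C nu ^ 2 * (E ^ 4 + C a' * (E * (T * (C nu + C c * T ^ 2) * i)) ^ 2 * E ^ 2 +
          C b' * (E * (T * (C nu + C c * T ^ 2) * i)) ^ 4) := by
      ring
    rw [l1, l2, e1]
    linear_combination hev

theorem OddDeg.comp3 (h : OddDeg om a b mu d) (hi : Iso3 a b a' b' nu c e) (hnu : nu ≠ 0)
    (hc : c ≠ 0) (hce : c - nu * e ≠ 0) : OddDeg om a' b' (nu * mu) (3 * d) := by
  obtain ⟨T, S, N, D, hs, hr, hcop, eq, hN, hD⟩ := h
  have hd : 0 < d := by omega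
  have hN0 : N ≠ 0 := by
    rintro rfl
    simp at hN
    omega
  have hD0 : D ≠ 0 := by
    rintro rfl
    rw [Polynomial.coe_zero, zero_mul] at eq
    exact hN0 (Polynomial.coe_eq_zero_iff.1 eq.symm)
  obtain ⟨T', S', hs', eT, eS⟩ := comp3_sol hs hi hnu
  have rT : IsRat T := ⟨D, N, hD0, eq⟩
  have rC : ∀ x : K, IsRat (C x : K⟦X⟧) := fun x => by
    have := IsRat.coe (Polynomial.C x)
    rwa [Polynomial.coe_C] at this
  have r1 : IsRat (1 : K⟦X⟧) := by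
    have := rC 1
    rwa [map_one] at this
  have rT2 : IsRat (T ^ 2) := by
    rw [pow_two]
    exact rT.mul rT
  have rT4 : IsRat (T ^ 4) := by
    have : T ^ 4 = T ^ 2 * T ^ 2 := by ring
    rw [this]
    exact rT2.mul rT2
  refine ⟨T', S', N * (Polynomial.C nu * D ^ 2 + Polynomial.C c * N ^ 2),
    D * (D ^ 2 + Polynomial.C e * N ^ 2), hs', ?_, ?_, ?_, ?_, ?_⟩
  · have hu : IsRat (C nu * (1 + C e * T ^ 2) ^ 2) := by
      have hE : IsRat (1 + C e * T ^ 2) := r1.add ((rC e).mul rT2)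
      rw [pow_two]
      exact (rC nu).mul (hE.mul hE)
    have hu0 : (C nu * (1 + C e * T ^ 2) ^ 2 : K⟦X⟧) ≠ 0 := by
      intro h0
      have := congrArg (constantCoeff (R := K)) h0
      simp [hs.T0, hnu] at this
    refine IsRat.of_mul hu hu0 ?_
    have h5 : C nu * (1 + C e * T ^ 2) ^ 2 * (om * S') =
        (om * S) * (C nu + C (3 * c - nu * e) * T ^ 2 + C (c * e) * T ^ 4) := by
      linear_combination om * eS
    rw [h5]
    exact hr.mul (((rC nu).add ((rC _).mul rT2)).add ((rC _).mul rT4))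
  · have huc : IsUnit (Polynomial.C c : Polynomial K) := Polynomial.isUnit_C.2 hc.isUnit
    have hue : IsUnit (Polynomial.C (c - nu * e) : Polynomial K) :=
      Polynomial.isUnit_C.2 hce.isUnit
    -- N and D^2 + e N^2
    have c1 : IsCoprime N (D ^ 2 + Polynomial.C e * N ^ 2) := by
      have := (hcop.pow_right (n := 2)).add_mul_left_right (Polynomial.C e * N)
      have h2 : D ^ 2 + N * (Polynomial.C e * N) = D ^ 2 + Polynomial.C e * N ^ 2 := by ring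
      rwa [h2] at this
    have c2 : IsCoprime (Polynomial.C nu * D ^ 2 + Polynomial.C c * N ^ 2) D := by
      have h1 : IsCoprime (Polynomial.C c * N ^ 2) D :=
        (isCoprime_mul_unit_left_left huc _ _).2 hcop.pow_left
      have := h1.add_mul_left_left (Polynomial.C nu * D)
      have h2 : Polynomial.C c * N ^ 2 + D * (Polynomial.C nu * D) =
          Polynomial.C nu * D ^ 2 + Polynomial.C c * N ^ 2 := by ring
      rwa [h2] at this
    have c3 : IsCoprime (Polynomial.C nu * D ^ 2 + Polynomial.C c * N ^ 2)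
        (D ^ 2 + Polynomial.C e * N ^ 2) := by
      have h1 : IsCoprime (Polynomial.C (c - nu * e) * N ^ 2) (D ^ 2 + Polynomial.C e * N ^ 2) :=
        (isCoprime_mul_unit_left_left hue _ _).2 c1.pow_left
      have := h1.add_mul_left_left (Polynomial.C nu)
      have h2 : Polynomial.C (c - nu * e) * N ^ 2 +
          (D ^ 2 + Polynomial.C e * N ^ 2) * Polynomial.C nu =
          Polynomial.C nu * D ^ 2 + Polynomial.C c * N ^ 2 := by
        rw [Polynomial.C_sub, Polynomial.C_mul]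
        ring
      rwa [h2] at this
    exact (hcop.mul_right c1).mul_left (c2.mul_right c3)
  · have hp : ((D * (D ^ 2 + Polynomial.C e * N ^ 2) : Polynomial K) : K⟦X⟧) =
        (D : K⟦X⟧) ^ 3 * (1 + C e * T ^ 2) := by
      push_cast
      rw [← eq]
      ring
    rw [hp, mul_assoc, eT]
    push_cast
    rw [← eq]
    ring
  · have h1 : (Polynomial.C nu * D ^ 2 : Polynomial K).natDegree < (Polynomial.C c * N ^ 2).natDegree := by
      rw [Polynomial.natDegree_C_mul hnu, Polynomial.natDegree_C_mul hc, Polynomial.natDegree_pow,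
        Polynomial.natDegree_pow]
      omega
    have h2 := Polynomial.natDegree_add_eq_right_of_natDegree_lt h1
    have h3 : (Polynomial.C c * N ^ 2 : Polynomial K).natDegree = 2 * d := by
      rw [Polynomial.natDegree_C_mul hc, Polynomial.natDegree_pow, hN]
    have h4 : (Polynomial.C nu * D ^ 2 + Polynomial.C c * N ^ 2 : Polynomial K) ≠ 0 := by
      intro h0
      rw [h0, Polynomial.natDegree_zero] at h2
      omega
    rw [Polynomial.natDegree_mul hN0 h4, h2, h3, hN]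
    ring
  · have h1 : (D ^ 2 + Polynomial.C e * N ^ 2 : Polynomial K).natDegree ≤ 2 * d := by
      refine (Polynomial.natDegree_add_le _ _).trans (max_le ?_ ?_)
      · rw [Polynomial.natDegree_pow]
        omega
      · refine (Polynomial.natDegree_C_mul_le _ _).trans ?_
        rw [Polynomial.natDegree_pow]
        omega
    refine lt_of_le_of_lt Polynomial.natDegree_mul_le ?_
    omega

end Pool.Agent.Lib.MP_afcc06_nt
end

section

/-!
# Comp2: composition of a homomorphism of odd degree with the 2-isogeny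

Source data `om`; `T, S` the homomorphism of multiplier `mu` to the curve `(a, b)`, `T = N/D`. Composition with the 2-isogeny
`(a, b) → (a', b')` of multiplier `nu`: `T'' = nu T / S`, `S'' = (1 - b T^4) / S^2` (`S` has constant term `1`; use the inverse
power series). `T''' = nu mu om S''` because `S' = mu om (a T + 2b T^3)` and `S^2 = 1 + a T^2 + b T^4` (`IsSol.sq`), then
`IsSol.of_sq`: `S''^2 = 1 + a' T''^2 + b' T''^4` is `(1 - bT^4)^2 = S^4 - 2a T^2 S^2 + (a^2 - 4b) T^4`.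
Representation: `q0 = D^4 + a N^2 D^2 + b N^4` (degree `4d`, leading coefficient `b n^4`), `q1 = nu^2 N^2 D^2`,
`q3 = D^4 - b N^4`; `q0 T''^2 = q1`, `q0 S'' = q3` because `S^2 D^4 = q0`. Coprime: a prime dividing `q0` and `q1` divides `N` or `D`,
hence `D^4` or `b N^4`. `om T'' S^2 = nu (om S) T` is rational and `S^2` is rational and nonzero (`IsRat.of_mul`).
(`0 < d` because `deg D < d`.) Templates: B09.lean (`two_isog`), B10b.lean, B07.lean.
-/

set_option autoImplicit false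

namespace Pool.Agent.Lib.MP_afcc06_nt

open PowerSeries Pool.Agent.Lib.MP_d4c4f0_nt

variable {K : Type*} [Field K] [CharZero K] {om T S : K⟦X⟧} {a b a' b' mu nu : K} {d : ℕ}

theorem comp2_sol (h : IsSol om a b mu T S) (hnu : nu ≠ 0) (h1 : nu ^ 2 * a' = -2 * a)
    (h2 : nu ^ 4 * b' = a ^ 2 - 4 * b) :
    ∃ T' S' : K⟦X⟧, IsSol om a' b' (nu * mu) T' S' ∧ S * T' = C nu * T ∧
      S ^ 2 * S' = 1 - C b * T ^ 4 := by
  have hsq := h.sq
  have hS0 : constantCoeff S ≠ 0 := by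
    rw [h.S0]
    exact one_ne_zero
  have hSne : S ≠ 0 := by
    intro h0
    rw [h0] at hS0
    simp at hS0
  obtain ⟨v, hv⟩ : ∃ v : K⟦X⟧, v = S⁻¹ := ⟨_, rfl⟩
  have hvS : S * v = 1 := by
    rw [hv]
    exact PowerSeries.mul_inv_cancel S hS0
  have hv0 : constantCoeff v = 1 := by
    have h3 := congrArg constantCoeff hvS
    rw [map_mul, h.S0, one_mul] at h3
    simpa using h3
  have e2 : (C (2 : K) : K⟦X⟧) = 2 := map_ofNat C 2
  have e4 : (C (4 : K) : K⟦X⟧) = 4 := map_ofNat C 4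
  have H1 : (C nu : K⟦X⟧) ^ 2 * C a' = -2 * C a := by
    have := congrArg (C : K →+* K⟦X⟧) h1
    simp only [map_mul, map_pow, map_neg, e2] at this
    exact this
  have H2 : (C nu : K⟦X⟧) ^ 4 * C b' = C a ^ 2 - 4 * C b := by
    have := congrArg (C : K →+* K⟦X⟧) h2
    simp only [map_mul, map_pow, map_sub, e4] at this
    exact this
  have f1 : S * (C nu * T * v) = C nu * T := by
    linear_combination (C nu * T) * hvS
  have f2 : S ^ 2 * ((1 - C b * T ^ 4) * v ^ 2) = 1 - C b * T ^ 4 := by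
    linear_combination (1 - C b * T ^ 4) * (S * v + 1) * hvS
  refine ⟨C nu * T * v, (1 - C b * T ^ 4) * v ^ 2, ?_, f1, f2⟩
  refine IsSol.of_sq ?_ ?_ ?_ ?_
  · simp [h.T0]
  · rw [map_mul, map_pow, hv0]
    simp [h.T0]
  · obtain ⟨T', hT'⟩ : ∃ T' : K⟦X⟧, T' = C nu * T * v := ⟨_, rfl⟩
    rw [← hT'] at f1 ⊢
    have d1 : S * d⁄dX K T' + T' * d⁄dX K S = C nu * d⁄dX K T := by
      have h3 := congrArg (d⁄dX K) f1
      rw [Derivation.leibniz, Derivation.leibniz, PowerSeries.derivative_C] at h3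
      simp only [smul_eq_mul, mul_zero, add_zero] at h3
      exact h3
    have key : S ^ 2 * d⁄dX K T' = S ^ 2 * (C (nu * mu) * om * ((1 - C b * T ^ 4) * v ^ 2)) := by
      have hl : S ^ 2 * d⁄dX K T' = C nu * (S * d⁄dX K T - T * d⁄dX K S) := by
        linear_combination S * d1 - (d⁄dX K S) * f1
      have hr : S ^ 2 * (C (nu * mu) * om * ((1 - C b * T ^ 4) * v ^ 2)) =
          C (nu * mu) * om * (1 - C b * T ^ 4) := by
        linear_combination (C (nu * mu) * om) * f2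
      rw [hl, hr, h.dT, h.dS]
      simp only [map_mul, e2]
      linear_combination (C nu * C mu * om) * hsq
    exact mul_left_cancel₀ (pow_ne_zero 2 hSne) key
  · have g1 : (S * v) ^ 2 = 1 := by rw [hvS, one_pow]
    have g2 : (S * v) ^ 4 = 1 := by rw [hvS, one_pow]
    have g3 : (1 + C a' * (C nu * T * v) ^ 2 + C b' * (C nu * T * v) ^ 4 : K⟦X⟧) =
        v ^ 4 * (S ^ 4 + (C nu ^ 2 * C a') * T ^ 2 * S ^ 2 + (C nu ^ 4 * C b') * T ^ 4) := by
      linear_combination (-1 : K⟦X⟧) * g2 - (C a' * C nu ^ 2 * T ^ 2 * v ^ 2) * g1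
    have g4 : S ^ 4 = (1 + C a * T ^ 2 + C b * T ^ 4) ^ 2 := by
      rw [← hsq]
      ring
    rw [g3, H1, H2, g4, hsq]
    ring

theorem OddDeg.comp2 (h : OddDeg om a b mu d) (hb : b ≠ 0) (hnu : nu ≠ 0)
    (h1 : nu ^ 2 * a' = -2 * a) (h2 : nu ^ 4 * b' = a ^ 2 - 4 * b) :
    EvenDeg om a' b' (nu * mu) (2 * d) := by
  obtain ⟨T, S, N, D, hs, hr, hc, e, hN, hD⟩ := h
  have hd : 0 < d := by omega
  have hN0 : N ≠ 0 := by
    rintro rfl
    simp at hN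
    omega
  have hD0 : D ≠ 0 := by
    rintro rfl
    rw [Polynomial.coe_zero, zero_mul] at e
    exact hN0 (Polynomial.coe_eq_zero_iff.1 e.symm)
  obtain ⟨T', S', hs', eT, eS⟩ := comp2_sol hs hnu h1 h2
  have hsq := hs.sq
  have rT : IsRat T := ⟨D, N, hD0, e⟩
  have hq0 : (D : K⟦X⟧) ^ 4 + C a * (N : K⟦X⟧) ^ 2 * (D : K⟦X⟧) ^ 2 + C b * (N : K⟦X⟧) ^ 4 =
      (D : K⟦X⟧) ^ 4 * S ^ 2 := by
    rw [hsq, ← e]
    ring
  refine ⟨T', S', D ^ 4 + Polynomial.C a * N ^ 2 * D ^ 2 + Polynomial.C b * N ^ 4,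
    Polynomial.C (nu ^ 2) * (N ^ 2 * D ^ 2), D ^ 4 - Polynomial.C b * N ^ 4, hs', ?_, ?_, ?_, ?_,
    ?_, ?_⟩
  · -- rationality
    have rS2 : IsRat (S ^ 2) := by
      have rC : ∀ c : K, IsRat (C c : K⟦X⟧) := fun c => by
        have := IsRat.coe (Polynomial.C c)
        rwa [Polynomial.coe_C] at this
      have r1 : IsRat (1 : K⟦X⟧) := by
        have := IsRat.coe (1 : Polynomial K)
        rwa [Polynomial.coe_one] at this
      have r2 : IsRat (T ^ 2) := by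
        rw [pow_two]
        exact rT.mul rT
      have r4 : IsRat (T ^ 4) := by
        have h4 : T ^ 4 = T ^ 2 * T ^ 2 := by ring
        rw [h4]
        exact r2.mul r2
      rw [hsq]
      exact (r1.add ((rC a).mul r2)).add ((rC b).mul r4)
    have hS2 : S ^ 2 ≠ 0 := by
      intro h0
      have := congrArg (constantCoeff (R := K)) h0
      simp [hs.S0] at this
    refine IsRat.of_mul rS2 hS2 ?_
    have rC : IsRat (C nu : K⟦X⟧) := by
      have := IsRat.coe (Polynomial.C nu)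
      rwa [Polynomial.coe_C] at this
    have h5 : S ^ 2 * (om * T') = C nu * (T * (om * S)) := by
      linear_combination (om * S) * eT
    rw [h5]
    exact rC.mul (rT.mul hr)
  · -- coprimality
    have ub : IsUnit (Polynomial.C b) := Polynomial.isUnit_C.2 (isUnit_iff_ne_zero.2 hb)
    have unu : IsUnit (Polynomial.C (nu ^ 2)) :=
      Polynomial.isUnit_C.2 (isUnit_iff_ne_zero.2 (pow_ne_zero 2 hnu))
    have cN : IsCoprime (D ^ 4 + Polynomial.C a * N ^ 2 * D ^ 2 + Polynomial.C b * N ^ 4) N := by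
      have h3 : IsCoprime (D ^ 4) N := hc.symm.pow_left
      have h4 := h3.add_mul_left_left (Polynomial.C a * N * D ^ 2 + Polynomial.C b * N ^ 3)
      have h5 : D ^ 4 + N * (Polynomial.C a * N * D ^ 2 + Polynomial.C b * N ^ 3) =
          D ^ 4 + Polynomial.C a * N ^ 2 * D ^ 2 + Polynomial.C b * N ^ 4 := by ring
      rwa [h5] at h4
    have cD : IsCoprime (D ^ 4 + Polynomial.C a * N ^ 2 * D ^ 2 + Polynomial.C b * N ^ 4) D := by
      have h3 : IsCoprime (Polynomial.C b * N ^ 4) D :=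
        (isCoprime_mul_unit_left_left ub _ _).2 hc.pow_left
      have h4 := h3.add_mul_left_left (D ^ 3 + Polynomial.C a * N ^ 2 * D)
      have h5 : Polynomial.C b * N ^ 4 + D * (D ^ 3 + Polynomial.C a * N ^ 2 * D) =
          D ^ 4 + Polynomial.C a * N ^ 2 * D ^ 2 + Polynomial.C b * N ^ 4 := by ring
      rwa [h5] at h4
    exact (isCoprime_mul_unit_left_right unu _ _).2 (cN.pow_right.mul_right cD.pow_right)
  · -- T'^2
    push_cast
    rw [hq0]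
    have h3 : (D : K⟦X⟧) ^ 4 * S ^ 2 * T' ^ 2 = (D : K⟦X⟧) ^ 4 * (S * T') ^ 2 := by ring
    rw [h3, eT, ← e]
    simp only [map_pow]
    ring
  · -- S'
    push_cast
    rw [hq0]
    have h3 : (D : K⟦X⟧) ^ 4 * S ^ 2 * S' = (D : K⟦X⟧) ^ 4 * (S ^ 2 * S') := by ring
    rw [h3, eS, ← e]
    ring
  · -- degree of q0
    have hD4 : (D ^ 4).natDegree ≤ 4 * (d - 1) := by
      rw [Polynomial.natDegree_pow]
      omega
    have hD2 : (D ^ 2).natDegree ≤ 2 * (d - 1) := by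
      rw [Polynomial.natDegree_pow]
      omega
    have hN2 : (N ^ 2).natDegree ≤ 2 * d := by
      rw [Polynomial.natDegree_pow, hN]
    have h3 : (Polynomial.C a * N ^ 2 * D ^ 2).natDegree ≤ 0 + 2 * d + 2 * (d - 1) :=
      Polynomial.natDegree_mul_le_of_le (Polynomial.natDegree_mul_le_of_le (by simp) hN2) hD2
    have h4 : (Polynomial.C b * N ^ 4).natDegree = 4 * d := by
      rw [Polynomial.natDegree_C_mul hb, Polynomial.natDegree_pow, hN]
    have h5 : (D ^ 4 + Polynomial.C a * N ^ 2 * D ^ 2).natDegree < 4 * d := by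
      refine lt_of_le_of_lt (Polynomial.natDegree_add_le_of_le hD4 h3) ?_
      simp only [max_lt_iff]
      omega
    rw [Polynomial.natDegree_add_eq_right_of_natDegree_lt (by rw [h4]; exact h5), h4]
    ring
  · -- degree of q1
    rw [Polynomial.natDegree_C_mul (pow_ne_zero 2 hnu)]
    have h3 := Polynomial.natDegree_mul_le (p := N ^ 2) (q := D ^ 2)
    rw [Polynomial.natDegree_pow, Polynomial.natDegree_pow, hN] at h3
    omega

end Pool.Agent.Lib.MP_afcc06_nt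
end

section

/-!
# IntComp: integrality of compositions

From `comp2_sol`: `S` is integral with constant term `1`, `S T' = nu T` is integral, so `T'` is (`Intg.of_mul`); then
`IntSol.of_T`. From `comp3_sol`: `1 + e T^2` is integral with constant term `1`.
-/

set_option autoImplicit false

namespace Pool.Agent.Lib.MP_afcc06_nt

open PowerSeries Pool.Agent.Lib.MP_d4c4f0_nt

variable {K : Type*} [NormedField K] [IsUltrametricDist K] [CharZero K] {om : K⟦X⟧}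
  {a b a' b' mu nu c e : K}

theorem IntSol.comp2 (h : IntSol om a b mu) (h2 : ‖(2 : K)‖ = 1) (hnu : nu ≠ 0) (hn : ‖nu‖ ≤ 1)
    (ha' : ‖a'‖ ≤ 1) (hb' : ‖b'‖ ≤ 1) (h1 : nu ^ 2 * a' = -2 * a)
    (h2' : nu ^ 4 * b' = a ^ 2 - 4 * b) : IntSol om a' b' (nu * mu) := by
  obtain ⟨T, S, hs, iT, iS⟩ := h
  obtain ⟨T', S', hs', eT, -⟩ := comp2_sol hs hnu h1 h2'
  refine IntSol.of_T h2 ha' hb' hs' (Intg.of_mul iS hs.S0 ?_)
  rw [eT]
  exact (Intg.const hn).mul iT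

theorem IntSol.comp3 (h : IntSol om a b mu) (h2 : ‖(2 : K)‖ = 1) (hi : Iso3 a b a' b' nu c e)
    (hnu : nu ≠ 0) (hn : ‖nu‖ ≤ 1) (hc : ‖c‖ ≤ 1) (he : ‖e‖ ≤ 1) (ha' : ‖a'‖ ≤ 1)
    (hb' : ‖b'‖ ≤ 1) : IntSol om a' b' (nu * mu) := by
  obtain ⟨T, S, hs, iT, iS⟩ := h
  obtain ⟨T', S', hs', eT, -⟩ := comp3_sol hs hi hnu
  have i1 : Intg (1 : K⟦X⟧) := by
    have := Intg.const (K := K) (a := 1) (by simp)
    rwa [map_one] at this
  refine IntSol.of_T h2 ha' hb' hs' (Intg.of_mul (u := 1 + C e * T ^ 2) ?_ ?_ ?_)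
  · exact i1.add ((Intg.const he).mul (iT.pow 2))
  · simp [hs.T0]
  · rw [eT]
    exact iT.mul ((Intg.const hn).add ((Intg.const hc).mul (iT.pow 2)))

end Pool.Agent.Lib.MP_afcc06_nt
end

section

/-!
# Gen: the generic 2- and 3-isogenies

`two_gen`: the 2-isogeny of multiplier `4x` from the curve of `x` to that of `x2 = -1/(8x)`.
`iso3_gen`: `T = mu t (1 - t^2)/(1 - (1-8x) t^2)`, `mu = (1-8x)/w`, `w^2 = -3`, is the 3-isogeny from the curve of `x` to that of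
`x3 = -(1+x)/(1-8x)`. Substitute `x3` (multiply by a power of `1-8x`), compare the coefficients of `1, X, ..., X^6`
(`Polynomial.funext`); only `w^2 = -3` is needed after cancelling `mu^2`.
The rest: `om_x` (from `om_omS`, `ea_sq`-like identity `ea x ^ 2 - 4 * eb x = 1 - 8 * x`), and the compositions
`OddDeg.comp2`, `OddDeg.comp3`, `IntSol.comp2`, `IntSol.comp3`, `oddDeg_one`, `two_isog` in the notation of this folder
(target condition `c ≠ 0`, `c - nu e ≠ 0`: `c = -mu`, `e = -(1-8x)`, `c - mu e = -8 x mu`).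
-/

set_option autoImplicit false

namespace Pool.Agent.Lib.MP_afcc06_nt

open PowerSeries Pool.Agent.Lib.MP_d4c4f0_nt

section Field

variable {K : Type*} [Field K] [CharZero K] {x x2 x3 x6 w y mu : K} {k : ℕ}

theorem om_x (x : K) : Om (-2 * ea x) (1 - 8 * x) (omS (ea x) (eb x)) := by
  have h := om_omS (ea x) (eb x)
  have e : ea x ^ 2 - 4 * eb x = 1 - 8 * x := by
    unfold ea eb
    ring
  rwa [e] at h

theorem two_gen (h : Orb x x2 x3 x6) :
    (4 * x) ^ 2 * (-2 * ea x2) = -2 * (-2 * ea x) ∧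
      (4 * x) ^ 4 * (1 - 8 * x2) = (-2 * ea x) ^ 2 - 4 * (1 - 8 * x) := by
  have h12 := h.h12
  unfold ea
  constructor
  · linear_combination (16 * x + 4 * (8 * x * x2 - 1)) * h12
  · linear_combination (-256 * x ^ 3) * h12

private lemma iso3_scal (hw : w ^ 2 = -3) (h : Orb x x2 x3 x6) :
    (-2 * ea x3) * ((1 - 8 * x) / w) ^ 2 = 16 * x ^ 2 - 40 * x - 2 ∧
      (1 - 8 * x3) * ((1 - 8 * x) / w) ^ 4 = (1 - 8 * x) ^ 3 := by
  have h13 := h.h13
  have e2 : ((1 - 8 * x) / w) ^ 2 = (1 - 8 * x) ^ 2 / (-3) := by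
    rw [div_pow, hw]
  have e4 : ((1 - 8 * x) / w) ^ 4 = (1 - 8 * x) ^ 4 / 9 := by
    have : w ^ 4 = 9 := by
      linear_combination (w ^ 2 - 3) * hw
    rw [div_pow, this]
  rw [e2, e4]
  unfold ea
  constructor
  · have h3 : (-3 : K) ≠ 0 := by norm_num
    rw [mul_div_assoc', div_eq_iff h3]
    linear_combination (8 * (1 - 8 * x) + 16 * ((1 - 8 * x) * x3 - (1 + x))) * h13
  · have h9 : (9 : K) ≠ 0 := by norm_num
    rw [mul_div_assoc', div_eq_iff h9]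
    linear_combination (-8 * (1 - 8 * x) ^ 3) * h13

theorem iso3_gen (hw : w ^ 2 = -3) (h : Orb x x2 x3 x6) :
    Iso3 (-2 * ea x) (1 - 8 * x) (-2 * ea x3) (1 - 8 * x3) ((1 - 8 * x) / w) (-((1 - 8 * x) / w))
      (-(1 - 8 * x)) := by
  obtain ⟨h1, h2⟩ := iso3_scal hw h
  generalize (1 - 8 * x) / w = m at h1 h2 ⊢
  generalize hA : -2 * ea x3 = A at h1 ⊢
  generalize hB : 1 - 8 * x3 = B at h2 ⊢
  unfold Iso3
  have H1 := congrArg (Polynomial.C : K →+* Polynomial K) h1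
  have H2 := congrArg (Polynomial.C : K →+* Polynomial K) h2
  unfold ea
  simp only [map_mul, map_pow, map_sub, map_add, map_neg, map_one, map_ofNat] at H1 H2 ⊢
  generalize Polynomial.C x = cx at *
  generalize Polynomial.C m = cm at *
  generalize Polynomial.C A = cA at *
  generalize Polynomial.C B = cB at *
  generalize (Polynomial.X : Polynomial K) = X at *
  linear_combination (-cm ^ 2 * X * (1 - X) ^ 2 * (1 - (1 - 8 * cx) * X) ^ 2) * H1 -
    cm ^ 2 * X ^ 2 * (1 - X) ^ 4 * H2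

theorem OD.one (x : K) : OD x x 1 1 := oddDeg_one (om_x x)

theorem ED.two (h : Orb x x2 x3 x6) : ED x x2 (4 * x) 2 := by
  obtain ⟨h1, h2⟩ := two_gen h
  exact two_isog (om_x x) h.b_ne (mul_ne_zero (by norm_num) h.x_ne) h1 h2

/-- Composition of `y → x` with the 2-isogeny `x → x2`. -/
theorem OD.comp2 (h : Orb x x2 x3 x6) (hd : OD y x mu k) : ED y x2 (4 * x * mu) (2 * k) := by
  obtain ⟨h1, h2⟩ := two_gen h
  exact OddDeg.comp2 hd h.b_ne (mul_ne_zero (by norm_num) h.x_ne) h1 h2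

/-- Composition of `y → x` with the 3-isogeny `x → x3`. -/
theorem OD.comp3 (hw : w ^ 2 = -3) (h : Orb x x2 x3 x6) (hd : OD y x mu k) :
    OD y x3 ((1 - 8 * x) / w * mu) (3 * k) := by
  have hw0 : w ≠ 0 := by
    rintro rfl
    norm_num at hw
  have hm : (1 - 8 * x) / w ≠ 0 := div_ne_zero h.b_ne hw0
  refine OddDeg.comp3 hd (iso3_gen hw h) hm (neg_ne_zero.2 hm) ?_
  have e : -((1 - 8 * x) / w) - (1 - 8 * x) / w * -(1 - 8 * x) = (-8 * x) * ((1 - 8 * x) / w) := by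
    ring
  rw [e]
  exact mul_ne_zero (mul_ne_zero (by norm_num) h.x_ne) hm

end Field

section Normed

variable {K : Type*} [NormedField K] [IsUltrametricDist K] [CharZero K] {x x2 x3 x6 w y mu nu : K}

omit [CharZero K] in
private lemma nle_mul {a b : K} (ha : ‖a‖ ≤ 1) (hb : ‖b‖ ≤ 1) : ‖a * b‖ ≤ 1 := by
  rw [norm_mul]
  exact mul_le_one₀ ha (norm_nonneg b) hb

omit [CharZero K] in
private lemma nle_pow {a : K} (ha : ‖a‖ ≤ 1) (n : ℕ) : ‖a ^ n‖ ≤ 1 := by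
  rw [norm_pow]
  exact pow_le_one₀ (norm_nonneg a) ha

omit [CharZero K] in
private lemma nle_add {a b : K} (ha : ‖a‖ ≤ 1) (hb : ‖b‖ ≤ 1) : ‖a + b‖ ≤ 1 :=
  (IsUltrametricDist.norm_add_le_max a b).trans (max_le ha hb)

omit [CharZero K] in
private lemma nle_neg {a : K} (ha : ‖a‖ ≤ 1) : ‖-a‖ ≤ 1 := by
  rwa [norm_neg]

omit [CharZero K] in
private lemma nle_sub {a b : K} (ha : ‖a‖ ≤ 1) (hb : ‖b‖ ≤ 1) : ‖a - b‖ ≤ 1 := by
  rw [sub_eq_add_neg]
  exact nle_add ha (nle_neg hb)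

omit [CharZero K] in
private lemma nle_nat (n : ℕ) : ‖(n : K)‖ ≤ 1 := IsUltrametricDist.norm_natCast_le_one K n

theorem ea_le (hx : ‖x‖ ≤ 1) : ‖ea x‖ ≤ 1 ∧ ‖eb x‖ ≤ 1 ∧ ‖-2 * ea x‖ ≤ 1 ∧ ‖1 - 8 * x‖ ≤ 1 := by
  have h1 : ‖(1 : K)‖ ≤ 1 := by simp
  have h2 : ‖(2 : K)‖ ≤ 1 := by simpa using nle_nat (K := K) 2
  have h4 : ‖(4 : K)‖ ≤ 1 := by simpa using nle_nat (K := K) 4
  have h8 : ‖(8 : K)‖ ≤ 1 := by simpa using nle_nat (K := K) 8
  have h16 : ‖(16 : K)‖ ≤ 1 := by simpa using nle_nat (K := K) 16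
  have hea : ‖ea x‖ ≤ 1 := by
    unfold ea
    exact nle_sub (nle_sub h1 (nle_mul h4 hx)) (nle_mul h8 (nle_pow hx 2))
  refine ⟨hea, ?_, nle_mul (nle_neg h2) hea, nle_sub h1 (nle_mul h8 hx)⟩
  unfold eb
  exact nle_mul (nle_mul h16 (nle_pow hx 3)) (nle_add h1 hx)

theorem IS.one (hx : ‖x‖ ≤ 1) (h2 : ‖(2 : K)‖ = 1) : IS x x 1 := by
  obtain ⟨-, -, h3, h4⟩ := ea_le hx
  exact IntSol.of_T h2 h3 h4 (IsSol.one (om_x x)) Intg.X

theorem IS.comp2 (h2 : ‖(2 : K)‖ = 1) (h : Orb x x2 x3 x6) (hx : ‖x‖ ≤ 1) (hx2 : ‖x2‖ ≤ 1)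
    (hd : IS y x mu) : IS y x2 (4 * x * mu) := by
  obtain ⟨-, -, h3, h4⟩ := ea_le hx2
  obtain ⟨h5, h6⟩ := two_gen h
  have n4 : ‖(4 : K)‖ ≤ 1 := by simpa using nle_nat (K := K) 4
  exact IntSol.comp2 hd h2 (mul_ne_zero (by norm_num) h.x_ne) (nle_mul n4 hx) h3 h4 h5 h6

theorem IS.comp3 (h2 : ‖(2 : K)‖ = 1) (h3 : ‖(3 : K)‖ = 1) (hw : w ^ 2 = -3)
    (h : Orb x x2 x3 x6) (hx : ‖x‖ ≤ 1) (hx3 : ‖x3‖ ≤ 1) (hd : IS y x mu) :
    IS y x3 ((1 - 8 * x) / w * mu) := by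
  obtain ⟨-, -, h5, h6⟩ := ea_le hx3
  obtain ⟨-, -, -, h7⟩ := ea_le hx
  have hw1 : ‖w‖ = 1 := by
    have e : ‖w‖ ^ 2 = 1 := by rw [← norm_pow, hw, norm_neg, h3]
    exact (pow_eq_one_iff_of_nonneg (norm_nonneg w) two_ne_zero).1 e
  have hw0 : w ≠ 0 := by
    rintro rfl
    norm_num at hw
  have hm : (1 - 8 * x) / w ≠ 0 := div_ne_zero h.b_ne hw0
  have hn : ‖(1 - 8 * x) / w‖ ≤ 1 := by
    rw [norm_div, hw1, div_one]
    exact h7
  exact IntSol.comp3 hd h2 (iso3_gen hw h) hm hn (nle_neg hn) (nle_neg h7) h5 h6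

theorem IS.comb (h2 : ‖(2 : K)‖ = 1) (hx : ‖x‖ ≤ 1) (hd : IS y x mu) (hd' : IS y x nu) (m n : ℤ) :
    IS y x ((m : K) * mu + (n : K) * nu) := by
  obtain ⟨-, -, h3, h4⟩ := ea_le hx
  exact IntSol.comb h2 h3 h4 hd hd' m n

end Normed

end Pool.Agent.Lib.MP_afcc06_nt
end
end

section

section

/-!
# Units: norms at the points

`x, x2` are integral with product `-1/8`, so `‖x‖ = 1`; `(1-8x)(1-8x3) = 9`; `(1-8x) x3 = -(1+x)`; `(1+8x^2)^2 = m x (1+x)(1-8x)`.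
`ea`: `1 + 8x^2 = 2 - 4x - ea x`, and `m x (1-7x-8x^2) - (1+8x^2)^2 = -3 (m + 16) x^2 + ea x * (integral)`; so if `‖ea x‖ < 1` then
`‖3 (m+16) x^2‖ < 1`, a contradiction.
-/

set_option autoImplicit false

namespace Pool.Agent.Lib.MP_afcc06_nt

open Pool.Agent.Lib.MP_d4c4f0_nt

variable {K : Type*} [NormedField K] [IsUltrametricDist K] [CharZero K] {x x2 x3 x6 : K}

private theorem un_add {a b : K} (ha : ‖a‖ ≤ 1) (hb : ‖b‖ ≤ 1) : ‖a + b‖ ≤ 1 :=
  (IsUltrametricDist.norm_add_le_max a b).trans (max_le ha hb)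

private theorem un_sub {a b : K} (ha : ‖a‖ ≤ 1) (hb : ‖b‖ ≤ 1) : ‖a - b‖ ≤ 1 := by
  rw [sub_eq_add_neg]
  exact un_add ha (by rwa [norm_neg])

private theorem un_mul {a b : K} (ha : ‖a‖ ≤ 1) (hb : ‖b‖ ≤ 1) : ‖a * b‖ ≤ 1 := by
  rw [norm_mul]
  exact mul_le_one₀ ha (norm_nonneg b) hb

private theorem un_left {a b : K} (ha : ‖a‖ ≤ 1) (hb : ‖b‖ ≤ 1) (h : ‖a * b‖ = 1) : ‖a‖ = 1 := by
  rw [norm_mul] at h
  refine le_antisymm ha ?_
  calc (1 : ℝ) = ‖a‖ * ‖b‖ := h.symm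
    _ ≤ ‖a‖ * 1 := mul_le_mul_of_nonneg_left hb (norm_nonneg a)
    _ = ‖a‖ := mul_one _

private theorem un_8 (h2 : ‖(2 : K)‖ = 1) : ‖(8 : K)‖ = 1 := by
  have : (8 : K) = 2 ^ 3 := by norm_num
  rw [this, norm_pow, h2, one_pow]

private theorem un_9 (h3 : ‖(3 : K)‖ = 1) : ‖(9 : K)‖ = 1 := by
  have : (9 : K) = 3 ^ 2 := by norm_num
  rw [this, norm_pow, h3, one_pow]

private theorem un_4 (h2 : ‖(2 : K)‖ = 1) : ‖(4 : K)‖ = 1 := by
  have : (4 : K) = 2 ^ 2 := by norm_num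
  rw [this, norm_pow, h2, one_pow]

private theorem un_1 : ‖(1 : K)‖ ≤ 1 := by simp

theorem Orb.norms (h2 : ‖(2 : K)‖ = 1) (h3 : ‖(3 : K)‖ = 1) (h : Orb x x2 x3 x6) (hx : ‖x‖ ≤ 1)
    (hx2 : ‖x2‖ ≤ 1) (hx3 : ‖x3‖ ≤ 1) (hx6 : ‖x6‖ ≤ 1) :
    ‖x‖ = 1 ∧ ‖1 - 8 * x‖ = 1 ∧ ‖1 + x‖ = 1 := by
  have h8 := un_8 h2
  have h9 := un_9 h3
  have e1 : ‖x * x2‖ = 1 := by
    have := congrArg norm h.h12
    rw [mul_assoc, norm_mul, h8, one_mul, norm_neg, norm_one] at this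
    exact this
  have e2 : ‖(1 - 8 * x) * (1 - 8 * x3)‖ = 1 := by
    rw [h.b13, h9]
  have e3 : ‖(1 + x) * (1 + x6)‖ = 1 := by
    have := congrArg norm h.e16
    rw [norm_mul, h8, one_mul, h9] at this
    exact this
  exact ⟨un_left hx hx2 e1, un_left (un_sub un_1 (un_mul h8.le hx))
    (un_sub un_1 (un_mul h8.le hx3)) e2, un_left (un_add un_1 hx) (un_add un_1 hx6) e3⟩

theorem norm_E (h2 : ‖(2 : K)‖ = 1) (h3 : ‖(3 : K)‖ = 1) (h : Orb x x2 x3 x6) (hx : ‖x‖ ≤ 1)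
    (hx2 : ‖x2‖ ≤ 1) (hx3 : ‖x3‖ ≤ 1) (hx6 : ‖x6‖ ≤ 1) {m : K} (hm : ‖m‖ = 1)
    (hq : Quart m x) : ‖1 + 8 * x ^ 2‖ = 1 := by
  obtain ⟨n1, n2, n3⟩ := h.norms h2 h3 hx hx2 hx3 hx6
  have e : (1 + 8 * x ^ 2) ^ 2 = m * (x * ((1 + x) * (1 - 8 * x))) := by
    unfold Quart at hq
    rw [← hq]
    ring
  have e1 : ‖1 + 8 * x ^ 2‖ ^ 2 = 1 := by
    rw [← norm_pow, e, norm_mul, norm_mul, norm_mul, hm, n1, n2, n3]
    norm_num
  have h0 := norm_nonneg (1 + 8 * x ^ 2)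
  nlinarith

theorem norm_ea (h2 : ‖(2 : K)‖ = 1) (h3 : ‖(3 : K)‖ = 1) (h : Orb x x2 x3 x6) (hx : ‖x‖ ≤ 1)
    (hx2 : ‖x2‖ ≤ 1) (hx3 : ‖x3‖ ≤ 1) (hx6 : ‖x6‖ ≤ 1) {m : K} (hm : ‖m‖ = 1)
    (hm16 : ‖m + 16‖ = 1) (hq : Quart m x) : ‖ea x‖ = 1 := by
  obtain ⟨n1, n2, n3⟩ := h.norms h2 h3 hx hx2 hx3 hx6
  have h8 := un_8 h2
  have h4 := un_4 h2
  have hea : ‖ea x‖ ≤ 1 := by
    unfold ea
    exact un_sub (un_sub un_1 (un_mul h4.le hx)) (un_mul h8.le (by rw [norm_pow, n1, one_pow]))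
  have e : ea x * (m * x - 8 * x - ea x) = 3 * (m + 16) * x ^ 2 := by
    unfold Quart at hq
    unfold ea
    linear_combination hq
  refine un_left hea (un_sub (un_sub (un_mul hm.le hx) (un_mul h8.le hx)) hea) ?_
  rw [e, norm_mul, norm_mul, h3, hm16, norm_pow, n1]
  norm_num

end Pool.Agent.Lib.MP_afcc06_nt
end

section

/-!
# Full: the data at the four points in the ring of integers

`norm_fac`: `X = U + v s`, `Y = U - v s`, `X Y = U^2 + B v^2 = C p`, `‖X‖ < 1`. `p ∤ U`: otherwise `p ∣ B v^2`, `p ∣ v`, `p^2 ∣ C p`,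
`p ∣ C`. So `‖2U‖ = 1` (`norm_int_unit`, D00), `Y = 2U - X`, `‖Y‖ = 1`, `‖X‖ = ‖C p‖ = ‖p‖`.
-/

set_option autoImplicit false

namespace Pool.Agent.Lib.MP_afcc06_nt

open Pool.Agent.Lib.MP_d4c4f0_nt

variable {K : Type*} [NormedField K] [IsUltrametricDist K] [CharZero K]

/-- The data at the point `x` (and its companions). -/
structure Dat (q : ℕ) (m : ℤ) (w s x x2 x3 x6 : OK K) : Prop where
  orb : Orb x x2 x3 x6
  quart : Quart (m : OK K) x
  hw : w ^ 2 = -3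
  hs : s ^ 2 = -3 * (2 * (q : OK K) - 3)
  qi : QI (w : K) (s : K) (x : K) (x6 : K) q
  qint : QInt (w : K) (s : K) (x : K) (x6 : K)

/-- The data at the four points. -/
structure Full (q : ℕ) (m : ℤ) (w s x x2 x3 x6 : OK K) : Prop where
  d1 : Dat q m w s x x2 x3 x6
  d2 : Dat q m w s x2 x x6 x3
  d3 : Dat q m w s x3 x6 x x2
  d6 : Dat q m w s x6 x3 x2 x

theorem Full.s2 {q : ℕ} {m : ℤ} {w s x x2 x3 x6 : OK K} (h : Full q m w s x x2 x3 x6) :
    Full q m w s x2 x x6 x3 := ⟨h.d2, h.d1, h.d6, h.d3⟩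

theorem Full.s3 {q : ℕ} {m : ℤ} {w s x x2 x3 x6 : OK K} (h : Full q m w s x x2 x3 x6) :
    Full q m w s x3 x6 x x2 := ⟨h.d3, h.d6, h.d1, h.d2⟩

theorem Full.s6 {q : ℕ} {m : ℤ} {w s x x2 x3 x6 : OK K} (h : Full q m w s x x2 x3 x6) :
    Full q m w s x6 x3 x2 x := ⟨h.d6, h.d3, h.d2, h.d1⟩

/-- The assumptions on the prime `p`. -/
structure PrimeOk (K : Type*) [NormedField K] (p q : ℕ) (m : ℤ) : Prop where
  hp : p.Prime
  h3 : 3 < p
  hk : ∀ k : ℕ, 0 < k → k < p → ‖(k : K)‖ = 1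
  h1 : ‖(p : K)‖ < 1
  hm : ‖(m : K)‖ = 1
  hb : ¬ (p : ℤ) ∣ 3 * (2 * q - 3)

theorem norm_fac {p : ℕ} (hp : p.Prime) (h2 : 2 < p)
    (hk : ∀ k : ℕ, 0 < k → k < p → ‖(k : K)‖ = 1) (h1 : ‖(p : K)‖ < 1) {s : K} {B : ℤ}
    (hB : ¬ (p : ℤ) ∣ B) (hs : s ^ 2 = -B) {U v : ℤ} {C : ℕ} (hC : ‖(C : K)‖ = 1)
    (hC' : ¬ p ∣ C) (hUv : U ^ 2 + B * v ^ 2 = C * p) (hlt : ‖(U : K) + v * s‖ < 1) :
    ‖(U : K) - v * s‖ = 1 ∧ ‖(U : K) + v * s‖ = ‖(p : K)‖ := by
  have hpZ : Prime (p : ℤ) := Nat.prime_iff_prime_int.1 hp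
  have hm : ¬ (p : ℤ) ∣ 2 * U := by
    intro h
    have h2' : ¬ (p : ℤ) ∣ 2 := by
      intro h'
      have := Int.le_of_dvd (by norm_num) h'
      omega
    have hm' : (p : ℤ) ∣ U := (hpZ.dvd_or_dvd h).resolve_left h2'
    have hBv : (p : ℤ) ∣ B * v ^ 2 := by
      have : B * v ^ 2 = C * p - U * U := by linear_combination hUv
      rw [this]
      exact dvd_sub (Dvd.intro_left _ rfl) (Dvd.dvd.mul_left hm' _)
    have hn : (p : ℤ) ∣ v := hpZ.dvd_of_dvd_pow ((hpZ.dvd_or_dvd hBv).resolve_left hB)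
    obtain ⟨m', rfl⟩ := hm'
    obtain ⟨n', rfl⟩ := hn
    have hp0 : (p : ℤ) ≠ 0 := hpZ.ne_zero
    have : (C : ℤ) = p * (m' ^ 2 + B * n' ^ 2) := by
      apply mul_right_cancel₀ hp0
      linear_combination -hUv
    have hdvd : (p : ℤ) ∣ C := Dvd.intro _ this.symm
    exact hC' (by exact_mod_cast hdvd)
  have h2m : ‖((2 * U : ℤ) : K)‖ = 1 := norm_int_unit hp hk h1 hm
  have e : (U : K) - v * s = ((2 * U : ℤ) : K) + -((U : K) + v * s) := by
    push_cast; ring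
  have hlt' : ‖-((U : K) + v * s)‖ < ‖((2 * U : ℤ) : K)‖ := by rw [norm_neg, h2m]; exact hlt
  have hP : ‖(U : K) - v * s‖ = 1 := by
    rw [e, IsUltrametricDist.norm_add_eq_max_of_norm_ne_norm hlt'.ne', max_eq_left hlt'.le, h2m]
  refine ⟨hP, ?_⟩
  have hprod : ((U : K) + v * s) * ((U : K) - v * s) = (C : K) * p := by
    have h := congrArg (fun z : ℤ => (z : K)) hUv
    push_cast at h
    linear_combination h - (v : K) ^ 2 * hs
  have := congrArg norm hprod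
  rw [norm_mul, norm_mul, hP, mul_one, hC, one_mul] at this
  exact this

/-- Norms of the points. -/
theorem Dat.norms {q : ℕ} {m : ℤ} {w s x x2 x3 x6 : OK K} (h : Dat q m w s x x2 x3 x6)
    (h2 : ‖(2 : K)‖ = 1) (h3 : ‖(3 : K)‖ = 1) (hm : ‖(m : K)‖ = 1) :
    ‖(x : K)‖ = 1 ∧ ‖1 - 8 * (x : K)‖ = 1 ∧ ‖1 + (x : K)‖ = 1 ∧ ‖1 + 8 * (x : K) ^ 2‖ = 1 ∧
      (‖(m : K) + 16‖ = 1 → ‖ea (x : K)‖ = 1) := by
  have ho : Orb (x : K) (x2 : K) (x3 : K) (x6 : K) := h.orb.map (OK K).subtype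
  have hq : Quart (m : K) (x : K) := by
    have := h.quart.map (OK K).subtype
    simpa using this
  have hx : ‖(x : K)‖ ≤ 1 := x.2
  have hx2 : ‖(x2 : K)‖ ≤ 1 := x2.2
  have hx3 : ‖(x3 : K)‖ ≤ 1 := x3.2
  have hx6 : ‖(x6 : K)‖ ≤ 1 := x6.2
  obtain ⟨n1, n2, n3⟩ := ho.norms h2 h3 hx hx2 hx3 hx6
  exact ⟨n1, n2, n3, norm_E h2 h3 ho hx hx2 hx3 hx6 hm hq,
    fun h16 => norm_ea h2 h3 ho hx hx2 hx3 hx6 hm h16 hq⟩

end Pool.Agent.Lib.MP_afcc06_nt
end
end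

section

/-!
# CertPt: the four points of a certificate

In a commutative ring with `4 q4 = 1`, `r^2 = 3`, `t^2 = b`. `c.x q4 r t = q4 * ev 0 r t X`, `X = 4x`; `ev i r t X = ev 0 r t X` for
`X.real` (any `i`; `ev_mul` needs `i^2 = -1`, so it is convenient to prove the relations by unfolding everything, or to
note that for real elements `ev 0 r t (x.mul b y) = ev 0 r t x * ev 0 r t y` holds, too). `Z8.fl`: `ev i r t (X.fl σ τ) = ev i (sg1 σ r) (sg1 τ t) X`.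
`Z8.eqb x y = true` implies `x = y` componentwise, hence equal values. The relations of `okX`:
`X X2 = -2`, `(1-2X) X3 = -(4+X)`, `m X (4-7X-2X^2) = 4 (2+X^2)^2`; apply them at `(r,t)` and at the conjugates
(`sg1 σ (sg1 σ' r) = sg1 (xor σ σ') r`, `(sg1 σ r)^2 = r^2`).
-/

set_option autoImplicit false

namespace Pool.Agent.Lib.MP_afcc06_nt

open Pool.Agent.Lib.MP_d4c4f0_nt

variable {S : Type*} [CommRing S] {c : CertD} {q4 r t : S}

theorem sg1_sg1 (σ τ : Bool) (r : S) : sg1 σ (sg1 τ r) = sg1 (xor σ τ) r := by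
  cases σ <;> cases τ <;> simp [sg1]

theorem sg1_sq (σ : Bool) (r : S) : sg1 σ r ^ 2 = r ^ 2 := by
  cases σ <;> simp [sg1]

theorem ev_fl (i r t : S) (σ τ : Bool) (X : Z8) :
    ev i r t (X.fl σ τ) = ev i (sg1 σ r) (sg1 τ t) X := by
  obtain ⟨x0, x1, x2, x3, x4, x5, x6, x7⟩ := X
  cases σ <;> cases τ <;> simp [Z8.fl, ev, sg1]

theorem eqb_ev {x y : Z8} (h : Z8.eqb x y = true) (i r t : S) : ev i r t x = ev i r t y := by
  obtain ⟨x0, x1, x2, x3, x4, x5, x6, x7⟩ := x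
  obtain ⟨y0, y1, y2, y3, y4, y5, y6, y7⟩ := y
  simp only [Z8.eqb, Z8.smul, Z8.add, Z8.isZ, Bool.and_eq_true, beq_iff_eq] at h
  obtain ⟨⟨⟨⟨⟨⟨⟨h0, h1⟩, h2⟩, h3⟩, h4⟩, h5⟩, h6⟩, h7⟩ := h
  have e0 : x0 = y0 := by linarith
  have e1 : x1 = y1 := by linarith
  have e2 : x2 = y2 := by linarith
  have e3 : x3 = y3 := by linarith
  have e4 : x4 = y4 := by linarith
  have e5 : x5 = y5 := by linarith
  have e6 : x6 = y6 := by linarith
  have e7 : x7 = y7 := by linarith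
  rw [e0, e1, e2, e3, e4, e5, e6, e7]

theorem real_ev {X : Z8} (h : X.real = true) (i r t : S) : ev i r t X = ev 0 r t X := by
  obtain ⟨x0, x1, x2, x3, x4, x5, x6, x7⟩ := X
  simp only [Z8.real, Bool.and_eq_true, beq_iff_eq] at h
  obtain ⟨⟨⟨h1, h3⟩, h5⟩, h7⟩ := h
  simp [ev, h1, h3, h5, h7]

private theorem cp_real {X : Z8} (h : X.real = true) :
    ∃ x0 x2 x4 x6 : ℤ, X = ⟨x0, 0, x2, 0, x4, 0, x6, 0⟩ := by
  obtain ⟨x0, x1, x2, x3, x4, x5, x6, x7⟩ := X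
  simp only [Z8.real, Bool.and_eq_true, beq_iff_eq] at h
  obtain ⟨⟨⟨h1, h3⟩, h5⟩, h7⟩ := h
  exact ⟨x0, x2, x4, x6, by rw [h1, h3, h5, h7]⟩

private theorem cp_add {x y : Z8} (hx : x.real = true) (hy : y.real = true) :
    (x.add y).real = true := by
  obtain ⟨x0, x2, x4, x6, rfl⟩ := cp_real hx
  obtain ⟨y0, y2, y4, y6, rfl⟩ := cp_real hy
  simp [Z8.add, Z8.real]

private theorem cp_smul {x : Z8} (n : ℤ) (hx : x.real = true) : (x.smul n).real = true := by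
  obtain ⟨x0, x2, x4, x6, rfl⟩ := cp_real hx
  simp [Z8.smul, Z8.real]

private theorem cp_mul {x y : Z8} (b : ℤ) (hx : x.real = true) (hy : y.real = true) :
    (x.mul b y).real = true := by
  obtain ⟨x0, x2, x4, x6, rfl⟩ := cp_real hx
  obtain ⟨y0, y2, y4, y6, rfl⟩ := cp_real hy
  simp [Z8.mul, Z8.real]

private theorem cp_fl {x : Z8} (σ τ : Bool) (hx : x.real = true) : (x.fl σ τ).real = true := by
  obtain ⟨x0, x2, x4, x6, rfl⟩ := cp_real hx
  cases σ <;> cases τ <;> simp [Z8.fl, Z8.real]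

private theorem cp_ev_mul {r t : S} {b : ℤ} (hr : r ^ 2 = 3) (ht : t ^ 2 = (b : S)) {x y : Z8}
    (hx : x.real = true) (hy : y.real = true) :
    ev 0 r t (x.mul b y) = ev 0 r t x * ev 0 r t y := by
  obtain ⟨x0, x2, x4, x6, rfl⟩ := cp_real hx
  obtain ⟨y0, y2, y4, y6, rfl⟩ := cp_real hy
  simp only [Z8.mul, ev]
  push_cast
  linear_combination (-((x2 : S) * y2 + (x6 : S) * y6 * t ^ 2 + x2 * y6 * t + x6 * y2 * t)) * hr -
    ((x4 : S) * y4 + 3 * (x6 : S) * y6 + x4 * y6 * r + x6 * y4 * r) * ht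

private theorem cp_c0 (n : ℤ) (r t : S) : ev 0 r t ⟨n, 0, 0, 0, 0, 0, 0, 0⟩ = (n : S) := by
  simp [ev]

private theorem cp_okX {c : CertD} (hc : c.Ok) : c.X.real = true ∧
    Z8.eqb (c.X.mul c.b (c.X.fl c.s2 c.t2)) ⟨-2, 0, 0, 0, 0, 0, 0, 0⟩ = true ∧
    Z8.eqb (c.X.bv.mul c.b (c.X.fl c.s3 c.t3))
      ((Z8.mk (-4) 0 0 0 0 0 0 0).add (c.X.smul (-1))) = true ∧
    Z8.eqb (((c.X.mul c.b ((Z8.mk 4 0 0 0 0 0 0 0).add ((c.X.smul (-7)).add
      ((c.X.mul c.b c.X).smul (-2)))))).smul c.m)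
    ((((Z8.mk 2 0 0 0 0 0 0 0).add (c.X.mul c.b c.X)).mul c.b
      ((Z8.mk 2 0 0 0 0 0 0 0).add (c.X.mul c.b c.X))).smul 4) = true := by
  have h := hc.okX
  simp only [CertD.okX, Bool.and_eq_true] at h
  obtain ⟨⟨⟨h1, h2⟩, h3⟩, h4⟩ := h
  exact ⟨h1, h2, h3, h4⟩

private theorem cp_rc (n : ℤ) : (Z8.mk n 0 0 0 0 0 0 0).real = true := by
  simp [Z8.real]

private theorem cp_r1 {c : CertD} {r t : S} (hc : c.Ok) (hr : r ^ 2 = 3)
    (ht : t ^ 2 = (c.b : S)) :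
    ev 0 r t c.X * ev 0 (sg1 c.s2 r) (sg1 c.t2 t) c.X = -2 := by
  obtain ⟨h1, h2, -, -⟩ := cp_okX hc
  have ht' : t ^ 2 = ((c.b : ℤ) : S) := by rw [ht, Int.cast_natCast]
  have h3 := eqb_ev h2 0 r t
  rw [cp_ev_mul hr ht' h1 (cp_fl _ _ h1), ev_fl, cp_c0] at h3
  rw [h3]
  push_cast
  ring

private theorem cp_r2 {c : CertD} {r t : S} (hc : c.Ok) (hr : r ^ 2 = 3)
    (ht : t ^ 2 = (c.b : S)) :
    (1 - 2 * ev 0 r t c.X) * ev 0 (sg1 c.s3 r) (sg1 c.t3 t) c.X = -(4 + ev 0 r t c.X) := by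
  obtain ⟨h1, -, h2, -⟩ := cp_okX hc
  have ht' : t ^ 2 = ((c.b : ℤ) : S) := by rw [ht, Int.cast_natCast]
  have h3 := eqb_ev h2 0 r t
  have hb : c.X.bv.real = true := cp_add (cp_rc 1) (cp_smul (-2) h1)
  have hb' : ev 0 r t c.X.bv = 1 - 2 * ev 0 r t c.X := by
    rw [Z8.bv, ev_add, ev_smul, cp_c0]
    push_cast
    ring
  rw [cp_ev_mul hr ht' hb (cp_fl _ _ h1), ev_fl, hb', ev_add, ev_smul, cp_c0] at h3
  rw [h3]
  push_cast
  ring

private theorem cp_r3 {c : CertD} {r t : S} (hc : c.Ok) (hr : r ^ 2 = 3)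
    (ht : t ^ 2 = (c.b : S)) :
    (c.m : S) * (ev 0 r t c.X * (4 - 7 * ev 0 r t c.X - 2 * ev 0 r t c.X ^ 2)) =
      4 * (2 + ev 0 r t c.X ^ 2) ^ 2 := by
  obtain ⟨h1, -, -, h2⟩ := cp_okX hc
  have ht' : t ^ 2 = ((c.b : ℤ) : S) := by rw [ht, Int.cast_natCast]
  have h3 := eqb_ev h2 0 r t
  have h4 : (c.X.mul c.b c.X).real = true := cp_mul _ h1 h1
  have h5 : ((Z8.mk 2 0 0 0 0 0 0 0).add (c.X.mul c.b c.X)).real = true := cp_add (cp_rc 2) h4
  have h6 : ((Z8.mk 4 0 0 0 0 0 0 0).add ((c.X.smul (-7)).add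
      ((c.X.mul c.b c.X).smul (-2)))).real = true :=
    cp_add (cp_rc 4) (cp_add (cp_smul _ h1) (cp_smul _ h4))
  rw [ev_smul, cp_ev_mul hr ht' h1 h6, ev_smul, cp_ev_mul hr ht' h5 h5, ev_add, ev_add, ev_add,
    ev_smul, ev_smul, cp_ev_mul hr ht' h1 h1, cp_c0, cp_c0] at h3
  push_cast at h3
  linear_combination h3

theorem CertD.orb (hc : c.Ok) (hq : 4 * q4 = 1) (hr : r ^ 2 = 3) (ht : t ^ 2 = (c.b : S)) :
    Orb (c.x q4 r t) (c.x q4 (sg1 c.s2 r) (sg1 c.t2 t)) (c.x q4 (sg1 c.s3 r) (sg1 c.t3 t))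
      (c.x q4 (sg1 (xor c.s2 c.s3) r) (sg1 (xor c.t2 c.t3) t)) := by
  have key : ∀ r' t' : S, 4 * c.x q4 r' t' = ev 0 r' t' c.X := by
    intro r' t'
    unfold CertD.x
    linear_combination (ev 0 r' t' c.X) * hq
  have k1 : ∀ r' t' : S, r' ^ 2 = 3 → t' ^ 2 = (c.b : S) →
      8 * c.x q4 r' t' * c.x q4 (sg1 c.s2 r') (sg1 c.t2 t') = -1 := by
    intro r' t' h1 h2
    have h3 := cp_r1 hc h1 h2
    rw [← key, ← key] at h3
    linear_combination 2 * q4 * h3 -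
      (8 * c.x q4 r' t' * c.x q4 (sg1 c.s2 r') (sg1 c.t2 t') + 1) * hq
  have k2 : ∀ r' t' : S, r' ^ 2 = 3 → t' ^ 2 = (c.b : S) →
      (1 - 8 * c.x q4 r' t') * c.x q4 (sg1 c.s3 r') (sg1 c.t3 t') = -(1 + c.x q4 r' t') := by
    intro r' t' h1 h2
    have h3 := cp_r2 hc h1 h2
    rw [← key, ← key] at h3
    linear_combination q4 * h3 -
      ((1 - 8 * c.x q4 r' t') * c.x q4 (sg1 c.s3 r') (sg1 c.t3 t') + (1 + c.x q4 r' t')) * hq
  have s1 : ∀ σ : Bool, sg1 σ r ^ 2 = 3 := fun σ => by rw [sg1_sq, hr]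
  have s2 : ∀ σ : Bool, sg1 σ t ^ 2 = (c.b : S) := fun σ => by rw [sg1_sq, ht]
  refine ⟨k1 r t hr ht, ?_, k2 r t hr ht, ?_, ?_, ?_⟩
  · have h := k1 (sg1 c.s3 r) (sg1 c.t3 t) (s1 _) (s2 _)
    rwa [sg1_sg1, sg1_sg1] at h
  · have h := k2 (sg1 c.s3 r) (sg1 c.t3 t) (s1 _) (s2 _)
    rw [sg1_sg1, sg1_sg1, Bool.xor_self, Bool.xor_self] at h
    exact h
  · have h := k2 (sg1 c.s2 r) (sg1 c.t2 t) (s1 _) (s2 _)
    rwa [sg1_sg1, sg1_sg1, Bool.xor_comm c.s3 c.s2, Bool.xor_comm c.t3 c.t2] at h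
  · have h := k2 (sg1 (xor c.s2 c.s3) r) (sg1 (xor c.t2 c.t3) t) (s1 _) (s2 _)
    have e : ∀ a b : Bool, xor b (xor a b) = a := by decide
    rw [sg1_sg1, sg1_sg1, e c.s2 c.s3, e c.t2 c.t3] at h
    exact h

theorem CertD.quart (hc : c.Ok) (hq : 4 * q4 = 1) (hr : r ^ 2 = 3) (ht : t ^ 2 = (c.b : S)) :
    Quart (c.m : S) (c.x q4 r t) := by
  have key : 4 * c.x q4 r t = ev 0 r t c.X := by
    unfold CertD.x
    linear_combination (ev 0 r t c.X) * hq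
  have h3 := cp_r3 hc hr ht
  rw [← key] at h3
  have h16 : 16 * q4 ^ 2 = 1 := by linear_combination (4 * q4 + 1) * hq
  unfold Quart
  linear_combination q4 ^ 2 * h3 - ((c.m : S) * (c.x q4 r t * (1 - 7 * c.x q4 r t -
    8 * c.x q4 r t ^ 2)) - (1 + 8 * c.x q4 r t ^ 2) ^ 2) * h16

end Pool.Agent.Lib.MP_afcc06_nt
end
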