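import Pool.Agent.Lib.MP_afcc06_nt.Defs
import Pool.Agent.Lib.MP_d4c4f0_nt.ZS.C04a
import Pool.Agent.Lib.MP_afcc06_nt.CertPt
import Pool.Agent.Lib.MP_d4c4f0_nt.ZS.B08
import Pool.Agent.Lib.MP_afcc06_nt.OrbFacts
import Pool.Agent.Lib.MP_d4c4f0_nt.ZS.B11b
import Pool.Agent.Lib.MP_d4c4f0_nt.ZS.A06
import Pool.Agent.Lib.MP_d4c4f0_nt.ZS.D02
import Pool.Agent.Lib.MP_d4c4f0_nt.ZS.B09
import Pool.Agent.Lib.MP_d4c4f0_nt.ZS.A16

section

section

/-!
# Coef: the coefficient `cf p x` from a homomorphism of degree `p`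

`coeff_of_isogeny` (B17) with `A1 = ea x`, `B1 = eb x`, `A2 = ea y`, `B2 = eb y` (`ea^2 - 4 eb = 1 - 8x`); square roots exist since `K` is
algebraically closed; `‖mu‖ = ‖p‖` and `p / mu = ρ g` from `mu * (ρ g) = p`. It gives `ν` with `‖cf - ρ g ν‖ ≤ ‖p‖^2`,
`ν^4 (1-8y) = (1-8x)^p`, `‖ea y ν^2 - (ea x)^p‖ ≤ ‖p‖`, `‖ν‖ = 1`. With `hF`: `‖ν^2 - 1‖ ≤ ‖p‖`. Template: B18b.lean, B18c.lean.
-/

set_option autoImplicit false

namespace Pool.Agent.Lib.MP_afcc06_nt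

open PowerSeries Pool.Agent.Lib.MP_d4c4f0_nt

variable {K : Type*} [NormedField K] [IsUltrametricDist K] [CharZero K] [IsAlgClosed K]

omit [CharZero K] [IsAlgClosed K] in
private theorem coef_add {a b : K} {c : ℝ} (ha : ‖a‖ ≤ c) (hb : ‖b‖ ≤ c) : ‖a + b‖ ≤ c :=
  (IsUltrametricDist.norm_add_le_max a b).trans (max_le ha hb)

omit [CharZero K] [IsAlgClosed K] in
private theorem coef_sub {a b : K} {c : ℝ} (ha : ‖a‖ ≤ c) (hb : ‖b‖ ≤ c) : ‖a - b‖ ≤ c := by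
  rw [sub_eq_add_neg]
  exact coef_add ha (by rwa [norm_neg])

omit [CharZero K] [IsAlgClosed K] in
private theorem coef_ea {x : K} (hx : ‖x‖ ≤ 1) : ‖ea x‖ ≤ 1 ∧ ‖eb x‖ ≤ 1 := by
  have h4 : ‖(4 : K)‖ ≤ 1 := by
    have := IsUltrametricDist.norm_natCast_le_one K 4
    simpa using this
  have h8 : ‖(8 : K)‖ ≤ 1 := by
    have := IsUltrametricDist.norm_natCast_le_one K 8
    simpa using this
  have h16 : ‖(16 : K)‖ ≤ 1 := by
    have := IsUltrametricDist.norm_natCast_le_one K 16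
    simpa using this
  have h1 : ‖(1 : K)‖ ≤ 1 := by simp
  have hm : ∀ a b : K, ‖a‖ ≤ 1 → ‖b‖ ≤ 1 → ‖a * b‖ ≤ 1 := by
    intro a b ha hb
    rw [norm_mul]
    exact mul_le_one₀ ha (norm_nonneg _) hb
  have hpw : ∀ n : ℕ, ‖x ^ n‖ ≤ 1 := by
    intro n
    rw [norm_pow]
    exact pow_le_one₀ (norm_nonneg _) hx
  constructor
  · unfold ea
    exact coef_sub (coef_sub h1 (hm _ _ h4 hx)) (hm _ _ h8 (hpw 2))
  · unfold eb
    exact hm _ _ (hm _ _ h16 (hpw 3)) (coef_add h1 hx)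

theorem coef_gen {p : ℕ} (hp : p.Prime) (h3 : 3 < p)
    (hk : ∀ k : ℕ, 0 < k → k < p → ‖(k : K)‖ = 1) (h1 : ‖(p : K)‖ < 1) {x y mu ρ g : K}
    (hx : ‖x‖ ≤ 1) (hy : ‖y‖ ≤ 1) (hbx : ‖1 - 8 * x‖ = 1) (hby : ‖1 - 8 * y‖ = 1)
    (hA : ‖ea y‖ = 1) (hF : ‖ea x ^ p - ea y‖ ≤ ‖(p : K)‖) (hρ : ‖ρ‖ = 1) (hg : ‖g‖ = 1)
    (hmu : mu * (ρ * g) = p) (hd : OD x y mu p) (hi : IS x y mu) :
    ‖cf p x ^ 2 - ρ ^ 2 * g ^ 2‖ ≤ ‖(p : K)‖ ∧
      ‖cf p x ^ 4 * (1 - 8 * y) - ρ ^ 4 * (g ^ 2) ^ 2 * (1 - 8 * x) ^ p‖ ≤ ‖(p : K)‖ ^ 2 := by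
  obtain ⟨nA1, nB1⟩ := coef_ea hx
  obtain ⟨nA2, nB2⟩ := coef_ea hy
  have q1 : ea x ^ 2 - 4 * eb x = 1 - 8 * x := by
    simp only [ea, eb]
    ring
  have q2 : ea y ^ 2 - 4 * eb y = 1 - 8 * y := by
    simp only [ea, eb]
    ring
  obtain ⟨β1, hβ1⟩ := IsAlgClosed.exists_pow_nat_eq (1 - 8 * x) (n := 2) (by norm_num)
  obtain ⟨β2, hβ2⟩ := IsAlgClosed.exists_pow_nat_eq (1 - 8 * y) (n := 2) (by norm_num)
  have hp0 : (p : K) ≠ 0 := by exact_mod_cast hp.ne_zero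
  have hmu0 : mu ≠ 0 := by
    rintro rfl
    rw [zero_mul] at hmu
    exact hp0 hmu.symm
  have hmun : ‖mu‖ = ‖(p : K)‖ := by
    rw [← hmu, norm_mul, norm_mul, hρ, hg, mul_one, mul_one]
  have hQ : (p : K) / mu = ρ * g := by
    rw [← hmu]
    field_simp
  unfold OD at hd
  unfold IS at hi
  rw [← q2] at hd hi
  obtain ⟨ν, c1, c2, c3, c4⟩ := coeff_of_isogeny hp h3 hk h1 nA1 nB1 nA2 nB2
    (by rw [q1]; exact hbx) (by rw [q2]; exact hby) (by rw [q1]; exact hβ1)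
    (by rw [q2]; exact hβ2) hmun hd hi
  rw [q1, q2] at c2
  rw [hQ] at c1
  obtain ⟨c, hc⟩ : ∃ c : K, c = cf p x := ⟨_, rfl⟩
  have hc' : tn ((p - 1) / 2) (ea x) (eb x) = c := by rw [hc]; rfl
  rw [hc'] at c1
  rw [← hc]
  obtain ⟨Q, hQd⟩ : ∃ Q : K, Q = ρ * g := ⟨_, rfl⟩
  rw [← hQd] at c1
  have hQn : ‖Q‖ = 1 := by rw [hQd, norm_mul, hρ, hg, one_mul]
  have hνn : ‖Q * ν‖ = 1 := by rw [norm_mul, hQn, c4, one_mul]
  have hp2 : ‖(p : K)‖ ^ 2 ≤ ‖(p : K)‖ := by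
    calc ‖(p : K)‖ ^ 2 = ‖(p : K)‖ * ‖(p : K)‖ := sq _
      _ ≤ ‖(p : K)‖ * 1 := mul_le_mul_of_nonneg_left h1.le (norm_nonneg _)
      _ = _ := mul_one _
  have hcn : ‖c‖ ≤ 1 := by
    have e : c = (c - Q * ν) + Q * ν := by ring
    rw [e]
    exact coef_add (c1.trans (hp2.trans h1.le)) hνn.le
  have hcp : ‖c + Q * ν‖ ≤ 1 := coef_add hcn hνn.le
  have hcp2 : ‖c ^ 2 + (Q * ν) ^ 2‖ ≤ 1 := by
    refine coef_add ?_ ?_
    · rw [norm_pow]; exact pow_le_one₀ (norm_nonneg _) hcn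
    · rw [norm_pow, hνn, one_pow]
  have hν2 : ‖ν ^ 2 - 1‖ ≤ ‖(p : K)‖ := by
    have e : ea y * (ν ^ 2 - 1) = (ea y * ν ^ 2 - ea x ^ p) + (ea x ^ p - ea y) := by ring
    have e2 : ‖ea y * (ν ^ 2 - 1)‖ ≤ ‖(p : K)‖ := by
      rw [e]
      exact coef_add c3 hF
    rwa [norm_mul, hA, one_mul] at e2
  constructor
  · have e : c ^ 2 - ρ ^ 2 * g ^ 2 = (c - Q * ν) * (c + Q * ν) + Q ^ 2 * (ν ^ 2 - 1) := by
      rw [hQd]; ring
    rw [e]
    refine coef_add ?_ ?_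
    · rw [norm_mul]
      calc ‖c - Q * ν‖ * ‖c + Q * ν‖ ≤ ‖(p : K)‖ ^ 2 * 1 :=
            mul_le_mul c1 hcp (norm_nonneg _) (by positivity)
        _ ≤ _ := by rw [mul_one]; exact hp2
    · rw [norm_mul, norm_pow, hQn, one_pow, one_mul]
      exact hν2
  · have e1 : c ^ 4 * (1 - 8 * y) - ρ ^ 4 * (g ^ 2) ^ 2 * (1 - 8 * x) ^ p =
        (1 - 8 * y) * ((c - Q * ν) * ((c + Q * ν) * (c ^ 2 + (Q * ν) ^ 2))) := by
      rw [← c2, hQd]
      ring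
    rw [e1, norm_mul, hby, one_mul, norm_mul, norm_mul]
    calc ‖c - Q * ν‖ * (‖c + Q * ν‖ * ‖c ^ 2 + (Q * ν) ^ 2‖) ≤ ‖(p : K)‖ ^ 2 * (1 * 1) := by
          refine mul_le_mul c1 (mul_le_mul hcp hcp2 (norm_nonneg _) zero_le_one) ?_ (by positivity)
          exact mul_nonneg (norm_nonneg _) (norm_nonneg _)
      _ = _ := by ring

end Pool.Agent.Lib.MP_afcc06_nt
end

section

/-!
# Deg2: degrees of the homomorphisms from the curve of `x` to itself and to the curve of `x2`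

Notation and tools: see Deg.lean. `λ± = t6(x) (3±s)/6`.

* `deg_two`: `A± = t2(x)(3±s)/2`: `OD x x2 A± (3q)` from `λ±` and `OD.comp3` (`x6 → x2`: `(h.s6)`, multiplier
  `t3(x6) λ± = 3 t2(x) (3±s)/6`). `ED x x2 (t2 x) 2` (`ED.two`). `g(n) = deg(A+ + n t2)`: `par` gives
  `g(n+1) + g(n-1) = 2 g(n) + 4`; `g(0) = 3q`, `A+ - 3 t2 = -A-`, `g(-3) = 3q`. So `g(-1) = g(-2) = 3q-4`:
  `OD x x2 (t2 (1+s)/2) (3q-4)`, and `OD x x2 (t2 (1-s)/2) (3q-4)` (`A+ - 2 t2 = t2 (s-1)/2`). `ladder` with `P = t2 (1+s)/2`,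
  `P' = t2 (1-s)/2`, `P + P' = t2`, `m = (u+v)/2`, `n = (u-v)/2`.
* `deg_one`: `E± = 3 ± s`: `ED x x E± (6q)` from `λ±`, `OD.comp3` (`x6 → x2`), `OD.comp2` (`x2 → x`, `h.s2`); the multiplier is
  `-(3±s)`. `OD x x 1 1`. Let `a = deg(s+2)`, `a' = deg(s-2)`, `c = deg s`, `d = deg(s+4)`, `d' = deg(s-4)`. `par` for `1, E+`:
  `d + a = 2 + 12q`; for `1, E-`: `d' + a' = 2 + 12q` (`1 + E- = 4 - s`, `1 - E- = s - 2`); `par` for `s+2, 2` (`2 = 2*1` even of degree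
  `4`): `d + c = 2a + 8`; for `s-2, 2`: `c + d' = 2a' + 8`; for `s, 2`: `a + a' = 2c + 8`. So `a = 6q - 5`, `c = 6q-9`
  (`omega`; uniqueness by `OddDeg.unique`). `ladder` with `P = 1`, `P' = s + 2`, `P + P' = 3+s`: `m = u - 2v`, `n = v`.
-/

set_option autoImplicit false

namespace Pool.Agent.Lib.MP_afcc06_nt

open PowerSeries Pool.Agent.Lib.MP_d4c4f0_nt

variable {K : Type*} [Field K] [CharZero K] {x x2 x3 x6 w s : K} {q : ℕ}

/-- The multiplier of the composition `x → x6 → x2`. -/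
private theorem mul36 (hw : w ^ 2 = -3) (h : Orb x x2 x3 x6) (r : K) :
    (1 - 8 * x6) / w * (-4 * (1 + x) / w * (r / 6)) = 4 * x * (r / 2) := by
  have hw0 : w ≠ 0 := by
    rintro rfl
    norm_num at hw
  have h1 : (1 - 8 * x6) * (1 + x) = 9 * x := by
    have e1 : (1 - 8 * x6) * (1 - 8 * x2) = 9 := h.s6.b13
    linear_combination x * e1 - (1 - 8 * x6) * h.xb2
  have h2 : (1 - 8 * x6) / w * (-4 * (1 + x) / w * (r / 6)) =
      -4 * ((1 - 8 * x6) * (1 + x)) / w ^ 2 * (r / 6) := by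
    field_simp
  rw [h2, h1, hw]
  ring

private theorem A_pos (hw : w ^ 2 = -3) (h : Orb x x2 x3 x6) (hq : QI w s x x6 q) :
    OD x x2 (4 * x * ((3 + s) / 2)) (3 * q) := by
  have h1 := OD.comp3 hw h.s6 hq.pos
  rwa [mul36 hw h] at h1

private theorem A_neg (hw : w ^ 2 = -3) (h : Orb x x2 x3 x6) (hq : QI w s x x6 q) :
    OD x x2 (4 * x * ((3 - s) / 2)) (3 * q) := by
  have h1 := OD.comp3 hw h.s6 hq.neg
  rwa [mul36 hw h] at h1

private theorem E_pos (hw : w ^ 2 = -3) (h : Orb x x2 x3 x6) (hq : QI w s x x6 q) :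
    ED x x (3 + s) (6 * q) := by
  have h1 : ED x x _ _ := OD.comp2 h.s2 (A_pos hw h hq)
  have h2 : ED x x _ _ := EvenDeg.neg h1
  have e1 : -(4 * x2 * (4 * x * ((3 + s) / 2))) = 3 + s := by
    linear_combination (-(3 + s)) * h.h12
  have e2 : 2 * (3 * q) = 6 * q := by ring
  rwa [e1, e2] at h2

private theorem E_neg (hw : w ^ 2 = -3) (h : Orb x x2 x3 x6) (hq : QI w s x x6 q) :
    ED x x (3 - s) (6 * q) := by
  have h1 : ED x x _ _ := OD.comp2 h.s2 (A_neg hw h hq)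
  have h2 : ED x x _ _ := EvenDeg.neg h1
  have e1 : -(4 * x2 * (4 * x * ((3 - s) / 2))) = 3 - s := by
    linear_combination (-(3 - s)) * h.h12
  have e2 : 2 * (3 * q) = 6 * q := by ring
  rwa [e1, e2] at h2

theorem deg_two (hw : w ^ 2 = -3) (h : Orb x x2 x3 x6) (hq : QI w s x x6 q) {u v : ℤ}
    (hu : Odd u) (hv : Odd v) :
    ∃ k : ℕ, OD x x2 (4 * x * ((u + v * s) / 2)) k ∧
      2 * (k : ℤ) = u ^ 2 + 3 * (2 * q - 3) * v ^ 2 := by
  have ho : Om (-2 * ea x) (1 - 8 * x) (omS (ea x) (eb x)) := om_x x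
  have hb : 1 - 8 * x2 ≠ 0 := h.s2.b_ne
  have hab : (-2 * ea x2) ^ 2 - 4 * (1 - 8 * x2) ≠ 0 := h.s2.disc_ne
  have t2 : ED x x2 (4 * x) 2 := ED.two h
  have Ap := A_pos hw h hq
  have An := A_neg hw h hq
  -- the three parallelograms
  obtain ⟨-, d1, -, g1, r1⟩ := par ho hb hab Ap t2
  obtain ⟨d0, d2, g0, g2, r2⟩ := par ho hb hab g1 t2
  obtain ⟨d1', d3, g1', g3, r3⟩ := par ho hb hab g2 t2
  have f0 : d0 = 3 * q := by
    have e1 : 4 * x * ((3 + s) / 2) - 4 * x + 4 * x = 4 * x * ((3 + s) / 2) := by ring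
    rw [e1] at g0
    exact g0.unique Ap
  have f1 : d1' = d1 := by
    have e1 : 4 * x * ((3 + s) / 2) - 4 * x - 4 * x + 4 * x = 4 * x * ((3 + s) / 2) - 4 * x := by
      ring
    rw [e1] at g1'
    exact g1'.unique g1
  have f3 : d3 = 3 * q := by
    have e1 : 4 * x * ((3 + s) / 2) - 4 * x - 4 * x - 4 * x = -(4 * x * ((3 - s) / 2)) := by
      ring
    rw [e1] at g3
    exact g3.unique An.neg
  subst f0 f1 f3
  have hd12 : (d1' : ℤ) = 3 * q - 4 ∧ d2 = d1' := by omega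
  obtain ⟨hd1, rfl⟩ := hd12
  have hP : OddDeg (omS (ea x) (eb x)) (-2 * ea x2) (1 - 8 * x2) (4 * x * ((1 + s) / 2)) d2 := by
    have e1 : 4 * x * ((3 + s) / 2) - 4 * x = 4 * x * ((1 + s) / 2) := by ring
    rw [e1] at g1
    exact g1
  have hP' : OddDeg (omS (ea x) (eb x)) (-2 * ea x2) (1 - 8 * x2) (4 * x * ((1 - s) / 2)) d2 := by
    have h1 := g2.neg
    have e1 : -(4 * x * ((3 + s) / 2) - 4 * x - 4 * x) = 4 * x * ((1 - s) / 2) := by ring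
    rw [e1] at h1
    exact h1
  have hE : EvenDeg (omS (ea x) (eb x)) (-2 * ea x2) (1 - 8 * x2)
      (4 * x * ((1 + s) / 2) + 4 * x * ((1 - s) / 2)) 2 := by
    have e1 : 4 * x * ((1 + s) / 2) + 4 * x * ((1 - s) / 2) = 4 * x := by ring
    rw [e1]
    exact t2
  obtain ⟨i, rfl⟩ := hu
  obtain ⟨j, rfl⟩ := hv
  have hmn : Odd ((i + j + 1) + (i - j)) := ⟨i, by ring⟩
  obtain ⟨k, hk, hkF⟩ := ladder ho hb hab hP hP' hE hmn
  refine ⟨k, ?_, ?_⟩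
  · have e1 : ((i + j + 1 : ℤ) : K) * (4 * x * ((1 + s) / 2)) +
        ((i - j : ℤ) : K) * (4 * x * ((1 - s) / 2)) =
        4 * x * ((((2 * i + 1 : ℤ) : K) + ((2 * j + 1 : ℤ) : K) * s) / 2) := by
      push_cast
      ring
    rw [e1] at hk
    exact hk
  · rw [hkF, hd1]
    push_cast
    ring

theorem deg_one (hw : w ^ 2 = -3) (h : Orb x x2 x3 x6) (hq : QI w s x x6 q) {u v : ℤ}
    (huv : Odd (u + v)) :
    ∃ k : ℕ, OD x x (u + v * s) k ∧ (k : ℤ) = u ^ 2 + 3 * (2 * q - 3) * v ^ 2 := by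
  have ho : Om (-2 * ea x) (1 - 8 * x) (omS (ea x) (eb x)) := om_x x
  have hb : 1 - 8 * x ≠ 0 := h.b_ne
  have hab : (-2 * ea x) ^ 2 - 4 * (1 - 8 * x) ≠ 0 := h.disc_ne
  have Ep := E_pos hw h hq
  have En := E_neg hw h hq
  have h1 : OddDeg (omS (ea x) (eb x)) (-2 * ea x) (1 - 8 * x) 1 1 := OD.one x
  have h2 : EvenDeg (omS (ea x) (eb x)) (-2 * ea x) (1 - 8 * x) 2 4 := by
    have h2 := h1.double hb hab
    rwa [mul_one, mul_one] at h2
  -- `1 ± E+`, `1 ± E-`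
  obtain ⟨d, a, gd, ga, r1⟩ := par ho hb hab h1 Ep
  obtain ⟨d', a', gd', ga', r2⟩ := par ho hb hab h1 En
  have ka := ga.neg
  have ea1 : -(1 - (3 + s)) = s + 2 := by ring
  rw [ea1] at ka
  have ea2 : (1 : K) - (3 - s) = s - 2 := by ring
  rw [ea2] at ga'
  obtain ⟨d2, c, gd2, gc, r3⟩ := par ho hb hab ka h2
  obtain ⟨c', d2', gc', gd2', r4⟩ := par ho hb hab ga' h2
  have ec1 : s + 2 - 2 = s := by ring
  rw [ec1] at gc
  have ec2 : s - 2 + 2 = s := by ring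
  rw [ec2] at gc'
  have f1 : c' = c := gc'.unique gc
  have f2 : d2 = d := by
    have e1 : s + 2 + 2 = 1 + (3 + s) := by ring
    rw [e1] at gd2
    exact gd2.unique gd
  have f3 : d2' = d' := by
    have e1 : s - 2 - 2 = -(1 + (3 - s)) := by ring
    rw [e1] at gd2'
    exact gd2'.unique gd'.neg
  obtain ⟨a2, a2', ga2, ga2', r5⟩ := par ho hb hab gc h2
  have f4 : a2 = a := ga2.unique ka
  have f5 : a2' = a' := ga2'.unique ga'
  subst f1 f2 f3 f4 f5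
  have ha : (a2 : ℤ) = 6 * q - 5 := by omega
  have hE : EvenDeg (omS (ea x) (eb x)) (-2 * ea x) (1 - 8 * x) (1 + (s + 2)) (6 * q) := by
    have e1 : 1 + (s + 2) = 3 + s := by ring
    rw [e1]
    exact Ep
  have hmn : Odd ((u - 2 * v) + v) := by
    obtain ⟨j, hj⟩ := huv
    exact ⟨j - v, by linarith⟩
  obtain ⟨k, hk, hkF⟩ := ladder ho hb hab h1 ka hE hmn
  refine ⟨k, ?_, ?_⟩
  · have e1 : ((u - 2 * v : ℤ) : K) * 1 + ((v : ℤ) : K) * (s + 2) = (u : K) + (v : K) * s := by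
      push_cast
      ring
    rw [e1] at hk
    exact hk
  · rw [hkF, ha]
    push_cast
    ring

end Pool.Agent.Lib.MP_afcc06_nt
end

section

/-!
# IntMul: integrality of the homomorphisms between the four curves

Notation: see Deg.lean. `IS.comb` with: `six`: `λ+, λ-`, `m = (u+v)/2`, `n = (u-v)/2`. `three`: `t3(x)` (`IS.one`, `IS.comp3`) and
`t2(x6) λ+ = -t3(x)(3+s)/3` (`IS.comp2`, `x6 → x3` is `h.s6`): `t3 (3u+vs)/3 = (u-v) t3 + v t3 (3+s)/3`. `two`: `t2(x)`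
(`IS.one`, `IS.comp2`) and `t3(x6) λ+ = t2(x) (3+s)/2` (`IS.comp3`, `x6 → x2`): `t2 (u+vs)/2 = v t2 (3+s)/2 + ((u-3v)/2) t2`.
`one`: `1` and `t2(x2) t3(x6) λ+ = -(3+s)`: `u + vs = v (3+s) + (u - 3v)`.
-/

set_option autoImplicit false

namespace Pool.Agent.Lib.MP_afcc06_nt

open PowerSeries Pool.Agent.Lib.MP_d4c4f0_nt

variable {K : Type*} [NormedField K] [IsUltrametricDist K] [CharZero K] {x x2 x3 x6 w s : K}

omit [IsUltrametricDist K] in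
private theorem w_ne (hw : w ^ 2 = -3) : w ≠ 0 := by
  intro h
  rw [h] at hw
  norm_num at hw

theorem int_six (h2 : ‖(2 : K)‖ = 1) (hx6 : ‖x6‖ ≤ 1) (hq : QInt w s x x6) {u v : ℤ}
    (hu : Odd u) (hv : Odd v) : IS x x6 (-4 * (1 + x) / w * ((3 * u + v * s) / 6)) := by
  obtain ⟨a, rfl⟩ := hu
  obtain ⟨b, rfl⟩ := hv
  have h := IS.comb h2 hx6 hq.pos hq.neg (a + b + 1) (a - b)
  convert h using 1
  push_cast
  ring

omit [IsUltrametricDist K] in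
private theorem lam_three (hw : w ^ 2 = -3) (h : Orb x x2 x3 x6) :
    4 * x6 * (-4 * (1 + x) / w * ((3 + s) / 6)) = -((1 - 8 * x) / w * ((3 + s) / 3)) := by
  have hw0 := w_ne hw
  have e1 : 8 * x6 * (1 + x) = 1 - 8 * x := by
    linear_combination -(1 - 8 * x) * h.h36 + 8 * x6 * h.h13
  have : 4 * x6 * (-4 * (1 + x) / w * ((3 + s) / 6)) =
      (8 * x6 * (1 + x)) * (-2) * ((3 + s) / 6) / w := by
    ring
  rw [this, e1]
  ring

theorem int_three (h2 : ‖(2 : K)‖ = 1) (h3 : ‖(3 : K)‖ = 1) (hw : w ^ 2 = -3)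
    (h : Orb x x2 x3 x6) (hx : ‖x‖ ≤ 1) (hx2 : ‖x2‖ ≤ 1) (hx3 : ‖x3‖ ≤ 1) (hx6 : ‖x6‖ ≤ 1)
    (hq : QInt w s x x6) (u v : ℤ) : IS x x3 ((1 - 8 * x) / w * ((3 * u + v * s) / 3)) := by
  have hA := IS.comp3 h2 h3 hw h hx hx3 (IS.one hx h2)
  have hB := IS.comp2 h2 h.s6 hx6 hx3 hq.pos
  rw [lam_three hw h] at hB
  have hC := IS.comb h2 hx3 hA hB (u - v) (-v)
  convert hC using 1
  push_cast
  ring

omit [IsUltrametricDist K] in
private theorem lam_two (hw : w ^ 2 = -3) (h : Orb x x2 x3 x6) :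
    (1 - 8 * x6) / w * (-4 * (1 + x) / w * ((3 + s) / 6)) = 4 * x * ((3 + s) / 2) := by
  have hw0 := w_ne hw
  have e := h.e16
  have e1 : (1 + x) * (1 - 8 * x6) = 9 * x := by linear_combination -e
  have : (1 - 8 * x6) / w * (-4 * (1 + x) / w * ((3 + s) / 6)) =
      ((1 + x) * (1 - 8 * x6)) * (-4) * ((3 + s) / 6) / w ^ 2 := by
    field_simp
  rw [this, e1, hw]
  ring

theorem int_two (h2 : ‖(2 : K)‖ = 1) (h3 : ‖(3 : K)‖ = 1) (hw : w ^ 2 = -3)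
    (h : Orb x x2 x3 x6) (hx : ‖x‖ ≤ 1) (hx2 : ‖x2‖ ≤ 1) (hx3 : ‖x3‖ ≤ 1) (hx6 : ‖x6‖ ≤ 1)
    (hq : QInt w s x x6) {u v : ℤ} (hu : Odd u) (hv : Odd v) :
    IS x x2 (4 * x * ((u + v * s) / 2)) := by
  have hA := IS.comp2 h2 h hx hx2 (IS.one hx h2)
  have hB := IS.comp3 h2 h3 hw h.s6 hx6 hx2 hq.pos
  rw [lam_two hw h] at hB
  obtain ⟨a, rfl⟩ := hu
  obtain ⟨b, rfl⟩ := hv
  have hC := IS.comb h2 hx2 hA hB (a - 3 * b - 1) (2 * b + 1)
  convert hC using 1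
  push_cast
  ring

theorem int_one (h2 : ‖(2 : K)‖ = 1) (h3 : ‖(3 : K)‖ = 1) (hw : w ^ 2 = -3)
    (h : Orb x x2 x3 x6) (hx : ‖x‖ ≤ 1) (hx2 : ‖x2‖ ≤ 1) (hx3 : ‖x3‖ ≤ 1) (hx6 : ‖x6‖ ≤ 1)
    (hq : QInt w s x x6) (u v : ℤ) : IS x x (u + v * s) := by
  have hA := IS.one hx h2
  have hB := IS.comp3 h2 h3 hw h.s6 hx6 hx2 hq.pos
  rw [lam_two hw h] at hB
  have hD := IS.comp2 h2 h.s2 hx2 hx hB
  have hC := IS.comb h2 hx hA hD (u - 3 * v) (-v)
  convert hC using 1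
  push_cast
  linear_combination (v * (3 + s)) * h.h12

end Pool.Agent.Lib.MP_afcc06_nt
end

section

/-!
# Deg: degrees of the homomorphisms between the four curves

Notation: `t2(x) = 4x`, `t3(x) = (1-8x)/w`, `t6(x) = t3(x) t2(x3) = -4(1+x)/w`, `b = 2q-3`, `λ± = t6(x) (3±s)/6`.
Products: `t2(x) t2(x2) = -2`, `t3(x) t3(x3) = -3`, `t3(x6) t6(x) = 3 t2(x)`, `t2(x6) t6(x) = -2 t3(x)`,
`t6(x6) t6(x) = -6` (all from `Orb`, `w^2 = -3`). Tools: `par` (B06), `ladder` (B08), `OddDeg.double` (B07), `OddDeg.unique`,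
`OddDeg.neg`, `EvenDeg.neg` (B06b); target conditions `1 - 8y ≠ 0` (`Orb.b_ne`), `Orb.disc_ne`; `om_x`.

* `deg_six`: `ladder` with `P = λ+`, `P' = λ-`, `P + P' = t6(x)`: `ED x x6 (t6 x) 6` from `OD.one`, `OD.comp3` (`x → x3`),
  `OD.comp2` (`x3 → x6`). `m = (u+v)/2`, `n = (u-v)/2`, `m + n = u` odd; `k = q m^2 + (6-2q) m n + q n^2`.
* `deg_three`: `A = t3(x)`: `OD x x3 A 3`. `E± = t3(x)(1 ± s/3)`: `ED x x3 E± (2q)` from `λ±` and `OD.comp2` (`x6 → x3`; up to sign,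
  multiplier `t2(x6) λ± = -t3(x)(3±s)/3`). Put `β = t3(x) s/3 = E+ - A`. `par` for `A, E+`: `X + c = 2(3+2q)`, `X = deg(A+E+)`,
  `c = deg β`. `par` for `A, E-`: `X' + c = 2(3+2q)`, `X' = deg(A + E-)` (`A - E- = β`... `A - E- = t3 s/3`). `par` for `β, 2A`
  (`ED x x3 (2A) 12`): `deg(β + 2A) + deg(β - 2A) = 2(c + 12)`, `β + 2A = A + E+`, `β - 2A = -(A + E-)`. So `c = 2q-3` (`omega`).
  Then `ladder` with `P = A`, `P' = β`, `P + P' = E+`: `m = u`, `n = v`.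
-/

set_option autoImplicit false

namespace Pool.Agent.Lib.MP_afcc06_nt

open PowerSeries Pool.Agent.Lib.MP_d4c4f0_nt

variable {K : Type*} [Field K] [CharZero K] {x x2 x3 x6 w s : K} {q : ℕ}

/-- The 6-isogeny. -/
theorem ED.six (hw : w ^ 2 = -3) (h : Orb x x2 x3 x6) : ED x x6 (-4 * (1 + x) / w) 6 := by
  have h3 : OD x x3 ((1 - 8 * x) / w * 1) (3 * 1) := OD.comp3 hw h (OD.one x)
  have h6 := OD.comp2 h.s3 h3
  have e : 4 * x3 * ((1 - 8 * x) / w * 1) = -4 * (1 + x) / w := by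
    rw [mul_one, ← mul_div_assoc]
    congr 1
    linear_combination 4 * h.h13
  rw [e] at h6
  exact h6

theorem deg_six (hw : w ^ 2 = -3) (h : Orb x x2 x3 x6) (hq : QI w s x x6 q) {u v : ℤ}
    (hu : Odd u) (hv : Odd v) :
    ∃ k : ℕ, OD x x6 (-4 * (1 + x) / w * ((3 * u + v * s) / 6)) k ∧
      2 * (k : ℤ) = 3 * u ^ 2 + (2 * q - 3) * v ^ 2 := by
  obtain ⟨a, rfl⟩ := hu
  obtain ⟨b, rfl⟩ := hv
  have hE : ED x x6 (-4 * (1 + x) / w * ((3 + s) / 6) + -4 * (1 + x) / w * ((3 - s) / 6)) 6 := by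
    have e : -4 * (1 + x) / w * ((3 + s) / 6) + -4 * (1 + x) / w * ((3 - s) / 6) =
        -4 * (1 + x) / w := by ring
    rw [e]
    exact ED.six hw h
  obtain ⟨k, hk, hk2⟩ := ladder (om_x x) (Orb.b_ne h.s6) (Orb.disc_ne h.s6) hq.pos hq.neg hE
    (m := a + b + 1) (n := a - b) ⟨a, by ring⟩
  refine ⟨k, ?_, ?_⟩
  · have e : -4 * (1 + x) / w * ((3 * ((2 * a + 1 : ℤ) : K) + ((2 * b + 1 : ℤ) : K) * s) / 6) =
        ((a + b + 1 : ℤ) : K) * (-4 * (1 + x) / w * ((3 + s) / 6)) +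
          ((a - b : ℤ) : K) * (-4 * (1 + x) / w * ((3 - s) / 6)) := by
      push_cast
      ring
    rw [e]
    exact hk
  · rw [hk2]
    push_cast
    ring

/-- The homomorphisms of multipliers `t3(x) (1 ± s/3)`. -/
private theorem dg_E (h : Orb x x2 x3 x6) {r : K}
    (hd : OD x x6 (-4 * (1 + x) / w * ((3 + r) / 6)) q) :
    ED x x3 ((1 - 8 * x) / w * ((3 + r) / 3)) (2 * q) := by
  have h1 := OD.comp2 h.s6 hd
  have e : 4 * x6 * (-4 * (1 + x) / w * ((3 + r) / 6)) = -((1 - 8 * x) / w * ((3 + r) / 3)) := by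
    have hh : x6 * (1 + x) * 8 = 1 - 8 * x := by
      linear_combination (8 * x6) * h.h13 - (1 - 8 * x) * h.h36
    have e1 : 4 * x6 * (-4 * (1 + x) / w * ((3 + r) / 6)) =
        -(x6 * (1 + x) * 8 / w * ((3 + r) / 3)) := by ring
    rw [e1, hh]
  rw [e] at h1
  have h2 := EvenDeg.neg h1
  rw [neg_neg] at h2
  exact h2

theorem deg_three (hw : w ^ 2 = -3) (h : Orb x x2 x3 x6) (hq : QI w s x x6 q) {u v : ℤ}
    (huv : Odd (u + v)) :
    ∃ k : ℕ, OD x x3 ((1 - 8 * x) / w * ((3 * u + v * s) / 3)) k ∧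
      (k : ℤ) = 3 * u ^ 2 + (2 * q - 3) * v ^ 2 := by
  have ho := om_x x
  have hb := Orb.b_ne h.s3
  have hab := Orb.disc_ne h.s3
  have hA : OddDeg (omS (ea x) (eb x)) (-2 * ea x3) (1 - 8 * x3) ((1 - 8 * x) / w) 3 := by
    have h3 : OD x x3 ((1 - 8 * x) / w * 1) (3 * 1) := OD.comp3 hw h (OD.one x)
    rw [mul_one] at h3
    exact h3
  have hEp : EvenDeg (omS (ea x) (eb x)) (-2 * ea x3) (1 - 8 * x3)
      ((1 - 8 * x) / w * ((3 + s) / 3)) (2 * q) := dg_E h hq.pos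
  have hEm : EvenDeg (omS (ea x) (eb x)) (-2 * ea x3) (1 - 8 * x3)
      ((1 - 8 * x) / w * ((3 - s) / 3)) (2 * q) := by
    have h1 : OD x x6 (-4 * (1 + x) / w * ((3 + -s) / 6)) q := by
      rw [← sub_eq_add_neg]
      exact hq.neg
    have h2 := dg_E h h1
    rw [← sub_eq_add_neg] at h2
    exact h2
  obtain ⟨X, c, hX, hc, hXc⟩ := par ho hb hab hA hEp
  obtain ⟨X', c', hX', hc', hXc'⟩ := par ho hb hab hA hEm
  have hβ : OddDeg (omS (ea x) (eb x)) (-2 * ea x3) (1 - 8 * x3)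
      ((1 - 8 * x) / w * (s / 3)) c := by
    have h1 := hc.neg
    have e : -((1 - 8 * x) / w - (1 - 8 * x) / w * ((3 + s) / 3)) =
        (1 - 8 * x) / w * (s / 3) := by ring
    rw [e] at h1
    exact h1
  have hβ' : OddDeg (omS (ea x) (eb x)) (-2 * ea x3) (1 - 8 * x3)
      ((1 - 8 * x) / w * (s / 3)) c' := by
    have e : (1 - 8 * x) / w - (1 - 8 * x) / w * ((3 - s) / 3) =
        (1 - 8 * x) / w * (s / 3) := by ring
    rw [e] at hc'
    exact hc'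
  have hcc := hβ.unique hβ'
  subst hcc
  obtain ⟨Y, Y', hY, hY', hYY⟩ := par ho hb hab hβ (hA.double hb hab)
  have e1 : (1 - 8 * x) / w * (s / 3) + 2 * ((1 - 8 * x) / w) =
      (1 - 8 * x) / w + (1 - 8 * x) / w * ((3 + s) / 3) := by ring
  have e2 : (1 - 8 * x) / w * (s / 3) - 2 * ((1 - 8 * x) / w) =
      -((1 - 8 * x) / w + (1 - 8 * x) / w * ((3 - s) / 3)) := by ring
  rw [e1] at hY
  rw [e2] at hY'
  have hXY := hY.unique hX
  have hXY' := hY'.unique hX'.neg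
  have hcq : c + 3 = 2 * q := by omega
  have hE : EvenDeg (omS (ea x) (eb x)) (-2 * ea x3) (1 - 8 * x3)
      ((1 - 8 * x) / w + (1 - 8 * x) / w * (s / 3)) (2 * q) := by
    have e : (1 - 8 * x) / w + (1 - 8 * x) / w * (s / 3) = (1 - 8 * x) / w * ((3 + s) / 3) := by
      ring
    rw [e]
    exact hEp
  obtain ⟨k, hk, hk2⟩ := ladder ho hb hab hA hβ hE huv
  refine ⟨k, ?_, ?_⟩
  · have e : (1 - 8 * x) / w * ((3 * (u : K) + (v : K) * s) / 3) =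
        (u : K) * ((1 - 8 * x) / w) + (v : K) * ((1 - 8 * x) / w * (s / 3)) := by ring
    unfold OD
    rw [e]
    exact hk
  · have hcz : (c : ℤ) = 2 * (q : ℤ) - 3 := by omega
    rw [hk2, hcz]
    push_cast
    ring

end Pool.Agent.Lib.MP_afcc06_nt
end
end

section

section

/-!
# Types: the algebraic relations of the four types

In a commutative ring in which `2` and `3` are units. All of `x, 1-8x, 1+x, ...` are units (`8 x x2 = -1`,
`(1-8x)(1-8x3) = 9`, `(1+x) = -(1-8x) x3`, ...). Express everything in `x`: `x2 = -1/(8x)`, `x3 = -(1+x)/(1-8x)`,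
`x6 = (1-8x)/(8(1+x))`, `1-8x2 = (1+x)/x`, `1-8x3 = 9/(1-8x)`, `1-8x6 = 9x/(1+x)`, `1+x3 = -9x/(1-8x)`, `1+x2 = -(1-8x)/(8x)`,
`1+8x2^2 = (1+8x^2)/(8x^2)`, `1+8x3^2 = 9(1+8x^2)/(1-8x)^2`, `1+8x6^2 = 9(1+8x^2)/(8(1+x)^2)`.

Suggested proof: pass to a situation where one can divide: multiply the goal by a suitable unit (a product of powers of
`x, 1-8x, 1+x, 2, 3`) and use `linear_combination`; or prove the formulas above first as `IsUnit`-cancelled equations.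
-/

set_option autoImplicit false

namespace Pool.Agent.Lib.MP_afcc06_nt

variable {S : Type*} [CommRing S] {x x2 x3 x6 g1 g2 g3 : S}

private theorem unit_facts (u2 : IsUnit (2 : S)) (u3 : IsUnit (3 : S)) (h : Orb x x2 x3 x6) :
    IsUnit x ∧ IsUnit (1 - 8 * x) ∧ IsUnit (1 + x) ∧ IsUnit (1 + x3) := by
  have u9 : IsUnit (9 : S) := by
    have := u3.mul u3
    norm_num at this
    exact this
  have ux : IsUnit x := by
    have h1 : x * (-(8 * x2)) = 1 := by linear_combination -h.h12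
    exact IsUnit.of_mul_eq_one _ h1
  have ub : IsUnit (1 - 8 * x) := by
    have h1 : IsUnit ((1 - 8 * x) * (1 - 8 * x3)) := by rw [h.b13]; exact u9
    exact isUnit_of_mul_isUnit_left h1
  have ue : IsUnit (1 + x) := by
    have h1 : (1 + x) * (8 * (1 + x6)) = 9 := by linear_combination h.e16
    have h2 : IsUnit ((1 + x) * (8 * (1 + x6))) := by rw [h1]; exact u9
    exact isUnit_of_mul_isUnit_left h2
  have ue3 : IsUnit (1 + x3) := by
    have h1 : (1 + x3) * (1 - 8 * x) = -(9 * x) := by linear_combination h.h13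
    have h2 : IsUnit ((1 + x3) * (1 - 8 * x)) := by
      rw [h1]
      exact (u9.mul ux).neg
    exact isUnit_of_mul_isUnit_left h2
  exact ⟨ux, ub, ue, ue3⟩

/-- Type two: `16 x^2 gg = 1`. -/
theorem type_two (u2 : IsUnit (2 : S)) (u3 : IsUnit (3 : S)) (h : Orb x x2 x3 x6)
    (e1 : 16 * x ^ 2 * g1 = 1) (e2 : 16 * x2 ^ 2 * g2 = 1) (e3 : 16 * x3 ^ 2 * g3 = 1) :
    g3 ^ 2 * (1 - 8 * x3) * (1 - 8 * x2) ^ 3 = g1 ^ 2 * (1 - 8 * x) ^ 3 * (1 - 8 * x6) ∧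
      x2 ^ 2 * g2 = x ^ 2 * g1 ∧ 2 * (g1 * (1 + 8 * x ^ 2)) = 1 * (1 + 8 * x2 ^ 2) := by
  obtain ⟨ux, ub, ue, ue3⟩ := unit_facts u2 u3 h
  have q13 := h.b13
  have qx2 := h.xb2
  have q26 : (1 - 8 * x2) * (1 - 8 * x6) = 9 := h.s2.b13
  have qe6 : (1 + x) * (1 - 8 * x6) = 9 * x := by
    rw [← qx2]
    linear_combination x * q26
  have qh13 := h.h13
  have q31 : (1 - 8 * x) * (1 + x3) = -(9 * x) := by linear_combination h.h13
  refine ⟨?_, ?_, ?_⟩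
  · have hU : IsUnit ((2 : S) ^ 8 * x ^ 4 * x3 ^ 4 * (1 - 8 * x) * (1 + x)) := by
      have ux3 : IsUnit x3 := by
        have h1 : IsUnit ((1 - 8 * x) * x3) := by rw [qh13]; exact ue.neg
        exact isUnit_of_mul_isUnit_right h1
      exact ((((u2.pow 8).mul (ux.pow 4)).mul (ux3.pow 4)).mul ub).mul ue
    refine hU.mul_left_cancel ?_
    have e1' : (16 * x ^ 2 * g1) ^ 2 = 1 := by rw [e1]; ring
    have e3' : (16 * x3 ^ 2 * g3) ^ 2 = 1 := by rw [e3]; ring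
    calc (2 : S) ^ 8 * x ^ 4 * x3 ^ 4 * (1 - 8 * x) * (1 + x) *
          (g3 ^ 2 * (1 - 8 * x3) * (1 - 8 * x2) ^ 3)
        = (16 * x3 ^ 2 * g3) ^ 2 * ((1 - 8 * x) * (1 - 8 * x3)) * (x * (1 - 8 * x2)) ^ 3 *
          x * (1 + x) := by ring
      _ = (1 + x) ^ 4 * (9 * x) := by rw [e3', q13, qx2]; ring
      _ = (16 * x ^ 2 * g1) ^ 2 * ((1 - 8 * x) * x3) ^ 4 * ((1 + x) * (1 - 8 * x6)) := by
          rw [e1', qh13, qe6]; ring
      _ = (2 : S) ^ 8 * x ^ 4 * x3 ^ 4 * (1 - 8 * x) * (1 + x) *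
          (g1 ^ 2 * (1 - 8 * x) ^ 3 * (1 - 8 * x6)) := by ring
  · refine (u2.pow 4).mul_left_cancel ?_
    linear_combination e2 - e1
  · refine ((u2.pow 3).mul (ux.pow 2)).mul_left_cancel ?_
    linear_combination (1 + 8 * x ^ 2) * e1 - (8 * x * x2 - 1) * h.h12

/-- Type three: `(1-8x)^2 gg = -3`. -/
theorem type_three (u2 : IsUnit (2 : S)) (u3 : IsUnit (3 : S)) (h : Orb x x2 x3 x6)
    (e1 : (1 - 8 * x) ^ 2 * g1 = -3) (e2 : (1 - 8 * x2) ^ 2 * g2 = -3)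
    (e3 : (1 - 8 * x3) ^ 2 * g3 = -3) :
    g3 ^ 2 * (1 - 8 * x3) * (1 - 8 * x3) ^ 3 = g1 ^ 2 * (1 - 8 * x) ^ 3 * (1 - 8 * x) ∧
      x3 ^ 2 * g2 = x ^ 2 * g1 ∧ 3 * (g1 * (1 + 8 * x ^ 2)) = -1 * (1 + 8 * x3 ^ 2) := by
  obtain ⟨ux, ub, ue, ue3⟩ := unit_facts u2 u3 h
  have q13 := h.b13
  have qx2 := h.xb2
  have q26 : (1 - 8 * x2) * (1 - 8 * x6) = 9 := h.s2.b13
  have qe6 : (1 + x) * (1 - 8 * x6) = 9 * x := by
    rw [← qx2]
    linear_combination x * q26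
  have qh13 := h.h13
  have q31 : (1 - 8 * x) * (1 + x3) = -(9 * x) := by linear_combination h.h13
  refine ⟨?_, ?_, ?_⟩
  · linear_combination ((1 - 8 * x3) ^ 2 * g3 - 3) * e3 - ((1 - 8 * x) ^ 2 * g1 - 3) * e1
  · have ub2 : IsUnit (1 - 8 * x2) := by
      have h1 : IsUnit (x * (1 - 8 * x2)) := by rw [qx2]; exact ue
      exact isUnit_of_mul_isUnit_right h1
    refine ((ub.pow 2).mul (ub2.pow 2)).mul_left_cancel ?_
    calc (1 - 8 * x) ^ 2 * (1 - 8 * x2) ^ 2 * (x3 ^ 2 * g2)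
        = ((1 - 8 * x) * x3) ^ 2 * ((1 - 8 * x2) ^ 2 * g2) := by ring
      _ = (1 + x) ^ 2 * (-3) := by rw [qh13, e2]; ring
      _ = (x * (1 - 8 * x2)) ^ 2 * ((1 - 8 * x) ^ 2 * g1) := by rw [qx2, e1]
      _ = (1 - 8 * x) ^ 2 * (1 - 8 * x2) ^ 2 * (x ^ 2 * g1) := by ring
  · refine (ub.pow 2).mul_left_cancel ?_
    calc (1 - 8 * x) ^ 2 * (3 * (g1 * (1 + 8 * x ^ 2)))
        = 3 * ((1 - 8 * x) ^ 2 * g1) * (1 + 8 * x ^ 2) := by ring
      _ = -1 * ((1 - 8 * x) ^ 2 + 8 * (-(1 + x)) ^ 2) := by rw [e1]; ring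
      _ = -1 * ((1 - 8 * x) ^ 2 + 8 * ((1 - 8 * x) * x3) ^ 2) := by rw [qh13]
      _ = (1 - 8 * x) ^ 2 * (-1 * (1 + 8 * x3 ^ 2)) := by ring

/-- Type six: `16 (1+x)^2 gg = -3`. -/
theorem type_six (u2 : IsUnit (2 : S)) (u3 : IsUnit (3 : S)) (h : Orb x x2 x3 x6)
    (e1 : 16 * (1 + x) ^ 2 * g1 = -3) (e2 : 16 * (1 + x2) ^ 2 * g2 = -3)
    (e3 : 16 * (1 + x3) ^ 2 * g3 = -3) :
    g3 ^ 2 * (1 - 8 * x3) * (1 - 8 * x6) ^ 3 = g1 ^ 2 * (1 - 8 * x) ^ 3 * (1 - 8 * x2) ∧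
      x6 ^ 2 * g2 = x ^ 2 * g1 ∧ 6 * (g1 * (1 + 8 * x ^ 2)) = -1 * (1 + 8 * x6 ^ 2) := by
  obtain ⟨ux, ub, ue, ue3⟩ := unit_facts u2 u3 h
  have q13 := h.b13
  have qx2 := h.xb2
  have q26 : (1 - 8 * x2) * (1 - 8 * x6) = 9 := h.s2.b13
  have qe6 : (1 + x) * (1 - 8 * x6) = 9 * x := by
    rw [← qx2]
    linear_combination x * q26
  have qh13 := h.h13
  have q31 : (1 - 8 * x) * (1 + x3) = -(9 * x) := by linear_combination h.h13
  have qe : (1 + x) * x6 = -(x * (1 + x2)) := by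
    rw [← qx2]
    linear_combination x * h.h26
  have qb : 8 * ((1 + x) * x6) = 1 - 8 * x := by
    rw [qe]
    linear_combination -h.h12
  refine ⟨?_, ?_, ?_⟩
  · have hU : IsUnit ((2 : S) ^ 8 * (1 + x3) ^ 4 * (1 - 8 * x) * (1 + x) ^ 4 * x) :=
      ((((u2.pow 8).mul (ue3.pow 4)).mul ub).mul (ue.pow 4)).mul ux
    refine hU.mul_left_cancel ?_
    have e1' : (16 * (1 + x) ^ 2 * g1) ^ 2 = 9 := by rw [e1]; ring
    have e3' : (16 * (1 + x3) ^ 2 * g3) ^ 2 = 9 := by rw [e3]; ring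
    calc (2 : S) ^ 8 * (1 + x3) ^ 4 * (1 - 8 * x) * (1 + x) ^ 4 * x *
          (g3 ^ 2 * (1 - 8 * x3) * (1 - 8 * x6) ^ 3)
        = (16 * (1 + x3) ^ 2 * g3) ^ 2 * ((1 - 8 * x) * (1 - 8 * x3)) *
          ((1 + x) * (1 - 8 * x6)) ^ 3 * ((1 + x) * x) := by ring
      _ = 9 * (-(9 * x)) ^ 4 * (1 + x) := by rw [e3', q13, qe6]; ring
      _ = (16 * (1 + x) ^ 2 * g1) ^ 2 * ((1 - 8 * x) * (1 + x3)) ^ 4 * (x * (1 - 8 * x2)) := by
          rw [e1', q31, qx2]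
      _ = (2 : S) ^ 8 * (1 + x3) ^ 4 * (1 - 8 * x) * (1 + x) ^ 4 * x *
          (g1 ^ 2 * (1 - 8 * x) ^ 3 * (1 - 8 * x2)) := by ring
  · have ue2 : IsUnit (1 + x2) := by
      have h1 : 8 * x * (1 + x2) = -(1 - 8 * x) := by linear_combination h.h12
      have h2 : IsUnit (8 * x * (1 + x2)) := by rw [h1]; exact ub.neg
      exact isUnit_of_mul_isUnit_right h2
    refine (((u2.pow 4).mul (ue2.pow 2)).mul (ue.pow 2)).mul_left_cancel ?_
    calc (2 : S) ^ 4 * (1 + x2) ^ 2 * (1 + x) ^ 2 * (x6 ^ 2 * g2)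
        = ((1 + x) * x6) ^ 2 * (16 * (1 + x2) ^ 2 * g2) := by ring
      _ = (-(x * (1 + x2))) ^ 2 * (-3) := by rw [qe, e2]
      _ = (x * (1 + x2)) ^ 2 * (16 * (1 + x) ^ 2 * g1) := by rw [e1]; ring
      _ = (2 : S) ^ 4 * (1 + x2) ^ 2 * (1 + x) ^ 2 * (x ^ 2 * g1) := by ring
  · refine ((u2.pow 3).mul (ue.pow 2)).mul_left_cancel ?_
    calc (2 : S) ^ 3 * (1 + x) ^ 2 * (6 * (g1 * (1 + 8 * x ^ 2)))
        = 3 * (16 * (1 + x) ^ 2 * g1) * (1 + 8 * x ^ 2) := by ring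
      _ = -1 * (8 * (1 + x) ^ 2 + (1 - 8 * x) ^ 2) := by rw [e1]; ring
      _ = -1 * (8 * (1 + x) ^ 2 + (8 * ((1 + x) * x6)) ^ 2) := by rw [qb]
      _ = (2 : S) ^ 3 * (1 + x) ^ 2 * (-1 * (1 + 8 * x6 ^ 2)) := by ring

end Pool.Agent.Lib.MP_afcc06_nt
end

section

/-!
# Cartier: multipliers and the coefficient `cf` modulo `p`

`T, S` integral, `T' = mu om S`, `om = omS (ea x) (eb x)`; `o = omS (ea y) (eb y)` with coefficients `o_j` (integral; `o_j = 0` for odd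
`j`; `o_(p-1) = cf p y`, `om_(p-1) = cf p x`: `coeff_omS`). Put `G = ∑_{0<k≤p} (o_(k-1)/k) T^k` (in `K⟦X⟧`). `G' = Q T'`,
`Q = ∑_{j<p} o_j T^j`. `o^2 (1 + a X^2 + b X^4) = 1`, so the truncation `q = ∑_{j<p} o_j X^j` satisfies
`q^2 (1 + aX^2 + bX^4) = 1 + X^p (..)` (a polynomial), hence `Q^2 S^2 = 1 + O(X^p)`, `(Q S - 1)(Q S + 1) = O(X^p)`, and `QS + 1` has constant
term `2`: `Q S = 1 + O(X^p)`. So `G' = mu om + O(X^p)`, and the coefficient of `X^(p-1)` gives `p G_p = mu om_(p-1)`.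
`p G_p = ∑_{0<k<p} (p o_(k-1)/k) coeff p (T^k) + o_(p-1) coeff p (T^p)`, `coeff p (T^p) = mu^p` (`T = mu X + ...`), and the first sum has
norm `≤ ‖p‖`. (`hk`: `‖k‖ = 1` for `0 < k < p`.)
-/

set_option autoImplicit false

namespace Pool.Agent.Lib.MP_afcc06_nt

open PowerSeries Pool.Agent.Lib.MP_d4c4f0_nt

variable {K : Type*} [NormedField K] [IsUltrametricDist K] [CharZero K]

omit [CharZero K] in
private theorem cartier_ea {x : K} (hx : ‖x‖ ≤ 1) : ‖ea x‖ ≤ 1 ∧ ‖eb x‖ ≤ 1 := by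
  have ha : ∀ a b : K, ‖a‖ ≤ 1 → ‖b‖ ≤ 1 → ‖a + b‖ ≤ 1 := fun a b h h' =>
    (IsUltrametricDist.norm_add_le_max a b).trans (max_le h h')
  have hs : ∀ a b : K, ‖a‖ ≤ 1 → ‖b‖ ≤ 1 → ‖a - b‖ ≤ 1 := by
    intro a b h h'
    rw [sub_eq_add_neg]
    exact ha _ _ h (by rwa [norm_neg])
  have h4 : ‖(4 : K)‖ ≤ 1 := by
    have := IsUltrametricDist.norm_natCast_le_one K 4
    simpa using this
  have h8 : ‖(8 : K)‖ ≤ 1 := by
    have := IsUltrametricDist.norm_natCast_le_one K 8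
    simpa using this
  have h16 : ‖(16 : K)‖ ≤ 1 := by
    have := IsUltrametricDist.norm_natCast_le_one K 16
    simpa using this
  have h1 : ‖(1 : K)‖ ≤ 1 := by simp
  have hm : ∀ a b : K, ‖a‖ ≤ 1 → ‖b‖ ≤ 1 → ‖a * b‖ ≤ 1 := by
    intro a b ha hb
    rw [norm_mul]
    exact mul_le_one₀ ha (norm_nonneg _) hb
  have hpw : ∀ n : ℕ, ‖x ^ n‖ ≤ 1 := by
    intro n
    rw [norm_pow]
    exact pow_le_one₀ (norm_nonneg _) hx
  constructor
  · unfold ea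
    exact hs _ _ (hs _ _ h1 (hm _ _ h4 hx)) (hm _ _ h8 (hpw 2))
  · unfold eb
    exact hm _ _ (hm _ _ h16 (hpw 3)) (ha _ _ h1 hx)

theorem cartier {p : ℕ} (hp : p.Prime) (h2 : 2 < p)
    (hk : ∀ k : ℕ, 0 < k → k < p → ‖(k : K)‖ = 1) {x y mu : K} (hx : ‖x‖ ≤ 1) (hy : ‖y‖ ≤ 1)
    (hi : IS x y mu) : ‖mu * cf p x - mu ^ p * cf p y‖ ≤ ‖(p : K)‖ := by
  obtain ⟨T, S, hs, hTi, hSi⟩ := hi
  obtain ⟨om, hom⟩ : ∃ om : K⟦X⟧, om = omS (ea x) (eb x) := ⟨_, rfl⟩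
  obtain ⟨o, ho⟩ : ∃ o : K⟦X⟧, o = omS (ea y) (eb y) := ⟨_, rfl⟩
  rw [← hom] at hs
  have hp0 : p ≠ 0 := hp.ne_zero
  have hodd : 2 * ((p - 1) / 2) = p - 1 := by
    rcases hp.eq_two_or_odd with h | h <;> omega
  have hcx : coeff (p - 1) om = cf p x := by
    rw [hom]
    conv_lhs => rw [← hodd]
    rw [coeff_omS]
    rfl
  have hcy : coeff (p - 1) o = cf p y := by
    rw [ho]
    conv_lhs => rw [← hodd]
    rw [coeff_omS]
    rfl
  have hOx : Om (-2 * ea x) (ea x ^ 2 - 4 * eb x) om := by rw [hom]; exact om_omS _ _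
  have hOy : Om (-2 * ea y) (ea y ^ 2 - 4 * eb y) o := by rw [ho]; exact om_omS _ _
  have q2 : ea y ^ 2 - 4 * eb y = 1 - 8 * y := by
    simp only [ea, eb]
    ring
  rw [q2] at hOy
  have hoi : ∀ n, ‖coeff n o‖ ≤ 1 := by
    obtain ⟨h1, h2⟩ := cartier_ea hy
    rw [ho]
    exact intg_omS h1 h2
  have ho0 : coeff 0 o = 1 := by
    rw [coeff_zero_eq_constantCoeff_apply]
    exact hOy.cc
  -- the truncation
  obtain ⟨q, hq⟩ : ∃ q : Polynomial K, q = ∑ j ∈ Finset.range p,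
    Polynomial.C (coeff j o) * Polynomial.X ^ j := ⟨_, rfl⟩
  have hqc : ∀ j < p, q.coeff j = coeff j o := by
    intro j hj
    rw [hq, Polynomial.finsetSum_coeff]
    simp only [Polynomial.coeff_C_mul_X_pow]
    rw [Finset.sum_eq_single j]
    · simp
    · intro b _ hb
      rw [if_neg (Ne.symm hb)]
    · intro h
      exact absurd (Finset.mem_range.2 hj) h
  have hdv1 : (X : K⟦X⟧) ^ p ∣ (q : K⟦X⟧) - o := by
    rw [X_pow_dvd_iff]
    intro m hm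
    rw [map_sub, Polynomial.coeff_coe, hqc m hm, sub_self]
  have hdv2 : (X : K⟦X⟧) ^ p ∣ ((q ^ 2 * sg (-2 * ea y) (1 - 8 * y) - 1 : Polynomial K) : K⟦X⟧) := by
    have e : ((q ^ 2 * sg (-2 * ea y) (1 - 8 * y) - 1 : Polynomial K) : K⟦X⟧) =
        ((q : K⟦X⟧) - o) * (((q : K⟦X⟧) + o) * (sg (-2 * ea y) (1 - 8 * y) : K⟦X⟧)) := by
      have h := hOy.sq
      push_cast
      linear_combination h
    rw [e]
    exact hdv1.mul_right _
  have hdv3 : (Polynomial.X : Polynomial K) ^ p ∣ q ^ 2 * sg (-2 * ea y) (1 - 8 * y) - 1 := by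
    rw [Polynomial.X_pow_dvd_iff]
    intro d hd
    rw [X_pow_dvd_iff] at hdv2
    have h := hdv2 d hd
    rwa [Polynomial.coeff_coe] at h
  obtain ⟨r, hr⟩ := hdv3
  have hr' := congrArg (Polynomial.eval₂RingHom (C (R := K)) T) hr
  obtain ⟨Q, hQ⟩ : ∃ Q : K⟦X⟧, Q = Polynomial.eval₂RingHom (C (R := K)) T q := ⟨_, rfl⟩
  have hsg : Polynomial.eval₂RingHom (C (R := K)) T (sg (-2 * ea y) (1 - 8 * y)) = S ^ 2 := by
    rw [hs.sq, sg]
    simp [Polynomial.coe_eval₂RingHom]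
  rw [map_sub, map_mul, map_pow, map_mul, map_pow, ← hQ, hsg, map_one] at hr'
  have hX : Polynomial.eval₂RingHom (C (R := K)) T Polynomial.X = T := by
    simp [Polynomial.coe_eval₂RingHom]
  rw [hX] at hr'
  have hQs : Q = ∑ j ∈ Finset.range p, C (coeff j o) * T ^ j := by
    rw [hQ, hq, map_sum]
    refine Finset.sum_congr rfl fun j _ => ?_
    rw [map_mul, map_pow, hX]
    simp [Polynomial.coe_eval₂RingHom]
  have hXT : (X : K⟦X⟧) ∣ T := X_dvd_iff.2 hs.T0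
  have hQ0 : constantCoeff Q = 1 := by
    rw [hQs, map_sum, Finset.sum_eq_single 0]
    · rw [pow_zero, mul_one, constantCoeff_C]
      exact ho0
    · intro b _ hb
      rw [map_mul, map_pow, hs.T0, zero_pow hb, mul_zero]
    · intro h
      exact absurd (Finset.mem_range.2 hp.pos) h
  have hdv4 : (X : K⟦X⟧) ^ p ∣ Q * S - 1 := by
    have e : (Q * S - 1) * (Q * S + 1) = T ^ p * Polynomial.eval₂RingHom (C (R := K)) T r := by
      rw [← hr']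
      ring
    have h1 : (X : K⟦X⟧) ^ p ∣ (Q * S - 1) * (Q * S + 1) := by
      rw [e]
      exact (pow_dvd_pow_of_dvd hXT p).mul_right _
    have hu : IsUnit (Q * S + 1) := by
      rw [isUnit_iff_constantCoeff, map_add, map_mul, hQ0, hs.S0, map_one]
      exact isUnit_iff_ne_zero.2 (by norm_num)
    exact (hu.dvd_mul_right).1 h1
  obtain ⟨w, hw⟩ := hdv4
  -- the series `G`
  obtain ⟨G, hG⟩ : ∃ G : K⟦X⟧, G = ∑ k ∈ Finset.range p,
    C (coeff k o / ((k + 1 : ℕ) : K)) * T ^ (k + 1) := ⟨_, rfl⟩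
  have hdG : d⁄dX K G = Q * d⁄dX K T := by
    rw [hG, map_sum, hQs, Finset.sum_mul]
    refine Finset.sum_congr rfl fun k _ => ?_
    have hk0 : ((k + 1 : ℕ) : K) ≠ 0 := by exact_mod_cast Nat.succ_ne_zero k
    have e1 : d⁄dX K (T ^ (k + 1)) = ((k + 1 : ℕ) : K⟦X⟧) * T ^ k * d⁄dX K T := by
      rw [Derivation.leibniz_pow]
      simp [smul_eq_mul, nsmul_eq_mul, mul_assoc]
    rw [Derivation.leibniz, derivative_C, e1, smul_eq_mul, smul_zero, add_zero]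
    have e2 : (((k + 1 : ℕ) : K⟦X⟧)) = C (((k + 1 : ℕ) : K)) := (map_natCast (C (R := K)) _).symm
    rw [e2]
    have e3 : C (coeff k o / ((k + 1 : ℕ) : K)) * (C (((k + 1 : ℕ) : K)) * T ^ k * d⁄dX K T) =
        (C (coeff k o / ((k + 1 : ℕ) : K)) * C (((k + 1 : ℕ) : K))) * T ^ k * d⁄dX K T := by ring
    rw [e3, ← map_mul, div_mul_cancel₀ _ hk0]
  have hpp : p - 1 + 1 = p := by have := hp.pos; omega
  have hGp : (p : K) * coeff p G = mu * cf p x := by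
    have h1 : coeff (p - 1) (d⁄dX K G) = coeff p G * p := by
      rw [coeff_derivative, hpp]
      have : ((p - 1 : ℕ) : K) + 1 = (p : K) := by
        rw [← Nat.cast_succ, Nat.succ_eq_add_one, hpp]
      rw [this]
    have h2 : d⁄dX K G = C mu * om + X ^ p * (w * (C mu * om)) := by
      have h3 : Q * S = 1 + X ^ p * w := by rw [← hw]; ring
      rw [hdG, hs.dT]
      linear_combination C mu * om * h3
    rw [h2, map_add, coeff_C_mul, hcx, coeff_X_pow_mul', if_neg (by omega), add_zero] at h1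
    rw [h1, mul_comm]
  -- the coefficient of `T ^ p`
  have hT1 : coeff 1 T = mu := by
    have h1 := congrArg (coeff 0) hs.dT
    rw [coeff_derivative] at h1
    rw [coeff_zero_eq_constantCoeff_apply, map_mul, map_mul, hs.S0, hOx.cc, constantCoeff_C] at h1
    simpa using h1
  have hTp : coeff p (T ^ p) = mu ^ p := by
    obtain ⟨U, hU⟩ := hXT
    have hU0 : constantCoeff U = mu := by
      rw [← hT1, hU, ← coeff_zero_eq_constantCoeff_apply]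
      exact (coeff_succ_X_mul 0 U).symm
    rw [hU, mul_pow, coeff_X_pow_mul', if_pos le_rfl, Nat.sub_self,
      coeff_zero_eq_constantCoeff_apply, map_pow, hU0]
  have hGs : coeff p G = ∑ k ∈ Finset.range p,
      coeff k o / ((k + 1 : ℕ) : K) * coeff p (T ^ (k + 1)) := by
    rw [hG, map_sum]
    exact Finset.sum_congr rfl fun k _ => coeff_C_mul _ _ _
  have hpK : (p : K) ≠ 0 := by exact_mod_cast hp0
  have hfin : mu * cf p x - mu ^ p * cf p y = ∑ k ∈ Finset.range (p - 1),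
      (p : K) * (coeff k o / ((k + 1 : ℕ) : K) * coeff p (T ^ (k + 1))) := by
    rw [← hGp, hGs]
    conv_lhs => rw [← hpp]
    rw [Finset.sum_range_succ, hpp, hTp, hcy, mul_add, Finset.mul_sum]
    field_simp
    ring
  rw [hfin]
  refine IsUltrametricDist.norm_sum_le_of_forall_le_of_nonneg (norm_nonneg _) fun k hk' => ?_
  rw [Finset.mem_range] at hk'
  rw [norm_mul, norm_mul, norm_div, hk (k + 1) (Nat.succ_pos _) (by omega), div_one]
  calc ‖(p : K)‖ * (‖coeff k o‖ * ‖coeff p (T ^ (k + 1))‖) ≤ ‖(p : K)‖ * (1 * 1) :=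
        mul_le_mul_of_nonneg_left
          (mul_le_mul (hoi k) (hTi.pow (k + 1) p) (norm_nonneg _) zero_le_one) (norm_nonneg _)
    _ = ‖(p : K)‖ := by ring

end Pool.Agent.Lib.MP_afcc06_nt
end

section

/-!
# Frob: the Frobenius on square roots and on the points

`frob_sqrt`: `r^p = r (r^2)^((p-1)/2) = r d^((p-1)/2)`, `legendreSym.eq_pow` in `ZMod p`, transported to `S` by `exists_zmod_hom`-like
(`(p : S) = 0`). `CertD.frob`: `frob_add`, `frob_nat` (D02), integer coefficients, `4^p = 4` so `q4^p = q4`. `rep_leg`: reduce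
`U^2 + 3 b v^2 = C p` modulo `p`: `p ∤ v` (otherwise `p ∣ U`, `p^2 ∣ C p`), so `-3b = (U/v)^2`.
-/

set_option autoImplicit false

namespace Pool.Agent.Lib.MP_afcc06_nt

open Pool.Agent.Lib.MP_d4c4f0_nt

/-- The sign of a Boolean. -/
def sgn (σ : Bool) : ℤ := if σ then -1 else 1

variable {S : Type*} [CommRing S] {p : ℕ} [Fact p.Prime] {c : CertD} {q4 r t : S}

private theorem cast_eq_of_zmod (hS : (p : S) = 0) {a b : ℤ} (h : (a : ZMod p) = (b : ZMod p)) :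
    (a : S) = (b : S) := by
  have h1 : ((a - b : ℤ) : ZMod p) = 0 := by
    push_cast
    rw [h, sub_self]
  rw [ZMod.intCast_zmod_eq_zero_iff_dvd] at h1
  obtain ⟨k, hk⟩ := h1
  have h2 : a = b + p * k := by rw [← hk]; ring
  rw [h2]
  push_cast
  rw [hS, zero_mul, add_zero]

private theorem frob_int (hS : (p : S) = 0) (a : ℤ) : (a : S) ^ p = a := by
  have h : ((a ^ p : ℤ) : ZMod p) = ((a : ℤ) : ZMod p) := by
    push_cast
    exact ZMod.pow_card _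
  have := cast_eq_of_zmod hS h
  rwa [Int.cast_pow] at this

theorem frob_sqrt (hp2 : p ≠ 2) (hS : (p : S) = 0) {d : ℤ} (hr : r ^ 2 = (d : S)) :
    r ^ p = (legendreSym p d : S) * r := by
  have hp : p = 2 * (p / 2) + 1 := by
    have := (Fact.out : p.Prime).eq_two_or_odd
    omega
  have h1 : ((legendreSym p d : ℤ) : ZMod p) = ((d ^ (p / 2) : ℤ) : ZMod p) := by
    rw [legendreSym.eq_pow]
    push_cast
    rfl
  have h2 := cast_eq_of_zmod hS h1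
  rw [h2]
  conv_lhs => rw [hp]
  rw [pow_succ, pow_mul, hr]
  push_cast
  rfl

theorem frob_sg (hp2 : p ≠ 2) (hS : (p : S) = 0) {d : ℤ} (hr : r ^ 2 = (d : S)) {σ : Bool}
    (h : legendreSym p d = sgn σ) : r ^ p = sg1 σ r := by
  rw [frob_sqrt hp2 hS hr, h]
  cases σ <;> simp [sgn, sg1]

private theorem frob_q4 (hS : (p : S) = 0) (hq : 4 * q4 = 1) : q4 ^ p = q4 := by
  have hp : p.Prime := Fact.out
  have h4 : (4 : S) ^ p = 4 := frob_ofNat hp hS 4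
  have h1 : (4 : S) * q4 ^ p = 1 := by
    calc (4 : S) * q4 ^ p = 4 ^ p * q4 ^ p := by rw [h4]
      _ = (4 * q4) ^ p := by rw [mul_pow]
      _ = 1 := by rw [hq, one_pow]
  calc q4 ^ p = (4 * q4) * q4 ^ p := by rw [hq, one_mul]
    _ = q4 * (4 * q4 ^ p) := by ring
    _ = q4 := by rw [h1, mul_one]

theorem CertD.frob (hp2 : p ≠ 2) (hS : (p : S) = 0) (hq : 4 * q4 = 1) (σ τ : Bool)
    (hr : r ^ p = sg1 σ r) (ht : t ^ p = sg1 τ t) :
    c.x q4 r t ^ p = c.x q4 (sg1 σ r) (sg1 τ t) := by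
  have hp : p.Prime := Fact.out
  unfold CertD.x
  rw [mul_pow, frob_q4 hS hq]
  congr 1
  obtain ⟨a0, a1, a2, a3, a4, a5, a6, a7⟩ := c.X
  unfold ev
  rw [← hr, ← ht]
  have h0 : (0 : S) ^ p = 0 := zero_pow hp.ne_zero
  simp only [frob_add hp hS, mul_pow, frob_int hS, h0]

theorem frob_sg1 (hp2 : p ≠ 2) (hS : (p : S) = 0) (σ τ : Bool) (hr : r ^ p = sg1 σ r) :
    sg1 τ r ^ p = sg1 σ (sg1 τ r) := by
  have hp : p.Prime := Fact.out
  cases τ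
  · simpa [sg1] using hr
  · have : sg1 true r = -r := by simp [sg1]
    rw [this, frob_neg hp hS, hr]
    cases σ <;> simp [sg1]

omit [CommRing S] in
theorem rep_leg {b C : ℕ} {U v : ℤ} (hb : ¬ (p : ℤ) ∣ 3 * b) (hC : ¬ p ∣ C)
    (h : U ^ 2 + 3 * b * v ^ 2 = C * p) : legendreSym p (-3 * b) = 1 := by
  have hp : p.Prime := Fact.out
  have hpi : Prime (p : ℤ) := Nat.prime_iff_prime_int.mp hp
  have hv : ¬ (p : ℤ) ∣ v := by
    intro hv
    have hU : (p : ℤ) ∣ U := by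
      refine hpi.dvd_of_dvd_pow (n := 2) ?_
      have h1 : U ^ 2 = p * C - v * (3 * b * v) := by linear_combination h
      rw [h1]
      exact dvd_sub (dvd_mul_right _ _) (dvd_mul_of_dvd_left hv _)
    obtain ⟨x, rfl⟩ := hv
    obtain ⟨y, rfl⟩ := hU
    apply hC
    have h2 : (p : ℤ) * (p * (y ^ 2 + 3 * b * x ^ 2)) = p * C := by linear_combination h
    have h3 := mul_left_cancel₀ hpi.ne_zero h2
    exact Int.natCast_dvd_natCast.mp ⟨_, h3.symm⟩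
  have h1 : ((-3 * b : ℤ) : ZMod p) ≠ 0 := by
    intro h1
    rw [ZMod.intCast_zmod_eq_zero_iff_dvd] at h1
    apply hb
    have : (3 * b : ℤ) = -(-3 * b) := by ring
    rw [this]
    exact (dvd_neg).mpr h1
  rw [legendreSym.eq_one_iff p h1]
  have hv' : (v : ZMod p) ≠ 0 := by
    intro h2
    exact hv ((ZMod.intCast_zmod_eq_zero_iff_dvd v p).mp h2)
  refine ⟨(U : ZMod p) / v, ?_⟩
  have h2 : (U : ZMod p) ^ 2 + 3 * b * (v : ZMod p) ^ 2 = 0 := by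
    have := congrArg (Int.cast : ℤ → ZMod p) h
    push_cast at this
    rw [this]
    simp
  push_cast
  field_simp
  linear_combination -h2

end Pool.Agent.Lib.MP_afcc06_nt
end

section

/-!
# RFinal: the sum modulo `p^2` from the squares of the truncated sums

`Gp_eq'`: as `Gp_eq` (C03).
`final_gen`: `w = -x x2` (`8w = 1`), `FH p (-w) x = x^(p-1) FA p x2` (`FH_eq`, `x * x2 = -w`). `Gp_eq'`, `Gp_eq_Hp`:
`E^(2p-1) Σ = Hp p w x = (2E^p - 1 - 16 x^(2p)) ρ^2 gg + 8 x^(2p) x^(2p-2) ρ^2 gg2`, `E = 1+8x^2`. `x` is a unit (`h12`), `y` and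
`Ey = 1+8y^2` are units (given). `x^p = y e`, `e = 1 + p*..`; `E^p = Ey f`, `f = 1 + p*..` (Frobenius in `S/(p)`: `E^p` and `1 + 8(x^p)^2`
and `1 + 8y^2` are congruent modulo `p`). `8 x^(4p-2) gg2 = 8 y^4 e^4 gg2 / x^2 = 8 y^2 e^4 gg` (`ht2`). So
`Hp = ρ^2 gg (2 Ey f - 1 - 8 y^2 (2e^2 - e^4)) = ρ^2 gg Ey (2f - 1) = ρ^2 gg Ey f^2` (`2e^2 - e^4 = 1`, `f^2 = 2f - 1`: `two_step`).
Multiply by `c * E`: `c Hp E = ρ^2 (c gg E) Ey f^2 = d ρ^2 Ey^2 f^2 = d ρ^2 E^(2p)`; cancel the units `E, E^(2p-1)`.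
`final_inert`: `FH p (-w) x` is a multiple of `p` by `FB_mod'`; all squares vanish, `Hp = 0`. Templates: C04b.lean, C05.lean, C06b.lean.
-/

set_option autoImplicit false

open Finset

namespace Pool.Agent.Lib.MP_afcc06_nt

open Pool.Agent.Lib.MP_d4c4f0_nt

variable {S : Type*} [CommRing S] {p : ℕ}

theorem Gp_eq' {m ω x : S} (hω : m * ω = 1) (hx : Quart m x) :
    Gp p x = (1 + 8 * x ^ 2) ^ (2 * p - 1) * ∑ n ∈ range p, (vr n : S) * ω ^ n := by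
  unfold Gp
  rw [mul_sum]
  refine sum_congr rfl fun n hn => ?_
  rw [mem_range] at hn
  have h1 : x * (1 - 7 * x - 8 * x ^ 2) = ω * (1 + 8 * x ^ 2) ^ 2 := by
    unfold Quart at hx
    linear_combination ω * hx - x * (1 - 7 * x - 8 * x ^ 2) * hω
  have h2 : (1 + 8 * x ^ 2) ^ (2 * p - 1) =
      ((1 + 8 * x ^ 2) ^ 2) ^ n * (1 + 8 * x ^ 2) ^ (2 * p - 1 - 2 * n) := by
    rw [← pow_mul, ← pow_add]
    congr 1
    omega
  rw [h1, h2, mul_pow]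
  ring

/-- Frobenius modulo `p`. -/
private theorem final_gen_frob (hp : p.Prime) (x : S) :
    ∃ z : S, (1 + 8 * x ^ 2) ^ p - (1 + 8 * (x ^ p) ^ 2) = (p : S) * z := by
  set I : Ideal S := Ideal.span {(p : S)} with hI
  have h0 : ((p : ℕ) : S ⧸ I) = 0 := by
    have h1 : ((p : ℕ) : S ⧸ I) = Ideal.Quotient.mk I (p : S) := by simp
    rw [h1, Ideal.Quotient.eq_zero_iff_mem]
    exact Ideal.mem_span_singleton_self _
  have h2 := frob_E hp h0 (Ideal.Quotient.mk I x)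
  have h3 : Ideal.Quotient.mk I ((1 + 8 * x ^ 2) ^ p) =
      Ideal.Quotient.mk I (1 + 8 * (x ^ p) ^ 2) := by
    simp only [map_add, map_mul, map_pow, map_one, map_ofNat]
    exact h2
  rw [Ideal.Quotient.eq, Ideal.mem_span_singleton'] at h3
  obtain ⟨z, hz⟩ := h3
  exact ⟨z, by rw [← hz]; ring⟩

theorem final_gen (hp : p.Prime) (h3 : 3 < p) (hS : (p : S) ^ 2 = 0)
    {m ω x x2 y ρ gg gg2 c d : S} (hω : m * ω = 1) (hx : Quart m x) (h12 : 8 * x * x2 = -1)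
    (ha : FA p x ^ 2 = ρ ^ 2 * gg) (ha2 : FA p x2 ^ 2 = ρ ^ 2 * gg2)
    (uE : IsUnit (1 + 8 * x ^ 2)) (uy : IsUnit y) (uEy : IsUnit (1 + 8 * y ^ 2))
    (hxy : ∃ z : S, x ^ p - y = (p : S) * z) (ht2 : y ^ 2 * gg2 = x ^ 2 * gg)
    (ht3 : c * (gg * (1 + 8 * x ^ 2)) = d * (1 + 8 * y ^ 2)) :
    c * ∑ n ∈ range p, (vr n : S) * ω ^ n = d * ρ ^ 2 := by
  have hw : 8 * (-(x * x2)) = (1 : S) := by linear_combination -h12
  have hG := Gp_eq_Hp hp h3 hS hw x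
  rw [Gp_eq' hω hx] at hG
  have hB : FH p (-(-(x * x2))) x = x ^ (p - 1) * FA p x2 := FH_eq (by ring)
  unfold Hp at hG
  rw [hB, mul_pow, ha, ha2] at hG
  obtain ⟨z, hz⟩ := hxy
  obtain ⟨z1, hz1⟩ := final_gen_frob (S := S) hp x
  have ux : IsUnit x := IsUnit.of_mul_eq_one (-8 * x2) (by linear_combination -h12)
  have hpp : 0 < p := hp.pos
  have e1 : x ^ (2 * p) = (x ^ p) ^ 2 := by
    rw [← pow_mul, mul_comm]
  have e2 : x ^ 2 * (x ^ (p - 1)) ^ 2 = (x ^ p) ^ 2 := by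
    rw [← mul_pow, ← pow_succ']
    congr 2
    omega
  have e3 : (1 + 8 * x ^ 2) * (1 + 8 * x ^ 2) ^ (2 * p - 1) = ((1 + 8 * x ^ 2) ^ p) ^ 2 := by
    rw [← pow_succ', ← pow_mul]
    congr 1
    omega
  rw [e1] at hG
  have uEp : IsUnit (((1 + 8 * x ^ 2) ^ p) ^ 2) := (uE.pow p).pow 2
  generalize (1 + 8 * x ^ 2) ^ (2 * p - 1) = E1 at *
  generalize (1 + 8 * x ^ 2) ^ p = Ep at *
  generalize x ^ p = T at *
  generalize x ^ (p - 1) = T1 at *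
  generalize ∑ n ∈ range p, (vr n : S) * ω ^ n = Z at *
  -- `T = y + p z`, `Ep = Ey + p z2`
  have hT : T = y + (p : S) * z := by linear_combination hz
  obtain ⟨z2, hz2⟩ : ∃ z2 : S, Ep = 1 + 8 * y ^ 2 + (p : S) * z2 :=
    ⟨z1 + 8 * z * (T + y), by linear_combination hz1 + 8 * (T + y) * hz⟩
  -- the main identity
  have k1 : (1 + 8 * y ^ 2) * (y ^ 2 * x ^ 2) * (E1 * Z) =
      ρ ^ 2 * gg * (x ^ 2 * y ^ 2) * Ep ^ 2 := by
    have k2 : y ^ 2 * x ^ 2 * (E1 * Z) =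
        ρ ^ 2 * gg * x ^ 2 * (y ^ 2 * (2 * Ep - 1 - 16 * T ^ 2) + 8 * T ^ 4) := by
      rw [hG]
      linear_combination (8 * T ^ 2 * ρ ^ 2 * gg2 * y ^ 2) * e2 + (8 * T ^ 4 * ρ ^ 2) * ht2
    have k3 : y ^ 2 * (2 * Ep - 1 - 16 * T ^ 2) + 8 * T ^ 4 =
        y ^ 2 * (2 * Ep - (1 + 8 * y ^ 2)) := by
      rw [hT]
      linear_combination (8 * ((p : S) ^ 2 * z ^ 4 + 4 * (p : S) * z ^ 3 * y +
        4 * z ^ 2 * y ^ 2)) * hS
    have k4 : (1 + 8 * y ^ 2) * (2 * Ep - (1 + 8 * y ^ 2)) = Ep ^ 2 := by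
      rw [hz2]
      linear_combination (-(z2 ^ 2)) * hS
    calc (1 + 8 * y ^ 2) * (y ^ 2 * x ^ 2) * (E1 * Z)
        = (1 + 8 * y ^ 2) * (y ^ 2 * x ^ 2 * (E1 * Z)) := by ring
      _ = ρ ^ 2 * gg * (x ^ 2 * y ^ 2) * ((1 + 8 * y ^ 2) * (2 * Ep - (1 + 8 * y ^ 2))) := by
          rw [k2, k3]
          ring
      _ = _ := by rw [k4]
  have uu : IsUnit ((1 + 8 * y ^ 2) * (y ^ 2 * x ^ 2)) :=
    uEy.mul ((uy.pow 2).mul (ux.pow 2))
  apply uEp.mul_left_cancel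
  apply uu.mul_left_cancel
  linear_combination (c * (1 + 8 * x ^ 2)) * k1 - ((1 + 8 * y ^ 2) * (y ^ 2 * x ^ 2) * c * Z) * e3 +
    (ρ ^ 2 * (x ^ 2 * y ^ 2) * Ep ^ 2) * ht3

theorem final_inert (hp : p.Prime) (h3 : 3 < p) (hS : (p : S) ^ 2 = 0) {m ω x x2 : S}
    (hω : m * ω = 1) (hx : Quart m x) (h12 : 8 * x * x2 = -1) (uE : IsUnit (1 + 8 * x ^ 2))
    (ha : ∃ z : S, cf p x = (p : S) * z) : ∑ n ∈ range p, (vr n : S) * ω ^ n = 0 := by
  obtain ⟨z, hz⟩ := ha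
  unfold cf at hz
  obtain ⟨z1, hz1⟩ := tn_mod' (S := S) hp h3 x
  have hw : 8 * (-(x * x2)) = (1 : S) := by linear_combination -h12
  obtain ⟨z2, hz2⟩ := FB_mod' (p := p) hp h3 hw x
  have hFA : FA p x ^ 2 = 0 := by
    have h1 : FA p x = (p : S) * (z - z1) := by linear_combination hz - hz1
    rw [h1]
    linear_combination (z - z1) ^ 2 * hS
  have hFH : FH p (-(-(x * x2))) x ^ 2 = 0 := by
    have h1 : FH p (-(-(x * x2))) x = (p : S) * (z2 + (z - z1)) := by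
      linear_combination hz2 + hz - hz1
    rw [h1]
    linear_combination (z2 + (z - z1)) ^ 2 * hS
  have hG := Gp_eq_Hp hp h3 hS hw x
  have hH : Hp p (-(x * x2)) x = 0 := by
    unfold Hp
    rw [hFA, hFH]
    ring
  rw [hH, Gp_eq' hω hx] at hG
  exact (uE.pow (2 * p - 1)).mul_right_eq_zero.1 hG

end Pool.Agent.Lib.MP_afcc06_nt
end

section

/-!
# CoefThree: the coefficient modulo `p^2`, types three and six

As CoefOne.lean.
* type three: `mu = (1-8x)/w (3u+vs)/3`, `ρ = 3u - v s`, `g = w/(1-8x)`, `y = x3`: `mu ρ g = (9u^2 + 3(2q-3)v^2)/3 = p`; `g^2 = gg` because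
  `(1-8x)^2 gg = -3 = w^2`; `u + v` odd (`p` odd); `deg_three`, `int_three`; `norm_fac` with `U = 3u`, `B = 3(2q-3)`, `C = 3`.
* type six: `mu = -4(1+x)/w (3u+vs)/6`, `ρ = 3u - v s`, `g = -w/(4(1+x))`, `y = x6`; `16(1+x)^2 gg = -3`; `u, v` odd; `deg_six`, `int_six`;
  `norm_fac` with `U = 3u`, `C = 6`.
-/

set_option autoImplicit false

namespace Pool.Agent.Lib.MP_afcc06_nt

open Pool.Agent.Lib.MP_d4c4f0_nt

variable {K : Type*} [NormedField K] [IsUltrametricDist K] [CharZero K] [IsAlgClosed K]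
  {p q : ℕ} {m : ℤ} {w s x x2 x3 x6 : OK K} {u v : ℤ}

omit [IsAlgClosed K] in
private theorem coe_cf_OK (p : ℕ) (x : OK K) : ((cf p x : OK K) : K) = cf p (x : K) := by
  unfold cf
  rw [coe_tn, coe_ea, coe_eb]

omit [CharZero K] [IsAlgClosed K] in
private theorem rd_cf (p n : ℕ) (x : OK K) : rd K p n (cf p x) = cf p (rd K p n x) := by
  unfold cf
  rw [map_tn, map_ea, map_eb]

omit [IsAlgClosed K] in
private theorem rd_fin (hp0 : 0 < p) {x y ρ gg : OK K} {g : K} (hgg : g ^ 2 = (gg : K))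
    (h1 : ‖cf p (x : K) ^ 2 - (ρ : K) ^ 2 * g ^ 2‖ ≤ ‖(p : K)‖)
    (h2 : ‖cf p (x : K) ^ 4 * (1 - 8 * (y : K)) - (ρ : K) ^ 4 * (g ^ 2) ^ 2 *
      (1 - 8 * (x : K)) ^ p‖ ≤ ‖(p : K)‖ ^ 2) :
    cf p (rd K p 2 x) ^ 4 * (1 - 8 * rd K p 2 y) =
        rd K p 2 ρ ^ 4 * rd K p 2 gg ^ 2 * (1 - 8 * rd K p 2 x) ^ p ∧
      ∃ z, cf p (rd K p 2 x) ^ 2 - rd K p 2 ρ ^ 2 * rd K p 2 gg = (p : Rq K p 2) * z := by
  rw [hgg] at h1 h2
  constructor
  · have e := (rd_eq_iff (n := 2) hp0 (cf p x ^ 4 * (1 - 8 * y))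
      (ρ ^ 4 * gg ^ 2 * (1 - 8 * x) ^ p)).2 (by
        push_cast
        rw [coe_cf_OK, coe_OK_ofNat]
        exact h2)
    simpa [rd_cf, map_ofNat] using e
  · have e := exists_mul_rd (n := 2) hp0 (x := cf p x ^ 2) (y := ρ ^ 2 * gg) (by
        push_cast
        rw [coe_cf_OK]
        exact h1)
    obtain ⟨z, hz⟩ := e
    refine ⟨z, ?_⟩
    rw [← hz]
    simp [rd_cf]

theorem Dat.coef_three (hP : PrimeOk K p q m) (h16 : ‖(m : K) + 16‖ = 1)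
    (h : Dat q m w s x x2 x3 x6) (h' : Dat q m w s x3 x6 x x2)
    (huv : 3 * u ^ 2 + (2 * q - 3) * v ^ 2 = p)
    (hlt : ‖((3 * u : ℤ) : K) + v * (s : K)‖ < 1) (hF : rd K p 1 x ^ p = rd K p 1 x3) {gg : OK K}
    (hg : (1 - 8 * x) ^ 2 * gg = -3) :
    cf p (rd K p 2 x) ^ 4 * (1 - 8 * rd K p 2 x3) =
        rd K p 2 (3 * u - v * s) ^ 4 * rd K p 2 gg ^ 2 * (1 - 8 * rd K p 2 x) ^ p ∧
      ∃ z, cf p (rd K p 2 x) ^ 2 - rd K p 2 (3 * u - v * s) ^ 2 * rd K p 2 gg =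
        (p : Rq K p 2) * z := by
  have hp0 : 0 < p := hP.hp.pos
  have h2n : ‖(2 : K)‖ = 1 := by
    have := hP.hk 2 (by norm_num) (by have := hP.h3; omega)
    simpa using this
  have h3n : ‖(3 : K)‖ = 1 := by
    have := hP.hk 3 (by norm_num) hP.h3
    simpa using this
  obtain ⟨n1, n2, n3, -, n5⟩ := h.norms h2n h3n hP.hm
  obtain ⟨m1, m2, m3, -, m5⟩ := h'.norms h2n h3n hP.hm
  have na := n5 h16
  have ma := m5 h16
  -- coercions
  have hw : (w : K) ^ 2 = -3 := by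
    have := congrArg (fun z : OK K => (z : K)) h.hw
    simpa [coe_OK_ofNat] using this
  have hw0 : (w : K) ≠ 0 := by
    intro h0
    rw [h0] at hw
    norm_num at hw
  have hwn : ‖(w : K)‖ = 1 := by
    have := congrArg norm hw
    rw [norm_pow, norm_neg, h3n] at this
    exact (pow_eq_one_iff_of_nonneg (norm_nonneg _) (by norm_num)).1 this
  have hs : (s : K) ^ 2 = -((3 * (2 * q - 3) : ℤ) : K) := by
    have := congrArg (fun z : OK K => (z : K)) h.hs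
    push_cast at this ⊢
    simp only [coe_OK_ofNat] at this
    linear_combination this
  have hb0 : 1 - 8 * (x : K) ≠ 0 := by
    intro h0
    rw [h0, norm_zero] at n2
    exact zero_ne_one n2
  have hgK : (1 - 8 * (x : K)) ^ 2 * (gg : K) = -3 := by
    have := congrArg (fun z : OK K => (z : K)) hg
    push_cast at this
    simp only [coe_OK_ofNat] at this
    exact this
  have ho : Orb (x : K) (x2 : K) (x3 : K) (x6 : K) := h.orb.map (OK K).subtype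
  -- the factors
  have hUV : (3 * u) ^ 2 + (3 * (2 * q - 3)) * v ^ 2 = ((3 : ℕ) : ℤ) * p := by
    push_cast
    linear_combination 3 * huv
  have hC' : ¬ p ∣ 3 := by
    intro hd
    have := Nat.le_of_dvd (by norm_num) hd
    have := hP.h3
    omega
  obtain ⟨hρ, hμ⟩ := norm_fac hP.hp (by have := hP.h3; omega) hP.hk hP.h1 hP.hb hs
    (by simpa using h3n) hC' hUV hlt
  -- parity
  have hodd : Odd (u + v) := by
    have h3 : Odd (p : ℤ) := by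
      have := hP.hp.odd_of_ne_two (by have := hP.h3; omega)
      exact_mod_cast this
    rw [← huv] at h3
    have h4 : Odd (3 * u ^ 2 + (2 * q - 3) * v ^ 2 + 2 * (u * v - u ^ 2 + (2 - q) * v ^ 2)) :=
      h3.add_even (even_two_mul _)
    have h6 : 3 * u ^ 2 + (2 * q - 3) * v ^ 2 + 2 * (u * v - u ^ 2 + (2 - q) * v ^ 2) =
        (u + v) ^ 2 := by ring
    rw [h6] at h4
    by_contra hcon
    rw [Int.not_odd_iff_even] at hcon
    have h7 : Even ((u + v) ^ 2) := hcon.pow_of_ne_zero two_ne_zero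
    exact (Int.not_odd_iff_even.2 h7) h4
  obtain ⟨k, hd, hk2⟩ := deg_three hw ho h.qi hodd
  have hkp : k = p := by
    have : (k : ℤ) = p := by rw [hk2, huv]
    exact_mod_cast this
  rw [hkp] at hd
  have hi := int_three h2n h3n hw ho x.2 x2.2 x3.2 x6.2 h.qint u v
  have hF' := frob_norm (x := ea x) (y := ea x3) hp0 (by
    rw [map_ea, frob_ea hP.hp rd_p_one, hF, ← map_ea])
  rw [coe_ea, coe_ea] at hF'
  have hgn : ‖(w : K) / (1 - 8 * (x : K))‖ = 1 := by rw [norm_div, hwn, n2, div_one]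
  have hmu : (1 - 8 * (x : K)) / (w : K) * ((3 * (u : K) + v * (s : K)) / 3) *
      ((3 * (u : K) - v * (s : K)) * ((w : K) / (1 - 8 * (x : K)))) = p := by
    have e1 : (1 - 8 * (x : K)) / (w : K) * ((3 * (u : K) + v * (s : K)) / 3) *
      ((3 * (u : K) - v * (s : K)) * ((w : K) / (1 - 8 * (x : K)))) =
        (3 * (u : K) + v * (s : K)) * (3 * (u : K) - v * (s : K)) / 3 := by
      field_simp
    rw [e1]
    have e2 := congrArg (fun z : ℤ => (z : K)) huv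
    push_cast at e2 hs
    rw [← e2]
    field_simp
    linear_combination -(v : K) ^ 2 * hs
  have hρ' : ‖3 * (u : K) - v * (s : K)‖ = 1 := by
    have := hρ
    push_cast at this
    exact this
  obtain ⟨c1, c2⟩ := coef_gen hP.hp hP.h3 hP.hk hP.h1 n1.le m1.le n2 m2 ma hF' hρ' hgn hmu hd hi
  have hgg : ((w : K) / (1 - 8 * (x : K))) ^ 2 = (gg : K) := by
    rw [div_pow, hw, ← hgK]
    field_simp
  refine rd_fin (ρ := (3 : OK K) * (u : OK K) - (v : OK K) * s) hp0 hgg ?_ ?_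
  · push_cast
    rw [coe_OK_ofNat]
    exact c1
  · push_cast
    rw [coe_OK_ofNat]
    exact c2

end Pool.Agent.Lib.MP_afcc06_nt
end

section

/-!
# CoefTwo: the coefficient modulo `p^2`, types one and two

`rd K p n : OK K →+* Rq K p n` is the reduction (D00): `rd_eq_iff`, `frob_norm`, `exists_mul_rd`; `coe_ea`-like coercions. `‖2‖ = ‖3‖ = 1` by
`hk` (`3 < p`). `K` algebraically closed.
* type one: `mu = u + v s`, `ρ = u - v s`, `g = 1`, `y = x`. `deg_one` (`u + v` odd because `p` is odd): `k = p`; `int_one`;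
  `norm_fac` with `U = u`, `B = 3(2q-3)`, `C = 1`; `coef_gen`.
* type two: `mu = 4x (u+vs)/2`, `ρ = u - v s`, `g = -2 x2` (`4x (-2 x2) = 1`), `mu ρ g = (u^2 + 3(2q-3) v^2)/2 = p`; `u, v` odd
  (`2p = u^2 + 3(2q-3) v^2`, both of the same parity; both even is impossible because `p` is odd ... modulo `4`);
  `deg_two`, `int_two`; `gg = g^2` because `16 x^2 gg = 1`. `norm_fac` with `C = 2`.
Templates: B18b.lean, B18c.lean and `hyp_i` in D03.lean.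
-/

set_option autoImplicit false

namespace Pool.Agent.Lib.MP_afcc06_nt

open Pool.Agent.Lib.MP_d4c4f0_nt

variable {K : Type*} [NormedField K] [IsUltrametricDist K] [CharZero K] [IsAlgClosed K]
  {p q : ℕ} {m : ℤ} {w s x x2 x3 x6 : OK K} {u v : ℤ}

theorem Dat.coef_two (hP : PrimeOk K p q m) (h16 : ‖(m : K) + 16‖ = 1)
    (h : Dat q m w s x x2 x3 x6) (h' : Dat q m w s x2 x x6 x3)
    (huv : u ^ 2 + 3 * (2 * q - 3) * v ^ 2 = 2 * p)
    (hlt : ‖(u : K) + v * (s : K)‖ < 1) (hF : rd K p 1 x ^ p = rd K p 1 x2) {gg : OK K}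
    (hg : 16 * x ^ 2 * gg = 1) :
    cf p (rd K p 2 x) ^ 4 * (1 - 8 * rd K p 2 x2) =
        rd K p 2 (u - v * s) ^ 4 * rd K p 2 gg ^ 2 * (1 - 8 * rd K p 2 x) ^ p ∧
      ∃ z, cf p (rd K p 2 x) ^ 2 - rd K p 2 (u - v * s) ^ 2 * rd K p 2 gg =
        (p : Rq K p 2) * z := by
  obtain ⟨hp, h3', hk, h1, hm, hb⟩ := hP
  have n2 : ‖(2 : K)‖ = 1 := by
    have := hk 2 (by norm_num) (by omega)
    simpa using this
  have n3 : ‖(3 : K)‖ = 1 := by
    have := hk 3 (by norm_num) h3'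
    simpa using this
  obtain ⟨-, nb, -, -, -⟩ := h.norms n2 n3 hm
  obtain ⟨nx2, nb2, -, -, nA⟩ := h'.norms n2 n3 hm
  have nA' := nA h16
  have ho : Orb (x : K) (x2 : K) (x3 : K) (x6 : K) := h.orb.map (OK K).subtype
  have hwK : (w : K) ^ 2 = -3 := by
    have := congrArg (fun z : OK K => (z : K)) h.hw
    simpa [coe_OK_ofNat] using this
  have hsK : (s : K) ^ 2 = -((3 * (2 * (q : ℤ) - 3) : ℤ) : K) := by
    have h4 := congrArg (fun z : OK K => (z : K)) h.hs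
    have h5 : (s : K) ^ 2 = -3 * (2 * (q : K) - 3) := by
      simpa [coe_OK_ofNat] using h4
    rw [h5]
    push_cast
    ring
  obtain ⟨nρ, -⟩ := norm_fac hp (by omega) hk h1 hb hsK (U := u) (v := v) (C := 2)
    (by simpa using n2)
    (by
      intro hd
      have := Nat.le_of_dvd (by norm_num) hd
      omega) (by rw [huv]; push_cast; ring) hlt
  have hpodd : Odd (p : ℤ) := by
    have := hp.odd_of_ne_two (by omega)
    exact_mod_cast this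
  have hpar : Even (u + v) := by
    by_contra hcon
    rw [Int.not_even_iff_odd] at hcon
    obtain ⟨c, hc⟩ := hcon
    have e4 : (u + v) ^ 2 = (2 * c + 1) ^ 2 := by rw [hc]
    have e5 : 2 * (p : ℤ) = 2 * ((3 * (q : ℤ) - 5) * v ^ 2 - u * v) + (2 * c + 1) ^ 2 := by
      rw [← huv, ← e4]
      ring
    have e6 : 2 * ((p : ℤ) - ((3 * (q : ℤ) - 5) * v ^ 2 - u * v) - 2 * c ^ 2 - 2 * c) = 1 := by
      linarith
    omega
  have hv : Odd v := by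
    by_contra hcon
    rw [Int.not_odd_iff_even] at hcon
    have hu : Even u := by
      have := hpar.sub hcon
      simpa using this
    obtain ⟨a, ha⟩ := hu
    obtain ⟨b, hb'⟩ := hcon
    obtain ⟨d, hd⟩ := hpodd
    rw [ha, hb', hd] at huv
    have e6 : 2 * ((a ^ 2 + 3 * (2 * (q : ℤ) - 3) * b ^ 2) - d) = 1 := by linarith
    omega
  have hu : Odd u := by
    by_contra hcon
    rw [Int.not_odd_iff_even] at hcon
    have hv' : Even v := by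
      have := hpar.sub hcon
      simpa using this
    exact (Int.not_odd_iff_even.2 hv') hv
  obtain ⟨k, hdeg, hkp⟩ := deg_two hwK ho h.qi hu hv
  have hk' : k = p := by
    have : (k : ℤ) = p := by linarith
    exact_mod_cast this
  rw [hk'] at hdeg
  have hint := int_two n2 n3 hwK ho x.2 x2.2 x3.2 x6.2 h.qint hu hv
  have hF' : ‖ea (x : K) ^ p - ea (x2 : K)‖ ≤ ‖(p : K)‖ := by
    have h5 : rd K p 1 (ea x) ^ p = rd K p 1 (ea x2) := by
      rw [map_ea, frob_ea hp rd_p_one, hF, map_ea]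
    have h6 := frob_norm hp.pos h5
    rwa [coe_ea, coe_ea] at h6
  have hmu : (4 * (x : K) * (((u : K) + v * (s : K)) / 2)) *
      (((u : K) - v * (s : K)) * (-2 * (x2 : K))) = p := by
    have e1 := congrArg (fun z : ℤ => (z : K)) huv
    push_cast at e1 hsK
    have e3 := ho.h12
    have e2 : (4 * (x : K) * (((u : K) + v * (s : K)) / 2)) *
        (((u : K) - v * (s : K)) * (-2 * (x2 : K))) =
        -(8 * (x : K) * (x2 : K)) * ((u : K) ^ 2 - (v : K) ^ 2 * (s : K) ^ 2) / 2 := by ring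
    rw [e2, e3, hsK]
    linear_combination e1 / 2
  have ng : ‖(-2 : K) * (x2 : K)‖ = 1 := by
    rw [norm_mul, norm_neg, n2, nx2, one_mul]
  obtain ⟨c1, c2⟩ := coef_gen hp h3' hk h1 (x := (x : K)) (y := (x2 : K)) x.2 x2.2 nb nb2 nA'
    hF' nρ ng hmu hdeg hint
  have hgg : (gg : K) = (-2 * (x2 : K)) ^ 2 := by
    have h4 : 16 * (x : K) ^ 2 * (gg : K) = 1 := by
      have := congrArg (fun z : OK K => (z : K)) hg
      simpa [coe_OK_ofNat] using this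
    have e3 := ho.h12
    have e4 : (gg : K) * (8 * (x : K) * (x2 : K)) ^ 2 = (-2 * (x2 : K)) ^ 2 := by
      linear_combination (4 * (x2 : K) ^ 2) * h4
    rw [e3] at e4
    rw [← e4]
    ring
  rw [← hgg] at c2
  have c1' : ‖cf p (x : K) ^ 2 - ((u : K) - v * (s : K)) ^ 2 * (gg : K)‖ ≤ ‖(p : K)‖ := by
    rw [hgg]
    exact c1
  have e1 : ((cf p x : OK K) : K) = cf p (x : K) := by
    unfold cf
    rw [coe_tn, coe_ea, coe_eb]
  have e2 : cf p (rd K p 2 x) = rd K p 2 (cf p x) := by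
    unfold cf
    rw [map_tn, map_ea, map_eb]
  have e4 : (1 - 8 * rd K p 2 x) = rd K p 2 (1 - 8 * x) := by
    simp [map_ofNat]
  have e4' : (1 - 8 * rd K p 2 x2) = rd K p 2 (1 - 8 * x2) := by
    simp [map_ofNat]
  constructor
  · rw [e2, e4, e4', ← map_pow, ← map_pow, ← map_pow, ← map_pow, ← map_mul, ← map_mul,
      ← map_mul, rd_eq_iff hp.pos]
    push_cast
    rw [e1, coe_OK_ofNat]
    simpa using c2
  · rw [e2, ← map_pow, ← map_pow, ← map_mul]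
    apply exists_mul_rd hp.pos
    push_cast
    rw [e1]
    simpa using c1'

end Pool.Agent.Lib.MP_afcc06_nt
end

section

/-!
# Alpha: the square of the truncated sum modulo `p^2`

`cm_eight'`: as `cm_eight` (C04), with `FH_eq` for `h13`, `h31`, `lin_identity`, `tn_mod'`, `exists_eps`, `alg_eight`.
`alpha_gen`: put `β = (1-8x)^(p-1)`, `β3 = (1-8x3)^(p-1)`. `cm_eight'`: `α^8 β^3 c3^4 = c^12 β3`. Multiply by `(1-8y)^3 (1-8y3)` and insert
`hc, hc3`: `α^8 β^3 ρ^4 gg3^2 (1-8x3)^p (1-8y)^3 = ρ^12 gg^6 (1-8x)^(3p) β3 (1-8y3)`; cancel the units `ρ^4, β^3, β3`: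
`α^8 gg3^2 (1-8x3) (1-8y)^3 = ρ^8 gg^6 (1-8x)^3 (1-8y3)`; by `ht` and cancelling the unit `gg^2 (1-8x)^3 (1-8y3)`: `α^8 = ρ^8 gg^4`.
`four_root` with `X = α^2`, `Y = ρ^2 gg` (`α - c` is a multiple of `p` by `tn_mod'`). Template: C04a.lean.
-/

set_option autoImplicit false

namespace Pool.Agent.Lib.MP_afcc06_nt

open Pool.Agent.Lib.MP_d4c4f0_nt

variable {S : Type*} [CommRing S] {p : ℕ}

theorem cm_eight' (hp : p.Prime) (h3 : 3 < p) (hS : (p : S) ^ 2 = 0) {x x3 : S}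
    (h13 : (1 - 8 * x) * x3 = -(1 + x)) (h31 : (1 - 8 * x3) * x = -(1 + x3)) :
    FA p x ^ 8 * ((1 - 8 * x) ^ (p - 1)) ^ 3 * cf p x3 ^ 4 =
      cf p x ^ 12 * (1 - 8 * x3) ^ (p - 1) := by
  obtain ⟨ε, hε, hε'⟩ := exists_eps hp h3
  have h1 := lin_identity hp h3 hS x hε hε'
  have h2 := lin_identity hp h3 hS x3 hε hε'
  rw [FH_eq h13] at h1
  rw [FH_eq h31] at h2
  obtain ⟨z, hz⟩ := tn_mod' hp h3 x
  obtain ⟨z3, hz3⟩ := tn_mod' hp h3 x3
  have hε2 : ((ε : ℤ) : S) ^ 2 = 1 := by rw [← Int.cast_pow, hε, Int.cast_one]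
  exact alg_eight hS hε2 h1 h2 hz hz3

theorem alpha_gen (hp : p.Prime) (h3 : 3 < p) (hS : (p : S) ^ 2 = 0) {x x3 y y3 ρ gg gg3 : S}
    (h13 : (1 - 8 * x) * x3 = -(1 + x)) (h31 : (1 - 8 * x3) * x = -(1 + x3))
    (ux : IsUnit (1 - 8 * x)) (ux3 : IsUnit (1 - 8 * x3)) (uy : IsUnit (1 - 8 * y))
    (uy3 : IsUnit (1 - 8 * y3)) (uρ : IsUnit ρ) (ug : IsUnit gg)
    (hc : cf p x ^ 4 * (1 - 8 * y) = ρ ^ 4 * gg ^ 2 * (1 - 8 * x) ^ p)
    (hc3 : cf p x3 ^ 4 * (1 - 8 * y3) = ρ ^ 4 * gg3 ^ 2 * (1 - 8 * x3) ^ p)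
    (hcc : ∃ z : S, cf p x ^ 2 - ρ ^ 2 * gg = (p : S) * z)
    (ht : gg3 ^ 2 * (1 - 8 * x3) * (1 - 8 * y) ^ 3 = gg ^ 2 * (1 - 8 * x) ^ 3 * (1 - 8 * y3)) :
    FA p x ^ 2 = ρ ^ 2 * gg := by
  obtain ⟨z, hz⟩ := hcc
  obtain ⟨z1, hz1⟩ := tn_mod' (S := S) hp h3 x
  have h8 := cm_eight' hp h3 hS h13 h31
  have h4 : IsUnit (4 : S) := by
    have := isUnit_of_prime_gt (S := S) hp hS (k := 2) (by norm_num) (by omega)
    have h2 : IsUnit (2 : S) := by exact_mod_cast this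
    have e : (4 : S) = 2 * 2 := by norm_num
    rw [e]
    exact h2.mul h2
  have hpp : ∀ B : S, B ^ p = B ^ (p - 1) * B := by
    intro B
    rw [← pow_succ]
    congr 1
    omega
  rw [hpp] at hc hc3
  change cf p x - FA p x = (p : S) * z1 at hz1
  generalize cf p x3 = c3 at *
  generalize cf p x = c at *
  generalize FA p x = α at *
  generalize (1 - 8 * x) = B at *
  generalize (1 - 8 * x3) = B3 at *
  generalize (1 - 8 * y) = Y at *
  generalize (1 - 8 * y3) = Y3 at *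
  generalize hb : B ^ (p - 1) = β at *
  generalize hb3 : B3 ^ (p - 1) = β3 at *
  have uβ : IsUnit β := by rw [← hb]; exact ux.pow _
  have uβ3 : IsUnit β3 := by rw [← hb3]; exact ux3.pow _
  have hU : IsUnit (ρ ^ 4 * β ^ 3 * β3 * (gg ^ 2 * B ^ 3 * Y3)) :=
    (((uρ.pow 4).mul (uβ.pow 3)).mul uβ3).mul (((ug.pow 2).mul (ux.pow 3)).mul uy3)
  have h88 : α ^ 8 = (ρ ^ 2 * gg) ^ 4 := by
    apply hU.mul_left_cancel
    calc ρ ^ 4 * β ^ 3 * β3 * (gg ^ 2 * B ^ 3 * Y3) * α ^ 8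
        = ρ ^ 4 * β ^ 3 * β3 * (gg3 ^ 2 * B3 * Y ^ 3) * α ^ 8 := by rw [ht]
      _ = α ^ 8 * β ^ 3 * Y ^ 3 * (ρ ^ 4 * gg3 ^ 2 * (β3 * B3)) := by ring
      _ = α ^ 8 * β ^ 3 * Y ^ 3 * (c3 ^ 4 * Y3) := by rw [hc3]
      _ = (α ^ 8 * β ^ 3 * c3 ^ 4) * Y ^ 3 * Y3 := by ring
      _ = (c ^ 12 * β3) * Y ^ 3 * Y3 := by rw [h8]
      _ = (c ^ 4 * Y) ^ 3 * β3 * Y3 := by ring
      _ = (ρ ^ 4 * gg ^ 2 * (β * B)) ^ 3 * β3 * Y3 := by rw [hc]
      _ = _ := by ring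
  refine four_root (π := (p : S)) hS (X := α ^ 2) (Y := ρ ^ 2 * gg) (z := z - 2 * c * z1) ?_
    ((uρ.pow 2).mul ug) h4 ?_
  · linear_combination hz + (p * z1 - c - α) * hz1 + z1 ^ 2 * hS
  · calc (α ^ 2) ^ 4 = α ^ 8 := by ring
      _ = _ := h88

end Pool.Agent.Lib.MP_afcc06_nt
end
end
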