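import Pool.Agent.Lib.MP_d4c4f0_nt.ZS.A03
import Pool.Agent.Lib.MP_d4c4f0_nt.ZS.A06

/-!
# Definitions for MP_afcc06_nt

`Orb x x2 x3 x6`: the four points `x, w2 x = -1/(8x), w3 x = -(1+x)/(1-8x), w6 x`.
`OD x y mu k` (`ED`, `IS`): the homomorphism of multiplier `mu` from the curve of `x` to the curve of `y` is given by a
rational function of (odd) degree `k` (is even of degree `k`; is integral).
`QI w s x x6 q`: the two homomorphisms of multipliers `-4(1+x)/w * (3 ± s)/6` have degree `q`. Here `w^2 = -3` and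
`s^2 = -3(2q-3)`.
-/

set_option autoImplicit false

open Finset

namespace Pool.Agent.Lib.MP_afcc06_nt

open Pool.Agent.Lib.MP_d4c4f0_nt

/-- The four points `x, w2 x, w3 x, w6 x`. -/
structure Orb {S : Type*} [CommRing S] (x x2 x3 x6 : S) : Prop where
  h12 : 8 * x * x2 = -1
  h36 : 8 * x3 * x6 = -1
  h13 : (1 - 8 * x) * x3 = -(1 + x)
  h31 : (1 - 8 * x3) * x = -(1 + x3)
  h26 : (1 - 8 * x2) * x6 = -(1 + x2)
  h62 : (1 - 8 * x6) * x2 = -(1 + x6)

/-- The point lies over the value `1/m`. -/
def Quart {S : Type*} [CommRing S] (m x : S) : Prop :=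
  m * (x * (1 - 7 * x - 8 * x ^ 2)) = (1 + 8 * x ^ 2) ^ 2

/-- The coefficient of `t^(p-1)` of the differential of the curve of `x`. -/
def cf {S : Type*} [CommRing S] (p : ℕ) (x : S) : S := tn ((p - 1) / 2) (ea x) (eb x)

section Field

variable {K : Type*} [Field K]

/-- The homomorphism of multiplier `mu` from the curve of `x` to the curve of `y` has odd degree `k`. -/
def OD (x y mu : K) (k : ℕ) : Prop :=
  OddDeg (omS (ea x) (eb x)) (-2 * ea y) (1 - 8 * y) mu k

/-- The homomorphism of multiplier `mu` from the curve of `x` to the curve of `y` has even degree `k`. -/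
def ED (x y mu : K) (k : ℕ) : Prop :=
  EvenDeg (omS (ea x) (eb x)) (-2 * ea y) (1 - 8 * y) mu k

/-- The two special homomorphisms of degree `q`. -/
structure QI (w s x x6 : K) (q : ℕ) : Prop where
  pos : OD x x6 (-4 * (1 + x) / w * ((3 + s) / 6)) q
  neg : OD x x6 (-4 * (1 + x) / w * ((3 - s) / 6)) q

end Field

section Normed

variable {K : Type*} [NormedField K] [IsUltrametricDist K]

/-- The homomorphism of multiplier `mu` from the curve of `x` to the curve of `y` is integral. -/
def IS (x y mu : K) : Prop :=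
  IntSol (omS (ea x) (eb x)) (-2 * ea y) (1 - 8 * y) mu

/-- The two special homomorphisms are integral. -/
structure QInt (w s x x6 : K) : Prop where
  pos : IS x x6 (-4 * (1 + x) / w * ((3 + s) / 6))
  neg : IS x x6 (-4 * (1 + x) / w * ((3 - s) / 6))

end Normed

end Pool.Agent.Lib.MP_afcc06_nt
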