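import Mathlib

section

/-!
# Leg2: Legendre symbols from the representations

`b` a prime, `b % 8 = 3` or `7`, `3 ≠ b`; `ε = legendreSym 3 b` (`= (b/3)`), so `(3/b) = -ε`. Quadratic reciprocity
(`legendreSym.quadratic_reciprocity'`), second supplement (`ZMod.exists_sq_eq_two_iff` / `legendreSym.at_two`).
* `leg_one`: `p = u^2 + 3b v^2`: `p % 4 = 1` (one of `u, v` is even, `3b % 4 = 1`); `(p/3) = (p/b) = 1`.
* `leg_two`: `2p = u^2 + 3b v^2`: `u, v` odd; `(p/3) = (2/3) = -1`, `(p/b) = (2/b)`. `b % 8 = 3`: `p % 4 = 1`, `(2/b) = -1`;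
  `b % 8 = 7`: `p % 4 = 3`, `(2/b) = 1`.
* `leg_three`: `p = 3u^2 + b v^2`: `p % 4 = 3`; `(p/3) = (b/3) = ε`, `(p/b) = (3/b) = -ε`.
* `leg_six`: `2p = 3u^2 + b v^2`: `u, v` odd; `(p/3) = (2/3)(b/3) = -ε`, `(p/b) = (2/b)(3/b)`. `b % 8 = 3`: `p % 4 = 3`; `b % 8 = 7`: `p % 4 = 1`.
(`p` is a prime different from `2, 3, b`; reduce the representation modulo `3` and modulo `b`: `3 ∤ u` resp. `3 ∤ v` and so on,
because otherwise `3 ∣ p` or `b ∣ p`.)
-/

set_option autoImplicit false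

namespace Pool.Agent.Lib.MP_afcc06_nt

variable {p b : ℕ} [Fact p.Prime] [Fact b.Prime] {u v : ℤ}

private lemma leg2_sq (x : ℤ) (hx : x % 2 = 1) : ∃ k, x ^ 2 = 8 * k + 1 := by
  obtain ⟨a, ha⟩ : ∃ a, x = 2 * a + 1 := ⟨x / 2, by omega⟩
  obtain ⟨c, hc⟩ := Int.even_mul_succ_self a
  refine ⟨c, ?_⟩
  rw [ha]
  linear_combination 4 * hc

private lemma leg2_mod8 {α β u v : ℤ} {p : ℕ} (hα : α % 2 = 1) (hβ : β % 2 = 1) (hp : p % 2 = 1)
    (h : α * u ^ 2 + β * v ^ 2 = 2 * p) : (2 * (p : ℤ) - (α + β)) % 8 = 0 := by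
  obtain ⟨a, ha⟩ : ∃ a, α = 2 * a + 1 := ⟨α / 2, by omega⟩
  obtain ⟨b, hb⟩ : ∃ b, β = 2 * b + 1 := ⟨β / 2, by omega⟩
  rcases Int.emod_two_eq_zero_or_one u with hu | hu
  · obtain ⟨c, hc⟩ : ∃ c, u = 2 * c := ⟨u / 2, by omega⟩
    rcases Int.emod_two_eq_zero_or_one v with hv | hv
    · obtain ⟨d, hd⟩ : ∃ d, v = 2 * d := ⟨v / 2, by omega⟩
      exfalso
      have h1 : (p : ℤ) = 2 * (α * c ^ 2 + β * d ^ 2) := by
        rw [hc, hd] at h
        linarith
      omega
    · obtain ⟨k, hk⟩ := leg2_sq v hv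
      exfalso
      have h1 : 2 * (p : ℤ) = 2 * (2 * (α * c ^ 2) + (2 * b + 1) * (4 * k) + b) + 1 := by
        rw [← h, hk, hc, hb]
        ring
      omega
  · obtain ⟨j, hj⟩ := leg2_sq u hu
    rcases Int.emod_two_eq_zero_or_one v with hv | hv
    · obtain ⟨d, hd⟩ : ∃ d, v = 2 * d := ⟨v / 2, by omega⟩
      exfalso
      have h1 : 2 * (p : ℤ) = 2 * (2 * (β * d ^ 2) + (2 * a + 1) * (4 * j) + a) + 1 := by
        rw [← h, hj, hd, ha]
        ring
      omega
    · obtain ⟨k, hk⟩ := leg2_sq v hv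
      have h1 : 2 * (p : ℤ) - (α + β) = 8 * (α * j + β * k) := by
        rw [← h, hj, hk]
        ring
      rw [h1]
      simp

private lemma leg2_cong {q : ℕ} [Fact q.Prime] {a c x : ℤ} (h : (q : ℤ) ∣ c * x ^ 2 - a)
    (hx : ¬ (q : ℤ) ∣ x) : legendreSym q a = legendreSym q c := by
  have h1 : ((x : ℤ) : ZMod q) ≠ 0 := by
    rwa [Ne, ZMod.intCast_zmod_eq_zero_iff_dvd]
  have h2 : legendreSym q a = legendreSym q (c * x ^ 2) := by
    have h3 : ((a : ℤ) : ZMod q) = ((c * x ^ 2 : ℤ) : ZMod q) :=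
      (ZMod.intCast_eq_intCast_iff_dvd_sub _ _ _).2 h
    unfold legendreSym
    rw [h3]
  rw [h2, legendreSym.mul, legendreSym.sq_one' (p := q) h1, mul_one]

private lemma leg2_dvd {q p : ℕ} (hq : q.Prime) (hp : p.Prime) (hq2 : q ≠ 2) (hqp : p ≠ q)
    (h : (q : ℤ) ∣ 2 * p) : False := by
  have h1 : q ∣ 2 * p := by exact_mod_cast h
  rcases hq.dvd_mul.1 h1 with h2 | h2
  · exact hq2 ((Nat.prime_dvd_prime_iff_eq hq Nat.prime_two).1 h2)
  · exact hqp ((Nat.prime_dvd_prime_iff_eq hq hp).1 h2).symm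

private lemma leg2_three_two : legendreSym 3 2 = -1 := by
  have : Fact (Nat.Prime 3) := ⟨Nat.prime_three⟩
  decide

private lemma leg2_three_of_one {b : ℕ} (h : b % 3 = 1) : legendreSym 3 b = 1 := by
  rw [legendreSym.mod]
  have : (b : ℤ) % 3 = 1 := by omega
  rw [show ((3 : ℕ) : ℤ) = 3 from rfl, this]
  decide

private lemma leg2_three_of_two {b : ℕ} (h : b % 3 = 2) : legendreSym 3 b = -1 := by
  rw [legendreSym.mod]
  have : (b : ℤ) % 3 = 2 := by omega
  rw [show ((3 : ℕ) : ℤ) = 3 from rfl, this]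
  decide

private lemma leg2_at_two_three {b : ℕ} [Fact b.Prime] (h : b % 8 = 3) : legendreSym b 2 = -1 := by
  rw [legendreSym.at_two (by omega), ZMod.χ₈_nat_eq_if_mod_eight]
  rw [if_neg (by omega), if_neg (by omega)]

private lemma leg2_at_two_seven {b : ℕ} [Fact b.Prime] (h : b % 8 = 7) : legendreSym b 2 = 1 := by
  rw [legendreSym.at_two (by omega), ZMod.χ₈_nat_eq_if_mod_eight]
  rw [if_neg (by omega), if_pos (by omega)]

theorem leg_two (hp2 : p ≠ 2) (hp3 : p ≠ 3) (hpb : p ≠ b) (hb3 : b ≠ 3)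
    (h : u ^ 2 + 3 * b * v ^ 2 = 2 * p) :
    (b % 8 = 3 → legendreSym p 3 = -1 ∧ legendreSym p b = -1) ∧
      (b % 8 = 7 → legendreSym p 3 = 1 ∧ legendreSym p b = -1) := by
  have hpP : p.Prime := Fact.out
  have hbP : b.Prime := Fact.out
  have f3 : Fact (Nat.Prime 3) := ⟨Nat.prime_three⟩
  have hpodd : p % 2 = 1 := hpP.eq_two_or_odd.resolve_left hp2
  have hu3 : ¬ ((3 : ℕ) : ℤ) ∣ u := by
    intro hd
    apply leg2_dvd Nat.prime_three hpP (by norm_num) hp3
    rw [← h]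
    exact dvd_add (dvd_pow hd two_ne_zero) ⟨b * v ^ 2, by push_cast; ring⟩
  -- the symbol modulo 3
  have e3 : legendreSym 3 p = -1 := by
    have h1 : legendreSym 3 (2 * p) = legendreSym 3 1 := by
      refine leg2_cong (x := u) ?_ hu3
      rw [← h]
      exact ⟨-(b * v ^ 2), by push_cast; ring⟩
    rw [legendreSym.mul, leg2_three_two, legendreSym.at_one] at h1
    linarith
  have key : b ≠ 2 → legendreSym b 2 * legendreSym b p = 1 := by
    intro hb2
    have hub : ¬ (b : ℤ) ∣ u := by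
      intro hd
      apply leg2_dvd hbP hpP hb2 hpb
      rw [← h]
      exact dvd_add (dvd_pow hd two_ne_zero) ⟨3 * v ^ 2, by ring⟩
    have h1 : legendreSym b (2 * p) = legendreSym b 1 := by
      refine leg2_cong (x := u) ?_ hub
      rw [← h]
      exact ⟨-(3 * v ^ 2), by ring⟩
    rw [legendreSym.mul, legendreSym.at_one] at h1
    exact h1
  have hmod : b % 2 = 1 → (2 * (p : ℤ) - (1 + 3 * b)) % 8 = 0 := by
    intro hb
    refine leg2_mod8 (u := u) (v := v) (by norm_num) (by omega) hpodd ?_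
    rw [one_mul]
    exact h
  constructor
  · intro hb
    have h4 : p % 4 = 1 := by
      have := hmod (by omega)
      omega
    have hk := key (by omega)
    rw [leg2_at_two_three hb] at hk
    constructor
    · have h5 := legendreSym.quadratic_reciprocity_one_mod_four (p := p) (q := 3) h4 (by norm_num)
      rw [e3] at h5
      exact h5.symm
    · have h5 := legendreSym.quadratic_reciprocity_one_mod_four (p := p) (q := b) h4 (by omega)
      rw [← h5]
      linarith
  · intro hb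
    have h4 : p % 4 = 3 := by
      have := hmod (by omega)
      omega
    have hk := key (by omega)
    rw [leg2_at_two_seven hb] at hk
    constructor
    · have h5 := legendreSym.quadratic_reciprocity_three_mod_four (p := p) (q := 3) h4 (by norm_num)
      rw [e3] at h5
      have h6 : legendreSym p (3 : ℕ) = 1 := by linarith
      exact h6
    · have h5 := legendreSym.quadratic_reciprocity_three_mod_four (p := p) (q := b) h4 (by omega)
      linarith

theorem leg_six (hp2 : p ≠ 2) (hp3 : p ≠ 3) (hpb : p ≠ b) (hb3 : b ≠ 3)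
    (h : 3 * u ^ 2 + b * v ^ 2 = 2 * p) :
    (b % 8 = 7 → b % 3 = 1 → legendreSym p 3 = -1 ∧ legendreSym p b = -1) ∧
      (b % 8 = 3 → b % 3 = 1 → legendreSym p 3 = 1 ∧ legendreSym p b = -1) ∧
      (b % 8 = 3 → b % 3 = 2 → legendreSym p 3 = -1 ∧ legendreSym p b = 1) := by
  have hpP : p.Prime := Fact.out
  have hbP : b.Prime := Fact.out
  have f3 : Fact (Nat.Prime 3) := ⟨Nat.prime_three⟩
  have hpodd : p % 2 = 1 := hpP.eq_two_or_odd.resolve_left hp2
  have hv3 : ¬ ((3 : ℕ) : ℤ) ∣ v := by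
    intro hd
    apply leg2_dvd Nat.prime_three hpP (by norm_num) hp3
    rw [← h]
    exact dvd_add ⟨u ^ 2, by push_cast; ring⟩ ((dvd_pow hd two_ne_zero).mul_left _)
  -- the symbol modulo 3
  have e3 : legendreSym 3 p = -legendreSym 3 b := by
    have h1 : legendreSym 3 (2 * p) = legendreSym 3 b := by
      refine leg2_cong (x := v) ?_ hv3
      rw [← h]
      exact ⟨-(u ^ 2), by push_cast; ring⟩
    rw [legendreSym.mul, leg2_three_two] at h1
    linarith
  have key : b ≠ 2 → legendreSym b 2 * legendreSym b p = legendreSym b 3 := by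
    intro hb2
    have hub : ¬ (b : ℤ) ∣ u := by
      intro hd
      apply leg2_dvd hbP hpP hb2 hpb
      rw [← h]
      exact dvd_add ((dvd_pow hd two_ne_zero).mul_left _) ⟨v ^ 2, by ring⟩
    have h1 : legendreSym b (2 * p) = legendreSym b 3 := by
      refine leg2_cong (x := u) ?_ hub
      rw [← h]
      exact ⟨-(v ^ 2), by ring⟩
    rw [legendreSym.mul] at h1
    exact h1
  have hmod : b % 2 = 1 → (2 * (p : ℤ) - (3 + b)) % 8 = 0 := by
    intro hb
    exact leg2_mod8 (u := u) (v := v) (by norm_num) (by omega) hpodd h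
  -- the symbol `(3/b)`
  have hb3' : b % 4 = 3 → legendreSym b 3 = -legendreSym 3 b := by
    intro hb
    have h5 := legendreSym.quadratic_reciprocity_three_mod_four (p := 3) (q := b) (by norm_num) hb
    exact h5
  refine ⟨fun hb hb1 => ?_, fun hb hb1 => ?_, fun hb hb1 => ?_⟩
  · have h4 : p % 4 = 1 := by
      have := hmod (by omega)
      omega
    have hk := key (by omega)
    rw [leg2_at_two_seven hb, hb3' (by omega), leg2_three_of_one hb1] at hk
    rw [leg2_three_of_one hb1] at e3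
    constructor
    · have h5 := legendreSym.quadratic_reciprocity_one_mod_four (p := p) (q := 3) h4 (by norm_num)
      rw [e3] at h5
      exact h5.symm
    · have h5 := legendreSym.quadratic_reciprocity_one_mod_four (p := p) (q := b) h4 (by omega)
      rw [← h5]
      linarith
  · have h4 : p % 4 = 3 := by
      have := hmod (by omega)
      omega
    have hk := key (by omega)
    rw [leg2_at_two_three hb, hb3' (by omega), leg2_three_of_one hb1] at hk
    rw [leg2_three_of_one hb1] at e3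
    constructor
    · have h5 := legendreSym.quadratic_reciprocity_three_mod_four (p := p) (q := 3) h4 (by norm_num)
      rw [e3] at h5
      have h6 : legendreSym p (3 : ℕ) = 1 := by linarith
      exact h6
    · have h5 := legendreSym.quadratic_reciprocity_three_mod_four (p := p) (q := b) h4 (by omega)
      linarith
  · have h4 : p % 4 = 3 := by
      have := hmod (by omega)
      omega
    have hk := key (by omega)
    rw [leg2_at_two_three hb, hb3' (by omega), leg2_three_of_two hb1] at hk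
    rw [leg2_three_of_two hb1] at e3
    constructor
    · have h5 := legendreSym.quadratic_reciprocity_three_mod_four (p := p) (q := 3) h4 (by norm_num)
      rw [e3] at h5
      have h6 : legendreSym p (3 : ℕ) = -1 := by linarith
      exact h6
    · have h5 := legendreSym.quadratic_reciprocity_three_mod_four (p := p) (q := b) h4 (by omega)
      linarith

end Pool.Agent.Lib.MP_afcc06_nt
end

section

/-!
# Leg: Legendre symbols from the representations

`b` a prime, `b % 8 = 3` or `7`, `3 ≠ b`; `ε = legendreSym 3 b` (`= (b/3)`), so `(3/b) = -ε`. Quadratic reciprocity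
(`legendreSym.quadratic_reciprocity'`), second supplement (`ZMod.exists_sq_eq_two_iff` / `legendreSym.at_two`).
* `leg_one`: `p = u^2 + 3b v^2`: `p % 4 = 1` (one of `u, v` is even, `3b % 4 = 1`); `(p/3) = (p/b) = 1`.
* `leg_two`: `2p = u^2 + 3b v^2`: `u, v` odd; `(p/3) = (2/3) = -1`, `(p/b) = (2/b)`. `b % 8 = 3`: `p % 4 = 1`, `(2/b) = -1`;
  `b % 8 = 7`: `p % 4 = 3`, `(2/b) = 1`.
* `leg_three`: `p = 3u^2 + b v^2`: `p % 4 = 3`; `(p/3) = (b/3) = ε`, `(p/b) = (3/b) = -ε`.
* `leg_six`: `2p = 3u^2 + b v^2`: `u, v` odd; `(p/3) = (2/3)(b/3) = -ε`, `(p/b) = (2/b)(3/b)`. `b % 8 = 3`: `p % 4 = 3`; `b % 8 = 7`: `p % 4 = 1`.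
(`p` is a prime different from `2, 3, b`; reduce the representation modulo `3` and modulo `b`: `3 ∤ u` resp. `3 ∤ v` and so on,
because otherwise `3 ∣ p` or `b ∣ p`.)
-/

set_option autoImplicit false

namespace Pool.Agent.Lib.MP_afcc06_nt

variable {p b : ℕ} [Fact p.Prime] [Fact b.Prime] {u v : ℤ}

private theorem leg_congr {q : ℕ} [Fact q.Prime] {a c : ℤ} (h : (q : ℤ) ∣ a - c) :
    legendreSym q a = legendreSym q c := by
  have h1 : c ≡ a [ZMOD q] := Int.modEq_iff_dvd.2 h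
  rw [legendreSym.mod q a, legendreSym.mod q c]
  exact congrArg _ h1.symm

private theorem leg_ne {q : ℕ} [Fact q.Prime] {a : ℤ} (h : ¬ (q : ℤ) ∣ a) : (a : ZMod q) ≠ 0 := by
  intro h0
  exact h ((ZMod.intCast_zmod_eq_zero_iff_dvd a q).1 h0)

private theorem leg_mul_sq {q : ℕ} [Fact q.Prime] {a c : ℤ} (h : ¬ (q : ℤ) ∣ c) :
    legendreSym q (a * c ^ 2) = legendreSym q a := by
  rw [legendreSym.mul, legendreSym.sq_one' q (leg_ne h), mul_one]

private theorem leg_dvd {q : ℕ} [Fact q.Prime] (hpq : p ≠ q) (h : (q : ℤ) ∣ p) : False := by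
  have h1 : q ∣ p := by exact_mod_cast h
  exact hpq ((Nat.prime_dvd_prime_iff_eq (Fact.out : q.Prime) (Fact.out : p.Prime)).1 h1).symm

theorem leg_one (hp2 : p ≠ 2) (hp3 : p ≠ 3) (hpb : p ≠ b) (hb3 : b ≠ 3) (hb : b % 4 = 3)
    (h : u ^ 2 + 3 * b * v ^ 2 = p) : legendreSym p 3 = 1 ∧ legendreSym p b = 1 := by
  have hp1 : p % 2 = 1 := (Fact.out : p.Prime).eq_two_or_odd.resolve_left hp2
  have hp4 : p % 4 = 1 := by
    have h1 : (p : ℤ) % 4 = (u ^ 2 + 3 * b * v ^ 2) % 4 := by rw [h]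
    have hb' : (b : ℤ) % 4 = 3 := by exact_mod_cast hb
    have hp' : (p : ℤ) % 2 = 1 := by exact_mod_cast hp1
    obtain ⟨c, hc⟩ : ∃ c : ℤ, (b : ℤ) = 4 * c + 3 := ⟨(b : ℤ) / 4, by omega⟩
    have hu : u ^ 2 % 4 = 0 ∨ u ^ 2 % 4 = 1 := by
      rcases Int.even_or_odd' u with ⟨k, rfl | rfl⟩
      · left; ring_nf; omega
      · right; ring_nf; omega
    have hv : v ^ 2 % 4 = 0 ∨ v ^ 2 % 4 = 1 := by
      rcases Int.even_or_odd' v with ⟨k, rfl | rfl⟩
      · left; ring_nf; omega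
      · right; ring_nf; omega
    have h2 : (p : ℤ) = u ^ 2 + v ^ 2 + 4 * (3 * c * v ^ 2 + 2 * v ^ 2) := by
      rw [← h, hc]; ring
    omega
  have h3 : ¬ (3 : ℤ) ∣ u := by
    rintro ⟨k, rfl⟩
    exact leg_dvd (q := 3) hp3 ⟨3 * k ^ 2 + b * v ^ 2, by rw [← h]; push_cast; ring⟩
  have h4 : ¬ (b : ℤ) ∣ u := by
    rintro ⟨k, rfl⟩
    exact leg_dvd hpb ⟨b * k ^ 2 + 3 * v ^ 2, by rw [← h]; ring⟩
  have h5 : legendreSym 3 p = 1 := by
    rw [leg_congr (q := 3) (a := p) (c := 1 * u ^ 2) ⟨b * v ^ 2, by rw [← h]; push_cast; ring⟩,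
      leg_mul_sq (q := 3) (by exact_mod_cast h3), legendreSym.at_one]
  have h6 : legendreSym b p = 1 := by
    rw [leg_congr (q := b) (a := p) (c := 1 * u ^ 2) ⟨3 * v ^ 2, by rw [← h]; ring⟩,
      leg_mul_sq h4, legendreSym.at_one]
  have hb2 : b ≠ 2 := by rintro rfl; omega
  constructor
  · have h7 := legendreSym.quadratic_reciprocity_one_mod_four (p := p) (q := 3) hp4 (by norm_num)
    rw [h5] at h7
    exact_mod_cast h7.symm
  · have h7 := legendreSym.quadratic_reciprocity_one_mod_four (p := p) (q := b) hp4 hb2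
    rw [h6] at h7
    exact h7.symm

theorem leg_three (hp2 : p ≠ 2) (hp3 : p ≠ 3) (hpb : p ≠ b) (hb3 : b ≠ 3) (hb : b % 4 = 3)
    (h : 3 * u ^ 2 + b * v ^ 2 = p) :
    (b % 3 = 1 → legendreSym p 3 = -1 ∧ legendreSym p b = 1) ∧
      (b % 3 = 2 → legendreSym p 3 = 1 ∧ legendreSym p b = -1) := by
  have hp1 : p % 2 = 1 := (Fact.out : p.Prime).eq_two_or_odd.resolve_left hp2
  have hp4 : p % 4 = 3 := by
    have hb' : (b : ℤ) % 4 = 3 := by exact_mod_cast hb
    have hp' : (p : ℤ) % 2 = 1 := by exact_mod_cast hp1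
    obtain ⟨c, hc⟩ : ∃ c : ℤ, (b : ℤ) = 4 * c + 3 := ⟨(b : ℤ) / 4, by omega⟩
    have hu : u ^ 2 % 4 = 0 ∨ u ^ 2 % 4 = 1 := by
      rcases Int.even_or_odd' u with ⟨k, rfl | rfl⟩
      · left; ring_nf; omega
      · right; ring_nf; omega
    have hv : v ^ 2 % 4 = 0 ∨ v ^ 2 % 4 = 1 := by
      rcases Int.even_or_odd' v with ⟨k, rfl | rfl⟩
      · left; ring_nf; omega
      · right; ring_nf; omega
    have h2 : (p : ℤ) = 3 * u ^ 2 + 3 * v ^ 2 + 4 * (c * v ^ 2) := by
      rw [← h, hc]; ring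
    omega
  have h3 : ¬ (3 : ℤ) ∣ v := by
    rintro ⟨k, rfl⟩
    exact leg_dvd (q := 3) hp3 ⟨u ^ 2 + 3 * b * k ^ 2, by rw [← h]; push_cast; ring⟩
  have h4 : ¬ (b : ℤ) ∣ u := by
    rintro ⟨k, rfl⟩
    exact leg_dvd hpb ⟨3 * b * k ^ 2 + v ^ 2, by rw [← h]; ring⟩
  have h5 : legendreSym 3 p = legendreSym 3 b := by
    rw [leg_congr (q := 3) (a := p) (c := b * v ^ 2) ⟨u ^ 2, by rw [← h]; push_cast; ring⟩,
      leg_mul_sq (q := 3) (by exact_mod_cast h3)]
  have h6 : legendreSym b p = legendreSym b 3 := by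
    rw [leg_congr (q := b) (a := p) (c := 3 * u ^ 2) ⟨v ^ 2, by rw [← h]; ring⟩,
      leg_mul_sq h4]
  have h7 := legendreSym.quadratic_reciprocity_three_mod_four (p := p) (q := 3) hp4 (by norm_num)
  have h8 := legendreSym.quadratic_reciprocity_three_mod_four (p := p) (q := b) hp4 hb
  have h9 := legendreSym.quadratic_reciprocity_three_mod_four (p := 3) (q := b) (by norm_num) hb
  have h10 : legendreSym p 3 = - legendreSym 3 b := by
    have e1 : ((3 : ℕ) : ℤ) = 3 := rfl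
    rw [h5, e1] at h7
    rw [h7, neg_neg]
  have h11 : legendreSym p b = legendreSym 3 b := by
    have e1 : ((3 : ℕ) : ℤ) = 3 := rfl
    rw [h6] at h8
    rw [e1] at h9
    rw [h9] at h8
    exact (neg_injective h8).symm
  rw [h10, h11]
  constructor
  · intro h12
    have h13 : legendreSym 3 b = 1 := by
      rw [leg_congr (q := 3) (a := b) (c := 1) (by push_cast; omega), legendreSym.at_one]
    rw [h13]
    exact ⟨rfl, rfl⟩
  · intro h12
    have h13 : legendreSym 3 b = -1 := by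
      rw [leg_congr (q := 3) (a := b) (c := 2) (by push_cast; omega)]
      norm_num
    rw [h13]
    exact ⟨by norm_num, rfl⟩

end Pool.Agent.Lib.MP_afcc06_nt
end
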