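import Pool.Agent.Lib.MP_afcc06_nt.Padic
import Pool.Agent.Lib.MP_afcc06_nt.Leg

/-!
# Five: the statement for a certificate

`Z p m` is the sum; `Cong2 p x y`: `x - y ∈ p^2 ℤ_(p)`. `ZK p m = ((Z p m : ℚ) : PadicAlgCl p)` (`vr`, `fr` unfold to the binomial sums),
`rat_of_norm` (D01). The Legendre symbols by `leg_one`, ..., `leg_six`. `p ∤ m + 16` in the four split cases: `rep_leg` gives
`legendreSym p (-3b) = 1` (`U = u` or `3u`, `9u^2 + 3 b v^2 = 3 C p`); `hm16` excludes the primes dividing `m + 16`.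
-/

set_option autoImplicit false

open Finset

namespace Pool.Agent.Lib.MP_afcc06_nt

open Pool.Agent.Lib.MP_d4c4f0_nt

/-- `Z_p(m)`. -/
def Z (p : ℕ) (m : ℤ) : ℚ :=
  ∑ n ∈ range p, ((2 * n).choose n : ℚ) * (∑ k ∈ range (n + 1), (n.choose k : ℚ) ^ 3) / (m : ℚ) ^ n

/-- Congruence modulo `p^2` in the local ring at `p`. -/
def Cong2 (p : ℕ) (x y : ℚ) : Prop :=
  ∃ a d : ℤ, ¬ (p : ℤ) ∣ d ∧ x - y = (p : ℚ) ^ 2 * ((a : ℚ) / (d : ℚ))

/-- The statement for one value. -/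
def Holds (b : ℕ) (m : ℤ) : Prop :=
  ∀ p : ℕ, p.Prime → p ≠ 2 → p ≠ 3 → p ≠ b → ¬ (p : ℤ) ∣ m →
    (∀ x y : ℤ, x ^ 2 + 3 * b * y ^ 2 = p → Cong2 p (Z p m) (4 * x ^ 2 - 2 * p)) ∧
    (∀ x y : ℤ, 3 * x ^ 2 + b * y ^ 2 = p → Cong2 p (Z p m) (2 * p - 12 * x ^ 2)) ∧
    (∀ x y : ℤ, x ^ 2 + 3 * b * y ^ 2 = 2 * p → Cong2 p (Z p m) (2 * x ^ 2 - 2 * p)) ∧
    (∀ x y : ℤ, 3 * x ^ 2 + b * y ^ 2 = 2 * p → Cong2 p (Z p m) (2 * p - 6 * x ^ 2)) ∧
    (∀ _ : Fact p.Prime, legendreSym p (-3 * b) = -1 → Cong2 p (Z p m) 0)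

private theorem fv_ZK (p : ℕ) [Fact p.Prime] (m : ℤ) : ZK p m = ((Z p m : ℚ) : PadicAlgCl p) := by
  unfold ZK Z vr fr
  push_cast
  rfl

private theorem fv_cong {p : ℕ} [Fact p.Prime] {m : ℤ} {y : ℚ} {z : PadicAlgCl p}
    (hz : z = ((y : ℚ) : PadicAlgCl p))
    (h : ‖ZK p m - z‖ ≤ ‖(p : PadicAlgCl p)‖ ^ 2) : Cong2 p (Z p m) y := by
  rw [fv_ZK, hz, ← Rat.cast_sub] at h
  exact rat_of_norm h

theorem holds_of_cert {c : CertD} (hc : c.Ok) (hb : c.b.Prime) (hb3 : c.b ≠ 3)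
    (hb4 : c.b % 4 = 3)
    (hs2 : (c.b % 8 = 3 → c.s2 = true ∧ c.t2 = true) ∧
      (c.b % 8 = 7 → c.s2 = false ∧ c.t2 = true))
    (hs3 : (c.b % 3 = 1 → c.s3 = true ∧ c.t3 = false) ∧
      (c.b % 3 = 2 → c.s3 = false ∧ c.t3 = true))
    (h87 : c.b % 8 = 7 → c.b % 3 = 1)
    (hm16 : ∀ p : ℕ, ∀ _ : Fact p.Prime, 3 < p → (p : ℤ) ∣ c.m + 16 →
      legendreSym p (-3 * c.b) ≠ 1) : Holds c.b c.m := by
  intro p hp hp2 hp3 hpb hm
  have hF : Fact p.Prime := ⟨hp⟩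
  have hFb : Fact c.b.Prime := ⟨hb⟩
  have h3 : 3 < p := by
    have := hp.two_le
    omega
  have hpZ : Prime (p : ℤ) := Nat.prime_iff_prime_int.1 hp
  have hb' : ¬ (p : ℤ) ∣ 3 * c.b := by
    intro h
    have h1 : p ∣ 3 * c.b := by exact_mod_cast h
    rcases hp.dvd_mul.1 h1 with h2 | h2
    · exact hp3 ((Nat.prime_dvd_prime_iff_eq hp Nat.prime_three).1 h2)
    · exact hpb ((Nat.prime_dvd_prime_iff_eq hp hb).1 h2)
  have hn1 : ¬ p ∣ 1 := by
    intro h; have := Nat.le_of_dvd (by norm_num) h; omega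
  have hn2 : ¬ p ∣ 2 := by
    intro h; have := Nat.le_of_dvd (by norm_num) h; omega
  have hn3 : ¬ p ∣ 3 := by
    intro h; have := Nat.le_of_dvd (by norm_num) h; omega
  have hn6 : ¬ p ∣ 6 := by
    intro h
    have h1 : p ∣ 2 * 3 := h
    rcases hp.dvd_mul.1 h1 with h2 | h2
    · exact hn2 h2
    · exact hn3 h2
  have h83 : c.b % 8 = 3 ∨ c.b % 8 = 7 := by omega
  have hb13 : c.b % 3 = 1 ∨ c.b % 3 = 2 := by
    have h0 : c.b % 3 ≠ 0 := by
      intro h0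
      have h1 : 3 ∣ c.b := Nat.dvd_of_mod_eq_zero h0
      exact hb3 ((Nat.prime_dvd_prime_iff_eq Nat.prime_three hb).1 h1).symm
    omega
  refine ⟨?_, ?_, ?_, ?_, ?_⟩
  · intro x y h
    have h16 : ¬ (p : ℤ) ∣ c.m + 16 := by
      intro hd
      refine hm16 p hF h3 hd (rep_leg (C := 1) (U := x) (v := y) hb' hn1 ?_)
      push_cast
      linear_combination h
    obtain ⟨l3, lb⟩ := leg_one hp2 hp3 hpb hb3 hb4 h
    refine fv_cong ?_ (padic_one hc h3 hb' hm h16 l3 lb h)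
    push_cast
    ring
  · intro x y h
    have h16 : ¬ (p : ℤ) ∣ c.m + 16 := by
      intro hd
      refine hm16 p hF h3 hd (rep_leg (C := 3) (U := 3 * x) (v := y) hb' hn3 ?_)
      push_cast
      linear_combination 3 * h
    have hl := leg_three hp2 hp3 hpb hb3 hb4 h
    have hl' : legendreSym p 3 = sgn c.s3 ∧ legendreSym p c.b = sgn c.t3 := by
      rcases hb13 with h1 | h1
      · rw [(hs3.1 h1).1, (hs3.1 h1).2]
        exact hl.1 h1
      · rw [(hs3.2 h1).1, (hs3.2 h1).2]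
        exact hl.2 h1
    refine fv_cong ?_ (padic_three hc h3 hb' hm h16 hl'.1 hl'.2 h)
    push_cast
    ring
  · intro x y h
    have h16 : ¬ (p : ℤ) ∣ c.m + 16 := by
      intro hd
      refine hm16 p hF h3 hd (rep_leg (C := 2) (U := x) (v := y) hb' hn2 ?_)
      push_cast
      linear_combination h
    have hl := leg_two hp2 hp3 hpb hb3 h
    have hl' : legendreSym p 3 = sgn c.s2 ∧ legendreSym p c.b = sgn c.t2 := by
      rcases h83 with h1 | h1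
      · rw [(hs2.1 h1).1, (hs2.1 h1).2]
        exact hl.1 h1
      · rw [(hs2.2 h1).1, (hs2.2 h1).2]
        exact hl.2 h1
    refine fv_cong ?_ (padic_two hc h3 hb' hm h16 hl'.1 hl'.2 h)
    push_cast
    ring
  · intro x y h
    have h16 : ¬ (p : ℤ) ∣ c.m + 16 := by
      intro hd
      refine hm16 p hF h3 hd (rep_leg (C := 6) (U := 3 * x) (v := y) hb' hn6 ?_)
      push_cast
      linear_combination 3 * h
    have hl := leg_six hp2 hp3 hpb hb3 h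
    have hl' : legendreSym p 3 = sgn (xor c.s2 c.s3) ∧
        legendreSym p c.b = sgn (xor c.t2 c.t3) := by
      rcases h83 with h1 | h1
      · rcases hb13 with h4 | h4
        · rw [(hs2.1 h1).1, (hs2.1 h1).2, (hs3.1 h4).1, (hs3.1 h4).2]
          exact hl.2.1 h1 h4
        · rw [(hs2.1 h1).1, (hs2.1 h1).2, (hs3.2 h4).1, (hs3.2 h4).2]
          exact hl.2.2 h1 h4
      · have h4 := h87 h1
        rw [(hs2.2 h1).1, (hs2.2 h1).2, (hs3.1 h4).1, (hs3.1 h4).2]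
        exact hl.1 h1 h4
    refine fv_cong ?_ (padic_six hc h3 hb' hm h16 hl'.1 hl'.2 h)
    push_cast
    ring
  · intro _ hl
    have h := padic_inert hc h3 hb' hm hl
    refine fv_cong (z := 0) (by simp) ?_
    rw [sub_zero]
    exact h

end Pool.Agent.Lib.MP_afcc06_nt
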