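import Pool.Agent.Lib.MP_afcc06_nt.CertPt
import Pool.Agent.Lib.MP_afcc06_nt.Alpha
import Pool.Agent.Lib.MP_d4c4f0_nt.ZS.A03

section

section

/-!
# CertOde: the polynomial differential equation of a certificate

`N1 = C (1/2) * evP i r t c.N`, `D1 = C (1/2) * evP i r t c.D`; `chk_sound` with `l = N.headD`, `ev l = 2 lam`: dividing by `16`.
`ev (X.av b) = -2 + 2X + X^2 = -2 ea x`, `ev X.bv = 1 - 2X = 1 - 8x`, `X = 4x`. `okL`: `9 * 2 lam = (4+X) w (3+s)` with `w = i r`,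
`s = i r t`; `w^2 = -3`. The leading coefficient: `ev (N.getLastD) * ev I = n ≠ 0` (`nzInt`), `coeff c.h` by `evP_coeff`
(`N.length = h+1`). `lam ≠ 0`: `1 + x ≠ 0` (`Orb.e_ne`, `CertD.orb`), `(3+s)(3-s) = 9 + 3b ≠ 0`.
-/

set_option autoImplicit false

namespace Pool.Agent.Lib.MP_afcc06_nt

open Pool.Agent.Lib.MP_d4c4f0_nt

variable {K : Type*} [Field K] [CharZero K] {c : CertD} {i r t : K}

omit [CharZero K] in
private theorem co_mk (a0 a1 a2 a3 a4 a5 a6 a7 : ℤ) : ev i r t ⟨a0, a1, a2, a3, a4, a5, a6, a7⟩ =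
    a0 + a1 * i + a2 * r + a3 * (i * r) + a4 * t + a5 * (i * t) + a6 * (r * t) +
      a7 * (i * r * t) := rfl

omit [CharZero K] in
private theorem co_av (hi : i ^ 2 = -1) (hr : r ^ 2 = 3) {b : ℤ} (ht : t ^ 2 = (b : K)) (X : Z8)
    {x : K} (hx : ev i r t X = 4 * x) : ev i r t (X.av b) = -2 * ea x := by
  unfold Z8.av ea
  rw [ev_add, ev_add, ev_smul, ev_mul hi hr ht, hx]
  simp only [co_mk]
  push_cast
  ring

omit [CharZero K] in
private theorem co_bv (X : Z8) {x : K} (hx : ev i r t X = 4 * x) :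
    ev i r t X.bv = 1 - 8 * x := by
  unfold Z8.bv
  rw [ev_add, ev_smul, hx]
  simp only [co_mk]
  push_cast
  ring

private theorem co_nz {X : Z8} (h : X.nzInt = true) : ev i r t X ≠ 0 := by
  obtain ⟨x0, x1, x2, x3, x4, x5, x6, x7⟩ := X
  simp only [Z8.nzInt, Bool.and_eq_true, beq_iff_eq, Bool.not_eq_true', beq_eq_false_iff_ne] at h
  obtain ⟨⟨⟨⟨⟨⟨⟨h0, h1⟩, h2⟩, h3⟩, h4⟩, h5⟩, h6⟩, h7⟩ := h
  subst h1 h2 h3 h4 h5 h6 h7
  simp only [ev]
  push_cast
  simpa using h0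

theorem CertD.odeU (hc : c.Ok) (hi : i ^ 2 = -1) (hr : r ^ 2 = 3) (ht : t ^ 2 = (c.b : K)) :
    OdeU (-2 * ea (c.x (1 / 4) r t)) (1 - 8 * c.x (1 / 4) r t)
      (-2 * ea (c.x (1 / 4) (sg1 (xor c.s2 c.s3) r) (sg1 (xor c.t2 c.t3) t)))
      (1 - 8 * c.x (1 / 4) (sg1 (xor c.s2 c.s3) r) (sg1 (xor c.t2 c.t3) t))
      (-4 * (1 + c.x (1 / 4) r t) / (i * r) * ((3 + i * r * t) / 6))
      (Polynomial.C (1 / 2) * evP i r t c.N) (Polynomial.C (1 / 2) * evP i r t c.D) c.h := by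
  have hX := hc.okX
  have hL := hc.okL
  have hC := hc.okC
  have ho := CertD.orb (q4 := (1 / 4 : K)) hc (by norm_num) hr ht
  have hreal : c.X.real = true := by
    simp only [CertD.okX, Bool.and_eq_true] at hX
    exact hX.1.1.1
  have ht' : t ^ 2 = ((c.b : ℤ) : K) := by rw [ht]; push_cast; rfl
  have ex : ev i r t c.X = 4 * c.x (1 / 4) r t := by
    unfold CertD.x
    rw [real_ev hreal]
    ring
  have ex6 : ev i r t (c.X.fl (xor c.s2 c.s3) (xor c.t2 c.t3)) =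
      4 * c.x (1 / 4) (sg1 (xor c.s2 c.s3) r) (sg1 (xor c.t2 c.t3) t) := by
    unfold CertD.x
    rw [ev_fl, real_ev hreal]
    ring
  simp only [CertD.okL, Bool.and_eq_true, beq_iff_eq] at hL
  obtain ⟨⟨⟨⟨⟨hN, hD⟩, hb⟩, hD0⟩, hl⟩, hI⟩ := hL
  have hw : (i * r) ^ 2 = -3 := by rw [mul_pow, hi, hr]; norm_num
  have hw0 : i * r ≠ 0 := by
    intro h0
    rw [h0] at hw
    norm_num at hw
  -- the value of the multiplier
  have hl2 : ev i r t (c.N.headD Z8.zero) =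
      2 * (-4 * (1 + c.x (1 / 4) r t) / (i * r) * ((3 + i * r * t) / 6)) := by
    have h1 := eqb_ev hl i r t
    rw [ev_smul, ev_mul hi hr ht', ev_mul hi hr ht', ev_add, ex] at h1
    simp only [co_mk] at h1
    push_cast at h1
    have h2 : (9 : K) * ev i r t (c.N.headD Z8.zero) =
        (4 + 4 * c.x (1 / 4) r t) * ((i * r) * (3 + i * r * t)) := by
      linear_combination h1
    have h3 : (9 : K) ≠ 0 := by norm_num
    refine mul_left_cancel₀ h3 ?_
    have hinv : (i * r)⁻¹ = -(i * r) / 3 := by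
      refine mul_left_cancel₀ hw0 ?_
      rw [mul_inv_cancel₀ hw0]
      linear_combination (1 / 3) * hw
    rw [h2, div_eq_mul_inv (-4 * (1 + c.x (1 / 4) r t)) (i * r), hinv]
    ring
  have hD2 : ev i r t (c.D.headD Z8.zero) = 2 := by
    have h1 := eqb_ev hD0 i r t
    simp only [co_mk] at h1
    push_cast at h1
    linear_combination h1
  have hlam0 : -4 * (1 + c.x (1 / 4) r t) / (i * r) * ((3 + i * r * t) / 6) ≠ 0 := by
    have h1 : (3 + i * r * t) ≠ 0 := by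
      intro h0
      have h2 : (3 + i * r * t) * (3 - i * r * t) = 9 + 3 * (c.b : K) := by
        have : (i * r * t) ^ 2 = -3 * (c.b : K) := by rw [mul_pow, hw, ht]
        linear_combination -this
      rw [h0, zero_mul] at h2
      have h3 : ((9 + 3 * c.b : ℕ) : K) = 0 := by push_cast; exact h2.symm
      rw [Nat.cast_eq_zero] at h3
      omega
    have h4 := ho.e_ne
    have h6 : (6 : K) ≠ 0 := by norm_num
    have h7 : (-4 : K) ≠ 0 := by norm_num
    exact mul_ne_zero (div_ne_zero (mul_ne_zero h7 h4) hw0) (div_ne_zero h1 h6)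
  have hlast : (c.N.getD c.h Z8.zero) = c.N.getLastD Z8.zero := by
    rw [List.getLastD_eq_getLast?, List.getLast?_eq_getElem?, hN, Nat.add_sub_cancel,
      List.getD_eq_getElem?_getD]
  refine ⟨?_, ?_, ?_, ?_, ?_, hlam0, ?_⟩
  · refine (Polynomial.natDegree_C_mul_le _ _).trans ((evP_natDegree _).trans ?_)
    omega
  · refine (Polynomial.natDegree_C_mul_le _ _).trans ((evP_natDegree _).trans ?_)
    omega
  · rw [Polynomial.coeff_C_mul, evP_coeff, hlast]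
    refine mul_ne_zero (by norm_num) ?_
    have h1 := co_nz (i := i) (r := r) (t := t) hI
    rw [ev_mul hi hr ht'] at h1
    exact left_ne_zero_of_mul h1
  · rw [Polynomial.coeff_C_mul, evP_coeff]
    have : c.N.getD 0 Z8.zero = c.N.headD Z8.zero := by
      cases c.N <;> rfl
    rw [this, hl2]
    ring
  · rw [Polynomial.coeff_C_mul, evP_coeff]
    have : c.D.getD 0 Z8.zero = c.D.headD Z8.zero := by
      cases c.D <;> rfl
    rw [this, hD2]
    norm_num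
  · have h1 := chk_sound hi hr ht' hC
    rw [co_av hi hr ht' _ ex, co_bv _ ex, co_av hi hr ht' _ ex6, co_bv _ ex6, hl2] at h1
    rw [Polynomial.derivative_C_mul, Polynomial.derivative_C_mul, Polynomial.C_pow]
    generalize -4 * (1 + c.x (1 / 4) r t) / (i * r) * ((3 + i * r * t) / 6) = lam at h1 ⊢
    have hC2 : (Polynomial.C (2 * lam) : Polynomial K) = 2 * Polynomial.C lam := by
      rw [Polynomial.C_mul, map_ofNat]
    rw [hC2] at h1
    have h4 : (4 : Polynomial K) ≠ 0 := by norm_num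
    refine mul_left_cancel₀ h4 ?_
    linear_combination (Polynomial.C (1 / 2 : K)) ^ 4 * h1

end Pool.Agent.Lib.MP_afcc06_nt
end

section

/-!
# CertQI: the homomorphisms of degree `q = 2h+1`

Notation: `w = i r`, `s = i r t`, `x = c.x (1/4) r t`, `x6` its conjugate by `(σ, τ) = (xor s2 s3, xor t2 t3)`.
`CertD.qi`, positive sign: `oddDeg_of_pair` with `CertD.odeU` at `(i, r, t)` and at `(i', sg1 σ r, sg1 τ t)`, `i' = ± i` chosen such that
`i' (sg1 σ r) (sg1 τ t) = -s`. The product of the multipliers is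
`16 (1+x)(1+x6)/(w w') * (3+s)(3-s)/36 = ± (9 + 3b)/6 = ± (2h+1)` (`Orb.e16`: `8(1+x)(1+x6) = 9`, `w w' = ± w^2 = ∓ 3`,
`s^2 = -3b`, `b + 3 = 2(2h+1)` from `okL`). Negative sign: the positive one at `(-i, r, t)` and `OddDeg.neg`.
`CertD.qint`: `OdeU.intSol`; the coefficients `ev i r t (..)/2` are integral since `‖2‖ = 1`, `‖i‖, ‖r‖, ‖t‖ ≤ 1`.
-/

set_option autoImplicit false

namespace Pool.Agent.Lib.MP_afcc06_nt

open Pool.Agent.Lib.MP_d4c4f0_nt

section Field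

variable {K : Type*} [Field K] [CharZero K] {c : CertD} {i r t w s x y : K} {q : ℕ}

theorem QI.neg_w (h : QI w s x y q) : QI (-w) s x y q := by
  have e : ∀ z : K, -4 * (1 + x) / (-w) * z = -(-4 * (1 + x) / w * z) := by
    intro z
    rw [div_neg, neg_mul]
  refine ⟨?_, ?_⟩
  · rw [e]
    exact OddDeg.neg h.pos
  · rw [e]
    exact OddDeg.neg h.neg

theorem QI.neg_s (h : QI w s x y q) : QI w (-s) x y q := by
  refine ⟨?_, ?_⟩
  · have h1 := h.neg
    rwa [sub_eq_add_neg] at h1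
  · rw [sub_neg_eq_add]
    exact h.pos

private theorem certQI_b (hc : c.Ok) : (c.b : K) + 3 = 2 * ((2 * c.h + 1 : ℕ) : K) := by
  have h := hc.okL
  simp only [CertD.okL, Bool.and_eq_true, beq_iff_eq] at h
  have h1 : c.b + 3 = 2 * (2 * c.h + 1) := h.1.1.1.2
  exact_mod_cast h1

private theorem certQI_pos (hc : c.Ok) (hi : i ^ 2 = -1) (hr : r ^ 2 = 3)
    (ht : t ^ 2 = (c.b : K)) :
    OD (c.x (1 / 4) r t) (c.x (1 / 4) (sg1 (xor c.s2 c.s3) r) (sg1 (xor c.t2 c.t3) t))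
      (-4 * (1 + c.x (1 / 4) r t) / (i * r) * ((3 + i * r * t) / 6)) (2 * c.h + 1) := by
  have hq : (4 : K) * (1 / 4) = 1 := by norm_num
  have horb := CertD.orb hc hq hr ht
  have hb := certQI_b (K := K) hc
  have ho := CertD.odeU hc hi hr ht
  generalize hσ : xor c.s2 c.s3 = σ at *
  generalize hτ : xor c.t2 c.t3 = τ at *
  have hr' : (sg1 σ r) ^ 2 = 3 := by rw [sg1_sq, hr]
  have ht' : (sg1 τ t) ^ 2 = (c.b : K) := by rw [sg1_sq, ht]
  obtain ⟨i', hi', hs'⟩ : ∃ i' : K, i' ^ 2 = -1 ∧ i' * sg1 σ r * sg1 τ t = -(i * r * t) := by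
    cases σ <;> cases τ
    · exact ⟨-i, by rw [neg_sq, hi], by simp only [sg1, Bool.false_eq_true, if_false]; ring⟩
    · exact ⟨i, hi, by simp only [sg1, Bool.false_eq_true, if_false, if_true]; ring⟩
    · exact ⟨i, hi, by simp only [sg1, Bool.false_eq_true, if_false, if_true]; ring⟩
    · exact ⟨-i, by rw [neg_sq, hi], by simp only [sg1, if_true]; ring⟩
  have ho' := CertD.odeU hc hi' hr' ht'
  rw [hσ, hτ, sg1_sg1, sg1_sg1] at ho'
  have e0 : ∀ z : K, sg1 (xor σ σ) z = z := by intro z; simp [sg1]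
  have e0' : ∀ z : K, sg1 (xor τ τ) z = z := by intro z; simp [sg1]
  rw [e0, e0', hs'] at ho'
  refine oddDeg_of_pair (om_x _) horb.b_ne horb.disc_ne ho ho' ?_
  have e16 := horb.e16
  generalize c.x (1 / 4) (sg1 σ r) (sg1 τ t) = x6 at *
  generalize c.x (1 / 4) r t = x at *
  have hw : (i * r) ^ 2 = -3 := by rw [mul_pow, hi, hr]; ring
  have hw' : (i' * sg1 σ r) ^ 2 = -3 := by rw [mul_pow, hi', hr']; ring
  have hs : (i * r * t) ^ 2 = -3 * (c.b : K) := by rw [mul_pow, hw, ht]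
  generalize i * r * t = s at *
  generalize i * r = w at *
  generalize i' * sg1 σ r = w' at *
  have e1 : -4 * (1 + x6) / w' * ((3 + -s) / 6) * (-4 * (1 + x) / w * ((3 + s) / 6)) =
      16 * ((1 + x) * (1 + x6)) * (9 - s ^ 2) / 36 * (w' * w)⁻¹ := by
    rw [mul_inv, div_eq_mul_inv, div_eq_mul_inv (-4 * (1 + x)) w]
    ring
  have e2 : (w' * w) ^ 2 = 9 := by rw [mul_pow, hw, hw']; norm_num
  have e3 : 16 * ((1 + x) * (1 + x6)) = 18 := by linear_combination 2 * e16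
  have e4 : (9 - s ^ 2) = 6 * ((2 * c.h + 1 : ℕ) : K) := by
    rw [hs]
    linear_combination 3 * hb
  rw [e1, e3, e4, mul_pow, inv_pow, e2]
  ring

theorem CertD.qi (hc : c.Ok) (hi : i ^ 2 = -1) (hr : r ^ 2 = 3) (ht : t ^ 2 = (c.b : K)) :
    QI (i * r) (i * r * t) (c.x (1 / 4) r t)
      (c.x (1 / 4) (sg1 (xor c.s2 c.s3) r) (sg1 (xor c.t2 c.t3) t)) (2 * c.h + 1) := by
  refine ⟨certQI_pos hc hi hr ht, ?_⟩
  have h := certQI_pos (i := -i) hc (by rw [neg_sq, hi]) hr ht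
  have h2 := OddDeg.neg h
  have e : -(-4 * (1 + c.x (1 / 4) r t) / (-i * r) * ((3 + -i * r * t) / 6)) =
      -4 * (1 + c.x (1 / 4) r t) / (i * r) * ((3 - i * r * t) / 6) := by
    rw [neg_mul i r, div_neg]
    ring
  rwa [e] at h2

end Field

section Normed

variable {K : Type*} [NormedField K] [IsUltrametricDist K] [CharZero K] {c : CertD}
  {i r t w s x y : K}

theorem QInt.neg_w (h : QInt w s x y) : QInt (-w) s x y := by
  have e : ∀ z : K, -4 * (1 + x) / (-w) * z = -(-4 * (1 + x) / w * z) := by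
    intro z
    rw [div_neg, neg_mul]
  refine ⟨?_, ?_⟩
  · rw [e]
    exact IntSol.neg h.pos
  · rw [e]
    exact IntSol.neg h.neg

theorem QInt.neg_s (h : QInt w s x y) : QInt w (-s) x y := by
  refine ⟨?_, ?_⟩
  · have h1 := h.neg
    rwa [sub_eq_add_neg] at h1
  · rw [sub_neg_eq_add]
    exact h.pos

omit [CharZero K] [IsUltrametricDist K] in
private theorem certQI_mul {a b : K} (ha : ‖a‖ ≤ 1) (hb : ‖b‖ ≤ 1) : ‖a * b‖ ≤ 1 := by
  rw [norm_mul]
  exact mul_le_one₀ ha (norm_nonneg b) hb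

omit [CharZero K] in
private theorem certQI_add {a b : K} (ha : ‖a‖ ≤ 1) (hb : ‖b‖ ≤ 1) : ‖a + b‖ ≤ 1 :=
  (IsUltrametricDist.norm_add_le_max a b).trans (max_le ha hb)

omit [CharZero K] in
private theorem certQI_int (n : ℤ) : ‖(n : K)‖ ≤ 1 := IsUltrametricDist.norm_intCast_le_one K n

omit [CharZero K] in
private theorem certQI_ev {i r t : K} (hi : ‖i‖ ≤ 1) (hr : ‖r‖ ≤ 1) (ht : ‖t‖ ≤ 1) (X : Z8) :
    ‖ev i r t X‖ ≤ 1 := by
  obtain ⟨a0, a1, a2, a3, a4, a5, a6, a7⟩ := X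
  unfold ev
  exact certQI_add (certQI_add (certQI_add (certQI_add (certQI_add (certQI_add (certQI_add
    (certQI_int a0) (certQI_mul (certQI_int a1) hi)) (certQI_mul (certQI_int a2) hr))
    (certQI_mul (certQI_int a3) (certQI_mul hi hr))) (certQI_mul (certQI_int a4) ht))
    (certQI_mul (certQI_int a5) (certQI_mul hi ht))) (certQI_mul (certQI_int a6)
    (certQI_mul hr ht))) (certQI_mul (certQI_int a7) (certQI_mul (certQI_mul hi hr) ht))

omit [CharZero K] [IsUltrametricDist K] in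
private theorem certQI_sq {a b : K} (h : a ^ 2 = b) (hb : ‖b‖ ≤ 1) : ‖a‖ ≤ 1 := by
  by_contra hne
  have h1 : 1 < ‖a‖ := not_le.1 hne
  have h2 : 1 < ‖a‖ ^ 2 := one_lt_pow₀ h1 two_ne_zero
  rw [← norm_pow, h] at h2
  exact absurd hb (not_le.2 h2)

private theorem certQI_int_pos (hc : c.Ok) (h2 : ‖(2 : K)‖ = 1) (hi : i ^ 2 = -1)
    (hr : r ^ 2 = 3) (ht : t ^ 2 = (c.b : K)) :
    IS (c.x (1 / 4) r t) (c.x (1 / 4) (sg1 (xor c.s2 c.s3) r) (sg1 (xor c.t2 c.t3) t))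
      (-4 * (1 + c.x (1 / 4) r t) / (i * r) * ((3 + i * r * t) / 6)) := by
  have n3 : ‖(3 : K)‖ ≤ 1 := by
    have := certQI_int (K := K) 3
    simpa using this
  have nb : ‖(c.b : K)‖ ≤ 1 := by
    have := certQI_int (K := K) (c.b : ℤ)
    simpa using this
  have ni : ‖i‖ ≤ 1 := certQI_sq hi (by rw [norm_neg, norm_one])
  have nr : ‖r‖ ≤ 1 := certQI_sq hr n3
  have nt : ‖t‖ ≤ 1 := certQI_sq ht nb
  have nr' : ‖sg1 (xor c.s2 c.s3) r‖ ≤ 1 := certQI_sq (by rw [sg1_sq, hr]) n3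
  have nt' : ‖sg1 (xor c.t2 c.t3) t‖ ≤ 1 := certQI_sq (by rw [sg1_sq, ht]) nb
  have nh : ‖(1 / 2 : K)‖ ≤ 1 := by rw [norm_div, h2, norm_one, div_one]
  have n4 : ‖(1 / 4 : K)‖ ≤ 1 := by
    have e : (1 / 4 : K) = (1 / 2) * (1 / 2) := by norm_num
    rw [e]
    exact certQI_mul nh nh
  have n0 : ‖(0 : K)‖ ≤ 1 := by rw [norm_zero]; exact zero_le_one
  have nx6 : ‖c.x (1 / 4) (sg1 (xor c.s2 c.s3) r) (sg1 (xor c.t2 c.t3) t)‖ ≤ 1 := by
    unfold CertD.x
    exact certQI_mul n4 (certQI_ev n0 nr' nt' _)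
  obtain ⟨-, -, ha, hb⟩ := ea_le nx6
  have hP : ∀ (l : List Z8) (j : ℕ), ‖(Polynomial.C (1 / 2) * evP i r t l).coeff j‖ ≤ 1 := by
    intro l j
    rw [Polynomial.coeff_C_mul, evP_coeff]
    exact certQI_mul nh (certQI_ev ni nr nt _)
  exact OdeU.intSol (om_x _) (CertD.odeU hc hi hr ht) h2 ha hb (hP _) (hP _)

theorem CertD.qint (hc : c.Ok) (h2 : ‖(2 : K)‖ = 1) (hi : i ^ 2 = -1) (hr : r ^ 2 = 3)
    (ht : t ^ 2 = (c.b : K)) :
    QInt (i * r) (i * r * t) (c.x (1 / 4) r t)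
      (c.x (1 / 4) (sg1 (xor c.s2 c.s3) r) (sg1 (xor c.t2 c.t3) t)) := by
  refine ⟨certQI_int_pos hc h2 hi hr ht, ?_⟩
  have h := certQI_int_pos (i := -i) hc h2 (by rw [neg_sq, hi]) hr ht
  have h2 := IntSol.neg h
  have e : -(-4 * (1 + c.x (1 / 4) r t) / (-i * r) * ((3 + -i * r * t) / 6)) =
      -4 * (1 + c.x (1 / 4) r t) / (i * r) * ((3 - i * r * t) / 6) := by
    rw [neg_mul i r, div_neg]
    ring
  rwa [e] at h2

end Normed

end Pool.Agent.Lib.MP_afcc06_nt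
end

section

/-!
# CertFull: the data of a certificate in the ring of integers

`CertD.orb`, `CertD.quart` in `OK K` at `(r, t)` and its conjugates; `((c.x q4 r t : OK K) : K) = c.x (1/4) r t`; `CertD.qi`, `CertD.qint` at
`(i, sg1 σ r, sg1 τ t)`: there `w` and `s` change at most by signs (`QI.neg_w`, `QI.neg_s`, ...). `w^2 = (i r)^2 = -3`,
`s^2 = (i r t)^2 = -3b`, `b = 2(2h+1) - 3` (`okL`).
-/

set_option autoImplicit false

namespace Pool.Agent.Lib.MP_afcc06_nt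

open Pool.Agent.Lib.MP_d4c4f0_nt

variable {K : Type*} [NormedField K] [IsUltrametricDist K] [CharZero K] {c : CertD}
  {i r t q4 : OK K}

omit [CharZero K] in
private theorem cf_sg1 (σ : Bool) (r : OK K) : ((sg1 σ r : OK K) : K) = sg1 σ (r : K) := by
  cases σ <;> simp [sg1]

private theorem cf_x (hq : 4 * q4 = 1) (r t : OK K) :
    ((c.x q4 r t : OK K) : K) = c.x (1 / 4) (r : K) (t : K) := by
  have h1 : (4 : K) * (q4 : K) = 1 := by
    have := congrArg (OK K).subtype hq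
    rwa [map_mul, map_ofNat, map_one] at this
  have h2 : (q4 : K) = 1 / 4 := by
    rw [eq_div_iff (by norm_num : (4 : K) ≠ 0), mul_comm]
    exact h1
  unfold CertD.x
  rcases c.X with ⟨x0, x1, x2, x3, x4, x5, x6, x7⟩
  simp only [ev, Subring.coe_mul, Subring.coe_add, h2]
  push_cast
  rfl

omit [IsUltrametricDist K] in
private theorem cf_qi {q : ℕ} {i r t x y : K} (σ τ : Bool)
    (h : QI (i * sg1 σ r) (i * sg1 σ r * sg1 τ t) x y q) : QI (i * r) (i * r * t) x y q := by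
  cases σ <;> cases τ
  · simpa [sg1] using h
  · have h1 := h.neg_s
    simpa [sg1] using h1
  · have h1 := h.neg_w.neg_s
    simpa [sg1] using h1
  · have h1 := h.neg_w
    simpa [sg1] using h1

private theorem cf_qint {i r t x y : K} (σ τ : Bool)
    (h : QInt (i * sg1 σ r) (i * sg1 σ r * sg1 τ t) x y) : QInt (i * r) (i * r * t) x y := by
  cases σ <;> cases τ
  · simpa [sg1] using h
  · have h1 := h.neg_s
    simpa [sg1] using h1
  · have h1 := h.neg_w.neg_s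
    simpa [sg1] using h1
  · have h1 := h.neg_w
    simpa [sg1] using h1

private theorem cf_dat (hc : c.Ok) (h2 : ‖(2 : K)‖ = 1) (hq : 4 * q4 = 1) (hi : i ^ 2 = -1)
    (hr : r ^ 2 = 3) (ht : t ^ 2 = (c.b : OK K)) (σ τ : Bool) :
    Dat (2 * c.h + 1) c.m (i * r) (i * r * t) (c.x q4 (sg1 σ r) (sg1 τ t))
      (c.x q4 (sg1 (xor c.s2 σ) r) (sg1 (xor c.t2 τ) t))
      (c.x q4 (sg1 (xor c.s3 σ) r) (sg1 (xor c.t3 τ) t))
      (c.x q4 (sg1 (xor (xor c.s2 c.s3) σ) r) (sg1 (xor (xor c.t2 c.t3) τ) t)) := by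
  have hr' : (sg1 σ r) ^ 2 = 3 := by rw [sg1_sq, hr]
  have ht' : (sg1 τ t) ^ 2 = (c.b : OK K) := by rw [sg1_sq, ht]
  have hw : (i * r) ^ 2 = -3 := by rw [mul_pow, hi, hr]; norm_num
  have hL := hc.okL
  simp only [CertD.okL, Bool.and_eq_true, beq_iff_eq] at hL
  have hb : c.b + 3 = 2 * (2 * c.h + 1) := hL.1.1.1.2
  have hb' : (c.b : OK K) + 3 = 2 * (2 * c.h + 1) := by
    have := congrArg (fun z : ℕ => (z : OK K)) hb
    push_cast at this
    exact this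
  have hiK : (i : K) ^ 2 = -1 := by
    have := congrArg (fun z : OK K => (z : K)) hi
    simpa using this
  have hrK : (sg1 σ (r : K)) ^ 2 = 3 := by
    have := congrArg (OK K).subtype hr
    rw [sg1_sq]
    simpa [map_ofNat] using this
  have htK : (sg1 τ (t : K)) ^ 2 = (c.b : K) := by
    have := congrArg (fun z : OK K => (z : K)) ht
    rw [sg1_sq]
    simpa using this
  refine ⟨?_, CertD.quart hc hq hr' ht', hw, ?_, ?_, ?_⟩
  · have := CertD.orb hc hq hr' ht'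
    simpa only [sg1_sg1] using this
  · rw [mul_pow, hw, ht]
    push_cast
    linear_combination -3 * hb'
  · have h := CertD.qi hc hiK hrK htK
    have h' := cf_qi σ τ h
    simp only [sg1_sg1] at h'
    simp only [cf_x hq, cf_sg1]
    simpa using h'
  · have h := CertD.qint hc h2 hiK hrK htK
    have h' := cf_qint σ τ h
    simp only [sg1_sg1] at h'
    simp only [cf_x hq, cf_sg1]
    simpa using h'

theorem CertD.full (hc : c.Ok) (h2 : ‖(2 : K)‖ = 1) (hq : 4 * q4 = 1) (hi : i ^ 2 = -1)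
    (hr : r ^ 2 = 3) (ht : t ^ 2 = (c.b : OK K)) :
    Full (2 * c.h + 1) c.m (i * r) (i * r * t) (c.x q4 r t)
      (c.x q4 (sg1 c.s2 r) (sg1 c.t2 t)) (c.x q4 (sg1 c.s3 r) (sg1 c.t3 t))
      (c.x q4 (sg1 (xor c.s2 c.s3) r) (sg1 (xor c.t2 c.t3) t)) := by
  have k0 : ∀ z : OK K, sg1 false z = z := fun z => rfl
  have e1 : ∀ a : Bool, xor a a = false := by decide
  have e2 : ∀ a b : Bool, xor a b = xor b a := by decide
  have e3 : ∀ a b : Bool, xor (xor a b) a = b := by decide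
  have e4 : ∀ a b : Bool, xor (xor a b) b = a := by decide
  have e5 : ∀ a b : Bool, xor a (xor a b) = b := by decide
  have e6 : ∀ a b : Bool, xor b (xor a b) = a := by decide
  have e7 : ∀ a : Bool, xor a false = a := by decide
  refine ⟨?_, ?_, ?_, ?_⟩
  · have h := cf_dat hc h2 hq hi hr ht false false
    simpa only [e7, k0] using h
  · have h := cf_dat hc h2 hq hi hr ht c.s2 c.t2
    rw [e1, e1, k0, k0, e2 c.s3 c.s2, e2 c.t3 c.t2, e3, e3] at h
    exact h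
  · have h := cf_dat hc h2 hq hi hr ht c.s3 c.t3
    rw [e1, e1, k0, k0, e4, e4] at h
    exact h
  · have h := cf_dat hc h2 hq hi hr ht (xor c.s2 c.s3) (xor c.t2 c.t3)
    rw [e1, e1, k0, k0, e5, e5, e6, e6] at h
    exact h

end Pool.Agent.Lib.MP_afcc06_nt
end
end

section

section

/-!
# CoefOne: the coefficient modulo `p^2`, types one and two

`rd K p n : OK K →+* Rq K p n` is the reduction (D00): `rd_eq_iff`, `frob_norm`, `exists_mul_rd`; `coe_ea`-like coercions. `‖2‖ = ‖3‖ = 1` by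
`hk` (`3 < p`). `K` algebraically closed.
* type one: `mu = u + v s`, `ρ = u - v s`, `g = 1`, `y = x`. `deg_one` (`u + v` odd because `p` is odd): `k = p`; `int_one`;
  `norm_fac` with `U = u`, `B = 3(2q-3)`, `C = 1`; `coef_gen`.
* type two: `mu = 4x (u+vs)/2`, `ρ = u - v s`, `g = -2 x2` (`4x (-2 x2) = 1`), `mu ρ g = (u^2 + 3(2q-3) v^2)/2 = p`; `u, v` odd
  (`2p = u^2 + 3(2q-3) v^2`, both of the same parity; both even is impossible because `p` is odd ... modulo `4`);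
  `deg_two`, `int_two`; `gg = g^2` because `16 x^2 gg = 1`. `norm_fac` with `C = 2`.
Templates: B18b.lean, B18c.lean and `hyp_i` in D03.lean.
-/

set_option autoImplicit false

namespace Pool.Agent.Lib.MP_afcc06_nt

open Pool.Agent.Lib.MP_d4c4f0_nt

variable {K : Type*} [NormedField K] [IsUltrametricDist K] [CharZero K] [IsAlgClosed K]
  {p q : ℕ} {m : ℤ} {w s x x2 x3 x6 : OK K} {u v : ℤ}

theorem Dat.coef_one (hP : PrimeOk K p q m) (h16 : ‖(m : K) + 16‖ = 1)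
    (h : Dat q m w s x x2 x3 x6) (huv : u ^ 2 + 3 * (2 * q - 3) * v ^ 2 = p)
    (hlt : ‖(u : K) + v * (s : K)‖ < 1) (hF : rd K p 1 x ^ p = rd K p 1 x) :
    cf p (rd K p 2 x) ^ 4 * (1 - 8 * rd K p 2 x) =
        rd K p 2 (u - v * s) ^ 4 * 1 ^ 2 * (1 - 8 * rd K p 2 x) ^ p ∧
      ∃ z, cf p (rd K p 2 x) ^ 2 - rd K p 2 (u - v * s) ^ 2 * 1 = (p : Rq K p 2) * z := by
  obtain ⟨hp, h3', hk, h1, hm, hb⟩ := hP
  have n2 : ‖(2 : K)‖ = 1 := by
    have := hk 2 (by norm_num) (by omega)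
    simpa using this
  have n3 : ‖(3 : K)‖ = 1 := by
    have := hk 3 (by norm_num) h3'
    simpa using this
  obtain ⟨-, nb, -, -, nA⟩ := h.norms n2 n3 hm
  have nA' := nA h16
  have ho : Orb (x : K) (x2 : K) (x3 : K) (x6 : K) := h.orb.map (OK K).subtype
  have hwK : (w : K) ^ 2 = -3 := by
    have := congrArg (fun z : OK K => (z : K)) h.hw
    simpa [coe_OK_ofNat] using this
  have hsK : (s : K) ^ 2 = -((3 * (2 * (q : ℤ) - 3) : ℤ) : K) := by
    have h4 := congrArg (fun z : OK K => (z : K)) h.hs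
    have h5 : (s : K) ^ 2 = -3 * (2 * (q : K) - 3) := by
      simpa [coe_OK_ofNat] using h4
    rw [h5]
    push_cast
    ring
  obtain ⟨nρ, -⟩ := norm_fac hp (by omega) hk h1 hb hsK (U := u) (v := v) (C := 1) (by simp)
    (by
      intro hd
      have := Nat.le_of_dvd one_pos hd
      omega) (by rw [huv]; push_cast; ring) hlt
  have hodd : Odd (u + v) := by
    have e1 : Odd (p : ℤ) := by
      have := hp.odd_of_ne_two (by omega)
      exact_mod_cast this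
    rw [← huv] at e1
    by_contra hcon
    rw [Int.not_odd_iff_even] at hcon
    obtain ⟨c, hc⟩ := hcon
    obtain ⟨d, hd⟩ := e1
    have e4 : (u + v) ^ 2 = (c + c) ^ 2 := by rw [hc]
    have e5 : 2 * d + 1 = 2 * ((3 * (q : ℤ) - 5) * v ^ 2 - u * v) + (c + c) ^ 2 := by
      rw [← hd, ← e4]
      ring
    have e6 : 2 * (d - ((3 * (q : ℤ) - 5) * v ^ 2 - u * v) - 2 * c ^ 2) = -1 := by
      linarith
    omega
  obtain ⟨k, hdeg, hkp⟩ := deg_one hwK ho h.qi hodd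
  have hk' : k = p := by
    have : (k : ℤ) = p := by rw [hkp, huv]
    exact_mod_cast this
  rw [hk'] at hdeg
  have hint := int_one n2 n3 hwK ho x.2 x2.2 x3.2 x6.2 h.qint u v
  have hF' : ‖ea (x : K) ^ p - ea (x : K)‖ ≤ ‖(p : K)‖ := by
    have h5 : rd K p 1 (ea x) ^ p = rd K p 1 (ea x) := by
      rw [map_ea, frob_ea hp rd_p_one, hF]
    have h6 := frob_norm hp.pos h5
    rwa [coe_ea] at h6
  have hmu : ((u : K) + v * (s : K)) * (((u : K) - v * (s : K)) * 1) = p := by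
    have e1 := congrArg (fun z : ℤ => (z : K)) huv
    push_cast at e1 hsK
    linear_combination e1 - (v : K) ^ 2 * hsK
  obtain ⟨c1, c2⟩ := coef_gen hp h3' hk h1 (x := (x : K)) (y := (x : K)) x.2 x.2 nb nb nA' hF'
    nρ norm_one hmu hdeg hint
  have e1 : ((cf p x : OK K) : K) = cf p (x : K) := by
    unfold cf
    rw [coe_tn, coe_ea, coe_eb]
  have e2 : cf p (rd K p 2 x) = rd K p 2 (cf p x) := by
    unfold cf
    rw [map_tn, map_ea, map_eb]
  have e4 : (1 - 8 * rd K p 2 x) = rd K p 2 (1 - 8 * x) := by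
    simp [map_ofNat]
  have e5 : (((u : OK K) - v * s : OK K) : K) = (u : K) - v * (s : K) := by
    push_cast
    rfl
  constructor
  · rw [one_pow, mul_one, e2, e4, ← map_pow, ← map_pow, ← map_pow, ← map_mul, ← map_mul,
      rd_eq_iff hp.pos]
    push_cast
    rw [e1, coe_OK_ofNat]
    simpa using c2
  · rw [mul_one, e2, ← map_pow, ← map_pow]
    apply exists_mul_rd hp.pos
    push_cast
    rw [e1]
    simpa using c1

end Pool.Agent.Lib.MP_afcc06_nt
end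

section

/-!
# CoefSix: the coefficient modulo `p^2`, types three and six

As CoefOne.lean.
* type three: `mu = (1-8x)/w (3u+vs)/3`, `ρ = 3u - v s`, `g = w/(1-8x)`, `y = x3`: `mu ρ g = (9u^2 + 3(2q-3)v^2)/3 = p`; `g^2 = gg` because
  `(1-8x)^2 gg = -3 = w^2`; `u + v` odd (`p` odd); `deg_three`, `int_three`; `norm_fac` with `U = 3u`, `B = 3(2q-3)`, `C = 3`.
* type six: `mu = -4(1+x)/w (3u+vs)/6`, `ρ = 3u - v s`, `g = -w/(4(1+x))`, `y = x6`; `16(1+x)^2 gg = -3`; `u, v` odd; `deg_six`, `int_six`;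
  `norm_fac` with `U = 3u`, `C = 6`.
-/

set_option autoImplicit false

namespace Pool.Agent.Lib.MP_afcc06_nt

open Pool.Agent.Lib.MP_d4c4f0_nt

variable {K : Type*} [NormedField K] [IsUltrametricDist K] [CharZero K] [IsAlgClosed K]
  {p q : ℕ} {m : ℤ} {w s x x2 x3 x6 : OK K} {u v : ℤ}

omit [IsAlgClosed K] in
private theorem coe_cf_OK (p : ℕ) (x : OK K) : ((cf p x : OK K) : K) = cf p (x : K) := by
  unfold cf
  rw [coe_tn, coe_ea, coe_eb]

omit [CharZero K] [IsAlgClosed K] in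
private theorem rd_cf (p n : ℕ) (x : OK K) : rd K p n (cf p x) = cf p (rd K p n x) := by
  unfold cf
  rw [map_tn, map_ea, map_eb]

omit [IsAlgClosed K] in
private theorem rd_fin (hp0 : 0 < p) {x y ρ gg : OK K} {g : K} (hgg : g ^ 2 = (gg : K))
    (h1 : ‖cf p (x : K) ^ 2 - (ρ : K) ^ 2 * g ^ 2‖ ≤ ‖(p : K)‖)
    (h2 : ‖cf p (x : K) ^ 4 * (1 - 8 * (y : K)) - (ρ : K) ^ 4 * (g ^ 2) ^ 2 *
      (1 - 8 * (x : K)) ^ p‖ ≤ ‖(p : K)‖ ^ 2) :
    cf p (rd K p 2 x) ^ 4 * (1 - 8 * rd K p 2 y) =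
        rd K p 2 ρ ^ 4 * rd K p 2 gg ^ 2 * (1 - 8 * rd K p 2 x) ^ p ∧
      ∃ z, cf p (rd K p 2 x) ^ 2 - rd K p 2 ρ ^ 2 * rd K p 2 gg = (p : Rq K p 2) * z := by
  rw [hgg] at h1 h2
  constructor
  · have e := (rd_eq_iff (n := 2) hp0 (cf p x ^ 4 * (1 - 8 * y))
      (ρ ^ 4 * gg ^ 2 * (1 - 8 * x) ^ p)).2 (by
        push_cast
        rw [coe_cf_OK, coe_OK_ofNat]
        exact h2)
    simpa [rd_cf, map_ofNat] using e
  · have e := exists_mul_rd (n := 2) hp0 (x := cf p x ^ 2) (y := ρ ^ 2 * gg) (by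
        push_cast
        rw [coe_cf_OK]
        exact h1)
    obtain ⟨z, hz⟩ := e
    refine ⟨z, ?_⟩
    rw [← hz]
    simp [rd_cf]

theorem Dat.coef_six (hP : PrimeOk K p q m) (h16 : ‖(m : K) + 16‖ = 1)
    (h : Dat q m w s x x2 x3 x6) (h' : Dat q m w s x6 x3 x2 x)
    (huv : 3 * u ^ 2 + (2 * q - 3) * v ^ 2 = 2 * p)
    (hlt : ‖((3 * u : ℤ) : K) + v * (s : K)‖ < 1) (hF : rd K p 1 x ^ p = rd K p 1 x6) {gg : OK K}
    (hg : 16 * (1 + x) ^ 2 * gg = -3) :
    cf p (rd K p 2 x) ^ 4 * (1 - 8 * rd K p 2 x6) =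
        rd K p 2 (3 * u - v * s) ^ 4 * rd K p 2 gg ^ 2 * (1 - 8 * rd K p 2 x) ^ p ∧
      ∃ z, cf p (rd K p 2 x) ^ 2 - rd K p 2 (3 * u - v * s) ^ 2 * rd K p 2 gg =
        (p : Rq K p 2) * z := by
  have hp0 : 0 < p := hP.hp.pos
  have h2n : ‖(2 : K)‖ = 1 := by
    have := hP.hk 2 (by norm_num) (by have := hP.h3; omega)
    simpa using this
  have h3n : ‖(3 : K)‖ = 1 := by
    have := hP.hk 3 (by norm_num) hP.h3
    simpa using this
  have h4n : ‖(4 : K)‖ = 1 := by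
    have e : (4 : K) = 2 * 2 := by norm_num
    rw [e, norm_mul, h2n, one_mul]
  have h6n : ‖(6 : K)‖ = 1 := by
    have e : (6 : K) = 2 * 3 := by norm_num
    rw [e, norm_mul, h2n, h3n, one_mul]
  obtain ⟨n1, n2, n3, -, n5⟩ := h.norms h2n h3n hP.hm
  obtain ⟨m1, m2, m3, -, m5⟩ := h'.norms h2n h3n hP.hm
  have na := n5 h16
  have ma := m5 h16
  -- coercions
  have hw : (w : K) ^ 2 = -3 := by
    have := congrArg (fun z : OK K => (z : K)) h.hw
    simpa [coe_OK_ofNat] using this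
  have hw0 : (w : K) ≠ 0 := by
    intro h0
    rw [h0] at hw
    norm_num at hw
  have hwn : ‖(w : K)‖ = 1 := by
    have := congrArg norm hw
    rw [norm_pow, norm_neg, h3n] at this
    exact (pow_eq_one_iff_of_nonneg (norm_nonneg _) (by norm_num)).1 this
  have hs : (s : K) ^ 2 = -((3 * (2 * q - 3) : ℤ) : K) := by
    have := congrArg (fun z : OK K => (z : K)) h.hs
    push_cast at this ⊢
    simp only [coe_OK_ofNat] at this
    linear_combination this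
  have hb0 : 1 + (x : K) ≠ 0 := by
    intro h0
    rw [h0, norm_zero] at n3
    exact zero_ne_one n3
  have hgK : 16 * (1 + (x : K)) ^ 2 * (gg : K) = -3 := by
    have := congrArg (fun z : OK K => (z : K)) hg
    push_cast at this
    simp only [coe_OK_ofNat] at this
    exact this
  have ho : Orb (x : K) (x2 : K) (x3 : K) (x6 : K) := h.orb.map (OK K).subtype
  -- the factors
  have hUV : (3 * u) ^ 2 + (3 * (2 * q - 3)) * v ^ 2 = ((6 : ℕ) : ℤ) * p := by
    push_cast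
    linear_combination 3 * huv
  have hC' : ¬ p ∣ 6 := by
    intro hd
    have h3 := hP.h3
    rcases (Nat.Prime.dvd_mul hP.hp).1 (show p ∣ 2 * 3 from hd) with h | h
    · have := Nat.le_of_dvd (by norm_num) h
      omega
    · have := Nat.le_of_dvd (by norm_num) h
      omega
  obtain ⟨hρ, hμ⟩ := norm_fac hP.hp (by have := hP.h3; omega) hP.hk hP.h1 hP.hb hs
    (by simpa using h6n) hC' hUV hlt
  -- parity
  have huo : u % 2 = 1 ∧ v % 2 = 1 := by
    have hpo : (p : ℤ) % 2 = 1 := by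
      have := hP.hp.odd_of_ne_two (by have := hP.h3; omega)
      have h' : Odd (p : ℤ) := by exact_mod_cast this
      exact Int.odd_iff.1 h'
    rcases Int.emod_two_eq_zero_or_one u with hu | hu <;>
      rcases Int.emod_two_eq_zero_or_one v with hv | hv
    · exfalso
      obtain ⟨a, ha⟩ := Int.dvd_of_emod_eq_zero hu
      obtain ⟨b, hb⟩ := Int.dvd_of_emod_eq_zero hv
      have e : (p : ℤ) = 2 * (3 * a ^ 2 + (2 * q - 3) * b ^ 2) := by
        rw [ha, hb] at huv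
        linarith
      omega
    · exfalso
      obtain ⟨a, ha⟩ := Int.dvd_of_emod_eq_zero hu
      obtain ⟨b, hb⟩ : ∃ b, v = 2 * b + 1 := ⟨v / 2, by omega⟩
      have e : 2 * (p : ℤ) = 2 * (6 * a ^ 2 + (2 * q - 3) * (2 * b ^ 2 + 2 * b) + q - 2) + 1 := by
        rw [ha, hb] at huv
        linarith
      omega
    · exfalso
      obtain ⟨a, ha⟩ := Int.dvd_of_emod_eq_zero hv
      obtain ⟨b, hb⟩ : ∃ b, u = 2 * b + 1 := ⟨u / 2, by omega⟩
      have e : 2 * (p : ℤ) = 2 * ((2 * q - 3) * 2 * a ^ 2 + 6 * b ^ 2 + 6 * b + 1) + 1 := by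
        rw [ha, hb] at huv
        linarith
      omega
    · exact ⟨hu, hv⟩
  have hu' : Odd u := Int.odd_iff.2 huo.1
  have hv' : Odd v := Int.odd_iff.2 huo.2
  obtain ⟨k, hd, hk2⟩ := deg_six hw ho h.qi hu' hv'
  have hkp : k = p := by
    have : 2 * (k : ℤ) = 2 * p := by rw [hk2, huv]
    omega
  rw [hkp] at hd
  have hi := int_six h2n x6.2 h.qint hu' hv'
  have hF' := frob_norm (x := ea x) (y := ea x6) hp0 (by
    rw [map_ea, frob_ea hP.hp rd_p_one, hF, ← map_ea])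
  rw [coe_ea, coe_ea] at hF'
  have hgn : ‖-(w : K) / (4 * (1 + (x : K)))‖ = 1 := by
    rw [norm_div, norm_neg, norm_mul, hwn, h4n, n3, one_mul, div_one]
  have hmu : -4 * (1 + (x : K)) / (w : K) * ((3 * (u : K) + v * (s : K)) / 6) *
      ((3 * (u : K) - v * (s : K)) * (-(w : K) / (4 * (1 + (x : K))))) = p := by
    have e1 : -4 * (1 + (x : K)) / (w : K) * ((3 * (u : K) + v * (s : K)) / 6) *
      ((3 * (u : K) - v * (s : K)) * (-(w : K) / (4 * (1 + (x : K))))) =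
        (3 * (u : K) + v * (s : K)) * (3 * (u : K) - v * (s : K)) / 6 := by
      field_simp
    rw [e1]
    have e2 := congrArg (fun z : ℤ => (z : K)) huv
    push_cast at e2 hs
    have e3 : (3 * (u : K) + v * (s : K)) * (3 * (u : K) - v * (s : K)) = 6 * p := by
      linear_combination 3 * e2 - (v : K) ^ 2 * hs
    rw [e3]
    field_simp
  have hρ' : ‖3 * (u : K) - v * (s : K)‖ = 1 := by
    have := hρ
    push_cast at this
    exact this
  obtain ⟨c1, c2⟩ := coef_gen hP.hp hP.h3 hP.hk hP.h1 n1.le m1.le n2 m2 ma hF' hρ' hgn hmu hd hi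
  have hgg : (-(w : K) / (4 * (1 + (x : K)))) ^ 2 = (gg : K) := by
    rw [div_pow, neg_sq, hw, ← hgK]
    field_simp
    ring
  refine rd_fin (ρ := (3 : OK K) * (u : OK K) - (v : OK K) * s) hp0 hgg ?_ ?_
  · push_cast
    rw [coe_OK_ofNat]
    exact c1
  · push_cast
    rw [coe_OK_ofNat]
    exact c2

end Pool.Agent.Lib.MP_afcc06_nt
end

section

/-!
# KInert: the inert case

`int_one` with `(u, v) = (0, 1)`: `IS x x s`; `cartier`: `‖s cf(x) - s^p cf(x)‖ ≤ ‖p‖`. `hs`: `‖s^p + s‖ ≤ ‖p‖` (`rd_eq_iff`), so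
`‖2 s cf(x)‖ ≤ ‖p‖`, `‖2 s‖ = 1` (`s^2 = -3(2q-3)`, `p ∤ 3(2q-3)`, `norm_int_unit` in D00): `‖cf(x)‖ ≤ ‖p‖`. `final_inert` in `Rq K p 2`,
`exists_mul_rd`, `rd_eq_iff`. Template: D05.lean. (`K` need not be algebraically closed.)
-/

set_option autoImplicit false

open Finset

namespace Pool.Agent.Lib.MP_afcc06_nt

open Pool.Agent.Lib.MP_d4c4f0_nt

variable {K : Type*} [NormedField K] [IsUltrametricDist K] [CharZero K]
  {p q : ℕ} {m : ℤ} {w s x x2 x3 x6 : OK K}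

theorem K_inert (hP : PrimeOk K p q m) (h : Dat q m w s x x2 x3 x6)
    (hs : rd K p 1 s ^ p = -rd K p 1 s) :
    ‖∑ j ∈ range p, (vr j : K) / (m : K) ^ j‖ ≤ ‖(p : K)‖ ^ 2 := by
  have hp0 : 0 < p := hP.hp.pos
  have hp3 : 3 < p := hP.h3
  have h2 : ‖(2 : K)‖ = 1 := by
    have := hP.hk 2 (by norm_num) (by omega)
    simpa using this
  have h3 : ‖(3 : K)‖ = 1 := by
    have := hP.hk 3 (by norm_num) (by omega)
    simpa using this
  have ho : Orb (x : K) (x2 : K) (x3 : K) (x6 : K) := h.orb.map (OK K).subtype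
  have hx : ‖(x : K)‖ ≤ 1 := x.2
  have hx2 : ‖(x2 : K)‖ ≤ 1 := x2.2
  have hx3 : ‖(x3 : K)‖ ≤ 1 := x3.2
  have hx6 : ‖(x6 : K)‖ ≤ 1 := x6.2
  have hw : (w : K) ^ 2 = -3 := by
    have := congrArg (OK K).subtype h.hw
    simpa [coe_OK_ofNat] using this
  have hss : (s : K) ^ 2 = -3 * (2 * (q : K) - 3) := by
    have := congrArg (OK K).subtype h.hs
    simpa [coe_OK_ofNat] using this
  -- the endomorphism `s`
  have hI : IS (x : K) (x : K) (s : K) := by
    have := int_one h2 h3 hw ho hx hx2 hx3 hx6 h.qint 0 1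
    simpa using this
  have hC := cartier hP.hp (by omega) hP.hk hx hx hI
  have hF : ‖(s : K) ^ p - ((-s : OK K) : K)‖ ≤ ‖(p : K)‖ :=
    frob_norm hp0 (by rw [map_neg]; exact hs)
  have hcf : ((cf p x : OK K) : K) = cf p (x : K) := by
    unfold cf
    rw [coe_tn, coe_ea, coe_eb]
  have hcf1 : ‖cf p (x : K)‖ ≤ 1 := by
    rw [← hcf]
    exact (cf p x).2
  have h2s : ‖2 * (s : K)‖ = 1 := by
    have hb := norm_int_unit hP.hp hP.hk hP.h1 hP.hb
    have h1 : ‖(s : K)‖ ^ 2 = 1 := by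
      rw [← norm_pow, hss]
      have e : -3 * (2 * (q : K) - 3) = -((3 * (2 * (q : ℤ) - 3) : ℤ) : K) := by
        push_cast
        ring
      rw [e, norm_neg]
      exact hb
    have h1' : ‖(s : K)‖ = 1 := by nlinarith [norm_nonneg (s : K)]
    rw [norm_mul, h2, h1', mul_one]
  have hmain : ‖cf p (x : K)‖ ≤ ‖(p : K)‖ := by
    have e : 2 * (s : K) * cf p (x : K) = ((s : K) * cf p (x : K) - (s : K) ^ p * cf p (x : K)) +
        ((s : K) ^ p - ((-s : OK K) : K)) * cf p (x : K) := by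
      push_cast
      ring
    have h1 : ‖2 * (s : K) * cf p (x : K)‖ ≤ ‖(p : K)‖ := by
      rw [e]
      refine (IsUltrametricDist.norm_add_le_max _ _).trans (max_le hC ?_)
      rw [norm_mul]
      calc _ ≤ ‖(p : K)‖ * 1 := mul_le_mul hF hcf1 (norm_nonneg _) (norm_nonneg _)
        _ = ‖(p : K)‖ := mul_one _
    rwa [norm_mul, h2s, one_mul] at h1
  -- modulo `p ^ 2`
  obtain ⟨z, hz⟩ := exists_mul_rd (n := 2) hp0 (x := cf p x) (y := 0) (by
    rw [ZeroMemClass.coe_zero, sub_zero, hcf]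
    exact hmain)
  have hcf' : rd K p 2 (cf p x) = cf p (rd K p 2 x) := by
    unfold cf
    rw [map_tn, map_ea, map_eb]
  have hm0 : (m : K) ≠ 0 := by
    intro h0
    have := hP.hm
    rw [h0, norm_zero] at this
    exact zero_ne_one this
  have hW : ‖(m : K)⁻¹‖ ≤ 1 := by rw [norm_inv, hP.hm, inv_one]
  let W : OK K := ⟨(m : K)⁻¹, hW⟩
  have hWc : (W : K) = (m : K)⁻¹ := rfl
  have hmW : (m : OK K) * W = 1 := by
    apply Subtype.ext
    push_cast
    rw [hWc]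
    exact mul_inv_cancel₀ hm0
  have hmW' : rd K p 2 (m : OK K) * rd K p 2 W = 1 := by
    rw [← map_mul, hmW, map_one]
  have hQ : Quart (rd K p 2 (m : OK K)) (rd K p 2 x) := h.quart.map (rd K p 2)
  have hO := h.orb.map (rd K p 2)
  have hU : IsUnit (1 + 8 * rd K p 2 x ^ 2) := by
    have hn := (h.norms h2 h3 hP.hm).2.2.2.1
    have hu : IsUnit (1 + 8 * x ^ 2) := by
      apply isUnit_OK
      push_cast
      rw [coe_OK_ofNat]
      exact hn
    have := hu.map (rd K p 2)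
    simpa [map_ofNat] using this
  have hfin := final_inert hP.hp hp3 quot_pow_zero hmW' hQ hO.h12 hU
    ⟨z, by rw [← hcf', ← hz, map_zero, sub_zero]⟩
  have hlift : rd K p 2 (∑ n ∈ range p, (vr n : OK K) * W ^ n) = rd K p 2 0 := by
    rw [map_zero, ← hfin, map_sum]
    refine Finset.sum_congr rfl fun n _ => ?_
    rw [map_mul, map_pow, map_natCast]
  have hnorm := (rd_eq_iff hp0 _ _).1 hlift
  have hsum : ((∑ n ∈ range p, (vr n : OK K) * W ^ n : OK K) : K) - ((0 : OK K) : K) =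
      ∑ j ∈ range p, (vr j : K) / (m : K) ^ j := by
    rw [ZeroMemClass.coe_zero, sub_zero, AddSubmonoidClass.coe_finsetSum]
    refine Finset.sum_congr rfl fun n _ => ?_
    rw [div_eq_mul_inv, ← inv_pow, ← hWc]
    push_cast
    rfl
  rw [← hsum]
  exact hnorm

end Pool.Agent.Lib.MP_afcc06_nt
end

section

/-!
# KOne: types one and two in the field

Replace `v` by `-v` if necessary: `(u+vs)(u-vs) = C p` has norm `< 1`, so one factor has norm `< 1` (both are integral).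
In `S = Rq K p 2`, with `ρ = rd (u - v s)` (a unit, `isUnit_OK`, `norm_fac`): `alpha_gen` at `x` (with `x3`; `y = x`, `y3 = x3` resp.
`y = x2`, `y3 = x6`) and at `x2` (with `x6`; `y = x2`, `y3 = x6` resp. `y = x`, `y3 = x3`), hypotheses by `Dat.coef_one`, `Dat.coef_two` at the four
points (`H.d1, H.d3, H.d2, H.d6`), units by `Dat.norms`. Type two: `gg(x) = 4 x2^2`, `gg(x2) = 4 x^2`, `gg(x3) = 4 x6^2`,
`gg(x6) = 4 x3^2` (`16 x^2 * 4 x2^2 = (8 x x2)^2 = 1`), relations `type_two` for `(x, x2, x3, x6)` and for `(x2, x, x6, x3)` (mapped to `S`).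
`final_gen` with `ω = rd ω'`, `m ω' = 1` in `OK K` (`‖m‖ = 1`), `y = x` resp. `x2`, `hxy` from `hF` (`rd_eq_iff`, `exists_mul_rd`), `(c, d) = (1, 1)`
resp. `(2, 1)`. So `Σ = ρ^2` resp. `2 Σ = ρ^2` in `S`; back to `K` by `rd_eq_iff`: with `X = u + v s`, `ρ^2 - (4u^2 - 2p) = -X^2` resp.
`ρ^2 - (4u^2 - 4p) = -X^2`, `‖X‖ = ‖p‖`. Templates: D03.lean, D04.lean.
-/

set_option autoImplicit false

open Finset

namespace Pool.Agent.Lib.MP_afcc06_nt

open Pool.Agent.Lib.MP_d4c4f0_nt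

variable {K : Type*} [NormedField K] [IsUltrametricDist K] [CharZero K] [IsAlgClosed K]
  {p q : ℕ} {m : ℤ} {w s x x2 x3 x6 : OK K} {u v : ℤ}

private theorem k_one_aux (hP : PrimeOk K p q m) (h16 : ‖(m : K) + 16‖ = 1)
    (H : Full q m w s x x2 x3 x6)
    (huv : u ^ 2 + 3 * (2 * q - 3) * v ^ 2 = p) (F1 : rd K p 1 x ^ p = rd K p 1 x)
    (F2 : rd K p 1 x2 ^ p = rd K p 1 x2) (F3 : rd K p 1 x3 ^ p = rd K p 1 x3)
    (F6 : rd K p 1 x6 ^ p = rd K p 1 x6) (hlt : ‖(u : K) + v * (s : K)‖ < 1) :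
    ‖(∑ j ∈ range p, (vr j : K) / (m : K) ^ j) - (4 * (u : K) ^ 2 - 2 * p)‖ ≤
      ‖(p : K)‖ ^ 2 := by
  have hp := hP.hp
  have n2 : ‖(2 : K)‖ = 1 := by
    have := hP.hk 2 (by norm_num) (by have := hP.h3; omega)
    exact_mod_cast this
  have n3 : ‖(3 : K)‖ = 1 := by
    have := hP.hk 3 (by norm_num) (by have := hP.h3; omega)
    exact_mod_cast this
  have hS := quot_pow_zero (K := K) (p := p) (n := 2)
  have hsK : (s : K) ^ 2 = -(((3 * (2 * q - 3) : ℤ)) : K) := by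
    have := congrArg (fun z : OK K => (z : K)) H.d1.hs
    push_cast at this
    rw [coe_OK_ofNat, coe_OK_ofNat] at this
    push_cast
    linear_combination this
  obtain ⟨hP1, hQ1⟩ := norm_fac (C := 1) (U := u) (v := v) hp (by have := hP.h3; omega) hP.hk
    hP.h1 hP.hb hsK (by simp) (by
      intro h
      have := Nat.le_of_dvd one_pos h
      have := hP.h3
      omega) (by rw [huv]; push_cast; ring) hlt
  have ePc : (((u : OK K) - v * s : OK K) : K) = (u : K) - v * (s : K) := by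
    push_cast; rfl
  have hPu : IsUnit ((u : OK K) - v * s) := isUnit_OK (by rw [ePc]; exact hP1)
  have hPρ : IsUnit (rd K p 2 ((u : OK K) - v * s)) := hPu.map _
  -- units
  have un : ∀ {y y2 y3 y6 : OK K}, Dat q m w s y y2 y3 y6 →
      IsUnit (rd K p 2 y) ∧ IsUnit (1 - 8 * rd K p 2 y) ∧ IsUnit (1 + 8 * rd K p 2 y ^ 2) := by
    intro y y2 y3 y6 h
    obtain ⟨a1, a2, _, a4, _⟩ := h.norms n2 n3 hP.hm
    refine ⟨(isUnit_OK a1).map _, ?_, ?_⟩
    · have h1 : IsUnit (1 - 8 * y : OK K) := isUnit_OK (by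
        push_cast
        rw [coe_OK_ofNat]
        exact a2)
      have h2 := h1.map (rd K p 2)
      rwa [map_sub, map_mul, map_one, map_ofNat] at h2
    · have h1 : IsUnit (1 + 8 * y ^ 2 : OK K) := isUnit_OK (by
        push_cast
        rw [coe_OK_ofNat]
        exact a4)
      have h2 := h1.map (rd K p 2)
      rwa [map_add, map_mul, map_one, map_ofNat, map_pow] at h2
  obtain ⟨u1, b1, e1⟩ := un H.d1
  obtain ⟨u2, b2, e2⟩ := un H.d2
  obtain ⟨u3, b3, e3⟩ := un H.d3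
  obtain ⟨u6, b6, e6⟩ := un H.d6
  have O := H.d1.orb.map (rd K p 2)
  have Q := H.d1.quart.map (rd K p 2)
  obtain ⟨c1, z1⟩ := H.d1.coef_one hP h16 huv hlt F1
  obtain ⟨c2, z2⟩ := H.d2.coef_one hP h16 huv hlt F2
  obtain ⟨c3, z3⟩ := H.d3.coef_one hP h16 huv hlt F3
  obtain ⟨c6, z6⟩ := H.d6.coef_one hP h16 huv hlt F6
  have ha := alpha_gen (gg := 1) (gg3 := 1) hp hP.h3 hS O.h13 O.h31 b1 b3 b1 b3 hPρ isUnit_one
    c1 c3 z1 (by ring)
  have ha2 := alpha_gen (gg := 1) (gg3 := 1) hp hP.h3 hS O.h26 O.h62 b2 b6 b2 b6 hPρ isUnit_one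
    c2 c6 z2 (by ring)
  -- the inverse of `m`
  have hm0 : (m : K) ≠ 0 := by
    intro h0
    have := hP.hm
    rw [h0, norm_zero] at this
    exact zero_ne_one this
  obtain ⟨ω', hω'⟩ : ∃ ω' : OK K, (ω' : K) = (m : K)⁻¹ :=
    ⟨⟨(m : K)⁻¹, by
      change ‖(m : K)⁻¹‖ ≤ 1
      rw [norm_inv, hP.hm]; simp⟩, rfl⟩
  have hmω : (m : OK K) * ω' = 1 := by
    apply Subtype.ext
    push_cast
    rw [hω']
    exact mul_inv_cancel₀ hm0
  have hω : rd K p 2 (m : OK K) * rd K p 2 ω' = 1 := by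
    rw [← map_mul, hmω, map_one]
  have hxy : ∃ z : Rq K p 2, rd K p 2 x ^ p - rd K p 2 x = (p : Rq K p 2) * z := by
    rw [← map_pow]
    apply exists_mul_rd hp.pos
    push_cast
    exact frob_norm hp.pos F1
  have main := final_gen (gg := 1) (gg2 := 1) (c := 1) (d := 1) hp hP.h3 hS hω Q O.h12 ha ha2 e1 u1
    e1 hxy (by ring) (by ring)
  rw [one_mul, one_mul] at main
  have s1 : rd K p 2 (∑ j ∈ range p, (vr j : OK K) * ω' ^ j) =
      ∑ j ∈ range p, (vr j : Rq K p 2) * rd K p 2 ω' ^ j := by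
    simp [map_sum]
  have s2 : ((∑ j ∈ range p, (vr j : OK K) * ω' ^ j : OK K) : K) =
      ∑ j ∈ range p, (vr j : K) / (m : K) ^ j := by
    push_cast
    apply Finset.sum_congr rfl
    intro j _
    rw [hω', inv_pow, div_eq_mul_inv]
  rw [← s1, ← map_pow, rd_eq_iff hp.pos, s2] at main
  push_cast at main
  have hQ2 : ‖((u : K) + v * (s : K)) ^ 2‖ = ‖(p : K)‖ ^ 2 := by
    rw [norm_pow, hQ1]
  have e12 : (∑ j ∈ range p, (vr j : K) / (m : K) ^ j) - (4 * (u : K) ^ 2 - 2 * p) =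
      ((∑ j ∈ range p, (vr j : K) / (m : K) ^ j) - ((u : K) - v * (s : K)) ^ 2) +
        -(((u : K) + v * (s : K)) ^ 2) := by
    have h := congrArg (fun z : ℤ => (z : K)) huv
    push_cast at h hsK
    linear_combination -2 * h + 2 * (v : K) ^ 2 * hsK
  rw [e12]
  refine (IsUltrametricDist.norm_add_le_max _ _).trans (max_le main ?_)
  rw [norm_neg, hQ2]

theorem K_one (hP : PrimeOk K p q m) (h16 : ‖(m : K) + 16‖ = 1) (H : Full q m w s x x2 x3 x6)
    (huv : u ^ 2 + 3 * (2 * q - 3) * v ^ 2 = p) (F1 : rd K p 1 x ^ p = rd K p 1 x)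
    (F2 : rd K p 1 x2 ^ p = rd K p 1 x2) (F3 : rd K p 1 x3 ^ p = rd K p 1 x3)
    (F6 : rd K p 1 x6 ^ p = rd K p 1 x6) :
    ‖(∑ j ∈ range p, (vr j : K) / (m : K) ^ j) - (4 * (u : K) ^ 2 - 2 * p)‖ ≤
      ‖(p : K)‖ ^ 2 := by
  by_cases hlt : ‖(u : K) + v * (s : K)‖ < 1
  · exact k_one_aux hP h16 H huv F1 F2 F3 F6 hlt
  · have hsK : (s : K) ^ 2 = -3 * (2 * (q : K) - 3) := by
      have := congrArg (fun z : OK K => (z : K)) H.d1.hs
      push_cast at this
      rw [coe_OK_ofNat, coe_OK_ofNat] at this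
      exact this
    have hprod : ((u : K) + v * (s : K)) * ((u : K) - v * (s : K)) = (p : K) := by
      have h := congrArg (fun z : ℤ => (z : K)) huv
      push_cast at h
      linear_combination h - (v : K) ^ 2 * hsK
    have hlt' : ‖(u : K) + ((-v : ℤ) : K) * (s : K)‖ < 1 := by
      have e : (u : K) + ((-v : ℤ) : K) * (s : K) = (u : K) - v * (s : K) := by
        push_cast; ring
      rw [e]
      by_contra hcon
      have h1 := hP.h1
      have := congrArg norm hprod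
      rw [norm_mul] at this
      rw [← this] at h1
      have := one_le_mul_of_one_le_of_one_le (not_lt.1 hlt) (not_lt.1 hcon)
      linarith
    exact k_one_aux (v := -v) hP h16 H (by rw [neg_sq]; exact huv) F1 F2 F3 F6 hlt'

end Pool.Agent.Lib.MP_afcc06_nt
end

section

/-!
# KSix: types three and six in the field

As KOne.lean, with `ρ = rd (3u - v s)`, `X = 3u + v s`, `X (6u - X) = 3p` resp. `6p`. With `3 n = 1` in `OK K`:
`gg(x) = -(1-8x3)^2 n^3` (type three; `(1-8x)(1-8x3) = 9`) resp. `gg(x) = -4(1+x6)^2 n^3` (type six; `8(1+x)(1+x6) = 9`), similarly at the other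
points. `alpha_gen` at `x` (with `x3`) and at `x2` (with `x6`): type three `y = x3, y3 = x` and `y = x6, y3 = x2`; type six
`y = x6, y3 = x2` and `y = x3, y3 = x`. `final_gen` with `y = x3` resp. `x6`, `(c, d) = (3, -1)` resp. `(6, -1)`: `3 Σ = -ρ^2` resp.
`6 Σ = -ρ^2`; `ρ^2 = 36u^2 - 6p - X^2` resp. `36 u^2 - 12 p - X^2`.
-/

set_option autoImplicit false

open Finset

namespace Pool.Agent.Lib.MP_afcc06_nt

open Pool.Agent.Lib.MP_d4c4f0_nt

variable {K : Type*} [NormedField K] [IsUltrametricDist K] [CharZero K] [IsAlgClosed K]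
  {p q : ℕ} {m : ℤ} {w s x x2 x3 x6 : OK K} {u v : ℤ}

omit [IsAlgClosed K] in
/-- Units of the quotient. -/
private theorem ks_units (h2 : ‖(2 : K)‖ = 1) (h3 : ‖(3 : K)‖ = 1) (hm : ‖(m : K)‖ = 1)
    (h : Dat q m w s x x2 x3 x6) : IsUnit (rd K p 2 x) ∧ IsUnit (1 - 8 * rd K p 2 x) ∧
      IsUnit (1 + 8 * rd K p 2 x ^ 2) := by
  obtain ⟨n1, n2, -, n4, -⟩ := h.norms h2 h3 hm
  refine ⟨(isUnit_OK n1).map _, ?_, ?_⟩
  · have h1 : IsUnit (1 - 8 * x) := isUnit_OK (by push_cast; rw [coe_OK_ofNat]; exact n2)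
    have h4 := h1.map (rd K p 2)
    simpa [map_ofNat] using h4
  · have h1 : IsUnit (1 + 8 * x ^ 2) := isUnit_OK (by push_cast; rw [coe_OK_ofNat]; exact n4)
    have h4 := h1.map (rd K p 2)
    simpa [map_ofNat] using h4

omit [CharZero K] [IsAlgClosed K] in
private theorem ks_gg {n : OK K} (hn : 3 * n = 1) (h : Orb x x2 x3 x6) :
    16 * (1 + x) ^ 2 * (-4 * (1 + x6) ^ 2 * n ^ 3) = -3 := by
  linear_combination (-(8 * ((1 + x) * (1 + x6)) + 9) * n ^ 3) * h.e16 -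
    3 * (9 * n ^ 2 + 3 * n + 1) * hn

omit [CharZero K] [IsAlgClosed K] in
private theorem ks_ggm {g : OK K} (h : 16 * (1 + x) ^ 2 * g = -3) :
    16 * (1 + rd K p 2 x) ^ 2 * rd K p 2 g = -3 := by
  have := congrArg (rd K p 2) h
  simpa [map_ofNat] using this

private theorem ks_main (hP : PrimeOk K p q m) (h16 : ‖(m : K) + 16‖ = 1)
    (H : Full q m w s x x2 x3 x6) (huv : 3 * u ^ 2 + (2 * q - 3) * v ^ 2 = 2 * p)
    (F1 : rd K p 1 x ^ p = rd K p 1 x6) (F2 : rd K p 1 x2 ^ p = rd K p 1 x3)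
    (F3 : rd K p 1 x3 ^ p = rd K p 1 x2) (F6 : rd K p 1 x6 ^ p = rd K p 1 x)
    (hlt : ‖((3 * u : ℤ) : K) + v * (s : K)‖ < 1) :
    ‖(∑ j ∈ range p, (vr j : K) / (m : K) ^ j) - (2 * p - 6 * (u : K) ^ 2)‖ ≤
      ‖(p : K)‖ ^ 2 := by
  have hp := hP.hp
  have h3p := hP.h3
  have h2 : ‖(2 : K)‖ = 1 := by
    have := hP.hk 2 (by norm_num) (by omega)
    exact_mod_cast this
  have h3 : ‖(3 : K)‖ = 1 := by
    have := hP.hk 3 (by norm_num) (by omega)
    exact_mod_cast this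
  have h6 : ‖(6 : K)‖ = 1 := by
    rw [show (6 : K) = 2 * 3 by norm_num, norm_mul, h2, h3, one_mul]
  have hsK : (s : K) ^ 2 = -(((3 * (2 * q - 3) : ℤ)) : K) := by
    have := congrArg (fun z : OK K => (z : K)) H.d1.hs
    push_cast at this
    simp only [coe_OK_ofNat] at this
    push_cast
    linear_combination this
  have h6p : ¬ p ∣ 6 := by
    intro hd
    have h1 : p ∣ 2 * 3 := hd
    rcases (Nat.Prime.dvd_mul hp).1 h1 with h1 | h1
    · exact absurd (Nat.le_of_dvd (by norm_num) h1) (by omega)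
    · exact absurd (Nat.le_of_dvd (by norm_num) h1) (by omega)
  obtain ⟨nY, nX⟩ := norm_fac hp (by omega) hP.hk hP.h1 hP.hb hsK (U := 3 * u) (v := v) (C := 6)
    (by push_cast; exact h6) h6p (by push_cast; linear_combination 3 * huv) hlt
  -- constants
  obtain ⟨n, hn⟩ : ∃ n : OK K, 3 * n = 1 := by
    refine ⟨⟨1 / 3, ?_⟩, ?_⟩
    · change ‖(1 / 3 : K)‖ ≤ 1
      rw [norm_div, h3]
      simp
    · apply Subtype.ext
      push_cast
      rw [coe_OK_ofNat]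
      norm_num
  have hm0 : (m : K) ≠ 0 := by
    intro h0
    have := hP.hm
    rw [h0, norm_zero] at this
    exact zero_ne_one this
  obtain ⟨ω, hω, hωK⟩ : ∃ ω : OK K, (m : OK K) * ω = 1 ∧ (ω : K) = 1 / (m : K) := by
    refine ⟨⟨1 / (m : K), ?_⟩, ?_, rfl⟩
    · change ‖(1 / (m : K) : K)‖ ≤ 1
      rw [norm_div, hP.hm]
      simp
    · apply Subtype.ext
      push_cast
      field_simp
  -- the four values
  have g1 := ks_gg hn H.d1.orb
  have g2 := ks_gg hn H.d2.orb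
  have g3 := ks_gg hn H.d3.orb
  have g6 := ks_gg hn H.d6.orb
  obtain ⟨c1, cc1⟩ := Dat.coef_six hP h16 H.d1 H.d6 huv hlt F1 g1
  obtain ⟨c2, cc2⟩ := Dat.coef_six hP h16 H.d2 H.d3 huv hlt F2 g2
  obtain ⟨c3, -⟩ := Dat.coef_six hP h16 H.d3 H.d2 huv hlt F3 g3
  obtain ⟨c6, -⟩ := Dat.coef_six hP h16 H.d6 H.d1 huv hlt F6 g6
  replace g1 := ks_ggm (p := p) g1
  replace g2 := ks_ggm (p := p) g2
  replace g3 := ks_ggm (p := p) g3
  replace g6 := ks_ggm (p := p) g6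
  generalize -4 * (1 + x6) ^ 2 * n ^ 3 = G1 at *
  generalize -4 * (1 + x3) ^ 2 * n ^ 3 = G2 at *
  generalize -4 * (1 + x2) ^ 2 * n ^ 3 = G3 at *
  generalize -4 * (1 + x) ^ 2 * n ^ 3 = G6 at *
  -- units
  obtain ⟨-, b1, e1⟩ := ks_units (p := p) h2 h3 hP.hm H.d1
  obtain ⟨-, b2, -⟩ := ks_units (p := p) h2 h3 hP.hm H.d2
  obtain ⟨-, b3, -⟩ := ks_units (p := p) h2 h3 hP.hm H.d3
  obtain ⟨u6, b6, e6⟩ := ks_units (p := p) h2 h3 hP.hm H.d6
  have hρK : (((3 * u - v * s : OK K)) : K) = ((3 * u : ℤ) : K) - v * (s : K) := by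
    push_cast
    rw [coe_OK_ofNat]
  have uρ : IsUnit (rd K p 2 (3 * u - v * s)) := by
    refine (isUnit_OK ?_).map _
    rw [hρK]
    exact nY
  have s2 : IsUnit (2 : Rq K p 2) := by
    have h1 : IsUnit (2 : OK K) := isUnit_OK (by rw [coe_OK_ofNat]; exact h2)
    have h4 := h1.map (rd K p 2)
    simpa [map_ofNat] using h4
  have s3 : IsUnit (3 : Rq K p 2) := by
    have h1 : IsUnit (3 : OK K) := isUnit_OK (by rw [coe_OK_ofNat]; exact h3)
    have h4 := h1.map (rd K p 2)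
    simpa [map_ofNat] using h4
  have ugg : ∀ {y g : Rq K p 2}, 16 * (1 + y) ^ 2 * g = -3 → IsUnit g := by
    intro y g h
    have h1 : IsUnit (16 * (1 + y) ^ 2 * g) := by
      rw [h]
      exact s3.neg
    exact isUnit_of_mul_isUnit_right h1
  have hS := quot_pow_zero (K := K) (p := p) (n := 2)
  have o1 := H.d1.orb.map (rd K p 2)
  have o2 := H.d2.orb.map (rd K p 2)
  obtain ⟨t1, t2, t3⟩ := type_six s2 s3 o1 g1 g2 g3
  obtain ⟨t4, -, -⟩ := type_six s2 s3 o2 g2 g1 g6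
  have ha := alpha_gen hp h3p hS o1.h13 o1.h31 b1 b3 b6 b2 uρ (ugg g1) c1 c3 cc1 t1
  have ha2 := alpha_gen hp h3p hS o2.h13 o2.h31 b2 b6 b3 b1 uρ (ugg g2) c2 c6 cc2 t4
  have hxy : ∃ z : Rq K p 2, rd K p 2 x ^ p - rd K p 2 x6 = (p : Rq K p 2) * z := by
    have h5 := frob_norm hp.pos F1
    rw [← map_pow]
    apply exists_mul_rd hp.pos
    push_cast
    exact h5
  have hω' : rd K p 2 (m : OK K) * rd K p 2 ω = 1 := by
    rw [← map_mul, hω, map_one]
  have main := final_gen hp h3p hS hω' (H.d1.quart.map (rd K p 2)) o1.h12 ha ha2 e1 u6 e6 hxy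
    t2 t3
  -- back to the field
  have s1 : ∑ j ∈ range p, (vr j : Rq K p 2) * rd K p 2 ω ^ j =
      rd K p 2 (∑ j ∈ range p, (vr j : OK K) * ω ^ j) := by
    simp [map_sum]
  have s2' : ((∑ j ∈ range p, (vr j : OK K) * ω ^ j : OK K) : K) =
      ∑ j ∈ range p, (vr j : K) / (m : K) ^ j := by
    push_cast
    refine Finset.sum_congr rfl fun j _ => ?_
    rw [hωK, div_pow, one_pow, mul_one_div]
  have h66 : (6 : Rq K p 2) = rd K p 2 6 := (map_ofNat _ 6).symm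
  have h11 : (-1 : Rq K p 2) = rd K p 2 (-1) := by simp
  rw [s1, h66, h11, ← map_pow, ← map_mul, ← map_mul, rd_eq_iff hp.pos, Subring.coe_mul, s2',
    coe_OK_ofNat, Subring.coe_mul, Subring.coe_pow, hρK] at main
  have e11 : (((-1 : OK K)) : K) = -1 := by push_cast; rfl
  rw [e11] at main
  set Z := ∑ j ∈ range p, (vr j : K) / (m : K) ^ j with hZ
  have hQ2 : ‖(((3 * u : ℤ) : K) + v * (s : K)) ^ 2‖ = ‖(p : K)‖ ^ 2 := by
    rw [norm_pow, nX]
  have e12 : 6 * (Z - (2 * p - 6 * (u : K) ^ 2)) =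
      (6 * Z - -1 * (((3 * u : ℤ) : K) - v * (s : K)) ^ 2) +
        (((3 * u : ℤ) : K) + v * (s : K)) ^ 2 := by
    have h := congrArg (fun z : ℤ => (z : K)) huv
    push_cast at h hsK ⊢
    linear_combination 6 * h - 2 * (v : K) ^ 2 * hsK
  have e13 : ‖Z - (2 * p - 6 * (u : K) ^ 2)‖ = ‖6 * (Z - (2 * p - 6 * (u : K) ^ 2))‖ := by
    rw [norm_mul, h6, one_mul]
  rw [e13, e12]
  refine (IsUltrametricDist.norm_add_le_max _ _).trans (max_le main ?_)
  rw [hQ2]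

theorem K_six (hP : PrimeOk K p q m) (h16 : ‖(m : K) + 16‖ = 1) (H : Full q m w s x x2 x3 x6)
    (huv : 3 * u ^ 2 + (2 * q - 3) * v ^ 2 = 2 * p) (F1 : rd K p 1 x ^ p = rd K p 1 x6)
    (F2 : rd K p 1 x2 ^ p = rd K p 1 x3) (F3 : rd K p 1 x3 ^ p = rd K p 1 x2)
    (F6 : rd K p 1 x6 ^ p = rd K p 1 x) :
    ‖(∑ j ∈ range p, (vr j : K) / (m : K) ^ j) - (2 * p - 6 * (u : K) ^ 2)‖ ≤
      ‖(p : K)‖ ^ 2 := by
  by_cases hs : ‖((3 * u : ℤ) : K) + v * (s : K)‖ < 1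
  · exact ks_main hP h16 H huv F1 F2 F3 F6 hs
  · have h3p := hP.h3
    have h2 : ‖(2 : K)‖ = 1 := by
      have := hP.hk 2 (by norm_num) (by omega)
      exact_mod_cast this
    have h3 : ‖(3 : K)‖ = 1 := by
      have := hP.hk 3 (by norm_num) (by omega)
      exact_mod_cast this
    have h6 : ‖(6 : K)‖ = 1 := by
      rw [show (6 : K) = 2 * 3 by norm_num, norm_mul, h2, h3, one_mul]
    have hsK : (s : K) ^ 2 = -(((3 * (2 * q - 3) : ℤ)) : K) := by
      have := congrArg (fun z : OK K => (z : K)) H.d1.hs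
      push_cast at this
      simp only [coe_OK_ofNat] at this
      push_cast
      linear_combination this
    have hprod : (((3 * u : ℤ) : K) + v * (s : K)) * (((3 * u : ℤ) : K) - v * (s : K)) =
        6 * (p : K) := by
      have h := congrArg (fun z : ℤ => (z : K)) huv
      push_cast at h hsK ⊢
      linear_combination 3 * h - (v : K) ^ 2 * hsK
    have hs' : ‖((3 * u : ℤ) : K) + ((-v : ℤ) : K) * (s : K)‖ < 1 := by
      have e : ((3 * u : ℤ) : K) + ((-v : ℤ) : K) * (s : K) =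
          ((3 * u : ℤ) : K) - v * (s : K) := by push_cast; ring
      rw [e]
      by_contra hcon
      have h7 := congrArg norm hprod
      rw [norm_mul, norm_mul, h6, one_mul] at h7
      have h1 := hP.h1
      rw [← h7] at h1
      have := one_le_mul_of_one_le_of_one_le (not_lt.1 hs) (not_lt.1 hcon)
      linarith
    exact ks_main hP h16 H (v := -v) (by rw [neg_sq]; exact huv) F1 F2 F3 F6 hs'

end Pool.Agent.Lib.MP_afcc06_nt
end

section

/-!
# KThree: types three and six in the field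

As KOne.lean, with `ρ = rd (3u - v s)`, `X = 3u + v s`, `X (6u - X) = 3p` resp. `6p`. With `3 n = 1` in `OK K`:
`gg(x) = -(1-8x3)^2 n^3` (type three; `(1-8x)(1-8x3) = 9`) resp. `gg(x) = -4(1+x6)^2 n^3` (type six; `8(1+x)(1+x6) = 9`), similarly at the other
points. `alpha_gen` at `x` (with `x3`) and at `x2` (with `x6`): type three `y = x3, y3 = x` and `y = x6, y3 = x2`; type six
`y = x6, y3 = x2` and `y = x3, y3 = x`. `final_gen` with `y = x3` resp. `x6`, `(c, d) = (3, -1)` resp. `(6, -1)`: `3 Σ = -ρ^2` resp.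
`6 Σ = -ρ^2`; `ρ^2 = 36u^2 - 6p - X^2` resp. `36 u^2 - 12 p - X^2`.
-/

set_option autoImplicit false

open Finset

namespace Pool.Agent.Lib.MP_afcc06_nt

open Pool.Agent.Lib.MP_d4c4f0_nt

variable {K : Type*} [NormedField K] [IsUltrametricDist K] [CharZero K] [IsAlgClosed K]
  {p q : ℕ} {m : ℤ} {w s x x2 x3 x6 : OK K} {u v : ℤ}

omit [IsAlgClosed K] in
private theorem gg_three {a b n : OK K} (hb : (1 - 8 * a) * (1 - 8 * b) = 9) (hn : 3 * n = 1) :
    (1 - 8 * a) ^ 2 * (-((1 - 8 * b) ^ 2 * n ^ 3)) = -3 := by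
  linear_combination (-(n ^ 3) * ((1 - 8 * a) * (1 - 8 * b) + 9)) * hb +
    (-3 * (9 * n ^ 2 + 3 * n + 1)) * hn

omit [IsAlgClosed K] in
private theorem gg_three_rd {a g : OK K} (h : (1 - 8 * a) ^ 2 * g = -3) :
    (1 - 8 * rd K p 2 a) ^ 2 * rd K p 2 g = -3 := by
  have := congrArg (rd K p 2) h
  simpa [map_ofNat] using this

omit [IsAlgClosed K] in
private theorem units_rd (h2 : ‖(2 : K)‖ = 1) (h3 : ‖(3 : K)‖ = 1) (hm : ‖(m : K)‖ = 1)
    (h : Dat q m w s x x2 x3 x6) :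
    IsUnit (rd K p 2 x) ∧ IsUnit (1 - 8 * rd K p 2 x) ∧ IsUnit (1 + 8 * rd K p 2 x ^ 2) := by
  obtain ⟨n1, n2, -, n4, -⟩ := h.norms h2 h3 hm
  have u1 : IsUnit x := isUnit_OK n1
  have u2 : IsUnit (1 - 8 * x) := isUnit_OK (by push_cast; rw [coe_OK_ofNat]; exact n2)
  have u4 : IsUnit (1 + 8 * x ^ 2) := isUnit_OK (by push_cast; rw [coe_OK_ofNat]; exact n4)
  refine ⟨u1.map _, ?_, ?_⟩
  · have := u2.map (rd K p 2)
    simpa [map_ofNat] using this
  · have := u4.map (rd K p 2)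
    simpa [map_ofNat] using this

omit [IsAlgClosed K] in
private theorem exists_inv {z : OK K} (hz : ‖(z : K)‖ = 1) : ∃ n : OK K, z * n = 1 := by
  obtain ⟨v, hv⟩ := (isUnit_OK hz).exists_right_inv
  exact ⟨v, hv⟩

private theorem K_three' (hP : PrimeOk K p q m) (h16 : ‖(m : K) + 16‖ = 1)
    (H : Full q m w s x x2 x3 x6)
    (huv : 3 * u ^ 2 + (2 * q - 3) * v ^ 2 = p) (F1 : rd K p 1 x ^ p = rd K p 1 x3)
    (F2 : rd K p 1 x2 ^ p = rd K p 1 x6) (F3 : rd K p 1 x3 ^ p = rd K p 1 x)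
    (F6 : rd K p 1 x6 ^ p = rd K p 1 x2) (hlt : ‖((3 * u : ℤ) : K) + v * (s : K)‖ < 1) :
    ‖(∑ j ∈ range p, (vr j : K) / (m : K) ^ j) - (2 * p - 12 * (u : K) ^ 2)‖ ≤
      ‖(p : K)‖ ^ 2 := by
  have hp := hP.hp
  have hp3 := hP.h3
  have h2 : ‖(2 : K)‖ = 1 := by
    have := hP.hk 2 (by norm_num) (by omega)
    exact_mod_cast this
  have h3 : ‖(3 : K)‖ = 1 := by
    have := hP.hk 3 (by norm_num) hp3
    exact_mod_cast this
  have hS := quot_pow_zero (K := K) (p := p) (n := 2)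
  obtain ⟨n, hn⟩ : ∃ n : OK K, 3 * n = 1 := exists_inv (by rw [coe_OK_ofNat]; exact h3)
  obtain ⟨ω, hω⟩ : ∃ ω : OK K, (m : OK K) * ω = 1 := exists_inv (by push_cast; exact hP.hm)
  obtain ⟨t2, ht2⟩ : ∃ n : OK K, 2 * n = 1 := exists_inv (by rw [coe_OK_ofNat]; exact h2)
  have u2 : IsUnit (2 : Rq K p 2) := by
    have := (IsUnit.of_mul_eq_one _ ht2).map (rd K p 2)
    simpa [map_ofNat] using this
  have u3 : IsUnit (3 : Rq K p 2) := by
    have := (IsUnit.of_mul_eq_one _ hn).map (rd K p 2)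
    simpa [map_ofNat] using this
  -- the orbits in the quotient
  have o1 := H.d1.orb.map (rd K p 2)
  -- the constants
  have g1 := gg_three H.d1.orb.b13 hn
  have g2 := gg_three H.d2.orb.b13 hn
  have g3 := gg_three H.d3.orb.b13 hn
  have g6 := gg_three H.d6.orb.b13 hn
  obtain ⟨a1, b1⟩ := H.d1.coef_three hP h16 H.d3 huv hlt F1 g1
  obtain ⟨a2, b2⟩ := H.d2.coef_three hP h16 H.d6 huv hlt F2 g2
  obtain ⟨a3, b3⟩ := H.d3.coef_three hP h16 H.d1 huv hlt F3 g3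
  obtain ⟨a6, b6⟩ := H.d6.coef_three hP h16 H.d2 huv hlt F6 g6
  have e1 := gg_three_rd (p := p) g1
  have e2 := gg_three_rd (p := p) g2
  have e3 := gg_three_rd (p := p) g3
  have e6 := gg_three_rd (p := p) g6
  obtain ⟨t1, t1', t1''⟩ := type_three u2 u3 o1 e1 e2 e3
  obtain ⟨t2, t2', t2''⟩ := type_three u2 u3 o1.s2 e2 e1 e6
  obtain ⟨v1, v1', v1''⟩ := units_rd (p := p) h2 h3 hP.hm H.d1
  obtain ⟨v2, v2', v2''⟩ := units_rd (p := p) h2 h3 hP.hm H.d2
  obtain ⟨v3, v3', v3''⟩ := units_rd (p := p) h2 h3 hP.hm H.d3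
  obtain ⟨v6, v6', v6''⟩ := units_rd (p := p) h2 h3 hP.hm H.d6
  -- the factor
  have hs2 : (s : K) ^ 2 = -((3 * (2 * q - 3) : ℤ) : K) := by
    have := congrArg (fun z : OK K => (z : K)) H.d1.hs
    push_cast at this
    simp only [coe_OK_ofNat] at this
    push_cast
    linear_combination this
  have hUv : (3 * u) ^ 2 + (3 * (2 * q - 3)) * v ^ 2 = ((3 : ℕ) : ℤ) * p := by
    push_cast
    linear_combination 3 * huv
  have hC' : ¬ p ∣ 3 := fun h => by
    have := Nat.le_of_dvd (by norm_num) h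
    omega
  obtain ⟨nY, nX⟩ := norm_fac hp (by omega) hP.hk hP.h1 hP.hb hs2 (C := 3)
    (by exact_mod_cast h3) hC' hUv hlt
  have eρ : ((3 * u - v * s : OK K) : K) = ((3 * u : ℤ) : K) - v * (s : K) := by
    push_cast
    rw [coe_OK_ofNat]
  have uρ : IsUnit (rd K p 2 (3 * u - v * s)) := (isUnit_OK (by rw [eρ]; exact nY)).map _
  have ug : ∀ {a g : OK K}, (1 - 8 * rd K p 2 a) ^ 2 * rd K p 2 g = -3 →
      IsUnit (rd K p 2 g) := by
    intro a g h
    have : IsUnit ((1 - 8 * rd K p 2 a) ^ 2 * rd K p 2 g) := by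
      rw [h]
      exact u3.neg
    exact isUnit_of_mul_isUnit_right this
  have A1 := alpha_gen hp hp3 hS o1.h13 o1.h31 v1' v3' v3' v1' uρ (ug e1) a1 a3 b1 t1
  have A2 := alpha_gen hp hp3 hS o1.h26 o1.h62 v2' v6' v6' v2' uρ (ug e2) a2 a6 b2 t2
  have hxy : ∃ z : Rq K p 2, rd K p 2 x ^ p - rd K p 2 x3 = (p : Rq K p 2) * z := by
    rw [← map_pow]
    refine exists_mul_rd hp.pos ?_
    have := frob_norm hp.pos F1
    push_cast
    exact this
  have hω' : ((m : ℤ) : Rq K p 2) * rd K p 2 ω = 1 := by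
    have := congrArg (rd K p 2) hω
    simpa using this
  have hq : Quart ((m : ℤ) : Rq K p 2) (rd K p 2 x) := by
    have := H.d1.quart.map (rd K p 2)
    simpa using this
  have main := final_gen hp hp3 hS hω' hq o1.h12 A1 A2 v1'' v3 v3'' hxy t1' t1''
  have main' : rd K p 2 (3 * ∑ j ∈ range p, (vr j : OK K) * ω ^ j) =
      rd K p 2 (-(3 * u - v * s) ^ 2) := by
    rw [map_mul, map_sum, map_neg, map_pow, map_ofNat]
    rw [show (∑ j ∈ range p, rd K p 2 ((vr j : OK K) * ω ^ j)) =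
      ∑ j ∈ range p, (vr j : Rq K p 2) * rd K p 2 ω ^ j from
        Finset.sum_congr rfl fun j _ => by rw [map_mul, map_pow, map_natCast]]
    rw [main]
    ring
  rw [rd_eq_iff hp.pos] at main'
  have hmω : (m : K) * (ω : K) = 1 := by
    have := congrArg (fun z : OK K => (z : K)) hω
    push_cast at this
    exact this
  have hm0 : (m : K) ≠ 0 := left_ne_zero_of_mul_eq_one hmω
  have hωK : (ω : K) = 1 / (m : K) := by
    field_simp
    linear_combination hmω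
  have eL : ((3 * ∑ j ∈ range p, (vr j : OK K) * ω ^ j : OK K) : K) =
      3 * ∑ j ∈ range p, (vr j : K) / (m : K) ^ j := by
    push_cast
    rw [coe_OK_ofNat]
    congr 1
    refine Finset.sum_congr rfl fun j _ => ?_
    rw [hωK, div_pow, one_pow, mul_one_div]
  have eR : ((-(3 * u - v * s) ^ 2 : OK K) : K) = -(((3 * u : ℤ) : K) - v * (s : K)) ^ 2 := by
    rw [← eρ]
    push_cast
    rfl
  rw [eL, eR] at main'
  have hX2 : ‖(((3 * u : ℤ) : K) + v * (s : K)) ^ 2‖ = ‖(p : K)‖ ^ 2 := by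
    rw [norm_pow, nX]
  have e12 : 3 * ((∑ j ∈ range p, (vr j : K) / (m : K) ^ j) - (2 * p - 12 * (u : K) ^ 2)) =
      (3 * (∑ j ∈ range p, (vr j : K) / (m : K) ^ j) -
        -(((3 * u : ℤ) : K) - v * (s : K)) ^ 2) + (((3 * u : ℤ) : K) + v * (s : K)) ^ 2 := by
    have h := congrArg (fun z : ℤ => (z : K)) huv
    push_cast at h hs2 ⊢
    linear_combination 6 * h - 2 * (v : K) ^ 2 * hs2
  have e13 : ‖3 * ((∑ j ∈ range p, (vr j : K) / (m : K) ^ j) - (2 * p - 12 * (u : K) ^ 2))‖ ≤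
      ‖(p : K)‖ ^ 2 := by
    rw [e12]
    exact (IsUltrametricDist.norm_add_le_max _ _).trans (max_le main' hX2.le)
  rwa [norm_mul, h3, one_mul] at e13

theorem K_three (hP : PrimeOk K p q m) (h16 : ‖(m : K) + 16‖ = 1) (H : Full q m w s x x2 x3 x6)
    (huv : 3 * u ^ 2 + (2 * q - 3) * v ^ 2 = p) (F1 : rd K p 1 x ^ p = rd K p 1 x3)
    (F2 : rd K p 1 x2 ^ p = rd K p 1 x6) (F3 : rd K p 1 x3 ^ p = rd K p 1 x)
    (F6 : rd K p 1 x6 ^ p = rd K p 1 x2) :
    ‖(∑ j ∈ range p, (vr j : K) / (m : K) ^ j) - (2 * p - 12 * (u : K) ^ 2)‖ ≤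
      ‖(p : K)‖ ^ 2 := by
  by_cases hlt : ‖((3 * u : ℤ) : K) + v * (s : K)‖ < 1
  · exact K_three' hP h16 H huv F1 F2 F3 F6 hlt
  · have hs2 : (s : K) ^ 2 = -3 * (2 * q - 3) := by
      have := congrArg (fun z : OK K => (z : K)) H.d1.hs
      push_cast at this
      simp only [coe_OK_ofNat] at this
      linear_combination this
    have hprod : (((3 * u : ℤ) : K) + v * (s : K)) * (((3 * u : ℤ) : K) - v * (s : K)) =
        3 * (p : K) := by
      have h := congrArg (fun z : ℤ => (z : K)) huv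
      push_cast at h ⊢
      linear_combination 3 * h - (v : K) ^ 2 * hs2
    have h3 : ‖(3 : K)‖ = 1 := by
      have := hP.hk 3 (by norm_num) hP.h3
      exact_mod_cast this
    refine K_three' (v := -v) hP h16 H (by rw [neg_sq]; exact huv) F1 F2 F3 F6 ?_
    have e : ((3 * u : ℤ) : K) + ((-v : ℤ) : K) * (s : K) =
        ((3 * u : ℤ) : K) - v * (s : K) := by push_cast; ring
    rw [e]
    by_contra hcon
    have := congrArg norm hprod
    rw [norm_mul, norm_mul, h3, one_mul] at this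
    have h1 := hP.h1
    rw [← this] at h1
    have := one_le_mul_of_one_le_of_one_le (not_lt.1 hlt) (not_lt.1 hcon)
    linarith

end Pool.Agent.Lib.MP_afcc06_nt
end

section

/-!
# KTwo: types one and two in the field

Replace `v` by `-v` if necessary: `(u+vs)(u-vs) = C p` has norm `< 1`, so one factor has norm `< 1` (both are integral).
In `S = Rq K p 2`, with `ρ = rd (u - v s)` (a unit, `isUnit_OK`, `norm_fac`): `alpha_gen` at `x` (with `x3`; `y = x`, `y3 = x3` resp.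
`y = x2`, `y3 = x6`) and at `x2` (with `x6`; `y = x2`, `y3 = x6` resp. `y = x`, `y3 = x3`), hypotheses by `Dat.coef_one`, `Dat.coef_two` at the four
points (`H.d1, H.d3, H.d2, H.d6`), units by `Dat.norms`. Type two: `gg(x) = 4 x2^2`, `gg(x2) = 4 x^2`, `gg(x3) = 4 x6^2`,
`gg(x6) = 4 x3^2` (`16 x^2 * 4 x2^2 = (8 x x2)^2 = 1`), relations `type_two` for `(x, x2, x3, x6)` and for `(x2, x, x6, x3)` (mapped to `S`).
`final_gen` with `ω = rd ω'`, `m ω' = 1` in `OK K` (`‖m‖ = 1`), `y = x` resp. `x2`, `hxy` from `hF` (`rd_eq_iff`, `exists_mul_rd`), `(c, d) = (1, 1)`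
resp. `(2, 1)`. So `Σ = ρ^2` resp. `2 Σ = ρ^2` in `S`; back to `K` by `rd_eq_iff`: with `X = u + v s`, `ρ^2 - (4u^2 - 2p) = -X^2` resp.
`ρ^2 - (4u^2 - 4p) = -X^2`, `‖X‖ = ‖p‖`. Templates: D03.lean, D04.lean.
-/

set_option autoImplicit false

open Finset

namespace Pool.Agent.Lib.MP_afcc06_nt

open Pool.Agent.Lib.MP_d4c4f0_nt

variable {K : Type*} [NormedField K] [IsUltrametricDist K] [CharZero K] [IsAlgClosed K]
  {p q : ℕ} {m : ℤ} {w s x x2 x3 x6 : OK K} {u v : ℤ}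

omit [IsAlgClosed K] in
private theorem sq_s {q : ℕ} {s : OK K} (hs : s ^ 2 = -3 * (2 * (q : OK K) - 3)) :
    (s : K) ^ 2 = -((3 * (2 * q - 3) : ℤ) : K) := by
  have h := congrArg (fun z : OK K => (z : K)) hs
  push_cast [coe_OK_ofNat] at h ⊢
  linear_combination h

private theorem K_two' (hP : PrimeOk K p q m) (h16 : ‖(m : K) + 16‖ = 1)
    (H : Full q m w s x x2 x3 x6)
    (huv : u ^ 2 + 3 * (2 * q - 3) * v ^ 2 = 2 * p) (hlt : ‖(u : K) + v * (s : K)‖ < 1)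
    (F1 : rd K p 1 x ^ p = rd K p 1 x2)
    (F2 : rd K p 1 x2 ^ p = rd K p 1 x) (F3 : rd K p 1 x3 ^ p = rd K p 1 x6)
    (F6 : rd K p 1 x6 ^ p = rd K p 1 x3) :
    ‖(∑ j ∈ range p, (vr j : K) / (m : K) ^ j) - (2 * (u : K) ^ 2 - 2 * p)‖ ≤
      ‖(p : K)‖ ^ 2 := by
  have hp := hP.hp
  have h2 : ‖(2 : K)‖ = 1 := by
    have := hP.hk 2 (by norm_num) (by have := hP.h3; omega)
    exact_mod_cast this
  have h3 : ‖(3 : K)‖ = 1 := by
    have := hP.hk 3 (by norm_num) hP.h3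
    exact_mod_cast this
  have hs2 := sq_s H.d1.hs
  -- the factors
  obtain ⟨nρ, nX⟩ := norm_fac hp (by have := hP.h3; omega) hP.hk hP.h1 hP.hb hs2 (C := 2)
    (by exact_mod_cast h2) (by
      intro hd
      have := Nat.le_of_dvd (by norm_num) hd
      have := hP.h3
      omega) (by rw [huv]; push_cast; ring) hlt
  have eρ : (((u : OK K) - v * s : OK K) : K) = (u : K) - v * (s : K) := by
    push_cast
    rfl
  have uρ : IsUnit (rd K p 2 ((u : OK K) - v * s)) :=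
    (isUnit_OK (by rw [eρ]; exact nρ)).map _
  have hS : ((p : ℕ) : Rq K p 2) ^ 2 = 0 := quot_pow_zero (K := K) (p := p) (n := 2)
  -- orbits
  have ho : Orb (rd K p 2 x) (rd K p 2 x2) (rd K p 2 x3) (rd K p 2 x6) := H.d1.orb.map _
  have e12 : 8 * x * x2 = -1 := H.d1.orb.h12
  have e36 : 8 * x3 * x6 = -1 := H.d1.orb.h36
  -- coefficients
  have g1 : 16 * x ^ 2 * (4 * x2 ^ 2) = 1 := by linear_combination (8 * x * x2 - 1) * e12
  have g2 : 16 * x2 ^ 2 * (4 * x ^ 2) = 1 := by linear_combination (8 * x * x2 - 1) * e12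
  have g3 : 16 * x3 ^ 2 * (4 * x6 ^ 2) = 1 := by linear_combination (8 * x3 * x6 - 1) * e36
  have g6 : 16 * x6 ^ 2 * (4 * x3 ^ 2) = 1 := by linear_combination (8 * x3 * x6 - 1) * e36
  obtain ⟨a1, b1⟩ := Dat.coef_two hP h16 H.d1 H.d2 huv hlt F1 g1
  obtain ⟨a2, b2⟩ := Dat.coef_two hP h16 H.d2 H.d1 huv hlt F2 g2
  obtain ⟨a3, -⟩ := Dat.coef_two hP h16 H.d3 H.d6 huv hlt F3 g3
  obtain ⟨a6, -⟩ := Dat.coef_two hP h16 H.d6 H.d3 huv hlt F6 g6
  -- units
  have key : ∀ {y : OK K}, ‖1 - 8 * (y : K)‖ = 1 → IsUnit (1 - 8 * rd K p 2 y) := by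
    intro y hy
    have e : 1 - 8 * rd K p 2 y = rd K p 2 (1 - 8 * y) := by simp [map_ofNat]
    rw [e]
    refine (isUnit_OK ?_).map _
    push_cast [coe_OK_ofNat]
    exact hy
  have keyE : ∀ {y : OK K}, ‖1 + 8 * (y : K) ^ 2‖ = 1 → IsUnit (1 + 8 * rd K p 2 y ^ 2) := by
    intro y hy
    have e : 1 + 8 * rd K p 2 y ^ 2 = rd K p 2 (1 + 8 * y ^ 2) := by simp [map_ofNat]
    rw [e]
    refine (isUnit_OK ?_).map _
    push_cast [coe_OK_ofNat]
    exact hy
  have n1 := H.d1.norms h2 h3 hP.hm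
  have n2 := H.d2.norms h2 h3 hP.hm
  have n3 := H.d3.norms h2 h3 hP.hm
  have n6 := H.d6.norms h2 h3 hP.hm
  have u1 := key n1.2.1
  have u2 := key n2.2.1
  have u3 := key n3.2.1
  have u6 := key n6.2.1
  have ut2 : IsUnit (2 : Rq K p 2) := by
    have : (2 : Rq K p 2) = rd K p 2 2 := (map_ofNat _ 2).symm
    rw [this]
    refine (isUnit_OK ?_).map _
    rw [coe_OK_ofNat]
    exact h2
  have ut3 : IsUnit (3 : Rq K p 2) := by
    have : (3 : Rq K p 2) = rd K p 2 3 := (map_ofNat _ 3).symm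
    rw [this]
    refine (isUnit_OK ?_).map _
    rw [coe_OK_ofNat]
    exact h3
  have ug : ∀ {y z : OK K}, 16 * y ^ 2 * z = 1 → IsUnit (rd K p 2 z) := by
    intro y z h
    refine IsUnit.map _ (IsUnit.of_mul_eq_one (16 * y ^ 2) ?_)
    rw [mul_comm]
    exact h
  have rg : ∀ {y z : OK K}, 16 * y ^ 2 * z = 1 →
      16 * rd K p 2 y ^ 2 * rd K p 2 z = 1 := by
    intro y z h
    have := congrArg (rd K p 2) h
    simpa only [map_mul, map_pow, map_ofNat, map_one] using this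
  have t1 := type_two ut2 ut3 ho (rg g1) (rg g2) (rg g3)
  have t2 := type_two ut2 ut3 ho.s2 (rg g2) (rg g1) (rg g6)
  have al1 : FA p (rd K p 2 x) ^ 2 = rd K p 2 ((u : OK K) - v * s) ^ 2 *
      rd K p 2 (4 * x2 ^ 2) :=
    alpha_gen hp hP.h3 hS ho.h13 ho.h31 u1 u3 u2 u6 uρ (ug g1) a1 a3 b1 t1.1
  have al2 : FA p (rd K p 2 x2) ^ 2 = rd K p 2 ((u : OK K) - v * s) ^ 2 *
      rd K p 2 (4 * x ^ 2) :=
    alpha_gen hp hP.h3 hS ho.h26 ho.h62 u2 u6 u1 u3 uρ (ug g2) a2 a6 b2 t2.1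
  -- the inverse of `m`
  have hm0 : (m : K) ≠ 0 := by
    intro h0
    have := hP.hm
    rw [h0, norm_zero] at this
    exact zero_ne_one this
  obtain ⟨ω, hω⟩ : ∃ ω : OK K, (ω : K) = (m : K)⁻¹ :=
    ⟨⟨(m : K)⁻¹, by
      change ‖(m : K)⁻¹‖ ≤ 1
      rw [norm_inv, hP.hm, inv_one]⟩, rfl⟩
  have hmω : (m : OK K) * ω = 1 := by
    apply Subtype.ext
    push_cast
    rw [hω]
    exact mul_inv_cancel₀ hm0
  have hmω' : (m : Rq K p 2) * rd K p 2 ω = 1 := by
    have := congrArg (rd K p 2) hmω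
    simpa using this
  have hqt : Quart (m : Rq K p 2) (rd K p 2 x) := by
    have := H.d1.quart.map (rd K p 2)
    simpa using this
  have hxy : ∃ z : Rq K p 2, rd K p 2 x ^ p - rd K p 2 x2 = (p : Rq K p 2) * z := by
    rw [← map_pow]
    apply exists_mul_rd hp.pos
    push_cast
    exact frob_norm hp.pos F1
  have ux2 : IsUnit (rd K p 2 x2) := (isUnit_OK n2.1).map _
  have main := final_gen (c := 2) (d := 1) hp hP.h3 hS hmω' hqt ho.h12 al1 al2
    (keyE n1.2.2.2.1) ux2 (keyE n2.2.2.2.1) hxy t1.2.1 t1.2.2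
  have s1 : (∑ n ∈ range p, (vr n : Rq K p 2) * rd K p 2 ω ^ n) =
      rd K p 2 (∑ n ∈ range p, (vr n : OK K) * ω ^ n) := by
    simp [map_sum]
  have s2 : ((∑ n ∈ range p, (vr n : OK K) * ω ^ n : OK K) : K) =
      ∑ j ∈ range p, (vr j : K) / (m : K) ^ j := by
    push_cast
    apply Finset.sum_congr rfl
    intro j _
    rw [hω, inv_pow, div_eq_mul_inv]
  have h22 : (2 : Rq K p 2) = rd K p 2 2 := (map_ofNat _ 2).symm
  rw [s1, one_mul, ← map_pow, h22, ← map_mul, rd_eq_iff hp.pos, Subring.coe_mul, s2,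
    coe_OK_ofNat, Subring.coe_pow, eρ] at main
  have e12 : 2 * ((∑ j ∈ range p, (vr j : K) / (m : K) ^ j) - (2 * (u : K) ^ 2 - 2 * p)) =
      (2 * (∑ j ∈ range p, (vr j : K) / (m : K) ^ j) - ((u : K) - v * (s : K)) ^ 2) +
        -(((u : K) + v * (s : K)) ^ 2) := by
    have h := congrArg (fun z : ℤ => (z : K)) huv
    push_cast at h hs2
    linear_combination -2 * h + 2 * (v : K) ^ 2 * hs2
  have e13 : ‖(∑ j ∈ range p, (vr j : K) / (m : K) ^ j) - (2 * (u : K) ^ 2 - 2 * p)‖ =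
      ‖2 * ((∑ j ∈ range p, (vr j : K) / (m : K) ^ j) - (2 * (u : K) ^ 2 - 2 * p))‖ := by
    rw [norm_mul, h2, one_mul]
  rw [e13, e12]
  refine (IsUltrametricDist.norm_add_le_max _ _).trans (max_le main ?_)
  rw [norm_neg, norm_pow, nX]

theorem K_two (hP : PrimeOk K p q m) (h16 : ‖(m : K) + 16‖ = 1) (H : Full q m w s x x2 x3 x6)
    (huv : u ^ 2 + 3 * (2 * q - 3) * v ^ 2 = 2 * p) (F1 : rd K p 1 x ^ p = rd K p 1 x2)
    (F2 : rd K p 1 x2 ^ p = rd K p 1 x) (F3 : rd K p 1 x3 ^ p = rd K p 1 x6)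
    (F6 : rd K p 1 x6 ^ p = rd K p 1 x3) :
    ‖(∑ j ∈ range p, (vr j : K) / (m : K) ^ j) - (2 * (u : K) ^ 2 - 2 * p)‖ ≤
      ‖(p : K)‖ ^ 2 := by
  by_cases hlt : ‖(u : K) + v * (s : K)‖ < 1
  · exact K_two' hP h16 H huv hlt F1 F2 F3 F6
  · have h2 : ‖(2 : K)‖ = 1 := by
      have := hP.hk 2 (by norm_num) (by have := hP.h3; omega)
      exact_mod_cast this
    have hs2 := sq_s H.d1.hs
    have hprod : ((u : K) + v * (s : K)) * ((u : K) - v * (s : K)) = 2 * (p : K) := by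
      have h := congrArg (fun z : ℤ => (z : K)) huv
      push_cast at h hs2
      linear_combination h - (v : K) ^ 2 * hs2
    have hlt' : ‖(u : K) + ((-v : ℤ) : K) * (s : K)‖ < 1 := by
      have e : (u : K) + ((-v : ℤ) : K) * (s : K) = (u : K) - v * (s : K) := by
        push_cast
        ring
      rw [e]
      by_contra hcon
      have := congrArg norm hprod
      rw [norm_mul, norm_mul, h2, one_mul] at this
      have h1 := hP.h1
      rw [← this] at h1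
      have := one_le_mul_of_one_le_of_one_le (not_lt.1 hlt) (not_lt.1 hcon)
      linarith
    exact K_two' hP h16 H (v := -v) (by rw [neg_sq]; exact huv) hlt' F1 F2 F3 F6

end Pool.Agent.Lib.MP_afcc06_nt
end

section

/-!
# Padic: the five cases in the algebraic closure of `ℚ_p`

`K = PadicAlgCl p`. `PrimeOk`: `norm_small`, `norm_p_lt` (D01), `‖m‖ = 1` for `p ∤ m` (`norm_int_unit`, D00), `3 < p`.
`i, r, t, q4 ∈ OK K` (`exists_four`; square roots exist since `K` is algebraically closed, integral since their squares are).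
`CertD.full`; Frobenius at the four points by `frob_sg`, `frob_sg1`, `CertD.frob`, `map` along `rd K p 1` (`rd_p_one`) and
`sg1_sg1`. In the inert case `frob_sqrt` with `s^2 = -3b`. `2 (2h+1) - 3 = b` by `okL`.
-/

set_option autoImplicit false

open Finset

namespace Pool.Agent.Lib.MP_afcc06_nt

open Pool.Agent.Lib.MP_d4c4f0_nt

/-- The sum in the algebraic closure of `ℚ_p`. -/
noncomputable def ZK (p : ℕ) [Fact p.Prime] (m : ℤ) : PadicAlgCl p :=
  ∑ j ∈ range p, (vr j : PadicAlgCl p) / (m : PadicAlgCl p) ^ j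

variable {p : ℕ} [Fact p.Prime] {c : CertD} {u v : ℤ}

theorem map_sg1 {A B : Type*} [CommRing A] [CommRing B] (f : A →+* B) (σ : Bool) (r : A) :
    f (sg1 σ r) = sg1 σ (f r) := by
  cases σ <;> simp [sg1]

theorem map_cx {A B : Type*} [CommRing A] [CommRing B] (f : A →+* B) (c : CertD) (q r t : A) :
    f (c.x q r t) = c.x (f q) (f r) (f t) := by
  obtain ⟨b, h, m, ⟨x0, x1, x2, x3, x4, x5, x6, x7⟩, s2, t2, s3, t3, N, D, I⟩ := c
  simp [CertD.x, ev]

theorem okL_b (hc : c.Ok) : 2 * (((2 * c.h + 1 : ℕ) : ℤ)) - 3 = c.b := by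
  have h := hc.okL
  simp only [CertD.okL, Bool.and_eq_true, beq_iff_eq] at h
  obtain ⟨⟨⟨⟨⟨_, _⟩, h⟩, _⟩, _⟩, _⟩ := h
  push_cast
  omega

theorem norm_two_padic (h3 : 3 < p) : ‖(2 : PadicAlgCl p)‖ = 1 := by
  have := norm_small (p := p) (k := 2) (by norm_num) (by omega)
  simpa using this

theorem primeOk (hc : c.Ok) (h3 : 3 < p) (hb : ¬ (p : ℤ) ∣ 3 * c.b) (hm : ¬ (p : ℤ) ∣ c.m) :
    PrimeOk (PadicAlgCl p) p (2 * c.h + 1) c.m where
  hp := Fact.out
  h3 := h3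
  hk := fun k h0 hk => norm_small h0 hk
  h1 := norm_p_lt
  hm := norm_int_unit Fact.out (fun k h0 hk => norm_small h0 hk) norm_p_lt hm
  hb := by rw [okL_b hc]; exact hb

theorem norm16 (h16 : ¬ (p : ℤ) ∣ c.m + 16) : ‖(c.m : PadicAlgCl p) + 16‖ = 1 := by
  have := norm_int_unit (K := PadicAlgCl p) (p := p) Fact.out
    (fun k h0 hk => norm_small h0 hk) norm_p_lt h16
  simpa using this

theorem exists_sqrt_OK (a : OK (PadicAlgCl p)) : ∃ i : OK (PadicAlgCl p), i ^ 2 = a := by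
  obtain ⟨i, hi⟩ := IsAlgClosed.exists_pow_nat_eq (a : PadicAlgCl p) (n := 2) (by norm_num)
  have ha : ‖(a : PadicAlgCl p)‖ ≤ 1 := a.2
  have hi1 : ‖i‖ ≤ 1 := by
    have := congrArg norm hi
    rw [norm_pow] at this
    have h2 : ‖i‖ ^ 2 ≤ 1 := this ▸ ha
    nlinarith [norm_nonneg i]
  exact ⟨⟨i, hi1⟩, Subtype.ext (by push_cast; exact hi)⟩

theorem rd_frob {K : Type*} [NormedField K] [IsUltrametricDist K] [CharZero K] {q4 r t : OK K}
    (hp2 : p ≠ 2) (h4 : 4 * q4 = 1) {σ τ : Bool}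
    (hr : rd K p 1 r ^ p = sg1 σ (rd K p 1 r)) (ht : rd K p 1 t ^ p = sg1 τ (rd K p 1 t))
    {α β α' β' : Bool} (hα : xor σ α = α') (hβ : xor τ β = β') :
    rd K p 1 (c.x q4 (sg1 α r) (sg1 β t)) ^ p =
      rd K p 1 (c.x q4 (sg1 α' r) (sg1 β' t)) := by
  have hS : ((p : ℕ) : Rq K p 1) = 0 := rd_p_one
  have h4' : 4 * rd K p 1 q4 = 1 := by
    have := congrArg (rd K p 1) h4
    simpa [map_ofNat] using this
  rw [map_cx, map_cx, map_sg1, map_sg1, map_sg1, map_sg1,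
    CertD.frob hp2 hS h4' σ τ (frob_sg1 hp2 hS σ α hr) (frob_sg1 hp2 hS τ β ht),
    sg1_sg1, sg1_sg1, hα, hβ]

theorem exists_data (hc : c.Ok) (h3 : 3 < p) {σ τ : Bool} (l3 : legendreSym p 3 = sgn σ)
    (lb : legendreSym p c.b = sgn τ) : ∃ w s x x2 x3 x6 : OK (PadicAlgCl p),
      Full (2 * c.h + 1) c.m w s x x2 x3 x6 ∧ ∃ P : Bool → Bool → OK (PadicAlgCl p),
        x = P false false ∧ x2 = P c.s2 c.t2 ∧ x3 = P c.s3 c.t3 ∧
        x6 = P (xor c.s2 c.s3) (xor c.t2 c.t3) ∧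
        ∀ α β α' β' : Bool, xor σ α = α' → xor τ β = β' →
          rd (PadicAlgCl p) p 1 (P α β) ^ p = rd (PadicAlgCl p) p 1 (P α' β') := by
  have hp2 : p ≠ 2 := by omega
  obtain ⟨q4, h4⟩ := exists_four (K := PadicAlgCl p) (norm_two_padic h3)
  obtain ⟨i, hi⟩ := exists_sqrt_OK (p := p) (-1)
  obtain ⟨r, hr⟩ := exists_sqrt_OK (p := p) 3
  obtain ⟨t, ht⟩ := exists_sqrt_OK (p := p) (c.b : OK (PadicAlgCl p))
  have hS : ((p : ℕ) : Rq (PadicAlgCl p) p 1) = 0 := rd_p_one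
  have fr : rd (PadicAlgCl p) p 1 r ^ p = sg1 σ (rd (PadicAlgCl p) p 1 r) := by
    refine frob_sg hp2 hS (d := 3) ?_ l3
    rw [← map_pow, hr]
    simp [map_ofNat]
  have ft : rd (PadicAlgCl p) p 1 t ^ p = sg1 τ (rd (PadicAlgCl p) p 1 t) := by
    refine frob_sg hp2 hS (d := c.b) ?_ lb
    rw [← map_pow, ht]
    simp
  refine ⟨_, _, _, _, _, _, CertD.full hc (norm_two_padic h3) h4 hi hr ht,
    fun α β => c.x q4 (sg1 α r) (sg1 β t), rfl, rfl, rfl, rfl, ?_⟩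
  intro α β α' β' hα hβ
  exact rd_frob hp2 h4 fr ft hα hβ

theorem padic_one (hc : c.Ok) (h3 : 3 < p) (hb : ¬ (p : ℤ) ∣ 3 * c.b) (hm : ¬ (p : ℤ) ∣ c.m)
    (h16 : ¬ (p : ℤ) ∣ c.m + 16) (l3 : legendreSym p 3 = 1) (lb : legendreSym p c.b = 1)
    (huv : u ^ 2 + 3 * c.b * v ^ 2 = p) :
    ‖ZK p c.m - (4 * (u : PadicAlgCl p) ^ 2 - 2 * p)‖ ≤ ‖(p : PadicAlgCl p)‖ ^ 2 := by
  obtain ⟨w, s, x, x2, x3, x6, H, P, e1, e2, e3, e6, F⟩ :=
    exists_data (p := p) hc h3 (σ := false) (τ := false) l3 lb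
  refine K_one (primeOk hc h3 hb hm) (norm16 h16) H (by rw [okL_b hc]; exact huv) ?_ ?_ ?_ ?_
  · rw [e1]; exact F _ _ _ _ rfl rfl
  · rw [e2]; exact F _ _ _ _ (by simp) (by simp)
  · rw [e3]; exact F _ _ _ _ (by simp) (by simp)
  · rw [e6]; exact F _ _ _ _ (by simp) (by simp)

theorem padic_two (hc : c.Ok) (h3 : 3 < p) (hb : ¬ (p : ℤ) ∣ 3 * c.b) (hm : ¬ (p : ℤ) ∣ c.m)
    (h16 : ¬ (p : ℤ) ∣ c.m + 16) (l3 : legendreSym p 3 = sgn c.s2)
    (lb : legendreSym p c.b = sgn c.t2) (huv : u ^ 2 + 3 * c.b * v ^ 2 = 2 * p) :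
    ‖ZK p c.m - (2 * (u : PadicAlgCl p) ^ 2 - 2 * p)‖ ≤ ‖(p : PadicAlgCl p)‖ ^ 2 := by
  obtain ⟨w, s, x, x2, x3, x6, H, P, e1, e2, e3, e6, F⟩ := exists_data (p := p) hc h3 l3 lb
  refine K_two (primeOk hc h3 hb hm) (norm16 h16) H (by rw [okL_b hc]; exact huv) ?_ ?_ ?_ ?_
  · rw [e1, e2]; exact F _ _ _ _ (by simp) (by simp)
  · rw [e1, e2]; exact F _ _ _ _ (by simp) (by simp)
  · rw [e3, e6]; exact F _ _ _ _ rfl rfl
  · rw [e3, e6]
    exact F _ _ _ _ (by cases c.s2 <;> cases c.s3 <;> rfl) (by cases c.t2 <;> cases c.t3 <;> rfl)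

theorem padic_three (hc : c.Ok) (h3 : 3 < p) (hb : ¬ (p : ℤ) ∣ 3 * c.b) (hm : ¬ (p : ℤ) ∣ c.m)
    (h16 : ¬ (p : ℤ) ∣ c.m + 16) (l3 : legendreSym p 3 = sgn c.s3)
    (lb : legendreSym p c.b = sgn c.t3) (huv : 3 * u ^ 2 + c.b * v ^ 2 = p) :
    ‖ZK p c.m - (2 * p - 12 * (u : PadicAlgCl p) ^ 2)‖ ≤ ‖(p : PadicAlgCl p)‖ ^ 2 := by
  obtain ⟨w, s, x, x2, x3, x6, H, P, e1, e2, e3, e6, F⟩ := exists_data (p := p) hc h3 l3 lb
  refine K_three (primeOk hc h3 hb hm) (norm16 h16) H (by rw [okL_b hc]; exact huv) ?_ ?_ ?_ ?_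
  · rw [e1, e3]; exact F _ _ _ _ (by simp) (by simp)
  · rw [e2, e6]
    exact F _ _ _ _ (by cases c.s2 <;> cases c.s3 <;> rfl) (by cases c.t2 <;> cases c.t3 <;> rfl)
  · rw [e1, e3]; exact F _ _ _ _ (by simp) (by simp)
  · rw [e2, e6]
    exact F _ _ _ _ (by cases c.s2 <;> cases c.s3 <;> rfl) (by cases c.t2 <;> cases c.t3 <;> rfl)

theorem padic_six (hc : c.Ok) (h3 : 3 < p) (hb : ¬ (p : ℤ) ∣ 3 * c.b) (hm : ¬ (p : ℤ) ∣ c.m)
    (h16 : ¬ (p : ℤ) ∣ c.m + 16) (l3 : legendreSym p 3 = sgn (xor c.s2 c.s3))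
    (lb : legendreSym p c.b = sgn (xor c.t2 c.t3)) (huv : 3 * u ^ 2 + c.b * v ^ 2 = 2 * p) :
    ‖ZK p c.m - (2 * p - 6 * (u : PadicAlgCl p) ^ 2)‖ ≤ ‖(p : PadicAlgCl p)‖ ^ 2 := by
  obtain ⟨w, s, x, x2, x3, x6, H, P, e1, e2, e3, e6, F⟩ := exists_data (p := p) hc h3 l3 lb
  refine K_six (primeOk hc h3 hb hm) (norm16 h16) H (by rw [okL_b hc]; exact huv) ?_ ?_ ?_ ?_
  · rw [e1, e6]
    exact F _ _ _ _ (by cases c.s2 <;> cases c.s3 <;> rfl) (by cases c.t2 <;> cases c.t3 <;> rfl)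
  · rw [e2, e3]
    exact F _ _ _ _ (by cases c.s2 <;> cases c.s3 <;> rfl) (by cases c.t2 <;> cases c.t3 <;> rfl)
  · rw [e2, e3]
    exact F _ _ _ _ (by cases c.s2 <;> cases c.s3 <;> rfl) (by cases c.t2 <;> cases c.t3 <;> rfl)
  · rw [e1, e6]
    exact F _ _ _ _ (by cases c.s2 <;> cases c.s3 <;> rfl) (by cases c.t2 <;> cases c.t3 <;> rfl)

theorem padic_inert (hc : c.Ok) (h3 : 3 < p) (hb : ¬ (p : ℤ) ∣ 3 * c.b) (hm : ¬ (p : ℤ) ∣ c.m)
    (l : legendreSym p (-3 * c.b) = -1) : ‖ZK p c.m‖ ≤ ‖(p : PadicAlgCl p)‖ ^ 2 := by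
  obtain ⟨q4, h4⟩ := exists_four (K := PadicAlgCl p) (norm_two_padic h3)
  obtain ⟨i, hi⟩ := exists_sqrt_OK (p := p) (-1)
  obtain ⟨r, hr⟩ := exists_sqrt_OK (p := p) 3
  obtain ⟨t, ht⟩ := exists_sqrt_OK (p := p) (c.b : OK (PadicAlgCl p))
  have hS : ((p : ℕ) : Rq (PadicAlgCl p) p 1) = 0 := rd_p_one
  have H := CertD.full hc (norm_two_padic h3) h4 hi hr ht
  refine K_inert (primeOk hc h3 hb hm) H.d1 ?_
  have e : (rd (PadicAlgCl p) p 1 (i * r * t)) ^ 2 =
      ((-3 * (c.b : ℤ) : ℤ) : Rq (PadicAlgCl p) p 1) := by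
    rw [← map_pow, show (i * r * t) ^ 2 = i ^ 2 * r ^ 2 * t ^ 2 by ring, hi, hr, ht]
    simp [map_ofNat]
  rw [frob_sqrt (by omega) hS e, l]
  simp

end Pool.Agent.Lib.MP_afcc06_nt
end
end
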