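import Mathlib

/-!
# Computable arithmetic in `ℤ[i, √3, √b]` and in the polynomials over it
-/

set_option autoImplicit false

namespace Pool.Agent.Lib.MP_afcc06_nt

/-- The coefficients of `1, i, r3, i r3, rb, i rb, r3 rb, i r3 rb`. -/
structure Z8 where
  /-- coefficient of `1` -/
  a0 : ℤ
  /-- coefficient of `i` -/
  a1 : ℤ
  /-- coefficient of `r3` -/
  a2 : ℤ
  /-- coefficient of `i r3` -/
  a3 : ℤ
  /-- coefficient of `rb` -/
  a4 : ℤ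
  /-- coefficient of `i rb` -/
  a5 : ℤ
  /-- coefficient of `r3 rb` -/
  a6 : ℤ
  /-- coefficient of `i r3 rb` -/
  a7 : ℤ

namespace Z8

/-- zero -/
def zero : Z8 := ⟨0, 0, 0, 0, 0, 0, 0, 0⟩

/-- sum -/
def add : Z8 → Z8 → Z8
  | ⟨x0, x1, x2, x3, x4, x5, x6, x7⟩, ⟨y0, y1, y2, y3, y4, y5, y6, y7⟩ =>
    ⟨x0 + y0, x1 + y1, x2 + y2, x3 + y3, x4 + y4, x5 + y5, x6 + y6, x7 + y7⟩

/-- integer multiple -/
def smul (n : ℤ) : Z8 → Z8
  | ⟨x0, x1, x2, x3, x4, x5, x6, x7⟩ =>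
    ⟨n * x0, n * x1, n * x2, n * x3, n * x4, n * x5, n * x6, n * x7⟩

/-- product -/
def mul (b : ℤ) : Z8 → Z8 → Z8
  | ⟨x0, x1, x2, x3, x4, x5, x6, x7⟩, ⟨y0, y1, y2, y3, y4, y5, y6, y7⟩ =>
    ⟨x0 * y0 - x1 * y1 + 3 * (x2 * y2 - x3 * y3) +
        b * (x4 * y4 - x5 * y5 + 3 * (x6 * y6 - x7 * y7)),
      x0 * y1 + x1 * y0 + 3 * (x2 * y3 + x3 * y2) +
        b * (x4 * y5 + x5 * y4 + 3 * (x6 * y7 + x7 * y6)),
      x0 * y2 + x2 * y0 - x1 * y3 - x3 * y1 + b * (x4 * y6 + x6 * y4 - x5 * y7 - x7 * y5),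
      x0 * y3 + x3 * y0 + x1 * y2 + x2 * y1 + b * (x4 * y7 + x7 * y4 + x5 * y6 + x6 * y5),
      x0 * y4 + x4 * y0 - x1 * y5 - x5 * y1 + 3 * (x2 * y6 + x6 * y2 - x3 * y7 - x7 * y3),
      x0 * y5 + x5 * y0 + x1 * y4 + x4 * y1 + 3 * (x2 * y7 + x7 * y2 + x3 * y6 + x6 * y3),
      x0 * y6 + x6 * y0 + x2 * y4 + x4 * y2 - x1 * y7 - x7 * y1 - x3 * y5 - x5 * y3,
      x0 * y7 + x7 * y0 + x1 * y6 + x6 * y1 + x2 * y5 + x5 * y2 + x3 * y4 + x4 * y3⟩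

/-- test for zero -/
def isZ : Z8 → Bool
  | ⟨x0, x1, x2, x3, x4, x5, x6, x7⟩ =>
    (x0 == 0) && (x1 == 0) && (x2 == 0) && (x3 == 0) && (x4 == 0) && (x5 == 0) && (x6 == 0) &&
      (x7 == 0)

end Z8

/-- sum of polynomials -/
def addP : List Z8 → List Z8 → List Z8
  | [], m => m
  | l, [] => l
  | a :: l, c :: m => a.add c :: addP l m

/-- integer multiple of a polynomial -/
def smulP (n : ℤ) (l : List Z8) : List Z8 := l.map (Z8.smul n)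

/-- product of polynomials -/
def mulP (b : ℤ) : List Z8 → List Z8 → List Z8
  | [], _ => []
  | a :: l, m => addP (m.map (Z8.mul b a)) (Z8.zero :: mulP b l m)

/-- helper for the derivative -/
def derAux : ℤ → List Z8 → List Z8
  | _, [] => []
  | n, a :: l => a.smul n :: derAux (n + 1) l

/-- derivative of a polynomial -/
def derP : List Z8 → List Z8
  | [] => []
  | _ :: l => derAux 1 l

/-- The certificate: with `N, D` twice the polynomials of the isogeny,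
`4 W^2 (1 + a1 u + b1 u^2) = l^2 (D^4 + a2 u N^2 D^2 + b2 u^2 N^4)`, `W = N D + 2 u (N' D - N D')`. -/
def chk (b : ℤ) (N D : List Z8) (l a1 b1 a2 b2 : Z8) : Bool :=
  let W := addP (mulP b N D) (Z8.zero :: smulP 2 (addP (mulP b (derP N) D)
    (smulP (-1) (mulP b N (derP D)))))
  let lhs := mulP b (mulP b W W) [⟨4, 0, 0, 0, 0, 0, 0, 0⟩, a1.smul 4, b1.smul 4]
  let P := mulP b D D
  let Q := mulP b N N
  let rhs := addP (mulP b P P) (addP (Z8.zero :: mulP b [a2] (mulP b P Q))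
    (Z8.zero :: Z8.zero :: mulP b [b2] (mulP b Q Q)))
  (addP lhs (smulP (-1) (mulP b [l.mul b l] rhs))).all Z8.isZ

end Pool.Agent.Lib.MP_afcc06_nt
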