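import Pool.Agent.Lib.MP_afcc06_nt.Z8

/-!
# Z8Sound: evaluation of the computable polynomials

`i^2 = -1`, `r^2 = 3`, `t^2 = b` in a commutative ring. `ev_mul`: expand, `linear_combination`. `evP_*`: induction on the lists
(`evP_der`: first `evP (derAux n l) = n * evP l + X * derivative (evP l)`, `evP (a :: l) = C (ev a) + X * evP l`).
`chk_sound`: unfold `chk`, all entries of the last list evaluate to zero.
-/

set_option autoImplicit false

namespace Pool.Agent.Lib.MP_afcc06_nt

open Polynomial

variable {S : Type*} [CommRing S] {i r t : S} {b : ℤ}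

/-- Evaluation in a ring with square roots `i, r, t` of `-1, 3, b`. -/
def ev (i r t : S) : Z8 → S
  | ⟨a0, a1, a2, a3, a4, a5, a6, a7⟩ =>
    a0 + a1 * i + a2 * r + a3 * (i * r) + a4 * t + a5 * (i * t) + a6 * (r * t) + a7 * (i * r * t)

/-- Evaluation of polynomials. -/
noncomputable def evP (i r t : S) : List Z8 → S[X]
  | [] => 0
  | a :: l => C (ev i r t a) + X * evP i r t l

theorem ev_add (x y : Z8) : ev i r t (x.add y) = ev i r t x + ev i r t y := by
  obtain ⟨x0, x1, x2, x3, x4, x5, x6, x7⟩ := x
  obtain ⟨y0, y1, y2, y3, y4, y5, y6, y7⟩ := y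
  simp only [Z8.add, ev]
  push_cast
  ring

theorem ev_smul (n : ℤ) (x : Z8) : ev i r t (x.smul n) = n * ev i r t x := by
  obtain ⟨x0, x1, x2, x3, x4, x5, x6, x7⟩ := x
  simp only [Z8.smul, ev]
  push_cast
  ring

theorem ev_mul (hi : i ^ 2 = -1) (hr : r ^ 2 = 3) (ht : t ^ 2 = b) (x y : Z8) :
    ev i r t (x.mul b y) = ev i r t x * ev i r t y := by
  obtain ⟨x0, x1, x2, x3, x4, x5, x6, x7⟩ := x
  obtain ⟨y0, y1, y2, y3, y4, y5, y6, y7⟩ := y
  simp only [Z8.mul, ev]
  push_cast
  rw [← ht, ← hr]
  linear_combination (-((x1 + r * x3 + t * x5 + r * t * x7) *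
    (y1 + r * y3 + t * y5 + r * t * y7) : S)) * hi

private theorem ev_zero : ev i r t Z8.zero = 0 := by
  simp [Z8.zero, ev]

theorem evP_add (l m : List Z8) : evP i r t (addP l m) = evP i r t l + evP i r t m := by
  induction l generalizing m with
  | nil => simp [addP, evP]
  | cons a l ih =>
    cases m with
    | nil => simp [addP, evP]
    | cons c m =>
      simp only [addP, evP, ev_add, ih, map_add]
      ring

theorem evP_smul (n : ℤ) (l : List Z8) : evP i r t (smulP n l) = C (n : S) * evP i r t l := by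
  induction l with
  | nil => simp [smulP, evP]
  | cons a l ih =>
    have e : smulP n (a :: l) = a.smul n :: smulP n l := by simp [smulP]
    rw [e]
    simp only [evP, ev_smul, ih, map_mul]
    ring

private theorem evP_mapMul (hi : i ^ 2 = -1) (hr : r ^ 2 = 3) (ht : t ^ 2 = b) (a : Z8)
    (l : List Z8) : evP i r t (l.map (Z8.mul b a)) = C (ev i r t a) * evP i r t l := by
  induction l with
  | nil => simp [evP]
  | cons c l ih =>
    simp only [List.map_cons, evP, ev_mul hi hr ht, ih, map_mul]
    ring

theorem evP_mul (hi : i ^ 2 = -1) (hr : r ^ 2 = 3) (ht : t ^ 2 = b) (l m : List Z8) :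
    evP i r t (mulP b l m) = evP i r t l * evP i r t m := by
  induction l with
  | nil => simp [mulP, evP]
  | cons a l ih =>
    simp only [mulP, evP_add, evP, evP_mapMul hi hr ht, ih, ev_zero, map_zero]
    ring

private theorem evP_derAux (n : ℤ) (l : List Z8) : evP i r t (derAux n l) =
    C (n : S) * evP i r t l + X * derivative (evP i r t l) := by
  induction l generalizing n with
  | nil => simp [derAux, evP]
  | cons a l ih =>
    simp only [derAux, evP, ih, ev_smul, map_mul, derivative_add, derivative_C, derivative_mul,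
      derivative_X]
    push_cast
    simp only [map_add, map_one]
    ring

theorem evP_der (l : List Z8) : evP i r t (derP l) = derivative (evP i r t l) := by
  cases l with
  | nil => simp [derP, evP]
  | cons a l =>
    simp only [derP, evP, evP_derAux, derivative_add, derivative_C, derivative_mul,
      derivative_X]
    push_cast
    simp only [map_one]
    ring

theorem evP_coeff (l : List Z8) (j : ℕ) : (evP i r t l).coeff j = ev i r t (l.getD j Z8.zero) := by
  induction l generalizing j with
  | nil => simp [evP, ev_zero]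
  | cons a l ih =>
    cases j with
    | zero => simp [evP]
    | succ j => simp [evP, ih]

theorem evP_natDegree (l : List Z8) : (evP i r t l).natDegree ≤ l.length - 1 := by
  refine natDegree_le_iff_coeff_eq_zero.2 ?_
  intro N hN
  rw [evP_coeff, List.getD_eq_default _ _ (by omega), ev_zero]

private theorem evP_all {l : List Z8} (h : l.all Z8.isZ = true) : evP i r t l = 0 := by
  induction l with
  | nil => simp [evP]
  | cons a l ih =>
    rw [List.all_cons, Bool.and_eq_true] at h
    obtain ⟨a0, a1, a2, a3, a4, a5, a6, a7⟩ := a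
    have h1 := h.1
    simp only [Z8.isZ, Bool.and_eq_true, beq_iff_eq] at h1
    obtain ⟨⟨⟨⟨⟨⟨⟨e0, e1⟩, e2⟩, e3⟩, e4⟩, e5⟩, e6⟩, e7⟩ := h1
    subst e0 e1 e2 e3 e4 e5 e6 e7
    simp [evP, ev, ih h.2]

theorem chk_sound (hi : i ^ 2 = -1) (hr : r ^ 2 = 3) (ht : t ^ 2 = b) {N D : List Z8}
    {l a1 b1 a2 b2 : Z8} (h : chk b N D l a1 b1 a2 b2 = true) :
    4 * ((evP i r t N * evP i r t D + 2 * X * (derivative (evP i r t N) * evP i r t D -
        evP i r t N * derivative (evP i r t D))) ^ 2 *
      (1 + C (ev i r t a1) * X + C (ev i r t b1) * X ^ 2)) =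
    C (ev i r t l) ^ 2 * (evP i r t D ^ 4 + C (ev i r t a2) * X * evP i r t N ^ 2 * evP i r t D ^ 2 +
      C (ev i r t b2) * X ^ 2 * evP i r t N ^ 4) := by
  have h0 := evP_all (i := i) (r := r) (t := t) h
  have e4 : ev i r t ⟨4, 0, 0, 0, 0, 0, 0, 0⟩ = 4 := by simp [ev]
  simp only [evP_add, evP_smul, evP_mul hi hr ht, evP, ev_mul hi hr ht, ev_smul, evP_der, e4,
    ev_zero, map_zero, map_mul] at h0
  push_cast at h0
  simp only [map_neg, map_one, map_ofNat] at h0
  linear_combination h0

end Pool.Agent.Lib.MP_afcc06_nt
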